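import Pool.Agent.K6.H16.TF.Main
import Pool.Agent.Y159.PepsScale

/-!
# Ferromagnetic transverse field Ising models: consequences of the bound on the partition
function (seat helper16)
-/

set_option autoImplicit false

open scoped BigOperators Matrix Topology
open Finset Filter
open Pool.Agent.TH235.PP Pool.Agent.Results.MP_953b23_mp.ThermalCriterion
open Pool.Agent.Results.MP_953b23_mp.OverlapBoosting

namespace Pool.Agent.K6.H16.TF.Concl

/-- the bound on the partition function -/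
def PB : Prop :=
  ∀ {R : ℕ} (J : Fin R × Fin R → Fin R × Fin R → ℝ) (g : Fin R × Fin R → ℝ),
    (∀ x y, 0 ≤ J x y) → (∀ x, 0 ≤ g x) → ∀ (L : ℕ) [NeZero L], R ≤ L → ∀ (Δ : ℝ), 0 < Δ →
    ∀ (ψ : (Site L → Fin 2) → ℂ), normSq ψ = 1 →
    IsGappedGround (ham (tfi J g) L) Δ ψ → ∀ (hH : (ham (tfi J g) L).IsHermitian) (β : ℝ),
    0 < β →
    partition hH (energy (ham (tfi J g) L) ψ) β ≤
      Real.exp (8 * (L : ℝ) ^ 8 * Real.exp (-(Δ * β / 2)))

/-- at inverse temperature `(16 / Δ) log L` the partition function is at most `e ^ 8` -/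
theorem part_le (h : PB) {R : ℕ} (J : Fin R × Fin R → Fin R × Fin R → ℝ) (g : Fin R × Fin R → ℝ)
    (hJ : ∀ x y, 0 ≤ J x y) (hg : ∀ x, 0 ≤ g x) (L : ℕ) [NeZero L] (hRL : R ≤ L) (hL : 2 ≤ L)
    (Δ : ℝ) (hΔ : 0 < Δ) (ψ : (Site L → Fin 2) → ℂ) (hψ : normSq ψ = 1)
    (hgr : IsGappedGround (ham (tfi J g) L) Δ ψ) (hH : (ham (tfi J g) L).IsHermitian) :
    partition hH (energy (ham (tfi J g) L) ψ) (16 / Δ * Real.log L) ≤ Real.exp 8 := by
  have hL1 : (1 : ℝ) < L := by exact_mod_cast (by omega : 1 < L)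
  have hlog : 0 < Real.log L := Real.log_pos hL1
  have h1 := h J g hJ hg L hRL Δ hΔ ψ hψ hgr hH (16 / Δ * Real.log L) (by positivity)
  refine h1.trans (Real.exp_le_exp.2 (le_of_eq ?_))
  have e1 : Δ * (16 / Δ * Real.log L) / 2 = Real.log L * 8 := by field_simp; ring
  rw [e1, Real.exp_neg, Real.exp_mul, Real.exp_log (by linarith)]
  have e2 : ((L : ℝ) ^ (8 : ℝ)) = (L : ℝ) ^ 8 := by
    rw [← Real.rpow_natCast]
    norm_num
  rw [e2]
  have h3 : (L : ℝ) ^ 8 ≠ 0 := by positivity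
  field_simp

/-- few eigenvalues -/
theorem states_le (h : PB) {R : ℕ} (J : Fin R × Fin R → Fin R × Fin R → ℝ)
    (g : Fin R × Fin R → ℝ)
    (hJ : ∀ x y, 0 ≤ J x y) (hg : ∀ x, 0 ≤ g x) (L : ℕ) [NeZero L] (hRL : R ≤ L) (hL : 2 ≤ L)
    (Δ : ℝ) (hΔ : 0 < Δ) (ψ : (Site L → Fin 2) → ℂ) (hψ : normSq ψ = 1)
    (hgr : IsGappedGround (ham (tfi J g) L) Δ ψ) (hH : (ham (tfi J g) L).IsHermitian) (m : ℝ) :
    (numStates hH (energy (ham (tfi J g) L) ψ + m) : ℝ) ≤
      Real.exp 8 * (L : ℝ) ^ (16 * m / Δ) := by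
  have hL1 : (1 : ℝ) < L := by exact_mod_cast (by omega : 1 < L)
  have hlog : 0 < Real.log L := Real.log_pos hL1
  have h1 := part_le h J g hJ hg L hRL hL Δ hΔ ψ hψ hgr hH
  set β := 16 / Δ * Real.log L with hβ
  have hβ0 : 0 < β := by positivity
  set E₀ := energy (ham (tfi J g) L) ψ with hE₀
  have h2 : (numStates hH (E₀ + m) : ℝ) ≤ Real.exp (β * m) * partition hH E₀ β := by
    unfold numStates partition
    rw [Finset.mul_sum, Finset.card_eq_sum_ones]
    push_cast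
    calc ∑ j ∈ univ.filter (fun j => hH.eigenvalues j ≤ E₀ + m), (1 : ℝ)
        ≤ ∑ j ∈ univ.filter (fun j => hH.eigenvalues j ≤ E₀ + m),
            Real.exp (β * m) * Real.exp (-(β * (hH.eigenvalues j - E₀))) := by
          refine Finset.sum_le_sum fun j hj => ?_
          rw [← Real.exp_add]
          apply Real.one_le_exp
          have h3 := (Finset.mem_filter.1 hj).2
          nlinarith
      _ ≤ _ := by
          refine Finset.sum_le_sum_of_subset_of_nonneg (Finset.filter_subset _ _) ?_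
          intro j _ _
          positivity
  refine h2.trans ?_
  rw [mul_comm (Real.exp 8)]
  refine mul_le_mul (le_of_eq ?_) h1 ?_ (by positivity)
  · rw [Real.rpow_def_of_pos (by linarith)]
    congr 1
    rw [hβ]
    field_simp
  · unfold partition
    exact Finset.sum_nonneg fun j _ => (Real.exp_pos _).le

/-- the bond dimension is polynomial in `L / ε` -/
theorem bond (h : PB) {R : ℕ} (J : Fin (R + 1) × Fin (R + 1) → Fin (R + 1) × Fin (R + 1) → ℝ)
    (g : Fin (R + 1) × Fin (R + 1) → ℝ)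
    (hJ : ∀ x y, 0 ≤ J x y) (hg : ∀ x, 0 ≤ g x) (hherm : (tfi J g).IsHermitian)
    (Δ : ℝ) (hΔ : 0 < Δ) :
    ∃ C : ℝ, 0 < C ∧ ∀ (L : ℕ) [NeZero L], 2 ≤ L → R + 1 ≤ L →
      ∀ Ψ : (Site L → Fin 2) → ℂ, normSq Ψ = 1 → IsGappedGround (ham (tfi J g) L) Δ Ψ →
      ∀ ε : ℝ, 0 < ε → ε ≤ 1 →
      ∃ (D : ℕ) (ψ : (Site L → Fin 2) → ℂ),
        (D : ℝ) ≤ ((L : ℝ) / ε) ^ C ∧ IsPEPS D ψ ∧ Real.sqrt (normSq (ψ - Ψ)) ≤ ε := by
  obtain ⟨C, hC, hb⟩ := Pool.Agent.Y159.PepsScale.boundZ 2 R (tfi J g) hherm Δ hΔ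
  refine ⟨(16 / Δ + 13) * C, by positivity, ?_⟩
  intro L _ hL hRL Ψ hΨ hgr ε hε hε1
  have hL1 : (1 : ℝ) < L := by exact_mod_cast (by omega : 1 < L)
  have hL2 : (2 : ℝ) ≤ L := by exact_mod_cast hL
  have hlog : 0 < Real.log L := Real.log_pos hL1
  have hH : (ham (tfi J g) L).IsHermitian := ham_herm _ hherm
  obtain ⟨D, ψ, hD, hP, herr⟩ := hb L hL hRL Ψ hΨ hgr hH (16 / Δ * Real.log L) ε
    (by positivity) hε hε1
  refine ⟨D, ψ, hD.trans ?_, hP, herr⟩
  have h1 := part_le h J g hJ hg L hRL hL Δ hΔ Ψ hΨ hgr hH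
  rw [Real.rpow_mul (by positivity)]
  refine Real.rpow_le_rpow ?_ ?_ hC.le
  · have : 0 ≤ partition hH (energy (ham (tfi J g) L) Ψ) (16 / Δ * Real.log L) := by
      unfold partition
      exact Finset.sum_nonneg fun j _ => (Real.exp_pos _).le
    positivity
  · have e1 : Real.exp (16 / Δ * Real.log L) = (L : ℝ) ^ (16 / Δ) := by
      rw [Real.rpow_def_of_pos (by linarith), mul_comm]
    have e8 : Real.exp 8 ≤ (L : ℝ) ^ (12 : ℝ) := by
      have h3 : Real.exp 8 ≤ (2 : ℝ) ^ (12 : ℝ) := by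
        have h4 := Real.exp_one_lt_d9
        have h5 : Real.exp 8 = Real.exp 1 ^ 8 := by rw [← Real.exp_nat_mul]; norm_num
        have h6 : ((2 : ℝ) ^ (12 : ℝ)) = 4096 := by
          rw [show (12 : ℝ) = ((12 : ℕ) : ℝ) by norm_num, Real.rpow_natCast]
          norm_num
        rw [h5, h6]
        calc Real.exp 1 ^ 8 ≤ (2.7182818286 : ℝ) ^ 8 :=
              pow_le_pow_left₀ (Real.exp_pos 1).le h4.le 8
          _ ≤ 4096 := by norm_num
      exact h3.trans (Real.rpow_le_rpow (by norm_num) hL2 (by norm_num))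
    have hε' : 1 ≤ 1 / ε := by rw [le_div_iff₀ hε]; linarith
    calc Real.exp (16 / Δ * Real.log L) * L *
          partition hH (energy (ham (tfi J g) L) Ψ) (16 / Δ * Real.log L) / ε
        ≤ (L : ℝ) ^ (16 / Δ) * L * (L : ℝ) ^ (12 : ℝ) / ε := by
          rw [e1]
          gcongr
          exact h1.trans e8
      _ = (L : ℝ) ^ (16 / Δ + 13) * (1 / ε) := by
          rw [show (16 / Δ + 13 : ℝ) = 16 / Δ + 1 + 12 by ring, Real.rpow_add (by linarith),
            Real.rpow_add (by linarith), Real.rpow_one]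
          ring
      _ ≤ (L : ℝ) ^ (16 / Δ + 13) * (1 / ε) ^ (16 / Δ + 13) := by
          gcongr
          nth_rewrite 1 [← Real.rpow_one (1 / ε)]
          apply Real.rpow_le_rpow_of_exponent_le hε'
          have : 0 < 16 / Δ := by positivity
          linarith
      _ = ((L : ℝ) / ε) ^ (16 / Δ + 13) := by
          rw [← Real.mul_rpow (by positivity) (by positivity)]
          congr 1
          ring

/-- gapped families -/
theorem family (h : PB) {R : ℕ} (J : Fin R × Fin R → Fin R × Fin R → ℝ)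
    (g : Fin R × Fin R → ℝ) (hJ : ∀ x y, 0 ≤ J x y) (hg : ∀ x, 0 ≤ g x)
    (Δ : ℝ) (Ψ : ∀ L : ℕ, (Site L → Fin 2) → ℂ) (hF : GappedFamily (tfi J g) Δ Ψ) (c : ℝ)
    (hc : 0 < c) : ∃ C : ℝ, Approx Ψ 1 C fun L => (L : ℝ) ^ (-c) := by
  have hΔ := hF.gap_pos
  obtain ⟨L₁, hL₁⟩ := hF.ground
  have hS : SmallPartition (tfi J g) Ψ 1 (16 / Δ + 8) := by
    refine ⟨max 3 (max R L₁), ?_⟩
    intro L _ hL hH
    have hL3 : 3 ≤ L := (le_max_left _ _).trans hL
    have hRL : R ≤ L := ((le_max_left _ _).trans (le_max_right _ _)).trans hL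
    have hLL : L₁ ≤ L := ((le_max_right _ _).trans (le_max_right _ _)).trans hL
    obtain ⟨hn, hgr⟩ := hL₁ L hLL
    have hl1 := log_ge_one hL3
    have hd : 0 < 16 / Δ := by positivity
    refine ⟨16 / Δ * Real.log L, by positivity, ?_, ?_⟩
    · rw [pow_one]
      nlinarith
    · refine (part_le h J g hJ hg L hRL (by omega) Δ hΔ (Ψ L) hn hgr hH).trans
        (Real.exp_le_exp.2 ?_)
      rw [pow_one]
      nlinarith
  exact Pool.Agent.Y159.PepsScale.thermK hF 1 le_rfl hS c hc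

end Pool.Agent.K6.H16.TF.Concl
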