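import Pool.Agent.K6.H16.TF.Stm

/-!
# Ferromagnetic transverse field Ising models with a longitudinal field: statements of the pieces
(seat helper16)

The Lee-Yang theorem, an analytic logarithm of the partition function in the half plane `0 < Re z`
and the theorem of Phragmen and Lindelöf bound `Tr exp (β (N - μ₀))`, where `N` is minus the
Hamiltonian with the field `h > 0` and `μ₀` its largest eigenvalue.
-/

set_option autoImplicit false

open scoped BigOperators Matrix Topology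
open Finset Filter Pool.Agent.TH981.LO

namespace Pool.Agent.K6.H16.TF

/-- complex matrices indexed by spin configurations -/
abbrev MxC (V : Type) : Type := Matrix (Cf V) (Cf V) ℂ

section defs

variable {V ι : Type} [Fintype V] [DecidableEq V] [Fintype ι]

/-- the total spin of a configuration -/
noncomputable def mg (s : Cf V) : ℝ := ∑ v, sgn (s v)

/-- the matrix `∑ v, Z_v` -/
noncomputable def mz : Mx V := Matrix.diagonal mg

/-- minus the Hamiltonian with the real field `h` -/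
noncomputable def hf (p q : ι → V) (J : ι → ℝ) (Γ h : ℝ) : Mx V := hm p q J Γ + h • mz

/-- minus the Hamiltonian with the complex field `z` -/
noncomputable def hz (p q : ι → V) (J : ι → ℝ) (Γ : ℝ) (z : ℂ) : MxC V :=
  (hm p q J Γ).map (fun r : ℝ => (r : ℂ)) + z • (mz (V := V)).map (fun r : ℝ => (r : ℂ))

/-- the partition function with the complex field `z` -/
noncomputable def fz (p q : ι → V) (J : ι → ℝ) (Γ β : ℝ) (z : ℂ) : ℂ :=
  (NormedSpace.exp ((β : ℂ) • hz p q J Γ z)).trace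

/-- the partition function with the real field `h` -/
noncomputable def fr (p q : ι → V) (J : ι → ℝ) (Γ β h : ℝ) : ℝ :=
  (NormedSpace.exp (β • hf p q J Γ h)).trace

/-- the step matrix with the complex field `z` -/
noncomputable def stz (p q : ι → V) (x : ι → ℝ) (y : ℝ) (z : ℂ) : MxC V := fun s t =>
  Complex.exp (z * mg s / 2) * (stp p q x y s t : ℂ) * Complex.exp (z * mg t / 2)

/-- the normalising factor of the step matrix -/
noncomputable def cst (V : Type) [Fintype V] (J : ι → ℝ) (Γ ε : ℝ) : ℝ :=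
  (∏ i, Real.cosh (ε * J i / 2) ^ 2) * (Real.exp (ε * Γ) / 2) ^ Fintype.card V

/-- the constant `∑ i, J i + Γ |V|` -/
noncomputable def cc (V : Type) [Fintype V] (J : ι → ℝ) (Γ : ℝ) : ℝ :=
  ∑ i, J i + Γ * Fintype.card V

end defs

/-- LYC: the theorem of Lee and Yang for Ising models with ferromagnetic pair interactions -/
def S_LYC : Prop :=
  ∀ {V E : Type} [Fintype V] [DecidableEq V] [DecidableEq E] (G : MG V E) (w : E → ℝ)
    (F : Finset E) (t : V → ℂ), (∀ e ∈ F, 0 ≤ w e ∧ w e ≤ 1) → (∀ v, ‖t v‖ < 1) →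
    ∑ σ : V → Fin 2, ((∏ e ∈ F, (1 + w e * (sgn (σ (G.s e)) * sgn (σ (G.t e)))) : ℝ) : ℂ) *
      ∏ v, (if σ v = 0 then 1 else t v) ≠ 0

/-- CHC: the trace of a power is a sum over closed chains -/
def S_CHC : Prop :=
  ∀ {α : Type} [Fintype α] [DecidableEq α] (S : Matrix α α ℂ) (n : ℕ),
    (S ^ n).trace = ∑ L : Fin (n + 1) → α, (if L 0 = L (Fin.last n) then (1 : ℂ) else 0) *
      ∏ k : Fin n, S (L k.castSucc) (L k.succ)

/-- LYT: the discretised partition function has no zeros -/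
def S_LYT : Prop :=
  ∀ {V ι : Type} [Fintype V] [DecidableEq V] [Fintype ι] [DecidableEq ι] (p q : ι → V)
    (x : ι → ℝ) (y : ℝ) (n : ℕ) (z : ℂ), (∀ i, 0 ≤ x i ∧ x i ≤ 1) → 0 ≤ y → y ≤ 1 → 1 ≤ n →
    0 < z.re → (stz p q x y z ^ n).trace ≠ 0

/-- CHERNC: powers of complex matrices close to one -/
def S_CHERNC : Prop :=
  ∀ {α : Type} [Fintype α] [DecidableEq α] (F : ℝ → Matrix α α ℂ) (X : Matrix α α ℂ) (τ : ℝ),
    F 0 = 1 → (∀ s t, HasDerivAt (fun ε => F ε s t) (X s t) 0) →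
    Tendsto (fun n : ℕ => F (τ / n) ^ n) atTop (𝓝 (NormedSpace.exp ((τ : ℂ) • X)))

/-- STPZ: the normalised step matrix with a field and its derivative at `ε = 0` -/
def S_STPZ : Prop :=
  ∀ {V ι : Type} [Fintype V] [DecidableEq V] [Fintype ι] [DecidableEq ι] (p q : ι → V)
    (J : ι → ℝ) (Γ : ℝ) (z : ℂ),
    ((cst V J Γ 0 : ℝ) : ℂ) • stz p q (fun i => Real.tanh (0 * J i / 2))
      (Real.exp (-(2 * 0 * Γ))) (((0 : ℝ) : ℂ) * z) = 1 ∧
    ∀ s t : Cf V, HasDerivAt (fun ε : ℝ =>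
      (((cst V J Γ ε : ℝ) : ℂ) • stz p q (fun i => Real.tanh (ε * J i / 2))
        (Real.exp (-(2 * ε * Γ))) ((ε : ℂ) * z)) s t)
      (hz p q J Γ z s t) 0

/-- TRN: the discretised partition functions and their limit -/
def S_TRN : Prop :=
  ∀ {V ι : Type} [Fintype V] [DecidableEq V] [Fintype ι] [DecidableEq ι] (p q : ι → V)
    (J : ι → ℝ) (Γ β : ℝ), (∀ i, 0 ≤ J i) → 0 ≤ Γ → 0 < β →
    ∃ fn : ℕ → ℂ → ℂ, (∀ n, Differentiable ℂ (fn n)) ∧ (∀ n z, 0 < z.re → fn n z ≠ 0) ∧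
      (∀ n z, 0 ≤ z.re →
        ‖fn n z‖ ≤ Real.exp (β * Fintype.card V * z.re) * ‖fn n 0‖) ∧
      (∀ (n : ℕ) (x : ℝ), 0 ≤ x → ∃ r : ℝ, 1 ≤ r ∧ fn n x = (r : ℂ)) ∧
      ∀ z, Tendsto (fun n => fn n z) atTop (𝓝 (fz p q J Γ β z))

/-- HAR: logarithms of functions without zeros in the half plane -/
def S_HAR : Prop :=
  ∀ (f : ℂ → ℂ) (a b : ℝ), DifferentiableOn ℂ f {z | 0 < z.re} →
    (∀ z, 0 < z.re → f z ≠ 0) → (∀ z, 0 < z.re → ‖f z‖ ≤ Real.exp (a + b * z.re)) →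
    (∀ x : ℝ, 0 < x → ∃ r : ℝ, 0 < r ∧ f x = (r : ℂ)) →
    ∃ g : ℂ → ℂ, DifferentiableOn ℂ g {z | 0 < z.re} ∧
      (∀ z, 0 < z.re → Complex.exp (g z) = f z) ∧
      (∀ x : ℝ, 0 < x → g x = ((Real.log (f x).re : ℝ) : ℂ)) ∧
      ∀ z, 0 < z.re → ‖(a : ℂ) + b * z - g z‖ ≤
        (a + b - Real.log (f 1).re) * ‖1 + z‖ ^ 2 / z.re

/-- LYQ: properties of the partition function -/
def S_LYQ : Prop :=
  ∀ {V ι : Type} [Fintype V] [DecidableEq V] [Fintype ι] [DecidableEq ι] (p q : ι → V)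
    (J : ι → ℝ) (Γ β : ℝ), (∀ i, 0 ≤ J i) → 0 ≤ Γ → 0 < β →
    Differentiable ℂ (fz p q J Γ β) ∧ (∀ z, 0 < z.re → fz p q J Γ β z ≠ 0) ∧
      (∀ z, 0 ≤ z.re →
        ‖fz p q J Γ β z‖ ≤ Real.exp (β * Fintype.card V * z.re) * ‖fz p q J Γ β 0‖) ∧
      (∀ x : ℝ, 0 ≤ x → 1 ≤ fr p q J Γ β x) ∧
      ∀ x : ℝ, fz p q J Γ β x = (fr p q J Γ β x : ℂ)

/-- EXB: the partition function without field -/
def S_EXB : Prop :=
  ∀ {V ι : Type} [Fintype V] [DecidableEq V] [Fintype ι] [DecidableEq ι] (p q : ι → V)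
    (J : ι → ℝ) (Γ β : ℝ), (∀ i, 0 ≤ J i) → 0 ≤ Γ → 0 ≤ β →
    ‖fz p q J Γ β 0‖ ≤ 2 ^ Fintype.card V * Real.exp (β * cc V J Γ)

/-- PLD: a consequence of the theorem of Phragmen and Lindelöf -/
def S_PLD : Prop :=
  ∀ (v : ℂ → ℂ) (K γ M η : ℝ), DifferentiableOn ℂ v {z | 0 < z.re} → 0 ≤ K → 0 ≤ γ → 0 < η →
    (∀ z, 0 < z.re → ‖v z‖ ≤ K * (1 + ‖z‖) ^ 2 / z.re) →
    (∀ x : ℝ, 0 < x → ‖v x‖ ≤ M * Real.exp (-(γ * x))) →
    ∀ h : ℝ, η ≤ h → ‖v h‖ ≤ 2 * K / η * (1 + h) ^ 2 * Real.exp (-(γ * (h - η)))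

/-- RBE: large real fields -/
def S_RBE : Prop :=
  ∀ {V ι : Type} [Fintype V] [DecidableEq V] [Fintype ι] [DecidableEq ι] (p q : ι → V)
    (J : ι → ℝ) (Γ β x : ℝ) (k : ℕ), (∀ i, 0 ≤ J i) → 0 ≤ Γ → 0 < β → 0 < x → 1 ≤ k →
    0 ≤ Real.log (fr p q J Γ β x) - Real.log (fr p q J Γ (k * β) x) / k ∧
    Real.log (fr p q J Γ β x) - Real.log (fr p q J Γ (k * β) x) / k ≤
      2 ^ Fintype.card V * Real.exp (-(β * (2 * x - 2 * cc V J Γ)))

/-- VKL: the bound for the difference of the logarithms of the partition functions -/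
def S_VKL : Prop :=
  ∀ {V ι : Type} [Fintype V] [DecidableEq V] [Fintype ι] [DecidableEq ι] (p q : ι → V)
    (J : ι → ℝ) (Γ β h η : ℝ) (k : ℕ), (∀ i, 0 ≤ J i) → 0 ≤ Γ → 0 < β → 0 < η → η ≤ h → 1 ≤ k →
    Real.log (fr p q J Γ β h) - Real.log (fr p q J Γ (k * β) h) / k ≤
      8 * (Fintype.card V + β * cc V J Γ + β * Fintype.card V) / η * (1 + h) ^ 2 *
        Real.exp (-(2 * β * (h - η)))

/-- TOP: the spectrum with a field `h > 0` -/
def S_TOP : Prop :=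
  ∀ {V ι : Type} [Fintype V] [DecidableEq V] [Fintype ι] [DecidableEq ι] (p q : ι → V)
    (J : ι → ℝ) (Γ h : ℝ) (hN : (hf p q J Γ h).IsHermitian), (∀ i, 0 ≤ J i) → 0 ≤ Γ → 0 < h →
    ∃ j₀ : Cf V, (∀ j, j ≠ j₀ → hN.eigenvalues j ≤ hN.eigenvalues j₀ - 2 * h) ∧
      ∀ β η : ℝ, 0 < β → 0 < η → η ≤ h →
        ∑ j, Real.exp (β * (hN.eigenvalues j - hN.eigenvalues j₀)) ≤
          Real.exp (8 * (Fintype.card V + β * cc V J Γ + β * Fintype.card V) / η * (1 + h) ^ 2 *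
            Real.exp (-(2 * β * (h - η))))

open Pool.Agent.TH235.PP Pool.Agent.Results.MP_953b23_mp.ThermalCriterion in
/-- SPF: a real symmetric matrix whose largest eigenvalue is simple -/
def S_SPF : Prop :=
  ∀ {n : Type} [Fintype n] [DecidableEq n] (N : Matrix n n ℝ) (hN : N.IsHermitian)
    (H : Matrix n n ℂ) (δ : ℝ) (hH : H.IsHermitian) (j₀ : n),
    H = (-N).map (fun r : ℝ => (r : ℂ)) → 0 < δ →
    (∀ j, j ≠ j₀ → hN.eigenvalues j ≤ hN.eigenvalues j₀ - δ) →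
    (∃ ψ : n → ℂ, normSq ψ = 1 ∧ IsGappedGround H δ ψ) ∧
    ∀ (ψ : n → ℂ) (Δ β : ℝ), normSq ψ = 1 → 0 < Δ → IsGappedGround H Δ ψ →
      partition hH (energy H ψ) β =
        ∑ j, Real.exp (β * (hN.eigenvalues j - hN.eigenvalues j₀))

/-- the interaction
`h = - ∑ x y, J x y Z_x Z_y - ∑ x, g x X_x - ∑ x, μ x Z_x` on the `R × R` box -/
noncomputable def tff {R : ℕ} (J : Fin R × Fin R → Fin R × Fin R → ℝ)
    (g μ : Fin R × Fin R → ℝ) : Pool.Agent.TH235.PP.BoxOp 2 R := fun s t =>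
  ((-((if s = t then ∑ x, ∑ y, J x y * (sgn (s x) * sgn (s y)) else 0) +
    (∑ x, if s x ≠ t x ∧ ∀ z, z ≠ x → s z = t z then g x else 0) +
    (if s = t then ∑ x, μ x * sgn (s x) else 0)) : ℝ) : ℂ)

open Pool.Agent.TH235.PP in
/-- BOXF: the Hamiltonian with a field on the torus -/
def S_BOXF : Prop :=
  ∀ {R : ℕ} (J : Fin R × Fin R → Fin R × Fin R → ℝ) (g μ : Fin R × Fin R → ℝ) (L : ℕ)
    [NeZero L], R ≤ L →
    ham (tff J g μ) L = (-(hf (V := Site L) (ι := Site L × (Fin R × Fin R) × (Fin R × Fin R))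
      (fun i => sh i.1 i.2.1) (fun i => sh i.1 i.2.2) (fun i => J i.2.1 i.2.2)
      (∑ x, g x) (∑ x, μ x))).map (fun r : ℝ => (r : ℂ)) ∧ (tff J g μ).IsHermitian

end Pool.Agent.K6.H16.TF
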