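import Pool.Agent.K6.H16.TF.Concl
import Pool.Agent.K6.H16.TF.StmF

/-!
# Ferromagnetic transverse field Ising models with a longitudinal field: consequences
(seat helper16)
-/

set_option autoImplicit false

open scoped BigOperators Matrix Topology
open Finset Filter
open Pool.Agent.TH235.PP Pool.Agent.Results.MP_953b23_mp.ThermalCriterion
open Pool.Agent.Results.MP_953b23_mp.OverlapBoosting

namespace Pool.Agent.K6.H16.TF.ConclF

/-- the partition function at the inverse temperature `b log L` is bounded -/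
def Gen {R : ℕ} (h₀ : BoxOp 2 R) (Δ b C₀ : ℝ) : Prop :=
  ∀ (L : ℕ) [NeZero L], 2 ≤ L → R ≤ L → ∀ ψ : (Site L → Fin 2) → ℂ, normSq ψ = 1 →
    IsGappedGround (ham h₀ L) Δ ψ → ∀ hH : (ham h₀ L).IsHermitian,
      partition hH (energy (ham h₀ L) ψ) (b * Real.log L) ≤ Real.exp C₀

/-- few eigenvalues -/
theorem states {R : ℕ} {h₀ : BoxOp 2 R} {Δ b C₀ : ℝ} (hb : 0 < b) (hG : Gen h₀ Δ b C₀)
    (L : ℕ) [NeZero L] (hL : 2 ≤ L) (hRL : R ≤ L) (ψ : (Site L → Fin 2) → ℂ)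
    (hψ : normSq ψ = 1) (hgr : IsGappedGround (ham h₀ L) Δ ψ) (hH : (ham h₀ L).IsHermitian)
    (m : ℝ) :
    (numStates hH (energy (ham h₀ L) ψ + m) : ℝ) ≤ Real.exp C₀ * (L : ℝ) ^ (b * m) := by
  have hL1 : (1 : ℝ) < L := by exact_mod_cast (by omega : 1 < L)
  have hlog : 0 < Real.log L := Real.log_pos hL1
  have h1 := hG L hL hRL ψ hψ hgr hH
  set β := b * Real.log L with hβ
  have hβ0 : 0 < β := by positivity
  set E₀ := energy (ham h₀ L) ψ with hE₀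
  have h2 : (numStates hH (E₀ + m) : ℝ) ≤ Real.exp (β * m) * partition hH E₀ β := by
    unfold numStates partition
    rw [Finset.mul_sum, Finset.card_eq_sum_ones]
    push_cast
    calc ∑ j ∈ univ.filter (fun j => hH.eigenvalues j ≤ E₀ + m), (1 : ℝ)
        ≤ ∑ j ∈ univ.filter (fun j => hH.eigenvalues j ≤ E₀ + m),
            Real.exp (β * m) * Real.exp (-(β * (hH.eigenvalues j - E₀))) := by
          refine Finset.sum_le_sum fun j hj => ?_
          rw [← Real.exp_add]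
          apply Real.one_le_exp
          have h3 := (Finset.mem_filter.1 hj).2
          nlinarith
      _ ≤ _ := by
          refine Finset.sum_le_sum_of_subset_of_nonneg (Finset.filter_subset _ _) ?_
          intro j _ _
          positivity
  refine h2.trans ?_
  rw [mul_comm (Real.exp C₀)]
  refine mul_le_mul (le_of_eq ?_) h1 ?_ (by positivity)
  · rw [Real.rpow_def_of_pos (by linarith)]
    congr 1
    rw [hβ]
    ring
  · unfold partition
    exact Finset.sum_nonneg fun j _ => (Real.exp_pos _).le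

/-- the bond dimension is polynomial in `L / ε` -/
theorem bond {R : ℕ} {h₀ : BoxOp 2 (R + 1)} (hherm : h₀.IsHermitian) {Δ b C₀ : ℝ} (hΔ : 0 < Δ)
    (hb : 0 < b) (hC₀ : 0 ≤ C₀) (hG : Gen h₀ Δ b C₀) :
    ∃ C : ℝ, 0 < C ∧ ∀ (L : ℕ) [NeZero L], 2 ≤ L → R + 1 ≤ L →
      ∀ Ψ : (Site L → Fin 2) → ℂ, normSq Ψ = 1 → IsGappedGround (ham h₀ L) Δ Ψ →
      ∀ ε : ℝ, 0 < ε → ε ≤ 1 →
      ∃ (D : ℕ) (ψ : (Site L → Fin 2) → ℂ),
        (D : ℝ) ≤ ((L : ℝ) / ε) ^ C ∧ IsPEPS D ψ ∧ Real.sqrt (normSq (ψ - Ψ)) ≤ ε := by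
  obtain ⟨C, hC, hbz⟩ := Pool.Agent.Y159.PepsScale.boundZ 2 R h₀ hherm Δ hΔ
  refine ⟨(b + 1 + 2 * C₀) * C, by positivity, ?_⟩
  intro L _ hL hRL Ψ hΨ hgr ε hε hε1
  have hL1 : (1 : ℝ) < L := by exact_mod_cast (by omega : 1 < L)
  have hL2 : (2 : ℝ) ≤ L := by exact_mod_cast hL
  have hlog : 0 < Real.log L := Real.log_pos hL1
  have hH : (ham h₀ L).IsHermitian := ham_herm _ hherm
  obtain ⟨D, ψ, hD, hP, herr⟩ := hbz L hL hRL Ψ hΨ hgr hH (b * Real.log L) ε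
    (by positivity) hε hε1
  refine ⟨D, ψ, hD.trans ?_, hP, herr⟩
  have h1 := hG L hL hRL Ψ hΨ hgr hH
  rw [Real.rpow_mul (by positivity)]
  refine Real.rpow_le_rpow ?_ ?_ hC.le
  · have : 0 ≤ partition hH (energy (ham h₀ L) Ψ) (b * Real.log L) := by
      unfold partition
      exact Finset.sum_nonneg fun j _ => (Real.exp_pos _).le
    positivity
  · have e1 : Real.exp (b * Real.log L) = (L : ℝ) ^ b := by
      rw [Real.rpow_def_of_pos (by linarith), mul_comm]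
    have e8 : Real.exp C₀ ≤ (L : ℝ) ^ (2 * C₀) := by
      rw [Real.rpow_def_of_pos (by linarith)]
      apply Real.exp_le_exp.2
      have h2 : (1 : ℝ) / 2 ≤ Real.log L := by
        have h3 : Real.log 2 ≤ Real.log L := Real.log_le_log (by norm_num) hL2
        have h4 := Real.log_two_gt_d9
        linarith
      nlinarith
    have hε' : 1 ≤ 1 / ε := by rw [le_div_iff₀ hε]; linarith
    calc Real.exp (b * Real.log L) * L *
          partition hH (energy (ham h₀ L) Ψ) (b * Real.log L) / ε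
        ≤ (L : ℝ) ^ b * L * (L : ℝ) ^ (2 * C₀) / ε := by
          rw [e1]
          gcongr
          exact h1.trans e8
      _ = (L : ℝ) ^ (b + 1 + 2 * C₀) * (1 / ε) := by
          rw [Real.rpow_add (by linarith), Real.rpow_add (by linarith), Real.rpow_one]
          ring
      _ ≤ (L : ℝ) ^ (b + 1 + 2 * C₀) * (1 / ε) ^ (b + 1 + 2 * C₀) := by
          gcongr
          nth_rewrite 1 [← Real.rpow_one (1 / ε)]
          apply Real.rpow_le_rpow_of_exponent_le hε'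
          linarith
      _ = ((L : ℝ) / ε) ^ (b + 1 + 2 * C₀) := by
          rw [← Real.mul_rpow (by positivity) (by positivity)]
          congr 1
          ring

/-- gapped families -/
theorem family {R : ℕ} {h₀ : BoxOp 2 R} {Δ b C₀ : ℝ} (hb : 0 < b) (hC₀ : 0 ≤ C₀)
    (hG : Gen h₀ Δ b C₀) (Ψ : ∀ L : ℕ, (Site L → Fin 2) → ℂ) (hF : GappedFamily h₀ Δ Ψ) (c : ℝ)
    (hc : 0 < c) : ∃ C : ℝ, Approx Ψ 1 C fun L => (L : ℝ) ^ (-c) := by
  obtain ⟨L₁, hL₁⟩ := hF.ground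
  have hS : SmallPartition h₀ Ψ 1 (b + C₀) := by
    refine ⟨max 3 (max R L₁), ?_⟩
    intro L _ hL hH
    have hL3 : 3 ≤ L := (le_max_left _ _).trans hL
    have hRL : R ≤ L := ((le_max_left _ _).trans (le_max_right _ _)).trans hL
    have hLL : L₁ ≤ L := ((le_max_right _ _).trans (le_max_right _ _)).trans hL
    obtain ⟨hn, hgr⟩ := hL₁ L hLL
    have hl1 := log_ge_one hL3
    refine ⟨b * Real.log L, by positivity, ?_, ?_⟩
    · rw [pow_one]
      nlinarith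
    · refine (hG L (by omega) hRL (Ψ L) hn hgr hH).trans (Real.exp_le_exp.2 ?_)
      rw [pow_one]
      nlinarith
  exact Pool.Agent.Y159.PepsScale.thermK hF 1 le_rfl hS c hc

/-- the bound without field -/
theorem gen_zero (h : Concl.PB) {R : ℕ} (J : Fin R × Fin R → Fin R × Fin R → ℝ)
    (g : Fin R × Fin R → ℝ) (hJ : ∀ x y, 0 ≤ J x y) (hg : ∀ x, 0 ≤ g x) (Δ : ℝ) (hΔ : 0 < Δ) :
    Gen (tfi J g) Δ (16 / Δ) 8 := by
  intro L _ hL hRL ψ hψ hgr hH
  exact Concl.part_le h J g hJ hg L hRL hL Δ hΔ ψ hψ hgr hH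

/-- the spectrum with a field -/
theorem field_bound (hT : S_TOP) (hS : S_SPF) (hB : S_BOXF) {R : ℕ}
    (J : Fin R × Fin R → Fin R × Fin R → ℝ) (g μ : Fin R × Fin R → ℝ)
    (hJ : ∀ x y, 0 ≤ J x y) (hg : ∀ x, 0 ≤ g x) (hμ : 0 < ∑ x, μ x) (L : ℕ) [NeZero L]
    (hRL : R ≤ L) :
    (∃ ψ : (Site L → Fin 2) → ℂ, normSq ψ = 1 ∧
      IsGappedGround (ham (tff J g μ) L) (2 * ∑ x, μ x) ψ) ∧
    ∀ (ψ : (Site L → Fin 2) → ℂ) (Δ : ℝ), normSq ψ = 1 → 0 < Δ →
      IsGappedGround (ham (tff J g μ) L) Δ ψ → ∀ (hH : (ham (tff J g μ) L).IsHermitian)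
      (β η : ℝ), 0 < β → 0 < η → η ≤ ∑ x, μ x →
        partition hH (energy (ham (tff J g μ) L) ψ) β ≤
          Real.exp (8 * ((L : ℝ) ^ 2 * (1 + β * (∑ x, ∑ y, J x y + ∑ x, g x + 1))) / η *
            (1 + ∑ x, μ x) ^ 2 * Real.exp (-(2 * β * (∑ x, μ x - η)))) := by
  classical
  obtain ⟨hham, hherm⟩ := hB J g μ L hRL
  have hHt : (ham (tff J g μ) L).IsHermitian := ham_herm _ hherm
  set N : Mx (Site L) := hf (V := Site L) (ι := Site L × (Fin R × Fin R) × (Fin R × Fin R))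
      (fun i => sh i.1 i.2.1) (fun i => sh i.1 i.2.2) (fun i => J i.2.1 i.2.2)
      (∑ x, g x) (∑ x, μ x) with hN
  have hsymm : N.IsHermitian := by
    ext s t
    have h1 := congrFun (congrFun hHt s) t
    rw [hham] at h1
    simp only [Matrix.conjTranspose_apply, Matrix.map_apply, Matrix.neg_apply,
      RCLike.star_def, Complex.conj_ofReal] at h1
    have h2 : -N t s = -N s t := by exact_mod_cast h1
    rw [Matrix.conjTranspose_apply, star_trivial]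
    linarith
  obtain ⟨j₀, hgap, hpart⟩ := hT (fun i : Site L × (Fin R × Fin R) × (Fin R × Fin R) =>
      sh i.1 i.2.1) (fun i => sh i.1 i.2.2) (fun i => J i.2.1 i.2.2) (∑ x, g x) (∑ x, μ x)
      hsymm (fun i => hJ _ _) (Finset.sum_nonneg fun x _ => hg x) hμ
  have hcard : (Fintype.card (Site L) : ℝ) = (L : ℝ) ^ 2 := by
    rw [Fintype.card_prod, ZMod.card]
    push_cast
    ring
  have hcc : cc (Site L) (fun i : Site L × (Fin R × Fin R) × (Fin R × Fin R) => J i.2.1 i.2.2)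
      (∑ x, g x) = (L : ℝ) ^ 2 * (∑ x, ∑ y, J x y + ∑ x, g x) := by
    unfold cc
    rw [hcard, Fintype.sum_prod_type]
    simp only [Fintype.sum_prod_type]
    rw [Finset.sum_const, Finset.sum_const, Finset.card_univ, ZMod.card, nsmul_eq_mul,
      nsmul_eq_mul]
    ring
  refine ⟨?_, ?_⟩
  · obtain ⟨ψ, h1, h2⟩ := (hS N hsymm (ham (tff J g μ) L) (2 * ∑ x, μ x) hHt j₀ hham
      (by positivity) hgap).1
    exact ⟨ψ, h1, h2⟩
  · intro ψ Δ hψ hΔ hgr hH β η hβ hη hηh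
    rw [(hS N hsymm (ham (tff J g μ) L) (2 * ∑ x, μ x) hH j₀ hham
      (by positivity) hgap).2 ψ Δ β hψ hΔ hgr]
    refine (hpart β η hβ hη hηh).trans (le_of_eq ?_)
    rw [hcc, hcard]
    congr 4
    ring

/-- the bound with a field -/
theorem gen_field (hT : S_TOP) (hS : S_SPF) (hB : S_BOXF) {R : ℕ}
    (J : Fin R × Fin R → Fin R × Fin R → ℝ) (g μ : Fin R × Fin R → ℝ)
    (hJ : ∀ x y, 0 ≤ J x y) (hg : ∀ x, 0 ≤ g x) (hμ : 0 < ∑ x, μ x) (Δ : ℝ) (hΔ : 0 < Δ) :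
    Gen (tff J g μ) Δ (4 / ∑ x, μ x) (16 * (1 + ∑ x, μ x) ^ 2 / (∑ x, μ x) *
      (1 + 4 / (∑ x, μ x) * (∑ x, ∑ y, J x y + ∑ x, g x + 1))) := by
  intro L _ hL hRL ψ hψ hgr hH
  have hL1 : (1 : ℝ) < L := by exact_mod_cast (by omega : 1 < L)
  have hlog : 0 < Real.log L := Real.log_pos hL1
  set h := ∑ x, μ x with hh
  set W := ∑ x, ∑ y, J x y + ∑ x, g x + 1 with hW
  have hW0 : 0 < W := by
    have h1 : 0 ≤ ∑ x, ∑ y, J x y :=
      Finset.sum_nonneg fun x _ => Finset.sum_nonneg fun y _ => hJ x y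
    have h2 : 0 ≤ ∑ x, g x := Finset.sum_nonneg fun x _ => hg x
    rw [hW]
    linarith
  refine ((field_bound hT hS hB J g μ hJ hg hμ L hRL).2 ψ Δ hψ hΔ hgr hH (4 / h * Real.log L)
    (h / 2) (by positivity) (by positivity) (by linarith)).trans (Real.exp_le_exp.2 ?_)
  have e1 : Real.exp (-(2 * (4 / h * Real.log L) * (h - h / 2))) = ((L : ℝ) ^ 4)⁻¹ := by
    have e2 : 2 * (4 / h * Real.log L) * (h - h / 2) = Real.log L * 4 := by field_simp; ring
    rw [e2, Real.exp_neg, Real.exp_mul, Real.exp_log (by linarith)]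
    congr 1
    rw [show (4 : ℝ) = ((4 : ℕ) : ℝ) by norm_num, Real.rpow_natCast]
  rw [e1]
  have h3 : Real.log L ≤ L := (Real.log_le_sub_one_of_pos (by linarith)).trans (by linarith)
  have h4 : 1 + 4 / h * Real.log L * W ≤ L * (1 + 4 / h * W) := by
    have : 0 < 4 / h * W := by positivity
    nlinarith
  have h5 : (L : ℝ) ^ 3 * ((L : ℝ) ^ 4)⁻¹ ≤ 1 := by
    rw [← div_eq_mul_inv, div_le_one (by positivity)]
    exact pow_le_pow_right₀ hL1.le (by norm_num)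
  calc 8 * ((L : ℝ) ^ 2 * (1 + 4 / h * Real.log L * W)) / (h / 2) * (1 + h) ^ 2 *
        ((L : ℝ) ^ 4)⁻¹
      ≤ 8 * ((L : ℝ) ^ 2 * (L * (1 + 4 / h * W))) / (h / 2) * (1 + h) ^ 2 *
        ((L : ℝ) ^ 4)⁻¹ := by gcongr
    _ = 16 * (1 + h) ^ 2 / h * (1 + 4 / h * W) * ((L : ℝ) ^ 3 * ((L : ℝ) ^ 4)⁻¹) := by
        field_simp
        ring
    _ ≤ 16 * (1 + h) ^ 2 / h * (1 + 4 / h * W) * 1 := by gcongr
    _ = _ := by ring

/-- without field the interaction is the one of the transverse field Ising model -/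
theorem tff_zero {R : ℕ} (J : Fin R × Fin R → Fin R × Fin R → ℝ) (g μ : Fin R × Fin R → ℝ)
    (hμ : ∀ x, 0 ≤ μ x) (h0 : ¬ 0 < ∑ x, μ x) : tff J g μ = tfi J g := by
  have h1 : ∑ x, μ x = 0 := le_antisymm (not_lt.1 h0) (Finset.sum_nonneg fun x _ => hμ x)
  have h2 : ∀ x, μ x = 0 := fun x =>
    (Finset.sum_eq_zero_iff_of_nonneg fun x _ => hμ x).1 h1 x (Finset.mem_univ x)
  ext s t
  unfold tff tfi
  simp only [h2, zero_mul, Finset.sum_const_zero, ite_self, add_zero]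

/-- the constants in all cases -/
theorem gen_all (h : Concl.PB) (hT : S_TOP) (hS : S_SPF) (hB : S_BOXF) {R : ℕ}
    (J : Fin R × Fin R → Fin R × Fin R → ℝ) (g μ : Fin R × Fin R → ℝ)
    (hJ : ∀ x y, 0 ≤ J x y) (hg : ∀ x, 0 ≤ g x) (hμ : ∀ x, 0 ≤ μ x) (Δ : ℝ) (hΔ : 0 < Δ) :
    ∃ b C₀ : ℝ, 0 < b ∧ 0 ≤ C₀ ∧ Gen (tff J g μ) Δ b C₀ := by
  by_cases h0 : 0 < ∑ x, μ x
  · refine ⟨_, _, ?_, ?_, gen_field hT hS hB J g μ hJ hg h0 Δ hΔ⟩
    · positivity
    · have h1 : 0 ≤ ∑ x, ∑ y, J x y :=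
        Finset.sum_nonneg fun x _ => Finset.sum_nonneg fun y _ => hJ x y
      have h2 : 0 ≤ ∑ x, g x := Finset.sum_nonneg fun x _ => hg x
      positivity
  · rw [tff_zero J g μ hμ h0]
    exact ⟨_, _, by positivity, by norm_num, gen_zero h J g hJ hg Δ hΔ⟩

/-- with a field the family is gapped -/
theorem fam_exists (hT : S_TOP) (hS : S_SPF) (hB : S_BOXF) {R : ℕ}
    (J : Fin R × Fin R → Fin R × Fin R → ℝ) (g μ : Fin R × Fin R → ℝ)
    (hJ : ∀ x y, 0 ≤ J x y) (hg : ∀ x, 0 ≤ g x) (hμ : 0 < ∑ x, μ x) :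
    ∃ Ψ : ∀ L : ℕ, (Site L → Fin 2) → ℂ, GappedFamily (tff J g μ) (2 * ∑ x, μ x) Ψ := by
  classical
  have hR : 0 < R := by
    rcases Nat.eq_zero_or_pos R with h | h
    · subst h
      simp at hμ
    · exact h
  have h1 : ∀ L : ℕ, ∃ ψ : (Site L → Fin 2) → ℂ, ∀ [NeZero L], R ≤ L →
      normSq ψ = 1 ∧ IsGappedGround (ham (tff J g μ) L) (2 * ∑ x, μ x) ψ := by
    intro L
    by_cases hL : L = 0
    · exact ⟨fun _ => 0, fun {_} _ => absurd hL (NeZero.ne L)⟩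
    · have : NeZero L := ⟨hL⟩
      by_cases hRL : R ≤ L
      · obtain ⟨ψ, h2, h3⟩ := (field_bound hT hS hB J g μ hJ hg hμ L hRL).1
        exact ⟨ψ, fun {_} _ => ⟨h2, h3⟩⟩
      · exact ⟨fun _ => 0, fun {_} h => absurd h hRL⟩
  choose Ψ hΨ using h1
  have : NeZero R := ⟨hR.ne'⟩
  refine ⟨Ψ, hR, (hB J g μ R le_rfl).2, by positivity, R, ?_⟩
  intro L _ hL
  exact hΨ L hL

end Pool.Agent.K6.H16.TF.ConclF
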