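import Pool.Agent.TH981.LO.Stm
import Pool.Agent.TH235.PP.ThermalCrit

/-!
# Ferromagnetic transverse field Ising models: definitions (seat helper16)

`V` is the finite set of sites, `ι` the finite index set of the pair interactions, the pair with
index `i` consists of the sites `p i` and `q i` (which may coincide).
-/

set_option autoImplicit false

open scoped BigOperators Matrix Topology
open Finset Filter Pool.Agent.TH981.LO

namespace Pool.Agent.K6.H16.TF

/-- the value of a spin -/
def sgn (a : Fin 2) : ℝ := if a = 0 then 1 else -1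

/-- spin configurations -/
abbrev Cf (V : Type) : Type := V → Fin 2

/-- real matrices indexed by spin configurations -/
abbrev Mx (V : Type) : Type := Matrix (Cf V) (Cf V) ℝ

section mx

variable {V ι : Type} [Fintype V] [DecidableEq V] [Fintype ι]

/-- the diagonal matrix `∑ i, J i Z_{p i} Z_{q i}` -/
noncomputable def dg (p q : ι → V) (J : ι → ℝ) : Mx V :=
  Matrix.diagonal fun s => ∑ i, J i * (sgn (s (p i)) * sgn (s (q i)))

/-- the matrix `∑ v, X_v` -/
noncomputable def fl : Mx V := fun s t =>
  ∑ v, if s v ≠ t v ∧ ∀ u, u ≠ v → s u = t u then 1 else 0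

/-- minus the Hamiltonian: `∑ i, J i Z_{p i} Z_{q i} + Γ ∑ v, X_v` -/
noncomputable def hm (p q : ι → V) (J : ι → ℝ) (Γ : ℝ) : Mx V := dg p q J + Γ • fl

/-- the matrix `Z_v` -/
noncomputable def zz (v : V) : Mx V := Matrix.diagonal fun s => sgn (s v)

/-- the step matrix `D(s) M(s,t) D(t)` -/
noncomputable def stp (p q : ι → V) (x : ι → ℝ) (y : ℝ) : Mx V := fun s t =>
  (∏ i, (1 + x i * (sgn (s (p i)) * sgn (s (q i))))) * (∏ v, (1 + y * (sgn (s v) * sgn (t v)))) *
    ∏ i, (1 + x i * (sgn (t (p i)) * sgn (t (q i))))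

/-- the sum of all entries -/
noncomputable def tot (M : Mx V) : ℝ := ∑ s, ∑ t, M s t

/-- the global spin flip of a configuration -/
def gfl (s : Cf V) : Cf V := fun v => 1 - s v

/-- the inequality for the powers of the matrix `S` -/
def Qi (S : Mx V) : Prop :=
  ∀ (a b b' R m : ℕ) (κ : ℝ), m < a → m < b → a + b ≤ R → b ≤ b' → b' ≤ R → 0 ≤ κ →
    (∀ u v : V, tot (S ^ R * zz v * S ^ m * zz u * S ^ (R - m)) ≤ κ * tot (S ^ (2 * R))) →
    (S ^ (a + b)).trace * tot (S ^ b') ≤
      Real.exp (8 * (Fintype.card V : ℝ) ^ 4 * κ ^ 2) * tot (S ^ (a + b + b'))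

end mx

/-! ### The space-time graph -/

/-- vertices: (site, side, slice) -/
abbrev Gv (V : Type) (R : ℕ) : Type := V × Bool × Fin (R + 1)

/-- edges: space edges (side, step, first or last slice of the step, index of the pair),
time edges (side, step, site), cut edges (site), far edges (site) -/
abbrev Ge (V ι : Type) (R : ℕ) : Type := (Bool × Fin R × Bool × ι) ⊕ (Bool × Fin R × V) ⊕ V ⊕ V

section gr

variable {V ι : Type} {R : ℕ}

/-- the first endpoint of an edge; the far edges join the slices `a` (left) and `b` (right) -/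
def gs (p : ι → V) (a : Fin (R + 1)) : Ge V ι R → Gv V R
  | .inl (d, k, z, i) => (p i, d, if z then k.succ else k.castSucc)
  | .inr (.inl (d, k, v)) => (v, d, k.castSucc)
  | .inr (.inr (.inl v)) => (v, false, 0)
  | .inr (.inr (.inr v)) => (v, false, a)

/-- the second endpoint of an edge -/
def gt (q : ι → V) (b : Fin (R + 1)) : Ge V ι R → Gv V R
  | .inl (d, k, z, i) => (q i, d, if z then k.succ else k.castSucc)
  | .inr (.inl (d, k, v)) => (v, d, k.succ)
  | .inr (.inr (.inl v)) => (v, true, 0)
  | .inr (.inr (.inr v)) => (v, true, b)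

/-- the space-time graph -/
def gr (p q : ι → V) (a b : Fin (R + 1)) : MG (Gv V R) (Ge V ι R) where
  s := gs p a
  t := gt q b

/-- the weights -/
def wt (x : ι → ℝ) (y : ℝ) : Ge V ι R → ℝ
  | .inl (_, _, _, i) => x i
  | .inr (.inl _) => y
  | .inr (.inr _) => 1

/-- the edge belongs to a step before `a` on the left or before `b` on the right -/
def inw (a b : Fin (R + 1)) : Ge V ι R → Prop
  | .inl (d, k, _, _) => (k : ℕ) < if d then (b : ℕ) else (a : ℕ)
  | .inr (.inl (d, k, _)) => (k : ℕ) < if d then (b : ℕ) else (a : ℕ)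
  | .inr (.inr _) => False

variable [Fintype V] [DecidableEq V] [Fintype ι] [DecidableEq ι]

open Classical in
/-- the edges of the steps before `a` on the left and before `b` on the right -/
noncomputable def win (a b : Fin (R + 1)) : Finset (Ge V ι R) := univ.filter (inw a b)

/-- the cut edges of the sites of `C` -/
def cts (C : Finset V) : Finset (Ge V ι R) := C.image fun v => .inr (.inr (.inl v))

/-- the far edges of the sites of `C` -/
def frs (C : Finset V) : Finset (Ge V ι R) := C.image fun v => .inr (.inr (.inr v))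

end gr

/-! ### The box interaction -/

/-- the interaction
`h = - ∑ x y, J x y Z_x Z_y - ∑ x, g x X_x` on the `R × R` box -/
noncomputable def tfi {R : ℕ} (J : Fin R × Fin R → Fin R × Fin R → ℝ) (g : Fin R × Fin R → ℝ) :
    Pool.Agent.TH235.PP.BoxOp 2 R := fun s t =>
  ((-((if s = t then ∑ x, ∑ y, J x y * (sgn (s x) * sgn (s y)) else 0) +
    ∑ x, if s x ≠ t x ∧ ∀ z, z ≠ x → s z = t z then g x else 0) : ℝ) : ℂ)

end Pool.Agent.K6.H16.TF
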