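import Pool.Agent.K6.H16.TF.Stm

/-!
# The Hamiltonian on the torus (seat helper50)
-/

set_option autoImplicit false

open scoped BigOperators Matrix
open Finset Pool.Agent.TH235.PP

namespace Pool.Agent.K6.H16.TF.BOX

lemma sh_inj {R L : ℕ} [NeZero L] (h : R ≤ L) (u : Site L) {x y : Fin R × Fin R}
    (hxy : sh u x = sh u y) : x = y := by
  have h1 : ((x.1 : ℕ) : ZMod L) = ((y.1 : ℕ) : ZMod L) := add_left_cancel (congrArg Prod.fst hxy)
  have h2 : ((x.2 : ℕ) : ZMod L) = ((y.2 : ℕ) : ZMod L) := add_left_cancel (congrArg Prod.snd hxy)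
  rw [ZMod.natCast_eq_natCast_iff'] at h1 h2
  rw [Nat.mod_eq_of_lt (lt_of_lt_of_le x.1.2 h), Nat.mod_eq_of_lt (lt_of_lt_of_le y.1.2 h)] at h1
  rw [Nat.mod_eq_of_lt (lt_of_lt_of_le x.2.2 h), Nat.mod_eq_of_lt (lt_of_lt_of_le y.2.2 h)] at h2
  exact Prod.ext (Fin.ext h1) (Fin.ext h2)

lemma sum_sh {R L : ℕ} [NeZero L] (x : Fin R × Fin R) (f : Site L → ℝ) :
    ∑ u : Site L, f (sh u x) = ∑ v, f v :=
  Equiv.sum_comp (Equiv.addRight ((((x.1 : ℕ) : ZMod L), ((x.2 : ℕ) : ZMod L)) : Site L)) f

lemma term_val {R : ℕ} (J : Fin R × Fin R → Fin R × Fin R → ℝ) (g : Fin R × Fin R → ℝ) {L : ℕ}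
    [NeZero L] (h : R ≤ L) (u : Site L) (s t : Site L → Fin 2) :
    term (tfi J g) u s t = ((-((if s = t then
        ∑ x, ∑ y, J x y * (sgn (s (sh u x)) * sgn (s (sh u y))) else 0) +
      ∑ x, if s (sh u x) ≠ t (sh u x) ∧ ∀ w, w ≠ sh u x → s w = t w then g x else 0) : ℝ) : ℂ) := by
  unfold term
  by_cases hc : ∀ v, (∀ x : Fin R × Fin R, sh u x ≠ v) → s v = t v
  · rw [if_pos hc]
    unfold tfi
    have e1 : (fun x => s (sh u x)) = (fun x : Fin R × Fin R => t (sh u x)) ↔ s = t := by
      constructor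
      · intro h1
        funext v
        by_cases hv : ∃ x : Fin R × Fin R, sh u x = v
        · obtain ⟨x, hx⟩ := hv
          rw [← hx]
          exact congrFun h1 x
        · push Not at hv
          exact hc v hv
      · rintro rfl
        rfl
    have e2 : ∀ x : Fin R × Fin R, (s (sh u x) ≠ t (sh u x) ∧ ∀ z, z ≠ x → s (sh u z) = t (sh u z)) ↔
        (s (sh u x) ≠ t (sh u x) ∧ ∀ w, w ≠ sh u x → s w = t w) := by
      intro x
      constructor
      · rintro ⟨h1, h2⟩
        refine ⟨h1, fun w hw => ?_⟩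
        by_cases hv : ∃ z : Fin R × Fin R, sh u z = w
        · obtain ⟨z, hz⟩ := hv
          rw [← hz]
          exact h2 z (fun hzx => hw (by rw [← hz, hzx]))
        · push Not at hv
          exact hc w hv
      · rintro ⟨h1, h2⟩
        exact ⟨h1, fun z hz => h2 _ (fun h3 => hz (sh_inj h u h3))⟩
    congr 3
    · exact if_congr e1 rfl rfl
    · exact Finset.sum_congr rfl fun x _ => if_congr (e2 x) rfl rfl
  · have h0 : (∑ x : Fin R × Fin R, if s (sh u x) ≠ t (sh u x) ∧ ∀ w, w ≠ sh u x → s w = t w then g x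
        else 0) = 0 := by
      refine Finset.sum_eq_zero fun x _ => ?_
      rw [if_neg]
      rintro ⟨_, h2⟩
      exact hc fun v hv => h2 v (fun h3 => hv x h3.symm)
    rw [if_neg hc, if_neg (fun h1 => hc (fun v _ => by rw [h1])), h0]
    simp

theorem box : S_BOX := by
  intro R J g L _ h
  constructor
  · ext s t
    rw [ham, Matrix.sum_apply, Finset.sum_congr rfl fun u _ => term_val J g h u s t,
      Matrix.map_apply, Matrix.neg_apply, ← Complex.ofReal_sum, Finset.sum_neg_distrib,
      Finset.sum_add_distrib]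
    congr 2
    rw [hm, Matrix.add_apply, Matrix.smul_apply, dg, Matrix.diagonal_apply]
    congr 1
    · by_cases hst : s = t
      · simp only [if_pos hst]
        rw [eq_comm, Fintype.sum_prod_type]
        refine Finset.sum_congr rfl fun u _ => ?_
        rw [Fintype.sum_prod_type]
      · simp only [if_neg hst]
        rw [Finset.sum_const_zero]
    · rw [Finset.sum_comm, smul_eq_mul, Finset.sum_mul]
      refine Finset.sum_congr rfl fun x _ => ?_
      rw [sum_sh x (fun v => if s v ≠ t v ∧ ∀ w, w ≠ v → s w = t w then g x else 0), fl,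
        Finset.mul_sum]
      refine Finset.sum_congr rfl fun v _ => ?_
      split_ifs <;> simp
  · ext s t
    rw [Matrix.conjTranspose_apply]
    unfold tfi
    rw [Complex.star_def, Complex.conj_ofReal]
    congr 3
    · by_cases hst : s = t
      · rw [hst]
      · rw [if_neg hst, if_neg (fun h => hst h.symm)]
    · refine Finset.sum_congr rfl fun x _ => if_congr ?_ rfl rfl
      exact ⟨fun h => ⟨fun h1 => h.1 h1.symm, fun z hz => (h.2 z hz).symm⟩,
        fun h => ⟨fun h1 => h.1 h1.symm, fun z hz => (h.2 z hz).symm⟩⟩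

end Pool.Agent.K6.H16.TF.BOX
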