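import Pool.Agent.K6.H16.TF.Stm

/-!
Piece CHAIN (statement by helper16; written by helper78): sums over chains are matrix powers.
-/

set_option autoImplicit false
open scoped BigOperators Matrix Topology
open Finset Filter

namespace Pool.Agent.K6.H16.TF.CHAIN

open Pool.Agent.K6.H16.TF

theorem sum_cons {α : Type} [Fintype α] (n : ℕ) (f : (Fin (n + 1) → α) → ℝ) :
    ∑ L : Fin (n + 1) → α, f L = ∑ s : α, ∑ L' : Fin n → α, f (Fin.cons s L') := by
  rw [← Equiv.sum_comp (Fin.consEquiv (fun _ : Fin (n + 1) => α)) f, Fintype.sum_prod_type]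
  rfl

section
variable {α : Type} [Fintype α] [DecidableEq α] (S : Matrix α α ℝ)

theorem hz (Ψ : α → α → ℝ) (n : ℕ) :
    ∑ s, ∑ t, ∑ r, Ψ s t * (S ^ 0) s t * (S ^ n) t r = ∑ s, Ψ s s * ∑ r, (S ^ n) s r := by
  refine Finset.sum_congr rfl fun s _ => ?_
  rw [Finset.sum_eq_single s]
  · simp [Finset.mul_sum]
  · intro t _ hts
    simp [hts.symm]
  · simp

theorem hp (n : ℕ) (s : α) :
    ∑ r, (S ^ (n + 1)) s r = ∑ s', S s s' * ∑ r, (S ^ n) s' r := by
  simp only [pow_succ', Matrix.mul_apply]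
  rw [Finset.sum_comm]
  simp only [Finset.mul_sum]

theorem hq (Ψ : α → ℝ) (s : α) (m n : ℕ) :
    ∑ s', ∑ t, ∑ r, Ψ t * S s s' * (S ^ m) s' t * (S ^ n) t r =
      ∑ t, ∑ r, Ψ t * (S ^ (m + 1)) s t * (S ^ n) t r := by
  rw [Finset.sum_comm]
  refine Finset.sum_congr rfl fun t _ => ?_
  rw [Finset.sum_comm]
  refine Finset.sum_congr rfl fun r _ => ?_
  rw [pow_succ', Matrix.mul_apply, Finset.mul_sum, Finset.sum_mul]
  refine Finset.sum_congr rfl fun s' _ => ?_
  ring

omit [Fintype α] [DecidableEq α] in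
theorem hprod (R a : ℕ) (s : α) (L' : Fin (R + 1) → α) :
    (∏ k : Fin (R + 1), (if (k : ℕ) < a + 1 then
      S ((Fin.cons s L' : Fin (R + 1 + 1) → α) k.castSucc)
        ((Fin.cons s L' : Fin (R + 1 + 1) → α) k.succ) else 1)) =
    S s (L' 0) * ∏ k : Fin R, (if (k : ℕ) < a then S (L' k.castSucc) (L' k.succ) else 1) := by
  rw [Fin.prod_univ_succ]
  congr 1
  refine Finset.prod_congr rfl fun k _ => ?_
  have h1 : ((Fin.cons s L' : Fin (R + 1 + 1) → α) k.succ.castSucc) = L' k.castSucc := by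
    rw [← Fin.succ_castSucc]; simp
  rw [h1]
  simp

theorem aux (R : ℕ) :
    ∀ (Φ : α → α → ℝ) (a m : ℕ) (hma : m ≤ a) (haR : a ≤ R),
    ∑ L : Fin (R + 1) → α, Φ (L 0) (L ⟨m, by omega⟩) *
        ∏ k : Fin R, (if (k : ℕ) < a then S (L k.castSucc) (L k.succ) else 1) =
      (Fintype.card α : ℝ) ^ (R - a) *
        ∑ s, ∑ t, ∑ r, Φ s t * (S ^ m) s t * (S ^ (a - m)) t r := by
  induction R with
  | zero =>
    intro Φ a m hma haR
    obtain rfl : a = 0 := by omega
    obtain rfl : m = 0 := by omega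
    rw [sum_cons]
    simp [Matrix.one_apply]
  | succ R ih =>
    intro Φ a m hma haR
    rw [sum_cons]
    rcases Nat.eq_zero_or_pos a with rfl | ha
    · obtain rfl : m = 0 := by omega
      simp [Matrix.one_apply, Finset.mul_sum]
    · obtain ⟨a, rfl⟩ : ∃ b, a = b + 1 := ⟨a - 1, by omega⟩
      have hRa : R + 1 - (a + 1) = R - a := by omega
      rw [hRa]
      rcases Nat.eq_zero_or_pos m with rfl | hm
      · rw [Nat.sub_zero, hz, Finset.mul_sum]
        refine Finset.sum_congr rfl fun s _ => ?_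
        have hI := ih (fun s' _ => S s s') a 0 (Nat.zero_le _) (by omega)
        rw [Nat.sub_zero, hz S (fun s' _ => S s s')] at hI
        rw [hp]
        have e2 : ∀ L' : Fin (R + 1) → α,
            Φ ((Fin.cons s L' : Fin (R + 1 + 1) → α) 0)
              ((Fin.cons s L' : Fin (R + 1 + 1) → α) ⟨0, by omega⟩) = Φ s s := fun L' => rfl
        simp only [hprod, e2]
        rw [← Finset.mul_sum, hI]
        ring
      · obtain ⟨m, rfl⟩ : ∃ b, m = b + 1 := ⟨m - 1, by omega⟩
        have ham : a + 1 - (m + 1) = a - m := by omega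
        rw [ham, Finset.mul_sum]
        refine Finset.sum_congr rfl fun s _ => ?_
        have hI := ih (fun s' t => Φ s t * S s s') a m (by omega) (by omega)
        rw [hq S (Φ s) s m (a - m)] at hI
        rw [← hI]
        refine Finset.sum_congr rfl fun L' _ => ?_
        rw [hprod]
        have e2 : Φ ((Fin.cons s L' : Fin (R + 1 + 1) → α) 0)
              ((Fin.cons s L' : Fin (R + 1 + 1) → α) ⟨m + 1, by omega⟩) =
              Φ s (L' ⟨m, by omega⟩) := rfl
        rw [e2]
        ring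

end

theorem chain : S_CHAIN := fun S Φ R a m hma haR => aux S R Φ a m hma haR

end Pool.Agent.K6.H16.TF.CHAIN
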