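import Pool.Agent.K6.H16.TF.Stm

/-!
# Piece `CHERN` of call16c: powers of matrices close to one
(helper35 for helper16)
-/

set_option autoImplicit false

open scoped BigOperators Matrix Topology
open Finset Filter

namespace Pool.Agent.K6.H16.TF.CHERN

section general

variable {𝔸 : Type} [NormedRing 𝔸] [NormOneClass 𝔸]

theorem norm_pow_sub (a b : 𝔸) (M : ℝ) (hM : 1 ≤ M) (ha : ‖a‖ ≤ M) (hb : ‖b‖ ≤ M) (n : ℕ) :
    ‖a ^ n - b ^ n‖ ≤ n * ‖a - b‖ * M ^ n := by
  induction n with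
  | zero => simp
  | succ n ih =>
    have h1 : a ^ (n + 1) - b ^ (n + 1) = a ^ n * (a - b) + (a ^ n - b ^ n) * b := by
      rw [pow_succ, pow_succ]
      noncomm_ring
    have hM0 : 0 ≤ M := by linarith
    have hMn : 0 ≤ M ^ n := pow_nonneg hM0 n
    have h2 : ‖a ^ n‖ ≤ M ^ n := (norm_pow_le a n).trans (pow_le_pow_left₀ (norm_nonneg _) ha n)
    have h3 : ‖a ^ n * (a - b)‖ ≤ M ^ n * ‖a - b‖ :=
      (norm_mul_le _ _).trans (mul_le_mul_of_nonneg_right h2 (norm_nonneg _))
    have h4 : ‖(a ^ n - b ^ n) * b‖ ≤ (n * ‖a - b‖ * M ^ n) * M :=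
      (norm_mul_le _ _).trans (mul_le_mul ih hb (norm_nonneg _)
        (mul_nonneg (mul_nonneg (Nat.cast_nonneg _) (norm_nonneg _)) hMn))
    have h5 : M ^ n * ‖a - b‖ ≤ (‖a - b‖ * M ^ n) * M := by
      have : 0 ≤ ‖a - b‖ * M ^ n := mul_nonneg (norm_nonneg _) hMn
      nlinarith
    rw [h1]
    refine (norm_add_le _ _).trans ?_
    have h6 : ((n + 1 : ℕ) : ℝ) * ‖a - b‖ * M ^ (n + 1) =
        (‖a - b‖ * M ^ n) * M + (n * ‖a - b‖ * M ^ n) * M := by
      push_cast
      rw [pow_succ]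
      ring
    rw [h6]
    linarith

variable [NormedAlgebra ℝ 𝔸] [CompleteSpace 𝔸]

theorem main (F : ℝ → 𝔸) (X : 𝔸) (τ : ℝ) (h0 : F 0 = 1) (hF : HasDerivAt F X 0) :
    Tendsto (fun n : ℕ => F (τ / n) ^ n) atTop (𝓝 (NormedSpace.exp (τ • X))) := by
  set G : ℝ → 𝔸 := fun ε => NormedSpace.exp (ε • X) with hG
  have hG0 : G 0 = 1 := by
    rw [hG]
    simp [NormedSpace.exp_zero]
  have hGd : HasDerivAt G X 0 := by
    have h1 := hasDerivAt_exp_smul_const (𝕂 := ℝ) X (0 : ℝ)
    rw [zero_smul, NormedSpace.exp_zero, one_mul] at h1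
    exact h1
  have ht : Tendsto (fun n : ℕ => τ / (n : ℝ)) atTop (𝓝 0) :=
    tendsto_const_div_atTop_nhds_zero_nat τ
  -- bounds of the norms
  have hbig : ∀ K : ℝ → 𝔸, K 0 = 1 → HasDerivAt K X 0 →
      ∃ C : ℝ, ∀ᶠ n : ℕ in atTop, ‖K (τ / n)‖ ≤ 1 + C / n := by
    intro K hK0 hK
    obtain ⟨C, hC⟩ := (hK.differentiableAt.hasFDerivAt.isBigO_sub).bound
    refine ⟨C * |τ|, ?_⟩
    have h1 := ht.eventually hC
    filter_upwards [h1] with n hn
    rw [hK0, sub_zero] at hn
    have h2 : ‖K (τ / n)‖ ≤ ‖(1 : 𝔸)‖ + ‖K (τ / n) - 1‖ := by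
      have := norm_add_le (1 : 𝔸) (K (τ / n) - 1)
      simpa using this
    rw [norm_one] at h2
    refine h2.trans ?_
    have h3 : ‖τ / (n : ℝ)‖ = |τ| / n := by
      rw [norm_div, Real.norm_eq_abs, Real.norm_natCast]
    rw [h3] at hn
    have h4 : C * (|τ| / n) = C * |τ| / n := by ring
    rw [h4] at hn
    linarith
  obtain ⟨C₁, hC₁⟩ := hbig F h0 hF
  obtain ⟨C₂, hC₂⟩ := hbig G hG0 hGd
  set c : ℝ := max (max C₁ C₂) 0 with hc
  have hc0 : 0 ≤ c := le_max_right _ _
  -- the difference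
  have hdiff : HasDerivAt (fun ε => F ε - G ε) 0 0 := by
    have := hF.sub hGd
    rw [sub_self] at this
    exact this
  rw [hasDerivAt_iff_isLittleO_nhds_zero] at hdiff
  have hsmall : (fun n : ℕ => F (τ / n) - G (τ / n)) =o[atTop] fun n : ℕ => τ / (n : ℝ) := by
    have h1 := hdiff.comp_tendsto ht
    refine h1.congr' ?_ ?_
    · filter_upwards with n
      simp [Function.comp, h0, hG0]
    · filter_upwards with n
      rfl
  rw [Metric.tendsto_atTop]
  intro ε hε
  have hpos : 0 < ε / (2 * (|τ| + 1) * Real.exp c) := by positivity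
  have hev := hsmall.bound hpos
  have hev2 : ∀ᶠ n : ℕ in atTop, dist (F (τ / n) ^ n) (NormedSpace.exp (τ • X)) < ε := by
    filter_upwards [hev, hC₁, hC₂, eventually_ge_atTop 1] with n h1 h2 h3 hn
    have hn0 : (0 : ℝ) < n := by exact_mod_cast hn
    have hGn : G (τ / n) ^ n = NormedSpace.exp (τ • X) := by
      letI : NormedAlgebra ℚ 𝔸 := NormedAlgebra.restrictScalars ℚ ℝ 𝔸
      rw [hG]
      simp only
      rw [← NormedSpace.exp_nsmul, ← Nat.cast_smul_eq_nsmul ℝ, smul_smul]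
      congr 2
      field_simp
    have hM : 1 ≤ Real.exp (c / n) := by
      rw [← Real.exp_zero]
      exact Real.exp_le_exp.2 (by positivity)
    have hle : ∀ C : ℝ, C ≤ c → 1 + C / n ≤ Real.exp (c / n) := by
      intro C hC
      have h4 : C / n ≤ c / n := div_le_div_of_nonneg_right hC hn0.le
      have h5 := Real.add_one_le_exp (c / n)
      linarith
    have hFn := h2.trans (hle C₁ ((le_max_left _ _).trans (le_max_left _ _)))
    have hGn' := h3.trans (hle C₂ ((le_max_right _ _).trans (le_max_left _ _)))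
    have h6 := norm_pow_sub (F (τ / n)) (G (τ / n)) (Real.exp (c / n)) hM hFn hGn' n
    have h7 : Real.exp (c / n) ^ n = Real.exp c := by
      rw [← Real.exp_nat_mul]
      congr 1
      field_simp
    rw [hGn, h7] at h6
    rw [dist_eq_norm]
    have h8 : ‖τ / (n : ℝ)‖ = |τ| / n := by
      rw [norm_div, Real.norm_eq_abs, Real.norm_natCast]
    rw [h8] at h1
    have h9 : (n : ℝ) * ‖F (τ / n) - G (τ / n)‖ ≤
        ε / (2 * (|τ| + 1) * Real.exp c) * |τ| := by
      calc (n : ℝ) * ‖F (τ / n) - G (τ / n)‖ ≤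
          n * (ε / (2 * (|τ| + 1) * Real.exp c) * (|τ| / n)) :=
            mul_le_mul_of_nonneg_left h1 hn0.le
        _ = _ := by field_simp
    have hexp := Real.exp_pos c
    calc ‖F (τ / n) ^ n - NormedSpace.exp (τ • X)‖ ≤
        (n : ℝ) * ‖F (τ / n) - G (τ / n)‖ * Real.exp c := h6
      _ ≤ (ε / (2 * (|τ| + 1) * Real.exp c) * |τ|) * Real.exp c :=
          mul_le_mul_of_nonneg_right h9 hexp.le
      _ = ε / 2 * (|τ| / (|τ| + 1)) := by field_simp
      _ ≤ ε / 2 * 1 := by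
          refine mul_le_mul_of_nonneg_left ?_ (by positivity)
          rw [div_le_one (by positivity)]
          linarith
      _ < ε := by linarith
  exact eventually_atTop.1 hev2

end general

open scoped Matrix.Norms.Operator in
theorem chern : S_CHERN := by
  intro α _ _ F X τ h0 hd
  rcases isEmpty_or_nonempty α with hα | hα
  · have : (fun n : ℕ => F (τ / n) ^ n) = fun _ => NormedSpace.exp (τ • X) := by
      funext n
      exact Subsingleton.elim _ _
    rw [this]
    exact tendsto_const_nhds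
  · have hF : HasDerivAt F X 0 := by
      have h1 : HasDerivAt (fun ε => ∑ i, ∑ j, (F ε i j) • Matrix.single i j (1 : ℝ))
          (∑ i, ∑ j, (X i j) • Matrix.single i j (1 : ℝ)) 0 :=
        HasDerivAt.fun_sum fun i _ => HasDerivAt.fun_sum fun j _ => (hd i j).smul_const _
      have h2 : ∀ Y : Matrix α α ℝ, ∑ i, ∑ j, (Y i j) • Matrix.single i j (1 : ℝ) = Y := by
        intro Y
        conv_rhs => rw [Matrix.matrix_eq_sum_single Y]
        refine Finset.sum_congr rfl fun i _ => Finset.sum_congr rfl fun j _ => ?_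
        rw [Matrix.smul_single, smul_eq_mul, mul_one]
      simp only [h2] at h1
      exact h1
    exact main F X τ h0 hF

end Pool.Agent.K6.H16.TF.CHERN
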