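import Pool.Agent.K6.H16.TF.Stm
import Pool.Agent.TH635.J450

/-!
# Ferromagnetic transverse field Ising models: piece TEL (seat helper7)

Telescoping over the cut edges.
-/

set_option autoImplicit false

open scoped BigOperators
open Finset Pool.Agent.TH981.LO Pool.Agent.K6.H16.TF

set_option linter.unusedSectionVars false

namespace Pool.Agent.K6.H16.TF.TEL

theorem wt_nonneg {V ι : Type} {R : ℕ} {x : ι → ℝ} {y : ℝ} (hx : ∀ i, 0 ≤ x i ∧ x i ≤ 1)
    (hy : 0 ≤ y) (e : Ge V ι R) : 0 ≤ wt x y e := by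
  rcases e with ⟨d, k, z, i⟩ | ⟨d, k, v⟩ | v | v
  · exact (hx i).1
  · exact hy
  · exact zero_le_one
  · exact zero_le_one

theorem wt_le_one {V ι : Type} {R : ℕ} {x : ι → ℝ} {y : ℝ} (hx : ∀ i, 0 ≤ x i ∧ x i ≤ 1)
    (hy : y ≤ 1) (e : Ge V ι R) : wt x y e ≤ 1 := by
  rcases e with ⟨d, k, z, i⟩ | ⟨d, k, v⟩ | v | v
  · exact (hx i).2
  · exact hy
  · exact le_rfl
  · exact le_rfl

section

variable {V ι : Type} {R : ℕ} [Fintype V] [DecidableEq V] [Fintype ι] [DecidableEq ι]

theorem cts_insert (v : V) (C : Finset V) :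
    cts (ι := ι) (R := R) (insert v C) =
      insert (Sum.inr (Sum.inr (Sum.inl v)) : Ge V ι R) (cts C) := by
  unfold cts
  rw [Finset.image_insert]

theorem frs_insert (v : V) (C : Finset V) :
    frs (ι := ι) (R := R) (insert v C) =
      insert (Sum.inr (Sum.inr (Sum.inr v)) : Ge V ι R) (frs C) := by
  unfold frs
  rw [Finset.image_insert]

theorem mem_cts {C : Finset V} {e : Ge V ι R} :
    e ∈ cts (ι := ι) (R := R) C ↔ ∃ v ∈ C, (Sum.inr (Sum.inr (Sum.inl v)) : Ge V ι R) = e := by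
  unfold cts
  rw [Finset.mem_image]

theorem mem_frs {C : Finset V} {e : Ge V ι R} :
    e ∈ frs (ι := ι) (R := R) C ↔ ∃ v ∈ C, (Sum.inr (Sum.inr (Sum.inr v)) : Ge V ι R) = e := by
  unfold frs
  rw [Finset.mem_image]

theorem mem_win {a b : Fin (R + 1)} {e : Ge V ι R} :
    e ∈ win (V := V) (ι := ι) a b ↔ inw a b e := by
  classical
  unfold win
  rw [Finset.mem_filter]
  exact ⟨fun h => h.2, fun h => ⟨Finset.mem_univ _, h⟩⟩

theorem cut_not_win {a b : Fin (R + 1)} (v : V) :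
    (Sum.inr (Sum.inr (Sum.inl v)) : Ge V ι R) ∉ win (V := V) (ι := ι) a b := by
  rw [mem_win]
  exact fun h => h

theorem far_not_win {a b : Fin (R + 1)} (v : V) :
    (Sum.inr (Sum.inr (Sum.inr v)) : Ge V ι R) ∉ win (V := V) (ι := ι) a b := by
  rw [mem_win]
  exact fun h => h

theorem cut_not_frs {C : Finset V} (v : V) :
    (Sum.inr (Sum.inr (Sum.inl v)) : Ge V ι R) ∉ frs (ι := ι) (R := R) C := by
  rw [mem_frs]
  rintro ⟨u, _, h⟩
  simp at h

theorem far_not_cts {C : Finset V} (v : V) :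
    (Sum.inr (Sum.inr (Sum.inr v)) : Ge V ι R) ∉ cts (ι := ι) (R := R) C := by
  rw [mem_cts]
  rintro ⟨u, _, h⟩
  simp at h

theorem cut_mem_cts {C : Finset V} {v : V} :
    (Sum.inr (Sum.inr (Sum.inl v)) : Ge V ι R) ∈ cts (ι := ι) (R := R) C ↔ v ∈ C := by
  rw [mem_cts]
  constructor
  · rintro ⟨u, hu, h⟩
    simp only [Sum.inr.injEq, Sum.inl.injEq] at h
    exact h ▸ hu
  · intro h
    exact ⟨v, h, rfl⟩

theorem far_mem_frs {C : Finset V} {v : V} :
    (Sum.inr (Sum.inr (Sum.inr v)) : Ge V ι R) ∈ frs (ι := ι) (R := R) C ↔ v ∈ C := by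
  rw [mem_frs]
  constructor
  · rintro ⟨u, hu, h⟩
    simp only [Sum.inr.injEq] at h
    exact h ▸ hu
  · intro h
    exact ⟨v, h, rfl⟩

/-- adding one cut edge -/
theorem Z_cut (p q : ι → V) (x : ι → ℝ) (y : ℝ) (a b : Fin (R + 1)) (hx : ∀ i, 0 ≤ x i ∧ x i ≤ 1)
    (hy : 0 ≤ y) (F : Finset (Ge V ι R)) (v : V)
    (hv : (Sum.inr (Sum.inr (Sum.inl v)) : Ge V ι R) ∉ F) :
    (gr p q a b).Z (wt x y) (insert (Sum.inr (Sum.inr (Sum.inl v)) : Ge V ι R) F) 0 =
      (gr p q a b).Z (wt x y) F 0 *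
        (1 + (gr p q a b).corr (wt x y) F (two (v, false, (0 : Fin (R + 1))) (v, true, 0))) := by
  have hZ : 0 < (gr p q a b).Z (wt x y) F 0 :=
    Pool.Agent.TH635.J450.Z_pos _ fun e _ => wt_nonneg hx hy e
  have h1 := (gr p q a b).Z_insert (wt x y) hv 0
  rw [zero_add] at h1
  have h2 : (gr p q a b).inc (Sum.inr (Sum.inr (Sum.inl v)) : Ge V ι R) =
      two (v, false, (0 : Fin (R + 1))) (v, true, 0) := rfl
  have h3 : wt x y (Sum.inr (Sum.inr (Sum.inl v)) : Ge V ι R) = 1 := rfl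
  rw [h1, h2, h3]
  unfold MG.corr
  field_simp

end

/-- piece TEL -/
theorem tel : S_TEL := by
  intro V ι _ _ _ _ R p q x y a b a' b' δ hx hy0 hy1 hδ h
  set G := gr p q a b with hG
  set w := wt (V := V) (R := R) x y with hw
  have hwn : ∀ e, 0 ≤ w e := fun e => wt_nonneg hx hy0 e
  have key : ∀ C : Finset V,
      G.Z w (win a b ∪ frs univ ∪ cts C) 0 * G.Z w (win a' b') 0 ≤
        (1 + δ) ^ C.card * (G.Z w (win a b ∪ frs univ) 0 * G.Z w (win a' b' ∪ cts C) 0) := by
    intro C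
    induction C using Finset.induction_on with
    | empty =>
      have h0 : cts (V := V) (ι := ι) (R := R) (∅ : Finset V) = ∅ := by
        unfold cts; rw [Finset.image_empty]
      rw [h0, Finset.union_empty, Finset.union_empty, Finset.card_empty, pow_zero, one_mul]
    | insert v C hv ih =>
      rw [cts_insert, Finset.union_insert, Finset.union_insert, Finset.card_insert_of_notMem hv]
      have n1 : (Sum.inr (Sum.inr (Sum.inl v)) : Ge V ι R) ∉
          win (V := V) (ι := ι) a b ∪ frs univ ∪ cts C := by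
        rw [Finset.mem_union, Finset.mem_union]
        rintro ((h | h) | h)
        · exact cut_not_win v h
        · exact cut_not_frs v h
        · exact hv (cut_mem_cts.1 h)
      have n2 : (Sum.inr (Sum.inr (Sum.inl v)) : Ge V ι R) ∉
          win (V := V) (ι := ι) a' b' ∪ cts C := by
        rw [Finset.mem_union]
        rintro (h | h)
        · exact cut_not_win v h
        · exact hv (cut_mem_cts.1 h)
      have z1 := Z_cut p q x y a b hx hy0 _ v n1
      have z2 := Z_cut p q x y a b hx hy0 _ v n2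
      have hc := h C v hv
      rw [← hG, ← hw] at z1 z2
      rw [z1, z2]
      set cA := G.corr w (win a b ∪ frs univ ∪ cts C)
        (two (v, false, (0 : Fin (R + 1))) (v, true, 0)) with hcA
      set cB := G.corr w (win a' b' ∪ cts C)
        (two (v, false, (0 : Fin (R + 1))) (v, true, 0)) with hcB
      have hB : 0 ≤ cB := MG.corr_nonneg G _ fun e _ => hwn e
      have hA : 0 ≤ cA := MG.corr_nonneg G _ fun e _ => hwn e
      have h1 : 1 + cA ≤ (1 + δ) * (1 + cB) := by nlinarith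
      have hnn : 0 ≤ (1 + δ) ^ C.card *
          (G.Z w (win a b ∪ frs univ) 0 * G.Z w (win a' b' ∪ cts C) 0) := by
        have q1 : 0 ≤ G.Z w (win a b ∪ frs univ) 0 := MG.Z_nonneg G _ fun e _ => hwn e
        have q2 : 0 ≤ G.Z w (win a' b' ∪ cts C) 0 := MG.Z_nonneg G _ fun e _ => hwn e
        positivity
      calc G.Z w (win a b ∪ frs univ ∪ cts C) 0 * (1 + cA) * G.Z w (win a' b') 0
          = (G.Z w (win a b ∪ frs univ ∪ cts C) 0 * G.Z w (win a' b') 0) * (1 + cA) := by ring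
        _ ≤ ((1 + δ) ^ C.card *
          (G.Z w (win a b ∪ frs univ) 0 * G.Z w (win a' b' ∪ cts C) 0)) *
            ((1 + δ) * (1 + cB)) := by
          apply mul_le_mul ih h1 (by linarith) hnn
        _ = (1 + δ) ^ (C.card + 1) * (G.Z w (win a b ∪ frs univ) 0 *
            (G.Z w (win a' b' ∪ cts C) 0 * (1 + cB))) := by ring
  have h1 := key univ
  have h2 : (1 + δ) ^ (univ : Finset V).card ≤ Real.exp (Fintype.card V * δ) := by
    rw [Finset.card_univ, Real.exp_nat_mul]
    apply pow_le_pow_left₀ (by linarith)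
    have := Real.add_one_le_exp δ
    linarith
  refine h1.trans (mul_le_mul_of_nonneg_right h2 ?_)
  have q1 : 0 ≤ G.Z w (win a b ∪ frs univ) 0 := MG.Z_nonneg G _ fun e _ => hwn e
  have q2 : 0 ≤ G.Z w (win a' b' ∪ cts univ) 0 := MG.Z_nonneg G _ fun e _ => hwn e
  positivity

end Pool.Agent.K6.H16.TF.TEL
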