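import Pool.Agent.K6.H16.TF.Stm
import Pool.Agent.K6.H16.TF.P_TEL
import Pool.Agent.TH635.J450
import Pool.Agent.TH304.J448
import Pool.Agent.TH981.LO.Corr

/-!
# Ferromagnetic transverse field Ising models: piece DECP (seat helper7)

The far edges change the correlations near the cut only little.
-/

set_option autoImplicit false

open scoped BigOperators
open Finset Pool.Agent.TH981.LO Pool.Agent.K6.H16.TF Pool.Agent.K6.H16.TF.TEL

set_option linter.unusedSectionVars false

namespace Pool.Agent.K6.H16.TF.DECP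

theorem cmono : S_CMONO := Pool.Agent.TH981.LO.Main.cmono Pool.Agent.TH304.J448.holley

theorem sl : S_SL := Pool.Agent.TH635.J450.simonLieb cmono

/-- adding one edge of weight one changes a two-point function by at most a sum of two products -/
theorem corr_insert_le (h : S_LEB) {V E : Type} [DecidableEq V] [DecidableEq E] (G : MG V E)
    (w : E → ℝ) (F : Finset E) (e : E) (he : e ∉ F) (P Q X Y : V) (hs : G.s e = X) (ht : G.t e = Y)
    (hw0 : ∀ f ∈ insert e F, 0 ≤ w f) (hw1 : ∀ f ∈ insert e F, w f ≤ 1) (hwe : w e = 1) :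
    G.corr w (insert e F) (two P Q) ≤ G.corr w F (two P Q) +
      (G.corr w F (two P X) * G.corr w F (two Q Y) +
        G.corr w F (two P Y) * G.corr w F (two Q X)) := by
  have f0 : ∀ f ∈ F, 0 ≤ w f := fun f hf => hw0 f (Finset.mem_insert_of_mem hf)
  have f1 : ∀ f ∈ F, w f ≤ 1 := fun f hf => hw1 f (Finset.mem_insert_of_mem hf)
  have hi : G.inc e = two X Y := by unfold MG.inc; rw [hs, ht]
  have hL := h G w F P Q X Y f0 f1
  have hZF := Pool.Agent.TH635.J450.Z_pos G (w := w) (F := F) f0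
  have hZI := Pool.Agent.TH635.J450.Z_pos G (w := w) (F := insert e F) hw0
  have hrho := Pool.Agent.TH635.J450.rho_eq G w he hw0
  rw [hwe, one_mul, hi] at hrho
  have hc := Pool.Agent.TH635.J450.corr_insert G w he hw0 (two P Q)
  rw [hwe, one_mul, hi] at hc
  set g := G.corr w F (two X Y) with hg
  have hgn : 0 ≤ g := MG.corr_nonneg G _ f0
  have n1 : 0 ≤ G.corr w F (two P X) := MG.corr_nonneg G _ f0
  have n2 : 0 ≤ G.corr w F (two Q Y) := MG.corr_nonneg G _ f0
  have n3 : 0 ≤ G.corr w F (two P Y) := MG.corr_nonneg G _ f0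
  have n4 : 0 ≤ G.corr w F (two Q X) := MG.corr_nonneg G _ f0
  have hq : G.Z w F 0 / G.Z w (insert e F) 0 = 1 / (1 + g) := by
    rw [← hrho, one_div_div]
  rw [hc, hq, div_mul_eq_mul_div, one_mul, div_le_iff₀ (by linarith)]
  have n5 := mul_nonneg n1 n2
  have n6 := mul_nonneg n3 n4
  nlinarith [mul_nonneg n5 hgn, mul_nonneg n6 hgn]

section

variable {V ι : Type} {R : ℕ} [Fintype V] [DecidableEq V] [Fintype ι] [DecidableEq ι]

/-- the vertices of the slices up to `m` -/
def Sm (m : Fin (R + 1)) : Finset (Gv V R) := univ.filter fun v => v.2.2 ≤ m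

theorem mem_Sm {m : Fin (R + 1)} {v : Gv V R} : v ∈ Sm m ↔ v.2.2 ≤ m := by
  unfold Sm
  rw [Finset.mem_filter]
  exact ⟨fun h => h.2, fun h => ⟨Finset.mem_univ _, h⟩⟩

/-- an edge of the cut of `Sm m` is one of the time edges of step `m` -/
theorem cut_form (p q : ι → V) (a b m : Fin (R + 1)) (hma : m < a) (hmb : m < b)
    (F : Finset (Ge V ι R)) (e : Ge V ι R) (he : e ∈ (gr p q a b).cut F (Sm m)) :
    ∃ (d : Bool) (k : Fin R) (v : V), e = Sum.inr (Sum.inl (d, k, v)) ∧ k.castSucc = m := by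
  unfold MG.cut at he
  rw [Finset.mem_filter, mem_Sm, mem_Sm] at he
  obtain ⟨_, he⟩ := he
  rcases e with ⟨d, k, z, i⟩ | ⟨d, k, v⟩ | v | v
  · exfalso
    simp only [gr, gs, gt] at he
    tauto
  · refine ⟨d, k, v, rfl, ?_⟩
    simp only [gr, gs, gt] at he
    rcases he with ⟨h1, h2⟩ | ⟨h1, h2⟩
    · rw [Fin.ext_iff]
      rw [Fin.le_def] at h1 h2
      simp only [Fin.val_castSucc, Fin.val_succ] at h1 h2 ⊢
      omega
    · exfalso
      rw [Fin.le_def] at h1 h2
      simp only [Fin.val_castSucc, Fin.val_succ] at h1 h2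
      omega
  · exfalso
    simp only [gr, gs, gt] at he
    tauto
  · exfalso
    simp only [gr, gs, gt] at he
    rcases he with ⟨h1, h2⟩ | ⟨h1, h2⟩
    · exact absurd hma (not_lt.2 h1)
    · exact absurd hmb (not_lt.2 h2)

/-- the cut has at most `2 |V|` edges -/
theorem cut_card (p q : ι → V) (a b m : Fin (R + 1)) (hma : m < a) (hmb : m < b)
    (F : Finset (Ge V ι R)) : ((gr p q a b).cut F (Sm m)).card ≤ 2 * Fintype.card V := by
  have hmR : (m : ℕ) < R := by
    have h1 : (m : ℕ) < (a : ℕ) := hma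
    have h2 := a.isLt
    omega
  have hsub : (gr p q a b).cut F (Sm m) ⊆
      (univ : Finset (Bool × V)).image fun dv =>
        (Sum.inr (Sum.inl (dv.1, (⟨m, hmR⟩ : Fin R), dv.2)) : Ge V ι R) := by
    intro e he
    obtain ⟨d, k, v, rfl, hk⟩ := cut_form p q a b m hma hmb F e he
    rw [Finset.mem_image]
    refine ⟨(d, v), Finset.mem_univ _, ?_⟩
    have : k = ⟨m, hmR⟩ := by
      rw [Fin.ext_iff] at hk ⊢
      simpa using hk
    rw [this]
  refine (Finset.card_le_card hsub).trans (Finset.card_image_le.trans ?_)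
  rw [Finset.card_univ, Fintype.card_prod, Fintype.card_bool]

/-- the edges inside the first slices -/
theorem ins_sub (p q : ι → V) (a b m : Fin (R + 1)) (hma : m < a)
    (C D : Finset V) :
    (gr p q a b).ins (win a b ∪ frs D ∪ cts C) (Sm m) ⊆
      win (Fin.last R) (Fin.last R) ∪ cts univ := by
  intro e he
  unfold MG.ins at he
  rw [Finset.mem_filter, mem_Sm, mem_Sm] at he
  obtain ⟨h1, h2, h3⟩ := he
  rw [Finset.mem_union]
  rcases e with ⟨d, k, z, i⟩ | ⟨d, k, v⟩ | v | v
  · left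
    rw [mem_win]
    simp only [inw, Fin.val_last, ite_self]
    exact k.isLt
  · left
    rw [mem_win]
    simp only [inw, Fin.val_last, ite_self]
    exact k.isLt
  · right
    exact cut_mem_cts.2 (Finset.mem_univ _)
  · exfalso
    simp only [gr, gs] at h2
    exact absurd hma (not_lt.2 h2)

/-- Simon–Lieb: correlations between the cut and the far slices are small -/
theorem far_small (p q : ι → V) (x : ι → ℝ) (y : ℝ) (a b m : Fin (R + 1)) (κ : ℝ)
    (C D : Finset V) (v₀ : V) (i : Bool) (X : Gv V R) (hx : ∀ i, 0 ≤ x i ∧ x i ≤ 1) (hy0 : 0 ≤ y)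
    (hy1 : y ≤ 1) (hma : m < a) (hmb : m < b) (hκ : 0 ≤ κ)
    (hk : ∀ (u v : V) (i j : Bool),
      (gr p q a b).corr (wt x y) (win (Fin.last R) (Fin.last R) ∪ cts univ)
        (two (v, i, (0 : Fin (R + 1))) (u, j, m)) ≤ κ) (hX : X ∉ Sm m) :
    (gr p q a b).corr (wt x y) (win a b ∪ frs D ∪ cts C)
      (two (v₀, i, (0 : Fin (R + 1))) X) ≤ 2 * Fintype.card V * κ := by
  have w0 : ∀ e : Ge V ι R, 0 ≤ wt x y e := fun e => wt_nonneg hx hy0 e
  have w1 : ∀ e : Ge V ι R, wt x y e ≤ 1 := fun e => wt_le_one hx hy1 e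
  have ha : ((v₀, i, (0 : Fin (R + 1))) : Gv V R) ∈ Sm (V := V) m := mem_Sm.2 (Fin.zero_le _)
  refine (sl (gr p q a b) (wt x y) (win a b ∪ frs D ∪ cts C) (Sm m) _ X
    (fun e _ => w0 e) (fun e _ => w1 e) ha hX).trans ?_
  have hterm : ∀ e ∈ (gr p q a b).cut (win a b ∪ frs D ∪ cts C) (Sm m),
      (gr p q a b).corr (wt x y) ((gr p q a b).ins (win a b ∪ frs D ∪ cts C) (Sm m))
          (two (v₀, i, (0 : Fin (R + 1))) ((gr p q a b).inn (Sm m) e)) * wt x y e *
        (gr p q a b).corr (wt x y) (win a b ∪ frs D ∪ cts C)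
          (two ((gr p q a b).out (Sm m) e) X) ≤ κ := by
    intro e he
    obtain ⟨d, k, v, rfl, hkm⟩ := cut_form p q a b m hma hmb _ e he
    have hinn : (gr p q a b).inn (Sm m) (Sum.inr (Sum.inl (d, k, v)) : Ge V ι R) =
        (v, d, m) := by
      unfold MG.inn
      have h1 : (gr p q a b).s (Sum.inr (Sum.inl (d, k, v)) : Ge V ι R) = (v, d, k.castSucc) := rfl
      have h5 : ((v, d, m) : Gv V R) ∈ Sm (V := V) m := mem_Sm.2 le_rfl
      rw [h1, hkm, if_pos h5]
    rw [hinn]
    have h1 : (gr p q a b).corr (wt x y)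
        ((gr p q a b).ins (win a b ∪ frs D ∪ cts C) (Sm m))
          (two (v₀, i, (0 : Fin (R + 1))) (v, d, m)) ≤ κ :=
      (cmono (gr p q a b) (wt x y) (wt x y) _ _ _ (ins_sub p q a b m hma C D)
        (fun e _ => w0 e) (fun e _ => le_rfl) (fun e _ => w0 e) (fun e _ => w1 e)).trans
          (hk v v₀ i d)
    have h2 : 0 ≤ (gr p q a b).corr (wt x y)
        ((gr p q a b).ins (win a b ∪ frs D ∪ cts C) (Sm m))
          (two (v₀, i, (0 : Fin (R + 1))) (v, d, m)) := MG.corr_nonneg _ _ fun e _ => w0 e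
    have h3 : (gr p q a b).corr (wt x y) (win a b ∪ frs D ∪ cts C)
          (two ((gr p q a b).out (Sm m) (Sum.inr (Sum.inl (d, k, v)) : Ge V ι R)) X) ≤ 1 :=
      MG.corr_le_one _ _ (fun e _ => w0 e) (fun e _ => w1 e)
    have h4 : 0 ≤ (gr p q a b).corr (wt x y) (win a b ∪ frs D ∪ cts C)
          (two ((gr p q a b).out (Sm m) (Sum.inr (Sum.inl (d, k, v)) : Ge V ι R)) X) :=
      MG.corr_nonneg _ _ fun e _ => w0 e
    calc _ ≤ κ * 1 * 1 := by
          apply mul_le_mul _ h3 h4 (by linarith)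
          exact mul_le_mul h1 (w1 _) (w0 _) hκ
      _ = κ := by ring
  refine (Finset.sum_le_card_nsmul _ _ _ hterm).trans ?_
  rw [nsmul_eq_mul]
  apply mul_le_mul_of_nonneg_right _ hκ
  have := cut_card p q a b m hma hmb (win a b ∪ frs D ∪ cts C)
  exact_mod_cast this

end

/-- piece DECP -/
theorem decp (h : S_LEB) : S_DECP := by
  intro V ι _ _ _ _ R p q x y a b a' b' m κ C v₀ hx hy0 hy1 hma hmb haa hbb hκ hk
  have w0 : ∀ e : Ge V ι R, 0 ≤ wt x y e := fun e => wt_nonneg hx hy0 e
  have w1 : ∀ e : Ge V ι R, wt x y e ≤ 1 := fun e => wt_le_one hx hy1 e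
  have key : ∀ D : Finset V,
      (gr p q a b).corr (wt x y) (win a b ∪ frs D ∪ cts C)
        (two (v₀, false, (0 : Fin (R + 1))) (v₀, true, 0)) ≤
      (gr p q a b).corr (wt x y) (win a b ∪ cts C)
        (two (v₀, false, (0 : Fin (R + 1))) (v₀, true, 0)) +
      D.card * (8 * (Fintype.card V : ℝ) ^ 2 * κ ^ 2) := by
    intro D
    induction D using Finset.induction_on with
    | empty =>
      have h0 : frs (V := V) (ι := ι) (R := R) (∅ : Finset V) = ∅ := by
        unfold frs; rw [Finset.image_empty]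
      rw [h0, Finset.union_empty, Finset.card_empty, Nat.cast_zero, zero_mul, add_zero]
    | insert v D hv ih =>
      rw [frs_insert, Finset.union_insert, Finset.insert_union,
        Finset.card_insert_of_notMem hv]
      have n1 : (Sum.inr (Sum.inr (Sum.inr v)) : Ge V ι R) ∉
          win (V := V) (ι := ι) a b ∪ frs D ∪ cts C := by
        rw [Finset.mem_union, Finset.mem_union]
        rintro ((h | h) | h)
        · exact far_not_win v h
        · exact hv (far_mem_frs.1 h)
        · exact far_not_cts v h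
      have hX : ((v, false, a) : Gv V R) ∉ Sm (V := V) m := by
        rw [mem_Sm]; exact not_le.2 hma
      have hY : ((v, true, b) : Gv V R) ∉ Sm (V := V) m := by
        rw [mem_Sm]; exact not_le.2 hmb
      have h1 := corr_insert_le h (gr p q a b) (wt x y) _ _ n1
        (v₀, false, (0 : Fin (R + 1))) (v₀, true, 0) (v, false, a) (v, true, b) rfl rfl
        (fun f _ => w0 f) (fun f _ => w1 f) rfl
      have b1 := far_small p q x y a b m κ C D v₀ false _ hx hy0 hy1 hma hmb hκ hk hX
      have b2 := far_small p q x y a b m κ C D v₀ true _ hx hy0 hy1 hma hmb hκ hk hX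
      have b3 := far_small p q x y a b m κ C D v₀ false _ hx hy0 hy1 hma hmb hκ hk hY
      have b4 := far_small p q x y a b m κ C D v₀ true _ hx hy0 hy1 hma hmb hκ hk hY
      have n2 : ∀ A, 0 ≤ (gr p q a b).corr (wt x y) (win a b ∪ frs D ∪ cts C) A :=
        fun A => MG.corr_nonneg _ _ fun e _ => w0 e
      have hcard : (0 : ℝ) ≤ 2 * Fintype.card V * κ := by positivity
      have p1 := mul_le_mul b1 b4 (n2 _) hcard
      have p2 := mul_le_mul b3 b2 (n2 _) hcard
      push_cast
      refine h1.trans ?_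
      nlinarith [p1, p2, ih]
  refine (key univ).trans ?_
  have hsub : win (V := V) (ι := ι) a b ∪ cts C ⊆ win a' b' ∪ cts C := by
    apply Finset.union_subset_union_left
    intro e he
    rw [mem_win] at he ⊢
    have haa' : (a : ℕ) ≤ (a' : ℕ) := haa
    have hbb' : (b : ℕ) ≤ (b' : ℕ) := hbb
    rcases e with ⟨d, k, z, i⟩ | ⟨d, k, v⟩ | v | v
    · cases d
      · simp only [inw] at he ⊢
        exact lt_of_lt_of_le he haa'
      · simp only [inw] at he ⊢
        exact lt_of_lt_of_le he hbb'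
    · cases d
      · simp only [inw] at he ⊢
        exact lt_of_lt_of_le he haa'
      · simp only [inw] at he ⊢
        exact lt_of_lt_of_le he hbb'
    · exact he
    · exact he
  have hm := cmono (gr p q a b) (wt x y) (wt x y) _ _
    (two (v₀, false, (0 : Fin (R + 1))) (v₀, true, 0)) hsub
    (fun e _ => w0 e) (fun e _ => le_rfl) (fun e _ => w0 e) (fun e _ => w1 e)
  rw [Finset.card_univ]
  have : (Fintype.card V : ℝ) * (8 * (Fintype.card V : ℝ) ^ 2 * κ ^ 2) =
      8 * (Fintype.card V : ℝ) ^ 3 * κ ^ 2 := by ring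
  rw [this]
  linarith

end Pool.Agent.K6.H16.TF.DECP
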