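import Pool.Agent.K6.H16.TF.Stm

/-!
# Piece `EVAL`: the partition functions and the correlations in terms of matrices
-/

set_option autoImplicit false

open scoped BigOperators Matrix Topology
open Finset Filter Pool.Agent.TH981.LO

namespace Pool.Agent.K6.H16.TF.EVAL

section chain

variable {α : Type} [Fintype α] [DecidableEq α]

/-- the product along a chain -/
noncomputable def P (S : Matrix α α ℝ) {R : ℕ} (a : Fin (R + 1)) (L : Fin (R + 1) → α) : ℝ :=
  ∏ k : Fin R, (if (k : ℕ) < a then S (L k.castSucc) (L k.succ) else 1)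

lemma pow_symm {S : Matrix α α ℝ} (hS : ∀ s t, S s t = S t s) (n : ℕ) (s t : α) :
    (S ^ n) s t = (S ^ n) t s := by
  have h1 : Sᵀ = S := by
    ext s t
    exact hS t s
  have h2 : (S ^ n)ᵀ = S ^ n := by rw [Matrix.transpose_pow, h1]
  calc (S ^ n) s t = (S ^ n)ᵀ t s := rfl
    _ = (S ^ n) t s := by rw [h2]

lemma chain2 (h2 : S_CHAIN) (S : Matrix α α ℝ) (Φ : α → α → ℝ) (R : ℕ) (a : Fin (R + 1)) :
    ∑ L : Fin (R + 1) → α, Φ (L 0) (L a) * P S a L =
      (Fintype.card α : ℝ) ^ (R - (a : ℕ)) * ∑ s, ∑ t, Φ s t * (S ^ (a : ℕ)) s t := by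
  have h := h2 S Φ R a a le_rfl (Nat.lt_succ_iff.mp a.isLt)
  refine Eq.trans ?_ (h.trans ?_)
  · rfl
  · congr 1
    refine Finset.sum_congr rfl fun s _ => Finset.sum_congr rfl fun t _ => ?_
    rw [← Finset.mul_sum, Nat.sub_self, pow_zero]
    simp [Matrix.one_apply]

lemma chain0 (h2 : S_CHAIN) (S : Matrix α α ℝ) (φ : α → ℝ) (R : ℕ) (a : Fin (R + 1)) :
    ∑ L : Fin (R + 1) → α, φ (L 0) * P S a L =
      (Fintype.card α : ℝ) ^ (R - (a : ℕ)) * ∑ s, φ s * ∑ r, (S ^ (a : ℕ)) s r := by
  have h := h2 S (fun s _ => φ s) R a 0 (Nat.zero_le _) (Nat.lt_succ_iff.mp a.isLt)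
  refine Eq.trans ?_ (h.trans ?_)
  · rfl
  · congr 1
    refine Finset.sum_congr rfl fun s _ => ?_
    rw [pow_zero, Nat.sub_zero, Finset.sum_comm, Finset.mul_sum]
    refine Finset.sum_congr rfl fun r _ => ?_
    simp only [Matrix.one_apply, mul_ite, mul_one, mul_zero, ite_mul, zero_mul]
    rw [Finset.sum_ite_eq]
    simp

lemma chainm (h2 : S_CHAIN) (S : Matrix α α ℝ) (Φ : α → α → ℝ) (R : ℕ) (m : Fin (R + 1)) :
    ∑ L : Fin (R + 1) → α, Φ (L 0) (L m) * P S (Fin.last R) L =
      ∑ s, ∑ t, ∑ r, Φ s t * (S ^ (m : ℕ)) s t * (S ^ (R - (m : ℕ))) t r := by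
  have h := h2 S Φ R R m (Nat.lt_succ_iff.mp m.isLt) le_rfl
  refine Eq.trans ?_ (h.trans ?_)
  · rfl
  · rw [Nat.sub_self, pow_zero, one_mul]

lemma part1 (h2 : S_CHAIN) {S : Matrix α α ℝ} (hS : ∀ s t, S s t = S t s) (c : ℝ) (R : ℕ)
    (a b : Fin (R + 1)) :
    ∑ L : Fin (R + 1) → α, ∑ L' : Fin (R + 1) → α, P S a L * P S b L' *
        (if L a = L' b then c else 0) * (if L 0 = L' 0 then c else 0) =
      (Fintype.card α : ℝ) ^ (R - (a : ℕ)) * (Fintype.card α : ℝ) ^ (R - (b : ℕ)) * (c * c) *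
        (S ^ ((a : ℕ) + b)).trace := by
  have e1 : ∀ L : Fin (R + 1) → α, ∑ L' : Fin (R + 1) → α, P S a L * P S b L' *
        (if L a = L' b then c else 0) * (if L 0 = L' 0 then c else 0) =
      (Fintype.card α : ℝ) ^ (R - (b : ℕ)) * (c * c) *
        ((S ^ (b : ℕ)) (L 0) (L a) * P S a L) := by
    intro L
    have := chain2 h2 S (fun s t => (if L a = t then c else 0) * (if L 0 = s then c else 0)) R b
    calc _ = P S a L * ∑ L' : Fin (R + 1) → α, (if L a = L' b then c else 0) *
          (if L 0 = L' 0 then c else 0) * P S b L' := by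
          rw [Finset.mul_sum]
          exact Finset.sum_congr rfl fun L' _ => by ring
      _ = _ := by
          rw [this]
          have h3 : ∑ s, ∑ t, (if L a = t then c else 0) * (if L 0 = s then c else 0) *
              (S ^ (b : ℕ)) s t = c * c * (S ^ (b : ℕ)) (L 0) (L a) := by
            simp only [ite_mul, mul_ite, zero_mul, mul_zero]
            rw [Finset.sum_comm]
            simp
          rw [h3]
          ring
  rw [Finset.sum_congr rfl fun L _ => e1 L, ← Finset.mul_sum,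
    chain2 h2 S (fun s t => (S ^ (b : ℕ)) s t) R a, pow_add, Matrix.trace]
  have h4 : ∑ s, ∑ t, (S ^ (b : ℕ)) s t * (S ^ (a : ℕ)) s t =
      ∑ i, Matrix.diag (S ^ (a : ℕ) * S ^ (b : ℕ)) i := by
    refine Finset.sum_congr rfl fun s _ => ?_
    rw [Matrix.diag_apply, Matrix.mul_apply]
    refine Finset.sum_congr rfl fun t _ => ?_
    rw [pow_symm hS b s t, mul_comm]
  rw [h4]
  ring

lemma tot_mul' (M N : Matrix α α ℝ) :
    ∑ s, ∑ t, (M * N) s t = ∑ u, (∑ s, M s u) * ∑ t, N u t := by
  simp only [Matrix.mul_apply]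
  calc ∑ s, ∑ t, ∑ u, M s u * N u t = ∑ s, ∑ u, ∑ t, M s u * N u t := by
        refine Finset.sum_congr rfl fun s _ => Finset.sum_comm
    _ = ∑ u, ∑ s, ∑ t, M s u * N u t := Finset.sum_comm
    _ = _ := by
        refine Finset.sum_congr rfl fun u _ => ?_
        rw [Finset.sum_mul_sum]

lemma part2 (h2 : S_CHAIN) {S : Matrix α α ℝ} (hS : ∀ s t, S s t = S t s) (c : ℝ) (R : ℕ)
    (a b : Fin (R + 1)) :
    ∑ L : Fin (R + 1) → α, ∑ L' : Fin (R + 1) → α, P S a L * P S b L' *
        (if L a = L' b then c else 0) =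
      (Fintype.card α : ℝ) ^ (R - (a : ℕ)) * (Fintype.card α : ℝ) ^ (R - (b : ℕ)) * c *
        ∑ s, ∑ t, (S ^ ((a : ℕ) + b)) s t := by
  have e1 : ∀ L : Fin (R + 1) → α, ∑ L' : Fin (R + 1) → α, P S a L * P S b L' *
        (if L a = L' b then c else 0) =
      (Fintype.card α : ℝ) ^ (R - (b : ℕ)) * c *
        ((∑ s, (S ^ (b : ℕ)) s (L a)) * P S a L) := by
    intro L
    have := chain2 h2 S (fun _ t => (if L a = t then c else 0)) R b
    calc _ = P S a L * ∑ L' : Fin (R + 1) → α, (if L a = L' b then c else 0) * P S b L' := by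
          rw [Finset.mul_sum]
          exact Finset.sum_congr rfl fun L' _ => by ring
      _ = _ := by
          rw [this]
          have h3 : ∑ s, ∑ t, (if L a = t then c else 0) * (S ^ (b : ℕ)) s t =
              c * ∑ s, (S ^ (b : ℕ)) s (L a) := by
            rw [Finset.mul_sum]
            refine Finset.sum_congr rfl fun s _ => ?_
            simp
          rw [h3]
          ring
  rw [Finset.sum_congr rfl fun L _ => e1 L, ← Finset.mul_sum,
    chain2 h2 S (fun _ t => ∑ s, (S ^ (b : ℕ)) s t) R a, pow_add, tot_mul']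
  have h4 : ∑ s, ∑ t, (∑ s', (S ^ (b : ℕ)) s' t) * (S ^ (a : ℕ)) s t =
      ∑ u, (∑ s, (S ^ (a : ℕ)) s u) * ∑ t, (S ^ (b : ℕ)) u t := by
    rw [Finset.sum_comm]
    refine Finset.sum_congr rfl fun u _ => ?_
    rw [← Finset.mul_sum, mul_comm]
    congr 1
    exact Finset.sum_congr rfl fun t _ => pow_symm hS b t u
  rw [h4]
  ring

lemma part3 (h2 : S_CHAIN) {S : Matrix α α ℝ} (hS : ∀ s t, S s t = S t s) (c : ℝ) (R : ℕ)
    (a b : Fin (R + 1)) :
    ∑ L : Fin (R + 1) → α, ∑ L' : Fin (R + 1) → α, P S a L * P S b L' *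
        (if L 0 = L' 0 then c else 0) =
      (Fintype.card α : ℝ) ^ (R - (a : ℕ)) * (Fintype.card α : ℝ) ^ (R - (b : ℕ)) * c *
        ∑ s, ∑ t, (S ^ ((a : ℕ) + b)) s t := by
  have e1 : ∀ L : Fin (R + 1) → α, ∑ L' : Fin (R + 1) → α, P S a L * P S b L' *
        (if L 0 = L' 0 then c else 0) =
      (Fintype.card α : ℝ) ^ (R - (b : ℕ)) * c *
        ((∑ r, (S ^ (b : ℕ)) (L 0) r) * P S a L) := by
    intro L
    have := chain0 h2 S (fun s => (if L 0 = s then c else 0)) R b
    calc _ = P S a L * ∑ L' : Fin (R + 1) → α, (if L 0 = L' 0 then c else 0) * P S b L' := by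
          rw [Finset.mul_sum]
          exact Finset.sum_congr rfl fun L' _ => by ring
      _ = _ := by
          rw [this]
          have h3 : ∑ s, (if L 0 = s then c else 0) * ∑ r, (S ^ (b : ℕ)) s r =
              c * ∑ r, (S ^ (b : ℕ)) (L 0) r := by
            simp
          rw [h3]
          ring
  rw [Finset.sum_congr rfl fun L _ => e1 L, ← Finset.mul_sum,
    chain0 h2 S (fun s => ∑ r, (S ^ (b : ℕ)) s r) R a, pow_add, tot_mul']
  have h4 : ∑ s, (∑ r, (S ^ (b : ℕ)) s r) * ∑ r, (S ^ (a : ℕ)) s r =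
      ∑ u, (∑ s, (S ^ (a : ℕ)) s u) * ∑ t, (S ^ (b : ℕ)) u t := by
    refine Finset.sum_congr rfl fun u _ => ?_
    rw [mul_comm]
    congr 1
    exact Finset.sum_congr rfl fun t _ => pow_symm hS a u t
  rw [h4]
  ring

lemma part4 (h2 : S_CHAIN) (S : Matrix α α ℝ) (R : ℕ) (a b : Fin (R + 1)) :
    ∑ L : Fin (R + 1) → α, ∑ L' : Fin (R + 1) → α, P S a L * P S b L' =
      (Fintype.card α : ℝ) ^ (R - (a : ℕ)) * (Fintype.card α : ℝ) ^ (R - (b : ℕ)) *
        ((∑ s, ∑ t, (S ^ (a : ℕ)) s t) * ∑ s, ∑ t, (S ^ (b : ℕ)) s t) := by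
  have h : ∀ d : Fin (R + 1), ∑ L : Fin (R + 1) → α, P S d L =
      (Fintype.card α : ℝ) ^ (R - (d : ℕ)) * ∑ s, ∑ t, (S ^ (d : ℕ)) s t := by
    intro d
    have := chain0 h2 S (fun _ => 1) R d
    simpa using this
  rw [← Finset.sum_mul_sum, h a, h b]
  ring

/-- the double sum for the correlations -/
lemma part5 (h2 : S_CHAIN) {S : Matrix α α ℝ} (hS : ∀ s t, S s t = S t s) (c : ℝ) (R : ℕ)
    (f g : α → ℝ) (m : Fin (R + 1)) :
    ∑ L : Fin (R + 1) → α, ∑ L' : Fin (R + 1) → α, (f (L 0) * g (L' m)) *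
        (P S (Fin.last R) L * P S (Fin.last R) L' * (if L 0 = L' 0 then c else 0)) =
      c * ∑ s, ∑ t, (S ^ R * Matrix.diagonal f * S ^ (m : ℕ) * Matrix.diagonal g *
        S ^ (R - (m : ℕ))) s t := by
  have e1 : ∀ L : Fin (R + 1) → α, ∑ L' : Fin (R + 1) → α, (f (L 0) * g (L' m)) *
        (P S (Fin.last R) L * P S (Fin.last R) L' * (if L 0 = L' 0 then c else 0)) =
      c * ((f (L 0) * ∑ r, (S ^ (m : ℕ) * Matrix.diagonal g * S ^ (R - (m : ℕ))) (L 0) r) *
        P S (Fin.last R) L) := by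
    intro L
    have := chainm h2 S (fun s t => (if L 0 = s then c else 0) * g t) R m
    calc _ = f (L 0) * P S (Fin.last R) L * ∑ L' : Fin (R + 1) → α,
          (if L 0 = L' 0 then c else 0) * g (L' m) * P S (Fin.last R) L' := by
          rw [Finset.mul_sum]
          exact Finset.sum_congr rfl fun L' _ => by ring
      _ = _ := by
          rw [this]
          have h3 : ∑ s, ∑ t, ∑ r, (if L 0 = s then c else 0) * g t * (S ^ (m : ℕ)) s t *
              (S ^ (R - (m : ℕ))) t r =
              c * ∑ r, (S ^ (m : ℕ) * Matrix.diagonal g * S ^ (R - (m : ℕ))) (L 0) r := by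
            have h5 : ∀ s, ∑ t, ∑ r, (if L 0 = s then c else 0) * g t * (S ^ (m : ℕ)) s t *
              (S ^ (R - (m : ℕ))) t r = if L 0 = s then
                c * ∑ r, (S ^ (m : ℕ) * Matrix.diagonal g * S ^ (R - (m : ℕ))) s r else 0 := by
              intro s
              split_ifs with hs
              · rw [Finset.sum_comm, Finset.mul_sum]
                refine Finset.sum_congr rfl fun r _ => ?_
                rw [Matrix.mul_apply, Finset.mul_sum]
                refine Finset.sum_congr rfl fun t _ => ?_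
                rw [Matrix.mul_diagonal]
                ring
              · simp
            rw [Finset.sum_congr rfl fun s _ => h5 s, Finset.sum_ite_eq]
            simp
          rw [h3]
          ring
  rw [Finset.sum_congr rfl fun L _ => e1 L, ← Finset.mul_sum,
    chain0 h2 S (fun s => f s * ∑ r, (S ^ (m : ℕ) * Matrix.diagonal g *
      S ^ (R - (m : ℕ))) s r) R (Fin.last R), Fin.val_last, Nat.sub_self, pow_zero, one_mul]
  congr 1
  have hassoc : S ^ R * Matrix.diagonal f * S ^ (m : ℕ) * Matrix.diagonal g * S ^ (R - (m : ℕ)) =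
      (S ^ R * Matrix.diagonal f) * (S ^ (m : ℕ) * Matrix.diagonal g * S ^ (R - (m : ℕ))) := by
    simp only [Matrix.mul_assoc]
  rw [hassoc, tot_mul']
  refine Finset.sum_congr rfl fun u _ => ?_
  have h6 : ∑ s, (S ^ R * Matrix.diagonal f) s u = f u * ∑ r, (S ^ R) u r := by
    rw [Finset.mul_sum]
    refine Finset.sum_congr rfl fun s _ => ?_
    rw [Matrix.mul_diagonal, pow_symm hS R s u, mul_comm]
  rw [h6]
  ring

end chain

variable {V ι : Type} [Fintype V] [DecidableEq V] [Fintype ι] [DecidableEq ι]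

lemma stp_symm (p q : ι → V) (x : ι → ℝ) (y : ℝ) (s t : Cf V) :
    stp p q x y s t = stp p q x y t s := by
  unfold stp
  have : ∏ v, (1 + y * (sgn (s v) * sgn (t v))) = ∏ v, (1 + y * (sgn (t v) * sgn (s v))) :=
    Finset.prod_congr rfl fun v _ => by ring
  rw [this]
  ring

lemma card_cf : (Fintype.card (Cf V) : ℝ) = 2 ^ Fintype.card V := by
  simp [Cf]

lemma sgn_sq (a : Fin 2) : sgn a * sgn a = 1 := by
  unfold sgn
  split_ifs <;> norm_num

/-- the product of the spins of the two sources -/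
lemma prod_two {W : Type} [Fintype W] [DecidableEq W] (a b : W) (σ : W → Fin 2) :
    ∏ v, (if two a b v = 1 then sgn (σ v) else 1) = sgn (σ a) * sgn (σ b) := by
  by_cases h : a = b
  · subst h
    rw [sgn_sq]
    refine Finset.prod_eq_one fun v _ => ?_
    rw [if_neg]
    unfold two
    by_cases hv : v = a
    · subst hv
      simp only [Pi.add_apply, Pi.single_eq_same]
      decide
    · simp [Pi.single_eq_of_ne hv]
  · have h1 : ∀ v, (if two a b v = 1 then sgn (σ v) else 1) =
        (if v = a then sgn (σ a) else 1) * (if v = b then sgn (σ b) else 1) := by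
      intro v
      unfold two
      by_cases hva : v = a
      · subst hva
        simp [Pi.single_eq_of_ne h, h]
      · by_cases hvb : v = b
        · subst hvb
          simp [Pi.single_eq_of_ne hva, hva]
        · simp [Pi.single_eq_of_ne hva, Pi.single_eq_of_ne hvb, hva, hvb]
    rw [Finset.prod_congr rfl fun v _ => h1 v, Finset.prod_mul_distrib]
    simp

/-- the weight of a configuration -/
noncomputable def Wg (p q : ι → V) (x : ι → ℝ) (y : ℝ) {R : ℕ} (a b : Fin (R + 1))
    (F : Finset (Ge V ι R)) (σ : Gv V R → Fin 2) : ℝ :=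
  ∏ e ∈ F, (1 + wt x y e * (sgn (σ ((gr p q a b).s e)) * sgn (σ ((gr p q a b).t e))))

theorem eval (h1 : S_SPIN) (h2 : S_CHAIN) (h3 : S_EVALW) (h4 : S_REORG) : S_EVAL := by
  intro V ι _ _ _ _ R p q x y a b a' b'
  have hS := stp_symm p q x y
  set S : Mx V := stp p q x y with hSdef
  set c : ℝ := (2 : ℝ) ^ Fintype.card V with hc
  have hspin : ∀ F : Finset (Ge V ι R), 2 ^ Fintype.card (Gv V R) * (gr p q a b).Z (wt x y) F 0 =
      ∑ σ : Gv V R → Fin 2, Wg p q x y a b F σ := by
    intro F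
    rw [← h1 (gr p q a b) (wt x y) F 0]
    refine Finset.sum_congr rfl fun σ _ => ?_
    have : ∏ v, (if (0 : Gv V R → ZMod 2) v = 1 then sgn (σ v) else 1) = 1 :=
      Finset.prod_eq_one fun v _ => by simp
    rw [this, one_mul]
    rfl
  have wwin : ∀ (a' b' : Fin (R + 1)) (σ : Gv V R → Fin 2), Wg p q x y a b (win a' b') σ =
      P S a' (fun k v => σ (v, false, k)) * P S b' (fun k v => σ (v, true, k)) :=
    fun a' b' σ => (h3 R p q x y a b a' b' σ).1
  have wcts : ∀ (σ : Gv V R → Fin 2), Wg p q x y a b (cts univ) σ =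
      if (fun v => σ (v, false, (0 : Fin (R + 1)))) = (fun v => σ (v, true, (0 : Fin (R + 1))))
        then c else 0 :=
    fun σ => (h3 R p q x y a b a b σ).2.1
  have wfrs : ∀ (σ : Gv V R → Fin 2), Wg p q x y a b (frs univ) σ =
      if (fun v => σ (v, false, a)) = (fun v => σ (v, true, b)) then c else 0 :=
    fun σ => (h3 R p q x y a b a b σ).2.2.1
  have σ0 : Gv V R → Fin 2 := fun _ => 0
  have d1 : ∀ a' b' : Fin (R + 1), Disjoint (win (V := V) (ι := ι) a' b') (cts univ) :=
    fun a' b' => (h3 R p q x y a b a' b' σ0).2.2.2.1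
  have d2 : ∀ a' b' : Fin (R + 1), Disjoint (win (V := V) (ι := ι) a' b') (frs univ) :=
    fun a' b' => (h3 R p q x y a b a' b' σ0).2.2.2.2.1
  have d3 : Disjoint (frs (V := V) (ι := ι) (R := R) univ) (cts univ) :=
    (h3 R p q x y a b a b σ0).2.2.2.2.2
  have wun : ∀ (F G : Finset (Ge V ι R)) (σ : Gv V R → Fin 2), Disjoint F G →
      Wg p q x y a b (F ∪ G) σ = Wg p q x y a b F σ * Wg p q x y a b G σ :=
    fun F G σ h => Finset.prod_union h
  have ha := Nat.lt_succ_iff.mp a.isLt
  have hb := Nat.lt_succ_iff.mp b.isLt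
  have ha' := Nat.lt_succ_iff.mp a'.isLt
  have hb' := Nat.lt_succ_iff.mp b'.isLt
  have hcard : (Fintype.card (Cf V) : ℝ) = c := card_cf
  refine ⟨?_, ?_, ?_, ?_, ?_⟩
  · rw [hspin]
    have e := h4 (V := V) R (fun L L' => P S a L * P S b L' *
        (if L a = L' b then c else 0) * (if L 0 = L' 0 then c else 0))
    rw [part1 h2 hS c R a b, hcard] at e
    rw [show 2 * R - (a : ℕ) - b + 2 = (R - a) + (R - b) + 2 by omega, pow_add, pow_add, pow_two,
      ← e]
    refine Finset.sum_congr rfl fun σ _ => ?_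
    rw [wun _ _ σ (Finset.disjoint_union_left.mpr ⟨d1 a b, d3⟩), wun _ _ σ (d2 a b), wwin, wfrs,
      wcts]
  · rw [hspin]
    have e := h4 (V := V) R (fun L L' => P S a L * P S b L' * (if L a = L' b then c else 0))
    rw [part2 h2 hS c R a b, hcard] at e
    rw [show 2 * R - (a : ℕ) - b + 1 = (R - a) + (R - b) + 1 by omega, pow_add, pow_add, pow_one,
      tot, ← e]
    refine Finset.sum_congr rfl fun σ _ => ?_
    rw [wun _ _ σ (d2 a b), wwin, wfrs]
  · rw [hspin]
    have e := h4 (V := V) R (fun L L' => P S a' L * P S b' L' * (if L 0 = L' 0 then c else 0))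
    rw [part3 h2 hS c R a' b', hcard] at e
    rw [show 2 * R - (a' : ℕ) - b' + 1 = (R - a') + (R - b') + 1 by omega, pow_add, pow_add,
      pow_one, tot, ← e]
    refine Finset.sum_congr rfl fun σ _ => ?_
    rw [wun _ _ σ (d1 a' b'), wwin, wcts]
  · rw [hspin]
    have e := h4 (V := V) R (fun L L' => P S a' L * P S b' L')
    rw [part4 h2 S R a' b', hcard] at e
    rw [show 2 * R - (a' : ℕ) - b' = (R - a') + (R - b') by omega, pow_add, tot, tot, ← e]
    refine Finset.sum_congr rfl fun σ _ => ?_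
    rw [wwin]
  · intro u v i j m
    rw [← h1 (gr p q a b) (wt x y) _ (two (v, i, (0 : Fin (R + 1))) (u, j, m))]
    have hW : ∀ σ : Gv V R → Fin 2, (∏ e ∈ win (Fin.last R) (Fin.last R) ∪ cts univ,
        (1 + wt x y e * (sgn (σ ((gr p q a b).s e)) * sgn (σ ((gr p q a b).t e))))) =
        P S (Fin.last R) (fun k v => σ (v, false, k)) * P S (Fin.last R) (fun k v => σ (v, true, k)) *
        (if (fun v => σ (v, false, (0 : Fin (R + 1)))) = (fun v => σ (v, true, (0 : Fin (R + 1))))
          then c else 0) := by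
      intro σ
      have := wun _ _ σ (d1 (Fin.last R) (Fin.last R))
      rw [wwin, wcts] at this
      exact this
    have p5 := part5 h2 hS c R (fun s : Cf V => sgn (s v)) (fun s => sgn (s u)) m
    rw [tot, show zz v = Matrix.diagonal (fun s : Cf V => sgn (s v)) from rfl,
      show zz u = Matrix.diagonal (fun s : Cf V => sgn (s u)) from rfl, ← p5]
    have key : ∀ σ : Gv V R → Fin 2, (∏ w, if two (v, i, (0 : Fin (R + 1))) (u, j, m) w = 1
        then sgn (σ w) else 1) * (∏ e ∈ win (Fin.last R) (Fin.last R) ∪ cts univ,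
        (1 + wt x y e * (sgn (σ ((gr p q a b).s e)) * sgn (σ ((gr p q a b).t e))))) =
        (sgn (σ (v, !j, 0)) * sgn (σ (u, j, m))) *
        (P S (Fin.last R) (fun k v => σ (v, false, k)) * P S (Fin.last R) (fun k v => σ (v, true, k)) *
        (if (fun v => σ (v, false, (0 : Fin (R + 1)))) = (fun v => σ (v, true, (0 : Fin (R + 1))))
          then c else 0)) := by
      intro σ
      rw [prod_two, hW]
      by_cases h0 : (fun v => σ (v, false, (0 : Fin (R + 1)))) =
          (fun v => σ (v, true, (0 : Fin (R + 1))))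
      · have h00 : σ (v, false, (0 : Fin (R + 1))) = σ (v, true, 0) := congrFun h0 v
        have : σ (v, i, (0 : Fin (R + 1))) = σ (v, !j, 0) := by
          cases i <;> cases j <;> simp [h00]
        rw [this]
      · simp [h0]
    rw [Finset.sum_congr rfl fun σ _ => key σ]
    cases j with
    | true =>
      exact h4 (V := V) R (fun L L' => (sgn (L 0 v) * sgn (L' m u)) *
        (P S (Fin.last R) L * P S (Fin.last R) L' * (if L 0 = L' 0 then c else 0)))
    | false =>
      have e := h4 (V := V) R (fun L L' => (sgn (L' 0 v) * sgn (L m u)) *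
        (P S (Fin.last R) L * P S (Fin.last R) L' * (if L 0 = L' 0 then c else 0)))
      refine Eq.trans e ?_
      rw [Finset.sum_comm]
      refine Finset.sum_congr rfl fun L' _ => Finset.sum_congr rfl fun L _ => ?_
      by_cases h0 : L 0 = L' 0
      · rw [if_pos h0, if_pos h0.symm]
        ring
      · rw [if_neg h0, if_neg (fun h => h0 h.symm)]
        ring

end Pool.Agent.K6.H16.TF.EVAL
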