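import Pool.Agent.K6.H16.TF.Stm

/-!
# Piece EVALW: the products over the edges, in terms of the slices
-/

set_option autoImplicit false

open scoped BigOperators Matrix Topology
open Finset Filter Pool.Agent.TH981.LO

namespace Pool.Agent.K6.H16.TF.EVALW

theorem sgn_mul_eq (a b : Fin 2) : sgn a * sgn b = if a = b then 1 else -1 := by
  fin_cases a <;> fin_cases b <;> simp [sgn]

theorem prod_two {V : Type} [Fintype V] [DecidableEq V] (s t : V → Fin 2) :
    ∏ v, (1 + 1 * (sgn (s v) * sgn (t v))) = if s = t then (2 : ℝ) ^ Fintype.card V else 0 := by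
  split_ifs with h
  · subst h
    have h1 : ∀ v : V, (1 + 1 * (sgn (s v) * sgn (s v)) : ℝ) = 2 := by
      intro v
      rw [sgn_mul_eq]
      norm_num
    simp only [h1, Finset.prod_const, Finset.card_univ]
  · have h1 : ∃ v, s v ≠ t v := by
      by_contra hc
      push Not at hc
      exact h (funext hc)
    obtain ⟨v, hv⟩ := h1
    apply Finset.prod_eq_zero (Finset.mem_univ v)
    rw [sgn_mul_eq, if_neg hv]
    norm_num

section

variable {V ι : Type} [Fintype V] [DecidableEq V] [Fintype ι] [DecidableEq ι] (R : ℕ) (p q : ι → V)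
    (x : ι → ℝ) (y : ℝ) (a' b' : Fin (R + 1)) (σ : Gv V R → Fin 2)

/-- the factors of the product over the window -/
noncomputable def gg : Ge V ι R → ℝ
  | .inl (d, k, z, i) => if (k : ℕ) < (if d then (b' : ℕ) else (a' : ℕ)) then
      (1 + x i * (sgn (σ (p i, d, if z then k.succ else k.castSucc)) *
        sgn (σ (q i, d, if z then k.succ else k.castSucc)))) else 1
  | .inr (.inl (d, k, v)) => if (k : ℕ) < (if d then (b' : ℕ) else (a' : ℕ)) then
      (1 + y * (sgn (σ (v, d, k.castSucc)) * sgn (σ (v, d, k.succ)))) else 1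
  | .inr (.inr _) => 1

omit [DecidableEq V] [DecidableEq ι] in
theorem key (d : Bool) (c : ℕ) :
    (∏ k : Fin R, ∏ z : Bool, ∏ i : ι, if (k : ℕ) < c then
      (1 + x i * (sgn (σ (p i, d, if z then k.succ else k.castSucc)) *
        sgn (σ (q i, d, if z then k.succ else k.castSucc)))) else 1) *
      (∏ k : Fin R, ∏ v : V, if (k : ℕ) < c then
        (1 + y * (sgn (σ (v, d, k.castSucc)) * sgn (σ (v, d, k.succ)))) else 1) =
    ∏ k : Fin R, (if (k : ℕ) < c then stp p q x y (fun v => σ (v, d, k.castSucc))
          (fun v => σ (v, d, k.succ)) else 1) := by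
  rw [← Finset.prod_mul_distrib]
  apply Finset.prod_congr rfl
  intro k _
  by_cases h : (k : ℕ) < c
  · simp only [h, if_true, Fintype.prod_bool, stp, Bool.false_eq_true, if_false]
    ring
  · simp [h]

omit [DecidableEq V] [DecidableEq ι] in
theorem prod_win (a b : Fin (R + 1)) :
    ∏ e ∈ win (V := V) (ι := ι) a' b', (1 + wt x y e *
        (sgn (σ ((gr p q a b).s e)) * sgn (σ ((gr p q a b).t e)))) =
      (∏ k : Fin R, (if (k : ℕ) < a' then stp p q x y (fun v => σ (v, false, k.castSucc))
          (fun v => σ (v, false, k.succ)) else 1)) *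
        ∏ k : Fin R, (if (k : ℕ) < b' then stp p q x y (fun v => σ (v, true, k.castSucc))
          (fun v => σ (v, true, k.succ)) else 1) := by
  have h1 : ∏ e ∈ win (V := V) (ι := ι) a' b', (1 + wt x y e *
        (sgn (σ ((gr p q a b).s e)) * sgn (σ ((gr p q a b).t e)))) =
      ∏ e : Ge V ι R, gg R p q x y a' b' σ e := by
    unfold win
    rw [Finset.prod_filter]
    apply Finset.prod_congr rfl
    rintro (⟨d, k, z, i⟩ | ⟨d, k, v⟩ | v | v) _
    · by_cases h : (k : ℕ) < (if d then (b' : ℕ) else (a' : ℕ))
      · simp only [inw, gg, h, if_true, wt, gr, gs, gt]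
      · simp only [inw, gg, h, if_false]
    · by_cases h : (k : ℕ) < (if d then (b' : ℕ) else (a' : ℕ))
      · simp only [inw, gg, h, if_true, wt, gr, gs, gt]
      · simp only [inw, gg, h, if_false]
    · exact if_neg (fun h => h)
    · exact if_neg (fun h => h)
  rw [h1, Fintype.prod_sum_type, Fintype.prod_sum_type]
  simp only [Fintype.prod_prod_type, gg, Finset.prod_const_one, mul_one]
  rw [Fintype.prod_bool (f := fun d => ∏ k : Fin R, ∏ z : Bool, ∏ i : ι, _),
    Fintype.prod_bool (f := fun d => ∏ k : Fin R, ∏ v : V, _)]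
  simp only [if_true, Bool.false_eq_true, if_false]
  rw [← key R p q x y σ false a', ← key R p q x y σ true b']
  ring

end

open Classical in
theorem mem_win_imp {V ι : Type} [Fintype V] [DecidableEq V] [Fintype ι] [DecidableEq ι] {R : ℕ}
    {a' b' : Fin (R + 1)} {e : Ge V ι R} (h : e ∈ win a' b') : inw a' b' e := by
  unfold win at h
  exact (Finset.mem_filter.1 h).2

/-- **Piece EVALW**. -/
theorem evalw : S_EVALW := by
  intro V ι _ _ _ _ R p q x y a b a' b' σ
  refine ⟨prod_win R p q x y a' b' σ a b, ?_, ?_, ?_, ?_, ?_⟩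
  · unfold cts
    rw [Finset.prod_image (by
      intro u _ v _ h
      simpa using h)]
    simp only [wt, gr, gs, gt]
    exact prod_two _ _
  · unfold frs
    rw [Finset.prod_image (by
      intro u _ v _ h
      simpa using h)]
    simp only [wt, gr, gs, gt]
    exact prod_two _ _
  · rw [Finset.disjoint_left]
    intro e he he'
    unfold cts at he'
    obtain ⟨v, _, rfl⟩ := Finset.mem_image.1 he'
    exact mem_win_imp he
  · rw [Finset.disjoint_left]
    intro e he he'
    unfold frs at he'
    obtain ⟨v, _, rfl⟩ := Finset.mem_image.1 he'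
    exact mem_win_imp he
  · rw [Finset.disjoint_left]
    intro e he he'
    unfold frs at he
    unfold cts at he'
    obtain ⟨v, _, rfl⟩ := Finset.mem_image.1 he'
    obtain ⟨u, _, hu⟩ := Finset.mem_image.1 he
    simp at hu

end Pool.Agent.K6.H16.TF.EVALW
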