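import Pool.Agent.K6.H16.TF.Stm

/-! Piece GAP1 of project TF (helper16), by helper88. -/

set_option autoImplicit false

open scoped BigOperators Matrix Topology
open Finset Filter

namespace Pool.Agent.K6.H16.TF.GAP1

theorem gap1 : S_GAP1 := by
  intro α _ _ E U l j₀ δ hU hE hl0 hδ hl
  have hU' : Uᵀ * U = 1 := mul_eq_one_comm.1 hU
  have hEU : E * U = U * Matrix.diagonal l := by
    rw [hE, Matrix.mul_assoc, hU', Matrix.mul_one]
  have hUE : Uᵀ * E = Matrix.diagonal l * Uᵀ := by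
    rw [hE, ← Matrix.mul_assoc, ← Matrix.mul_assoc, hU', Matrix.one_mul]
  have hpow : ∀ k : ℕ, E ^ k = U * Matrix.diagonal (fun j => l j ^ k) * Uᵀ := by
    intro k
    induction k with
    | zero => simp [hU]
    | succ k ih =>
      have h1 : Matrix.diagonal (fun j => l j ^ (k + 1)) =
          Matrix.diagonal (fun j => l j ^ k) * Matrix.diagonal l := by
        rw [Matrix.diagonal_mul_diagonal]
        congr 1
      calc E ^ (k + 1) = U * Matrix.diagonal (fun j => l j ^ k) * Uᵀ * E := by rw [pow_succ, ih]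
        _ = U * Matrix.diagonal (fun j => l j ^ k) * (Uᵀ * E) := by rw [Matrix.mul_assoc]
        _ = U * Matrix.diagonal (fun j => l j ^ k) * (Matrix.diagonal l * Uᵀ) := by rw [hUE]
        _ = U * (Matrix.diagonal (fun j => l j ^ k) * Matrix.diagonal l) * Uᵀ := by
          simp only [Matrix.mul_assoc]
        _ = _ := by rw [← h1]
  have hent : ∀ (k : ℕ) (s t : α), (E ^ k) s t = ∑ j, U s j * l j ^ k * U t j := by
    intro k s t
    rw [hpow, Matrix.mul_apply]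
    refine Finset.sum_congr rfl fun j _ => ?_
    rw [Matrix.mul_diagonal, Matrix.transpose_apply]
  have hlt : Real.exp (-δ) < 1 := by
    rw [Real.exp_lt_one_iff]
    linarith
  have hcol : ∀ i j : α, ∑ s, U s i * U s j = if i = j then 1 else 0 := by
    intro i j
    have h := congrFun (congrFun hU' i) j
    rw [Matrix.mul_apply, Matrix.one_apply] at h
    simpa only [Matrix.transpose_apply] using h
  have hnorm : ∀ f : α → ℝ, ∑ j, (Uᵀ *ᵥ f) j ^ 2 = ∑ s, f s ^ 2 := by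
    intro f
    have h1 : (Uᵀ *ᵥ f) ⬝ᵥ (Uᵀ *ᵥ f) = f ⬝ᵥ f := by
      rw [Matrix.dotProduct_mulVec, Matrix.vecMul_transpose, Matrix.mulVec_mulVec, hU, Matrix.one_mulVec]
    simpa only [dotProduct, ← sq] using h1
  refine ⟨?_, ?_, ?_, ?_, ?_, ?_⟩
  · refine tendsto_pi_nhds.2 fun s => tendsto_pi_nhds.2 fun t => ?_
    have e1 : (Matrix.of fun s t => U s j₀ * U t j₀) s t =
        ∑ j, (if j = j₀ then U s j₀ * U t j₀ else 0) := by
      rw [Finset.sum_ite_eq' Finset.univ j₀, if_pos (Finset.mem_univ _)]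
      rfl
    have e2 : (fun k : ℕ => ((l j₀ ^ k)⁻¹ • E ^ k) s t) =
        fun k : ℕ => ∑ j, U s j * U t j * (l j / l j₀) ^ k := by
      funext k
      rw [Matrix.smul_apply, hent, smul_eq_mul, Finset.mul_sum]
      refine Finset.sum_congr rfl fun j _ => ?_
      rw [div_pow]
      field_simp
    rw [e1, e2]
    refine tendsto_finsetSum _ fun j _ => ?_
    by_cases hj : j = j₀
    · subst hj
      have e3 : (fun k : ℕ => U s j * U t j * (l j / l j) ^ k) = fun _ => U s j * U t j := by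
        funext k
        rw [div_self hl0.ne', one_pow, mul_one]
      rw [e3, if_pos rfl]
      exact tendsto_const_nhds
    · rw [if_neg hj]
      obtain ⟨h0, h1⟩ := hl j hj
      have h2 : l j / l j₀ < 1 := by
        rw [div_lt_one hl0]
        calc l j ≤ l j₀ * Real.exp (-δ) := h1
          _ < l j₀ * 1 := mul_lt_mul_of_pos_left hlt hl0
          _ = l j₀ := mul_one _
      have h3 := (tendsto_pow_atTop_nhds_zero_of_lt_one (div_nonneg h0 hl0.le) h2).const_mul (U s j * U t j)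
      rwa [mul_zero] at h3
  · have h := hcol j₀ j₀
    rw [if_pos rfl] at h
    rw [← h]
    exact Finset.sum_congr rfl fun s _ => by ring
  · funext s
    have h := congrFun (congrFun hEU s) j₀
    rw [Matrix.mul_apply, Matrix.mul_diagonal] at h
    show ∑ t, E s t * U t j₀ = l j₀ * U s j₀
    rw [h]
    ring
  · intro f hf
    have h1 : ∀ j, l j * (Uᵀ *ᵥ f) j = l j₀ * (Uᵀ *ᵥ f) j := by
      intro j
      have h := congrArg (fun x => (Uᵀ *ᵥ x) j) hf
      simp only [Matrix.mulVec_mulVec, hUE, Matrix.mulVec_smul, Pi.smul_apply, smul_eq_mul] at h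
      rw [← h, ← Matrix.mulVec_mulVec, Matrix.mulVec_diagonal]
    have h2 : ∀ j, j ≠ j₀ → (Uᵀ *ᵥ f) j = 0 := by
      intro j hj
      have h3 := h1 j
      obtain ⟨h4, h5⟩ := hl j hj
      have h6 : l j < l j₀ := by
        calc l j ≤ l j₀ * Real.exp (-δ) := h5
          _ < l j₀ * 1 := mul_lt_mul_of_pos_left hlt hl0
          _ = l j₀ := mul_one _
      have h7 : (l j₀ - l j) * (Uᵀ *ᵥ f) j = 0 := by linarith
      rcases mul_eq_zero.1 h7 with h | h
      · linarith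
      · exact h
    refine ⟨(Uᵀ *ᵥ f) j₀, ?_⟩
    have h3 : f = U *ᵥ (Uᵀ *ᵥ f) := by
      rw [Matrix.mulVec_mulVec, hU, Matrix.one_mulVec]
    funext s
    have h4 := congrFun h3 s
    rw [h4]
    show ∑ j, U s j * (Uᵀ *ᵥ f) j = (Uᵀ *ᵥ f) j₀ * U s j₀
    rw [Finset.sum_eq_single j₀]
    · ring
    · intro j _ hj
      rw [h2 j hj, mul_zero]
    · intro h
      exact absurd (Finset.mem_univ _) h
  · intro k
    have h1 : (E ^ k).trace = ∑ j, l j ^ k := by
      rw [hpow, Matrix.trace_mul_comm, ← Matrix.mul_assoc, hU', Matrix.one_mul, Matrix.trace_diagonal]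
    rw [h1]
    refine Finset.single_le_sum (f := fun j => l j ^ k) (fun j _ => ?_) (Finset.mem_univ j₀)
    by_cases hj : j = j₀
    · rw [hj]; positivity
    · exact pow_nonneg (hl j hj).1 k
  · intro f g hf hf1 hg1
    have h0 : (Uᵀ *ᵥ f) j₀ = 0 := by
      show ∑ s, U s j₀ * f s = 0
      rw [← hf]
      exact Finset.sum_congr rfl fun s _ => by ring
    have h1 : g ⬝ᵥ (E *ᵥ f) = ∑ j, (Uᵀ *ᵥ g) j * (l j * (Uᵀ *ᵥ f) j) := by
      have h2 : E *ᵥ f = U *ᵥ (Matrix.diagonal l *ᵥ (Uᵀ *ᵥ f)) := by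
        rw [Matrix.mulVec_mulVec, Matrix.mulVec_mulVec, hE]
      have h3 : g ᵥ* U = Uᵀ *ᵥ g := by
        rw [Matrix.mulVec_transpose]
      rw [h2, Matrix.dotProduct_mulVec, h3]
      show ∑ j, (Uᵀ *ᵥ g) j * (Matrix.diagonal l *ᵥ (Uᵀ *ᵥ f)) j = _
      refine Finset.sum_congr rfl fun j _ => ?_
      rw [Matrix.mulVec_diagonal]
    have hpos : 0 ≤ l j₀ * Real.exp (-δ) := by positivity
    have h2 : ∀ j, (Uᵀ *ᵥ g) j * (l j * (Uᵀ *ᵥ f) j) ≤
        l j₀ * Real.exp (-δ) * (((Uᵀ *ᵥ g) j ^ 2 + (Uᵀ *ᵥ f) j ^ 2) / 2) := by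
      intro j
      by_cases hj : j = j₀
      · rw [hj, h0]
        simp only [mul_zero]
        positivity
      · obtain ⟨h4, h5⟩ := hl j hj
        have h6 : (Uᵀ *ᵥ g) j * (Uᵀ *ᵥ f) j ≤ ((Uᵀ *ᵥ g) j ^ 2 + (Uᵀ *ᵥ f) j ^ 2) / 2 := by
          nlinarith [sq_nonneg ((Uᵀ *ᵥ g) j - (Uᵀ *ᵥ f) j)]
        have h7 : 0 ≤ ((Uᵀ *ᵥ g) j ^ 2 + (Uᵀ *ᵥ f) j ^ 2) / 2 := by positivity
        calc (Uᵀ *ᵥ g) j * (l j * (Uᵀ *ᵥ f) j) = l j * ((Uᵀ *ᵥ g) j * (Uᵀ *ᵥ f) j) := by ring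
          _ ≤ l j * (((Uᵀ *ᵥ g) j ^ 2 + (Uᵀ *ᵥ f) j ^ 2) / 2) := mul_le_mul_of_nonneg_left h6 h4
          _ ≤ _ := mul_le_mul_of_nonneg_right h5 h7
    rw [h1]
    calc ∑ j, (Uᵀ *ᵥ g) j * (l j * (Uᵀ *ᵥ f) j) ≤
        ∑ j, l j₀ * Real.exp (-δ) * (((Uᵀ *ᵥ g) j ^ 2 + (Uᵀ *ᵥ f) j ^ 2) / 2) :=
          Finset.sum_le_sum fun j _ => h2 j
      _ = l j₀ * Real.exp (-δ) * ((∑ s, g s ^ 2 + ∑ s, f s ^ 2) / 2) := by
        rw [← Finset.mul_sum, ← Finset.sum_div, Finset.sum_add_distrib, hnorm, hnorm]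
      _ ≤ l j₀ * Real.exp (-δ) * 1 := by
        refine mul_le_mul_of_nonneg_left ?_ hpos
        linarith
      _ = _ := mul_one _

end Pool.Agent.K6.H16.TF.GAP1
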