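import Pool.Agent.K6.H16.TF.Stm

/-! Piece GAP2 of project TF (helper16), by helper88. -/

set_option autoImplicit false

open scoped BigOperators Matrix Topology
open Finset Filter

namespace Pool.Agent.K6.H16.TF.GAP2

theorem tot_smul {V : Type} [Fintype V] [DecidableEq V] (c : ℝ) (M : Mx V) : tot (c • M) = c * tot M := by
  unfold tot
  simp only [Matrix.smul_apply, smul_eq_mul, Finset.mul_sum]

theorem tot_cont {V : Type} [Fintype V] [DecidableEq V] : Continuous (fun M : Mx V => tot M) := by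
  unfold tot
  exact continuous_finsetSum _ fun s _ => continuous_finsetSum _ fun t _ =>
    Continuous.matrix_elem continuous_id s t

theorem sgn_sq (a : Fin 2) : sgn a ^ 2 = 1 := by
  unfold sgn
  split_ifs <;> norm_num

theorem sgn_flip (a : Fin 2) : sgn (1 - a) = - sgn a := by
  fin_cases a <;> simp [sgn]

theorem gfl_gfl {V : Type} (s : Cf V) : gfl (gfl s) = s := by
  funext v
  show 1 - (1 - s v) = s v
  exact sub_sub_cancel 1 (s v)

theorem sum_gfl {V : Type} [Fintype V] [DecidableEq V] (f : Cf V → ℝ) : ∑ s, f (gfl s) = ∑ s, f s :=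
  Equiv.sum_comp (Function.Involutive.toPerm gfl gfl_gfl) f

/-- the matrix `w wᵀ` -/
def PP {V : Type} (w : Cf V → ℝ) : Mx V := Matrix.of fun s t => w s * w t

theorem tot_PP {V : Type} [Fintype V] [DecidableEq V] (w : Cf V → ℝ) :
    tot (PP w) = (∑ s, w s) * ∑ s, w s := by
  unfold tot PP
  rw [Finset.sum_mul_sum]
  rfl

theorem tot_PXP {V : Type} [Fintype V] [DecidableEq V] (w : Cf V → ℝ) (X : Mx V) :
    tot (PP w * X * PP w) = (∑ s, w s) * (w ⬝ᵥ (X *ᵥ w)) * ∑ s, w s := by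
  have h1 : ∀ s t, (PP w * X * PP w) s t = w s * (w ⬝ᵥ (X *ᵥ w)) * w t := by
    intro s t
    rw [Matrix.mul_assoc, Matrix.mul_apply]
    have h2 : ∀ a, (X * PP w) a t = (X *ᵥ w) a * w t := by
      intro a
      rw [Matrix.mul_apply]
      show ∑ b, X a b * (w b * w t) = (∑ b, X a b * w b) * w t
      rw [Finset.sum_mul]
      exact Finset.sum_congr rfl fun b _ => by ring
    show ∑ a, (w s * w a) * (X * PP w) a t = w s * (∑ a, w a * (X *ᵥ w) a) * w t
    rw [Finset.mul_sum, Finset.sum_mul]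
    refine Finset.sum_congr rfl fun a _ => ?_
    rw [h2]
    ring
  unfold tot
  simp only [h1]
  rw [Finset.sum_mul, Finset.sum_mul]
  refine Finset.sum_congr rfl fun s _ => ?_
  rw [Finset.mul_sum]

theorem gap2 (h : S_GAP1) : S_GAP2 := by
  intro V _ _ E U l j₀ δ hU hE hl0 hδ hl hpos hgfl hmain
  obtain ⟨hT, hn, hev, huniq, htr, hbd⟩ := h E U l j₀ δ hU hE hl0 hδ hl
  obtain ⟨w, hw⟩ : ∃ w : Cf V → ℝ, w = fun s => U s j₀ := ⟨_, rfl⟩
  have hwU : ∀ s, U s j₀ = w s := fun s => by rw [hw]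
  simp only [hwU] at hn hbd
  rw [← hw] at hev huniq
  have hT' : Tendsto (fun k : ℕ => (l j₀ ^ k)⁻¹ • E ^ k) atTop (𝓝 (PP w)) := by
    have e : PP w = Matrix.of fun s t => U s j₀ * U t j₀ := by rw [hw]; rfl
    rw [e]
    exact hT
  obtain ⟨lam, hlam⟩ : ∃ lam : ℝ, lam = l j₀ := ⟨_, rfl⟩
  rw [← hlam] at hl0 hev huniq htr hbd hT' ⊢
  -- the eigenvector and the flip
  have hflip : ∀ s, w (gfl s) ^ 2 = w s ^ 2 := by
    have h1 : E *ᵥ (fun s => w (gfl s)) = lam • fun s => w (gfl s) := by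
      funext s
      show ∑ t, E s t * w (gfl t) = lam * w (gfl s)
      have h2 : ∑ t, E s t * w (gfl t) = ∑ t, E (gfl s) t * w t := by
        rw [← sum_gfl (fun t => E (gfl s) t * w t)]
        refine Finset.sum_congr rfl fun t _ => ?_
        show E s t * w (gfl t) = E (gfl s) (gfl t) * w (gfl t)
        rw [hgfl]
      rw [h2]
      exact congrFun hev (gfl s)
    obtain ⟨c, hc⟩ := huniq _ h1
    have h3 : ∀ s, w (gfl s) = c * w s := fun s => congrFun hc s
    have h4 : c ^ 2 = 1 := by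
      have h5 : ∑ s, w (gfl s) ^ 2 = 1 := by
        rw [sum_gfl (fun s => w s ^ 2)]
        exact hn
      simp only [h3, mul_pow] at h5
      rw [← Finset.mul_sum, hn, mul_one] at h5
      exact h5
    intro s
    rw [h3, mul_pow, h4, one_mul]
  have hzero : ∀ u : V, ∑ s, (sgn (s u) * w s) * w s = 0 := by
    intro u
    have h1 : ∑ s, (sgn (s u) * w s) * w s = - ∑ s, (sgn (s u) * w s) * w s := by
      calc ∑ s, (sgn (s u) * w s) * w s = ∑ s : Cf V, (sgn (gfl s u) * w (gfl s)) * w (gfl s) :=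
            (sum_gfl (fun s => (sgn (s u) * w s) * w s)).symm
        _ = ∑ s, -((sgn (s u) * w s) * w s) := by
          refine Finset.sum_congr rfl fun s _ => ?_
          have h2 : sgn (gfl s u) = - sgn (s u) := sgn_flip (s u)
          have h3 := hflip s
          rw [h2]
          linear_combination (- sgn (s u)) * h3
        _ = _ := Finset.sum_neg_distrib _
    linarith
  have hone : ∀ u : V, ∑ s, (sgn (s u) * w s) ^ 2 ≤ 1 := by
    intro u
    have h1 : ∑ s, (sgn (s u) * w s) ^ 2 = ∑ s, w s ^ 2 :=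
      Finset.sum_congr rfl fun s _ => by rw [mul_pow, sgn_sq, one_mul]
    rw [h1, hn]
  -- the total mass
  obtain ⟨W, hW⟩ : ∃ W : ℝ, W = ∑ s, w s := ⟨_, rfl⟩
  have htot : Tendsto (fun k : ℕ => (lam ^ k)⁻¹ * tot (E ^ k)) atTop (𝓝 (W * W)) := by
    have h1 := (tot_cont.tendsto (PP w)).comp hT'
    rw [tot_PP, ← hW] at h1
    refine h1.congr fun k => ?_
    exact tot_smul _ _
  have hEk : ∀ (k : ℕ) (s t : Cf V), 0 ≤ (E ^ k) s t := by
    intro k
    induction k with
    | zero =>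
      intro s t
      rw [pow_zero, Matrix.one_apply]
      split_ifs <;> norm_num
    | succ k ih =>
      intro s t
      rw [pow_succ, Matrix.mul_apply]
      exact Finset.sum_nonneg fun j _ => mul_nonneg (ih s j) (hpos j t)
  have htt : ∀ k : ℕ, lam ^ k ≤ tot (E ^ k) := by
    intro k
    refine (htr k).trans ?_
    unfold tot Matrix.trace
    refine Finset.sum_le_sum fun s _ => ?_
    exact Finset.single_le_sum (f := fun t => (E ^ k) s t) (fun t _ => hEk k s t) (Finset.mem_univ s)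
  have hW1 : 1 ≤ W * W := by
    refine ge_of_tendsto htot (Eventually.of_forall fun k => ?_)
    have hp : 0 < lam ^ k := by positivity
    rw [← div_eq_inv_mul, le_div_iff₀ hp, one_mul]
    exact htt k
  have hW0 : 0 < W * W := by linarith
  -- the quadratic form
  have hq : ∀ u v : V, w ⬝ᵥ ((zz v * E * zz u) *ᵥ w) ≤ lam * Real.exp (-δ) := by
    intro u v
    have h1 : w ⬝ᵥ ((zz v * E * zz u) *ᵥ w) = (fun s => sgn (s v) * w s) ⬝ᵥ
        (E *ᵥ fun s => sgn (s u) * w s) := by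
      have h2 : (zz u : Mx V) *ᵥ w = fun s => sgn (s u) * w s := by
        funext s
        unfold zz
        rw [Matrix.mulVec_diagonal]
      rw [← Matrix.mulVec_mulVec, ← Matrix.mulVec_mulVec, h2]
      show ∑ s, w s * ((zz v : Mx V) *ᵥ (E *ᵥ fun s => sgn (s u) * w s)) s =
        ∑ s, (sgn (s v) * w s) * (E *ᵥ fun s => sgn (s u) * w s) s
      refine Finset.sum_congr rfl fun s _ => ?_
      unfold zz
      rw [Matrix.mulVec_diagonal]
      ring
    rw [h1]
    exact hbd _ _ (hzero u) (hone u) (hone v)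
  -- the bound for `κ > exp (-δ)`
  have key : ∀ κ : ℝ, Real.exp (-δ) < κ →
      (E ^ 4).trace ≤ Real.exp (8 * (Fintype.card V : ℝ) ^ 4 * κ ^ 2) * lam ^ 4 := by
    intro κ hκ
    have hκ0 : 0 < κ := (Real.exp_pos _).trans hκ
    have hev2 : ∀ᶠ n : ℕ in atTop, ∀ u v : V,
        tot (E ^ (n + 1) * zz v * E * zz u * E ^ n) < κ * tot (E ^ (2 * (n + 1))) := by
      refine Filter.eventually_all.2 fun u => Filter.eventually_all.2 fun v => ?_
      have hT1 : Tendsto (fun n : ℕ => (lam ^ (n + 1))⁻¹ • E ^ (n + 1)) atTop (𝓝 (PP w)) :=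
        hT'.comp (tendsto_add_atTop_nat 1)
      have hA : Tendsto (fun n : ℕ => tot (((lam ^ (n + 1))⁻¹ • E ^ (n + 1)) * (zz v * E * zz u) *
          ((lam ^ n)⁻¹ • E ^ n))) atTop (𝓝 (W * (w ⬝ᵥ ((zz v * E * zz u) *ᵥ w)) * W)) := by
        have h1 := (tot_cont.tendsto (PP w * (zz v * E * zz u) * PP w)).comp
          ((hT1.mul tendsto_const_nhds).mul hT')
        rw [tot_PXP, ← hW] at h1
        exact h1
      have hB : Tendsto (fun n : ℕ => κ * lam * ((lam ^ (2 * (n + 1)))⁻¹ * tot (E ^ (2 * (n + 1)))))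
          atTop (𝓝 (κ * lam * (W * W))) := by
        refine Tendsto.const_mul _ (htot.comp ?_)
        exact tendsto_atTop_mono (fun n => by show n ≤ 2 * (n + 1); omega) tendsto_id
      have hlt : W * (w ⬝ᵥ ((zz v * E * zz u) *ᵥ w)) * W < κ * lam * (W * W) := by
        have h1 := hq u v
        calc W * (w ⬝ᵥ ((zz v * E * zz u) *ᵥ w)) * W = (w ⬝ᵥ ((zz v * E * zz u) *ᵥ w)) * (W * W) := by ring
          _ ≤ (lam * Real.exp (-δ)) * (W * W) := mul_le_mul_of_nonneg_right h1 hW0.le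
          _ < (lam * κ) * (W * W) :=
            mul_lt_mul_of_pos_right (mul_lt_mul_of_pos_left hκ hl0) hW0
          _ = _ := by ring
      filter_upwards [hA.eventually_lt hB hlt] with n hn'
      have hp : 0 < lam ^ (2 * n + 1) := by positivity
      have e1 : tot (((lam ^ (n + 1))⁻¹ • E ^ (n + 1)) * (zz v * E * zz u) * ((lam ^ n)⁻¹ • E ^ n)) *
          lam ^ (2 * n + 1) = tot (E ^ (n + 1) * zz v * E * zz u * E ^ n) := by
        have e2 : ((lam ^ (n + 1))⁻¹ • E ^ (n + 1)) * (zz v * E * zz u) * ((lam ^ n)⁻¹ • E ^ n) =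
            ((lam ^ (n + 1))⁻¹ * (lam ^ n)⁻¹) • (E ^ (n + 1) * zz v * E * zz u * E ^ n) := by
          rw [smul_mul_assoc, smul_mul_assoc, mul_smul_comm, smul_smul]
          simp only [Matrix.mul_assoc]
        rw [e2, tot_smul]
        have e3 : lam ^ (2 * n + 1) = lam ^ (n + 1) * lam ^ n := by ring
        rw [e3]
        have h1 : lam ^ (n + 1) ≠ 0 := by positivity
        have h2 : lam ^ n ≠ 0 := by positivity
        field_simp
      have e4 : κ * lam * ((lam ^ (2 * (n + 1)))⁻¹ * tot (E ^ (2 * (n + 1)))) * lam ^ (2 * n + 1) =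
          κ * tot (E ^ (2 * (n + 1))) := by
        have e3 : lam ^ (2 * (n + 1)) = lam * lam ^ (2 * n + 1) := by ring
        rw [e3]
        have h1 : lam ^ (2 * n + 1) ≠ 0 := by positivity
        have h2 : lam ≠ 0 := hl0.ne'
        field_simp
      rw [← e1, ← e4]
      exact mul_lt_mul_of_pos_right hn' hp
    -- the inequality for all k
    have hk : ∀ k : ℕ, 2 ≤ k → (E ^ 4).trace * tot (E ^ k) ≤
        Real.exp (8 * (Fintype.card V : ℝ) ^ 4 * κ ^ 2) * tot (E ^ (k + 4)) := by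
      intro k hk2
      obtain ⟨n, hn1, hn2⟩ := (hev2.and (eventually_ge_atTop (k + 4))).exists
      exact hmain k (n + 1) κ hk2 (by omega) (by omega) hκ0.le fun u v => hn1 u v
    have hlim : (E ^ 4).trace * (W * W) ≤
        Real.exp (8 * (Fintype.card V : ℝ) ^ 4 * κ ^ 2) * lam ^ 4 * (W * W) := by
      have h1 : Tendsto (fun k : ℕ => (E ^ 4).trace * ((lam ^ k)⁻¹ * tot (E ^ k))) atTop
          (𝓝 ((E ^ 4).trace * (W * W))) := htot.const_mul _
      have h2 : Tendsto (fun k : ℕ => Real.exp (8 * (Fintype.card V : ℝ) ^ 4 * κ ^ 2) * lam ^ 4 *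
          ((lam ^ (k + 4))⁻¹ * tot (E ^ (k + 4)))) atTop
          (𝓝 (Real.exp (8 * (Fintype.card V : ℝ) ^ 4 * κ ^ 2) * lam ^ 4 * (W * W))) :=
        (htot.comp (tendsto_add_atTop_nat 4)).const_mul _
      refine le_of_tendsto_of_tendsto h1 h2 ?_
      filter_upwards [eventually_ge_atTop 2] with k hk2
      have h3 := hk k hk2
      have hp : 0 < lam ^ k := by positivity
      have h4 : Real.exp (8 * (Fintype.card V : ℝ) ^ 4 * κ ^ 2) * lam ^ 4 *
          ((lam ^ (k + 4))⁻¹ * tot (E ^ (k + 4))) =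
          (lam ^ k)⁻¹ * (Real.exp (8 * (Fintype.card V : ℝ) ^ 4 * κ ^ 2) * tot (E ^ (k + 4))) := by
        have e3 : lam ^ (k + 4) = lam ^ k * lam ^ 4 := by ring
        rw [e3]
        have h5 : lam ^ k ≠ 0 := hp.ne'
        have h6 : lam ^ 4 ≠ 0 := by positivity
        field_simp
      rw [h4]
      calc (E ^ 4).trace * ((lam ^ k)⁻¹ * tot (E ^ k)) = (lam ^ k)⁻¹ * ((E ^ 4).trace * tot (E ^ k)) := by ring
        _ ≤ _ := mul_le_mul_of_nonneg_left h3 (by positivity)
    exact le_of_mul_le_mul_right hlim hW0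
  -- the limit
  have hc : Continuous fun κ : ℝ => Real.exp (8 * (Fintype.card V : ℝ) ^ 4 * κ ^ 2) * lam ^ 4 := by
    fun_prop
  have h1 : Tendsto (fun κ : ℝ => Real.exp (8 * (Fintype.card V : ℝ) ^ 4 * κ ^ 2) * lam ^ 4)
      (𝓝[>] (Real.exp (-δ)))
      (𝓝 (Real.exp (8 * (Fintype.card V : ℝ) ^ 4 * (Real.exp (-δ)) ^ 2) * lam ^ 4)) :=
    (hc.tendsto _).mono_left nhdsWithin_le_nhds
  have e5 : Real.exp (-(2 * δ)) = Real.exp (-δ) ^ 2 := by
    rw [← Real.exp_nat_mul]
    congr 1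
    push_cast
    ring
  rw [e5]
  refine ge_of_tendsto h1 ?_
  filter_upwards [self_mem_nhdsWithin] with κ hκ
  exact key κ hκ

end Pool.Agent.K6.H16.TF.GAP2
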