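import Pool.Agent.K6.H16.TF.Stm
import Pool.Agent.TH981.LO.Corr
import Pool.Agent.TH304.J448
import Pool.Agent.Helper863_DC.Api
import Pool.Agent.Helper863_DC.G1
import Pool.Agent.Helper863_DC.G2
import Pool.Agent.Helper863_DC.G3
import Pool.Agent.Helper863_DC.G4

/-!
# Lebowitz' inequality on finite graphs (seat helper52, piece LEB of call16c)
-/

set_option autoImplicit false

open Pool.Agent.TH981.LO

namespace Pool.Agent.K6.H16.TF.LEB

open Pool.Agent.H863

theorem cmono : S_CMONO := Pool.Agent.TH981.LO.Main.cmono Pool.Agent.TH304.J448.holley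
theorem a5 : S_A5 := (Pool.Agent.H863.G4.target G1.target G2.target).1
theorem a6 : S_A6 := (Pool.Agent.H863.G4.target G1.target G2.target).2
theorem a2 : S_A2 := (Pool.Agent.H863.G3.target G1.target G2.target a5 a6).1

theorem EK_gk_le {V E : Type} [DecidableEq V] [DecidableEq E] (G : MG V E) (w : E → ℝ)
    (F : Finset E) (h0 : ∀ e ∈ F, 0 ≤ w e) (h1 : ∀ e ∈ F, w e ≤ 1) (a b u v : V) :
    EK G w F a b (fun K => gk G w F K u v) ≤ G.corr w F (two a b) * G.corr w F (two u v) := by
  have hpf := EK_pf G h0 h1 a b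
  have e := EK_one G a2 h0 h1 a b
  have h3 : EK G w F a b (fun K => gk G w F K u v) ≤
      EK G w F a b (fun _ => G.corr w F (two u v) * 1) :=
    hpf.mono _ _ fun K => by
      rw [mul_one]
      exact gk_le G cmono h0 h1 K u v
  refine h3.trans (le_of_eq ?_)
  rw [hpf.smul, e, mul_comm]

theorem leb : S_LEB := by
  intro V E _ _ G w F x y u v h0 h1
  rw [a6 G w F x y u v h0 h1]
  exact add_le_add (EK_gk_le G w F h0 h1 x u y v) (EK_gk_le G w F h0 h1 x v y u)

end Pool.Agent.K6.H16.TF.LEB
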