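import Pool.Agent.K6.H16.TF.Stm

set_option autoImplicit false

/-! Piece POS (helper21). -/

open scoped BigOperators Matrix Topology
open Finset Filter

namespace Pool.Agent.K6.H16.TF

namespace POS

theorem sgn_one_sub (a : Fin 2) : sgn (1 - a) = -sgn a := by
  fin_cases a <;> simp [sgn]

theorem sgn_abs (a : Fin 2) : sgn a = 1 ∨ sgn a = -1 := by
  fin_cases a <;> simp [sgn]

theorem one_add_nonneg {r : ℝ} (h0 : 0 ≤ r) (h1 : r ≤ 1) (a b : Fin 2) :
    0 ≤ 1 + r * (sgn a * sgn b) := by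
  rcases sgn_abs a with h | h <;> rcases sgn_abs b with h' | h' <;> rw [h, h'] <;> nlinarith

variable {V ι : Type} [Fintype V] [DecidableEq V] [Fintype ι]

theorem stp_nonneg (p q : ι → V) (x : ι → ℝ) (y : ℝ) (hx : ∀ i, 0 ≤ x i ∧ x i ≤ 1) (hy0 : 0 ≤ y)
    (hy : y ≤ 1) (s t : Cf V) : 0 ≤ stp p q x y s t := by
  unfold stp
  refine mul_nonneg (mul_nonneg ?_ ?_) ?_
  · exact Finset.prod_nonneg fun i _ => one_add_nonneg (hx i).1 (hx i).2 _ _
  · exact Finset.prod_nonneg fun v _ => one_add_nonneg hy0 hy _ _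
  · exact Finset.prod_nonneg fun i _ => one_add_nonneg (hx i).1 (hx i).2 _ _

theorem stp_gfl (p q : ι → V) (x : ι → ℝ) (y : ℝ) (s t : Cf V) :
    stp p q x y (gfl s) (gfl t) = stp p q x y s t := by
  unfold stp gfl
  simp only [sgn_one_sub, neg_mul_neg]

omit [DecidableEq V] in
theorem gfl_gfl (s : Cf V) : gfl (gfl s) = s := by
  funext v
  simp [gfl]

/-- The global spin flip as an equivalence. -/
def ge : Cf V ≃ Cf V where
  toFun := gfl
  invFun := gfl
  left_inv := gfl_gfl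
  right_inv := gfl_gfl

theorem pow_nonneg' {M : Mx V} (h : ∀ s t, 0 ≤ M s t) (n : ℕ) : ∀ s t, 0 ≤ (M ^ n) s t := by
  induction n with
  | zero =>
    intro s t
    rw [pow_zero, Matrix.one_apply]
    split_ifs <;> norm_num
  | succ n ih =>
    intro s t
    rw [pow_succ, Matrix.mul_apply]
    exact Finset.sum_nonneg fun r _ => mul_nonneg (ih s r) (h r t)

theorem pow_gfl {M : Mx V} (h : ∀ s t, M (gfl s) (gfl t) = M s t) (n : ℕ) :
    ∀ s t, (M ^ n) (gfl s) (gfl t) = (M ^ n) s t := by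
  induction n with
  | zero =>
    intro s t
    rw [pow_zero, Matrix.one_apply, Matrix.one_apply]
    have : gfl s = gfl t ↔ s = t := (ge (V := V)).injective.eq_iff
    simp only [this]
  | succ n ih =>
    intro s t
    rw [pow_succ, Matrix.mul_apply, Matrix.mul_apply]
    rw [← (ge (V := V)).sum_comp]
    refine Finset.sum_congr rfl fun r _ => ?_
    show (M ^ n) (gfl s) (gfl r) * M (gfl r) (gfl t) = _
    rw [ih, h]

end POS

theorem pos (h1 : S_CHERN) (h2 : S_STPD) : S_POS := by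
  intro V ι _ _ _ _ p q J Γ τ hJ hΓ hτ
  obtain ⟨hF0, hFd⟩ := h2 p q J Γ
  set F : ℝ → Mx V := fun ε =>
    ((∏ i, Real.cosh (ε * J i / 2) ^ 2) * (Real.exp (ε * Γ) / 2) ^ Fintype.card V) •
      stp p q (fun i => Real.tanh (ε * J i / 2)) (Real.exp (-(2 * ε * Γ))) with hF
  have hlim := h1 F (hm p q J Γ) τ hF0 hFd
  have hx : ∀ (n : ℕ) (i : ι), 0 ≤ Real.tanh (τ / n * J i / 2) ∧ Real.tanh (τ / n * J i / 2) ≤ 1 := by
    intro n i
    refine ⟨?_, (Real.tanh_lt_one _).le⟩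
    rw [Real.tanh_eq_sinh_div_cosh]
    refine div_nonneg (Real.sinh_nonneg_iff.2 ?_) (Real.cosh_pos _).le
    have := hJ i
    positivity
  have hy : ∀ n : ℕ, 0 ≤ Real.exp (-(2 * (τ / n) * Γ)) ∧ Real.exp (-(2 * (τ / n) * Γ)) ≤ 1 := by
    intro n
    refine ⟨(Real.exp_pos _).le, Real.exp_le_one_iff.2 ?_⟩
    have : 0 ≤ 2 * (τ / n) * Γ := by positivity
    linarith
  have hc : ∀ n : ℕ, 0 < (∏ i, Real.cosh (τ / n * J i / 2) ^ 2) *
      (Real.exp (τ / n * Γ) / 2) ^ Fintype.card V := by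
    intro n
    refine mul_pos (Finset.prod_pos fun i _ => pow_pos (Real.cosh_pos _) 2) (pow_pos ?_ _)
    have := Real.exp_pos (τ / n * Γ)
    positivity
  have hFn : ∀ (n : ℕ) (s t : Cf V), 0 ≤ F (τ / n) s t := by
    intro n s t
    exact mul_nonneg (hc n).le (POS.stp_nonneg p q _ _ (hx n) (hy n).1 (hy n).2 s t)
  have hFg : ∀ (n : ℕ) (s t : Cf V), F (τ / n) (gfl s) (gfl t) = F (τ / n) s t := by
    intro n s t
    simp only [hF, Matrix.smul_apply, POS.stp_gfl]
  have hent : ∀ s t : Cf V, Tendsto (fun n : ℕ => (F (τ / n) ^ n) s t) atTop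
      (𝓝 (NormedSpace.exp (τ • hm p q J Γ) s t)) := by
    intro s t
    have hcont : Continuous fun A : Mx V => A s t := continuous_id.matrix_elem s t
    exact (hcont.tendsto _).comp hlim
  refine ⟨fun n i => Real.tanh (τ / n * J i / 2), fun n => Real.exp (-(2 * (τ / n) * Γ)),
    fun n => (∏ i, Real.cosh (τ / n * J i / 2) ^ 2) * (Real.exp (τ / n * Γ) / 2) ^ Fintype.card V,
    hx, hy, hc, hlim, ?_, ?_⟩
  · intro s t
    exact ge_of_tendsto' (hent s t) fun n => POS.pow_nonneg' (hFn n) n s t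
  · intro s t
    refine tendsto_nhds_unique (hent (gfl s) (gfl t)) ?_
    refine (hent s t).congr fun n => ?_
    exact (POS.pow_gfl (hFg n) n s t).symm

end Pool.Agent.K6.H16.TF
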