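import Pool.Agent.K6.H16.TF.Stm

/-!
Piece `QSTP` of the call `call16c` (MP_953b23_mp, statement of helper16, proof of helper95): the
step matrices satisfy the inequality `Qi`.
-/

set_option autoImplicit false

open scoped BigOperators Matrix Topology
open Finset Filter Pool.Agent.TH981.LO

namespace Pool.Agent.K6.H16.TF.QSTP

theorem Z_pos {V E : Type} [DecidableEq V] [DecidableEq E] (G : MG V E) (w : E → ℝ)
    (F : Finset E) (hw : ∀ e, 0 ≤ w e) : 0 < G.Z w F 0 := by
  classical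
  unfold MG.Z MG.L
  have h0 : (∅ : Finset E) ∈ F.powerset.filter (fun η => G.bd η = 0) :=
    Finset.mem_filter.mpr ⟨Finset.empty_mem_powerset F, by simp [MG.bd]⟩
  have h1 := Finset.single_le_sum (f := fun η : Finset E => (∏ e ∈ η, w e) * (1 : ℝ))
    (s := F.powerset.filter (fun η => G.bd η = 0))
    (fun η _ => mul_nonneg (Finset.prod_nonneg fun e _ => hw e) zero_le_one) h0
  have h2 : (0 : ℝ) < (∏ e ∈ (∅ : Finset E), w e) * 1 := by simp
  refine lt_of_lt_of_le h2 (le_trans h1 (le_of_eq ?_))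
  refine Finset.sum_congr ?_ fun _ _ => rfl
  ext η
  simp

theorem qstp (h1 : S_EVAL) (h2 : S_DECP) (h3 : S_TEL) : S_QSTP := by
  intro V ι _ _ _ _ p q x y hx hy0 hy1 a b b' R m κ hma hmb hab hbb' hb' hκ hyp
  set S : Mx V := stp p q x y with hS
  have haR : a ≤ R := by omega
  have hbR : b ≤ R := by omega
  have hmR : m ≤ R := by omega
  set A : Fin (R + 1) := ⟨a, by omega⟩ with hA
  set B : Fin (R + 1) := ⟨b, by omega⟩ with hB
  set A' : Fin (R + 1) := ⟨a + b, by omega⟩ with hA'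
  set B' : Fin (R + 1) := ⟨b', by omega⟩ with hB'
  set Mf : Fin (R + 1) := ⟨m, by omega⟩ with hMf
  have hw : ∀ e : Ge V ι R, 0 ≤ wt x y e := by
    intro e
    rcases e with ⟨d, k, z, i⟩ | ⟨d, k, v⟩ | v | v
    · exact (hx i).1
    · exact hy0
    · exact zero_le_one
    · exact zero_le_one
  obtain ⟨e1, e2, e3, e4, -⟩ := h1 R p q x y A B A' B'
  obtain ⟨-, -, f3, -, f5⟩ := h1 R p q x y A B (Fin.last R) (Fin.last R)
  set c : ℝ := (2 : ℝ) ^ Fintype.card V with hc
  set K : ℝ := 2 ^ Fintype.card (Gv V R) with hK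
  have hc0 : 0 < c := by positivity
  have hK0 : 0 < K := by positivity
  -- the hypothesis in terms of correlations
  have hZl : 0 < (gr p q A B).Z (wt x y) (win (Fin.last R) (Fin.last R) ∪ cts univ) 0 :=
    Z_pos _ _ _ hw
  have g3 : K * (gr p q A B).Z (wt x y) (win (Fin.last R) (Fin.last R) ∪ cts univ) 0 =
      c * tot (S ^ (2 * R)) := by
    rw [f3]
    have i1 : 2 * R - ((Fin.last R : Fin (R + 1)) : ℕ) - ((Fin.last R : Fin (R + 1)) : ℕ) + 1 = 1 := by
      rw [Fin.val_last]; omega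
    have i2 : ((Fin.last R : Fin (R + 1)) : ℕ) + ((Fin.last R : Fin (R + 1)) : ℕ) = 2 * R := by
      rw [Fin.val_last]; omega
    rw [i1, i2, pow_one]
  have hcorr : ∀ (u v : V) (i j : Bool),
      (gr p q A B).corr (wt x y) (win (Fin.last R) (Fin.last R) ∪ cts univ)
        (two (v, i, (0 : Fin (R + 1))) (u, j, Mf)) ≤ κ := by
    intro u v i j
    unfold MG.corr
    rw [div_le_iff₀ hZl]
    have g5 := f5 u v i j Mf
    have h5 : K * (gr p q A B).Z (wt x y) (win (Fin.last R) (Fin.last R) ∪ cts univ)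
        (two (v, i, (0 : Fin (R + 1))) (u, j, Mf)) ≤
        K * (κ * (gr p q A B).Z (wt x y) (win (Fin.last R) (Fin.last R) ∪ cts univ) 0) := by
      rw [g5]
      have h6 : K * (κ * (gr p q A B).Z (wt x y) (win (Fin.last R) (Fin.last R) ∪ cts univ) 0) =
          c * (κ * tot (S ^ (2 * R))) := by
        calc K * (κ * (gr p q A B).Z (wt x y) (win (Fin.last R) (Fin.last R) ∪ cts univ) 0) =
            κ * (K * (gr p q A B).Z (wt x y) (win (Fin.last R) (Fin.last R) ∪ cts univ) 0) := by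
              ring
          _ = κ * (c * tot (S ^ (2 * R))) := by rw [g3]
          _ = _ := by ring
      rw [h6]
      exact mul_le_mul_of_nonneg_left (hyp u v) hc0.le
    exact le_of_mul_le_mul_left h5 hK0
  set δ : ℝ := 8 * (Fintype.card V : ℝ) ^ 3 * κ ^ 2 with hδ
  have hδ0 : 0 ≤ δ := by positivity
  have htel := h3 R p q x y A B A' B' δ hx hy0 hy1 hδ0 (by
    intro C v₀ _
    exact h2 R p q x y A B A' B' Mf κ C v₀ hx hy0 hy1 hma hmb
      (by rw [hA, hA', Fin.mk_le_mk]; omega) (by rw [hB, hB', Fin.mk_le_mk]; exact hbb') hκ hcorr)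
  set Z1 := (gr p q A B).Z (wt x y) (win A B ∪ frs univ ∪ cts univ) 0 with hZ1
  set Z2 := (gr p q A B).Z (wt x y) (win A B ∪ frs univ) 0 with hZ2
  set Z3 := (gr p q A B).Z (wt x y) (win A' B' ∪ cts univ) 0 with hZ3
  set Z4 := (gr p q A B).Z (wt x y) (win A' B') 0 with hZ4
  have hZ2pos : 0 < Z2 := Z_pos _ _ _ hw
  have hexp : (Fintype.card V : ℝ) * δ = 8 * (Fintype.card V : ℝ) ^ 4 * κ ^ 2 := by
    rw [hδ]; ring
  rw [hexp] at htel
  set e : ℝ := Real.exp (8 * (Fintype.card V : ℝ) ^ 4 * κ ^ 2) with he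
  have vA : (A : ℕ) = a := rfl
  have vB : (B : ℕ) = b := rfl
  have vA' : (A' : ℕ) = a + b := rfl
  have vB' : (B' : ℕ) = b' := rfl
  rw [vA, vB] at e1 e2
  rw [vA', vB'] at e3 e4
  have ht2 : 0 < tot (S ^ (a + b)) := by
    have h : 0 < c ^ (2 * R - a - b + 1) * tot (S ^ (a + b)) := by
      rw [← e2]; exact mul_pos hK0 hZ2pos
    exact (pos_iff_pos_of_mul_pos h).mp (by positivity)
  -- multiply by `K²`
  have hmul : (K * Z1) * (K * Z4) ≤ e * ((K * Z2) * (K * Z3)) := by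
    have := mul_le_mul_of_nonneg_left htel (mul_pos hK0 hK0).le
    calc (K * Z1) * (K * Z4) = K * K * (Z1 * Z4) := by ring
      _ ≤ K * K * (e * (Z2 * Z3)) := this
      _ = _ := by ring
  rw [e1, e2, e3, e4] at hmul
  set n1 : ℕ := 2 * R - a - b with hn1
  set n2 : ℕ := 2 * R - (a + b) - b' with hn2
  have hfin : (c ^ (n1 + n2 + 2) * tot (S ^ (a + b))) *
        ((S ^ (a + b)).trace * tot (S ^ b')) ≤
      (c ^ (n1 + n2 + 2) * tot (S ^ (a + b))) * (e * tot (S ^ (a + b + b'))) := by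
    calc (c ^ (n1 + n2 + 2) * tot (S ^ (a + b))) *
        ((S ^ (a + b)).trace * tot (S ^ b'))
        = c ^ (n1 + 2) * (S ^ (a + b)).trace *
          (c ^ n2 * (tot (S ^ (a + b)) * tot (S ^ b'))) := by ring
      _ ≤ e * (c ^ (n1 + 1) * tot (S ^ (a + b)) * (c ^ (n2 + 1) * tot (S ^ (a + b + b')))) := hmul
      _ = _ := by ring
  exact le_of_mul_le_mul_left hfin (mul_pos (by positivity) ht2)

end Pool.Agent.K6.H16.TF.QSTP
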