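import Pool.Agent.K6.H16.TF.Stm

/-!
# Piece REORG: configurations of the space-time graph are pairs of chains
-/

set_option autoImplicit false

open scoped BigOperators Matrix Topology
open Finset Filter Pool.Agent.TH981.LO

namespace Pool.Agent.K6.H16.TF.REORG

/-- a configuration of the space-time graph is a pair of chains -/
def eqv (V : Type) (R : ℕ) :
    (Gv V R → Fin 2) ≃ (Fin (R + 1) → Cf V) × (Fin (R + 1) → Cf V) where
  toFun σ := (fun k v => σ (v, false, k), fun k v => σ (v, true, k))
  invFun L := fun g => if g.2.1 then L.2 g.2.2 g.1 else L.1 g.2.2 g.1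
  left_inv σ := by
    funext g
    obtain ⟨v, d, k⟩ := g
    cases d <;> simp
  right_inv L := by
    obtain ⟨L, L'⟩ := L
    simp

/-- **Piece REORG**. -/
theorem reorg : S_REORG := by
  intro V _ _ R f
  rw [← Fintype.sum_prod_type' f]
  exact Fintype.sum_equiv (eqv V R) _ _ (fun σ => rfl)

end Pool.Agent.K6.H16.TF.REORG
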