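import Pool.Agent.K6.H16.TF.Stm

set_option autoImplicit false

open scoped BigOperators Matrix Topology
open Finset Filter

namespace Pool.Agent.K6.H16.TF.SPEC

open Pool.Agent.K6.H16.TF
open Pool.Agent.TH235.PP Pool.Agent.Results.MP_953b23_mp.ThermalCriterion

section

variable {n : Type} [Fintype n] [DecidableEq n]

/-- diagonalisation of a real symmetric matrix -/
theorem diag (N : Matrix n n ℝ) (hN : N.IsSymm) : ∃ (U : Matrix n n ℝ) (ν : n → ℝ),
    U * Uᵀ = 1 ∧ Uᵀ * U = 1 ∧ N = U * Matrix.diagonal ν * Uᵀ := by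
  have hh : N.IsHermitian := by
    rw [Matrix.IsHermitian, Matrix.conjTranspose_eq_transpose_of_trivial]
    exact hN
  refine ⟨(hh.eigenvectorUnitary : Matrix n n ℝ), hh.eigenvalues, ?_, ?_, ?_⟩
  · have h := Matrix.mem_unitaryGroup_iff.1 hh.eigenvectorUnitary.2
    rw [Matrix.star_eq_conjTranspose, Matrix.conjTranspose_eq_transpose_of_trivial] at h
    exact h
  · have h := Matrix.mem_unitaryGroup_iff'.1 hh.eigenvectorUnitary.2
    rw [Matrix.star_eq_conjTranspose, Matrix.conjTranspose_eq_transpose_of_trivial] at h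
    exact h
  · have h := hh.spectral_theorem
    rw [Unitary.conjStarAlgAut_apply, Matrix.star_eq_conjTranspose,
      Matrix.conjTranspose_eq_transpose_of_trivial] at h
    exact h

theorem conj_pow (U D : Matrix n n ℝ) (h : Uᵀ * U = 1) (h' : U * Uᵀ = 1) (k : ℕ) :
    (U * D * Uᵀ) ^ k = U * D ^ k * Uᵀ := by
  induction k with
  | zero => rw [pow_zero, pow_zero, Matrix.mul_one, h']
  | succ k ih =>
    rw [pow_succ, ih, pow_succ]
    calc U * D ^ k * Uᵀ * (U * D * Uᵀ) = U * D ^ k * (Uᵀ * U) * D * Uᵀ := by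
          simp only [Matrix.mul_assoc]
      _ = _ := by rw [h, Matrix.mul_one]; simp only [Matrix.mul_assoc]

theorem exp_eq (U : Matrix n n ℝ) (ν : n → ℝ) (h : U * Uᵀ = 1) (h' : Uᵀ * U = 1) :
    NormedSpace.exp (U * Matrix.diagonal ν * Uᵀ) =
      U * Matrix.diagonal (fun j => Real.exp (ν j)) * Uᵀ := by
  have hinv : U⁻¹ = Uᵀ := Matrix.inv_eq_right_inv h
  have hu : IsUnit U := ⟨⟨U, Uᵀ, h, h'⟩, rfl⟩
  have e := Matrix.exp_conj U (Matrix.diagonal ν) hu
  rw [hinv, Matrix.exp_diagonal] at e
  rw [e]
  congr 3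
  funext j
  rw [Pi.coe_exp, Real.exp_eq_exp_ℝ]

end

theorem spec : S_SPEC := by
  intro n _ _ M H Δ τ ψ hH hM hHM hΔ hτ hψ hgg
  obtain ⟨E, hE, huniq, hgap⟩ := hgg
  have hNs : (-M).IsSymm := hM.neg
  obtain ⟨U, ν, hU, hU', hN⟩ := diag (-M) hNs
  -- the complexified columns
  set V : Matrix n n ℂ := U.map (fun r : ℝ => (r : ℂ)) with hV
  have hcol : ∀ j, H *ᵥ (fun s => (U s j : ℂ)) = (ν j : ℂ) • fun s => (U s j : ℂ) := by
    intro j
    have h1 : (-M) *ᵥ (fun s => U s j) = ν j • fun s => U s j := by
      have h2 : (-M) * U = U * Matrix.diagonal ν := by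
        rw [hN, Matrix.mul_assoc, hU', Matrix.mul_one]
      funext s
      have h3 := congrFun (congrFun h2 s) j
      rw [Matrix.mul_diagonal] at h3
      show ((-M) * U) s j = ν j * U s j
      rw [h3, mul_comm]
    funext s
    have h2 := congrFun h1 s
    simp only [Matrix.mulVec, dotProduct, Pi.smul_apply, smul_eq_mul] at h2 ⊢
    rw [hHM]
    simp only [Matrix.map_apply]
    exact_mod_cast h2
  have hcolne : ∀ j, (fun s => (U s j : ℂ)) ≠ 0 := by
    intro j h0
    have h1 := congrFun (congrFun hU' j) j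
    rw [Matrix.mul_apply, Matrix.one_apply_eq] at h1
    have h2 : ∀ s, U s j = 0 := by
      intro s
      have := congrFun h0 s
      simpa using this
    simp [h2] at h1
  have horth : ∀ i j, i ≠ j → ∑ s, U s i * U s j = 0 := by
    intro i j hij
    have h1 := congrFun (congrFun hU' i) j
    rw [Matrix.mul_apply, Matrix.one_apply_ne hij] at h1
    exact h1
  -- a column with eigenvalue `E`
  have hex : ∃ j, ν j = E := by
    by_contra hcon
    push Not at hcon
    have h0 : ∀ j, ∑ s, (U s j : ℂ) * ψ s = 0 := by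
      intro j
      -- `E (u_j, ψ) = (u_j, H ψ) = (H u_j, ψ) = ν j (u_j, ψ)`
      have hsym : ∀ s t, H s t = H t s := by
        intro s t
        rw [hHM]
        simp only [Matrix.map_apply]
        have := congrFun (congrFun hNs s) t
        rw [Matrix.transpose_apply] at this
        rw [this]
      have h1 : ∑ s, (U s j : ℂ) * (H *ᵥ ψ) s = ∑ s, (H *ᵥ (fun s => (U s j : ℂ))) s * ψ s := by
        simp only [Matrix.mulVec, dotProduct, Finset.mul_sum, Finset.sum_mul]
        rw [Finset.sum_comm]
        refine Finset.sum_congr rfl fun t _ => Finset.sum_congr rfl fun s _ => ?_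
        rw [hsym s t]
        ring
      rw [hE, hcol j] at h1
      simp only [Pi.smul_apply, smul_eq_mul] at h1
      have h2 : (E : ℂ) * ∑ s, (U s j : ℂ) * ψ s = (ν j : ℂ) * ∑ s, (U s j : ℂ) * ψ s := by
        rw [Finset.mul_sum, Finset.mul_sum]
        rw [show ∑ s, (E : ℂ) * ((U s j : ℂ) * ψ s) = ∑ s, (U s j : ℂ) * ((E : ℂ) * ψ s) from
          Finset.sum_congr rfl fun s _ => by ring, h1]
        exact Finset.sum_congr rfl fun s _ => by ring
      have h3 : ((E : ℂ) - ν j) * ∑ s, (U s j : ℂ) * ψ s = 0 := by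
        rw [sub_mul, h2, sub_self]
      rcases mul_eq_zero.1 h3 with h4 | h4
      · exfalso
        apply hcon j
        have : (E : ℂ) = (ν j : ℂ) := sub_eq_zero.1 h4
        exact_mod_cast this.symm
      · exact h4
    have hψ0 : ψ = 0 := by
      funext t
      have h1 : ∑ j, (U t j : ℂ) * ∑ s, (U s j : ℂ) * ψ s = 0 := by
        simp [h0]
      have h2 : ∑ j, (U t j : ℂ) * ∑ s, (U s j : ℂ) * ψ s = ψ t := by
        simp only [Finset.mul_sum]
        rw [Finset.sum_comm]
        have h3 : ∀ s, ∑ j, (U t j : ℂ) * ((U s j : ℂ) * ψ s) =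
            (if t = s then 1 else 0) * ψ s := by
          intro s
          have h4 := congrFun (congrFun hU t) s
          rw [Matrix.mul_apply, Matrix.one_apply] at h4
          have h5 : ∑ j, (U t j : ℂ) * (U s j : ℂ) = if t = s then 1 else 0 := by
            have h6 := congrArg (fun r : ℝ => (r : ℂ)) h4
            simp only [Matrix.transpose_apply] at h6
            push_cast at h6
            rw [h6]
            split_ifs <;> simp
          rw [← h5, Finset.sum_mul]
          exact Finset.sum_congr rfl fun j _ => by ring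
        rw [Finset.sum_congr rfl fun s _ => h3 s]
        simp
      rw [← h2, h1]
      rfl
    rw [hψ0] at hψ
    unfold normSq at hψ
    simp at hψ
  obtain ⟨j₀, hj₀⟩ := hex
  have hother : ∀ j, j ≠ j₀ → E + Δ ≤ ν j := by
    intro j hj
    rcases hgap (ν j) _ (hcolne j) (hcol j) with h | h
    · exfalso
      obtain ⟨c, hc⟩ := huniq (fun s => (U s j : ℂ)) (by rw [hcol j, h])
      obtain ⟨c', hc'⟩ := huniq (fun s => (U s j₀ : ℂ)) (by rw [hcol j₀, hj₀])
      have hc0 : c ≠ 0 := by
        rintro rfl
        rw [zero_smul] at hc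
        exact hcolne j hc
      have hprop : (fun s => (U s j₀ : ℂ)) = (c' / c) • fun s => (U s j : ℂ) := by
        rw [hc, hc', smul_smul, div_mul_cancel₀ _ hc0]
      have h1 := horth j j₀ hj
      have h2 : ∑ s, (U s j : ℂ) * (U s j₀ : ℂ) = 0 := by
        have := congrArg (fun r : ℝ => (r : ℂ)) h1
        push_cast at this
        exact this
      have h3 : ∑ s, (U s j : ℂ) * (U s j₀ : ℂ) = (c' / c) * ∑ s, (U s j : ℂ) * (U s j : ℂ) := by
        rw [Finset.mul_sum]
        refine Finset.sum_congr rfl fun s _ => ?_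
        have := congrFun hprop s
        simp only [Pi.smul_apply, smul_eq_mul] at this
        rw [this]
        ring
      have h4 : ∑ s, (U s j : ℂ) * (U s j : ℂ) = 1 := by
        have h5 := congrFun (congrFun hU' j) j
        rw [Matrix.mul_apply, Matrix.one_apply_eq] at h5
        have h6 := congrArg (fun r : ℝ => (r : ℂ)) h5
        simp only [Matrix.transpose_apply] at h6
        push_cast at h6
        exact h6
      rw [h3, h4, mul_one] at h2
      rw [h2, zero_smul] at hprop
      exact hcolne j₀ hprop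
    · exact h
  -- the exponential
  have hexp : NormedSpace.exp (τ • M) =
      U * Matrix.diagonal (fun j => Real.exp (-(τ * ν j))) * Uᵀ := by
    have h1 : τ • M = U * Matrix.diagonal (fun j => -(τ * ν j)) * Uᵀ := by
      have h2 : M = -(U * Matrix.diagonal ν * Uᵀ) := by rw [← hN, neg_neg]
      have h3 : Matrix.diagonal (fun j => -(τ * ν j)) = -(τ • Matrix.diagonal ν) := by
        rw [← Matrix.diagonal_smul, ← Matrix.diagonal_neg]
        rfl
      rw [h3, h2, smul_neg, Matrix.mul_neg, Matrix.neg_mul, Matrix.mul_smul, Matrix.smul_mul]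
    rw [h1, exp_eq U _ hU hU']
  refine ⟨U, fun j => Real.exp (-(τ * ν j)), j₀, hU, hexp, Real.exp_pos _, ?_, ?_⟩
  · intro j hj
    refine ⟨(Real.exp_pos _).le, ?_⟩
    show Real.exp (-(τ * ν j)) ≤ Real.exp (-(τ * ν j₀)) * Real.exp (-(τ * Δ))
    rw [← Real.exp_add, Real.exp_le_exp, hj₀]
    have := mul_le_mul_of_nonneg_left (hother j hj) hτ.le
    linarith
  · -- the energy
    have hen : energy H ψ = E := by
      unfold energy
      rw [hE]
      have h1 : ip ψ ((E : ℂ) • ψ) = (E : ℂ) * ip ψ ψ := by
        unfold ip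
        rw [Finset.mul_sum]
        refine Finset.sum_congr rfl fun s _ => ?_
        simp only [Pi.smul_apply, smul_eq_mul]
        ring
      have h2 : ip ψ ψ = 1 := by
        unfold ip
        unfold normSq at hψ
        have h3 : ∀ s, (starRingEnd ℂ) (ψ s) * ψ s = ((‖ψ s‖ ^ 2 : ℝ) : ℂ) := by
          intro s
          rw [mul_comm, Complex.mul_conj, Complex.normSq_eq_norm_sq]
        rw [Finset.sum_congr rfl fun s _ => h3 s, ← Complex.ofReal_sum, hψ]
        simp
      rw [h1, h2, mul_one, Complex.ofReal_re]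
    rw [hen, hexp, conj_pow U _ hU' hU, Matrix.diagonal_pow, Matrix.trace_mul_cycle, hU',
      Matrix.one_mul, Matrix.trace_diagonal]
    -- the multisets of eigenvalues
    have hroots : Multiset.map (fun j => ((hH.eigenvalues j : ℝ) : ℂ)) Finset.univ.val =
        Multiset.map (fun j => ((ν j : ℝ) : ℂ)) Finset.univ.val := by
      have h1 := hH.roots_charpoly_eq_eigenvalues
      have h2 : H.charpoly = ∏ j, (Polynomial.X - Polynomial.C ((ν j : ℝ) : ℂ)) := by
        have h3 : (-M).charpoly = ∏ j, (Polynomial.X - Polynomial.C (ν j)) := by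
          rw [hN, Matrix.charpoly_mul_comm, ← Matrix.mul_assoc, hU', Matrix.one_mul,
            Matrix.charpoly_diagonal]
        have h4 : H = (-M).map (Complex.ofRealHom) := hHM
        rw [h4, Matrix.charpoly_map, h3, Polynomial.map_prod]
        refine Finset.prod_congr rfl fun j _ => ?_
        simp
      rw [h2, Polynomial.roots_prod _ _ (by
        simp [Finset.prod_ne_zero_iff, Polynomial.X_sub_C_ne_zero])] at h1
      simp only [Polynomial.roots_X_sub_C] at h1
      rw [Multiset.bind_singleton] at h1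
      exact h1.symm
    have hsum : ∑ j, Real.exp (-(4 * τ * hH.eigenvalues j)) = ∑ j, Real.exp (-(4 * τ * ν j)) := by
      have h1 := congrArg (fun m : Multiset ℂ =>
        (m.map fun z : ℂ => Real.exp (-(4 * τ * z.re))).sum) hroots
      simp only [Multiset.map_map, Function.comp_def, Complex.ofReal_re] at h1
      exact h1
    unfold partition
    rw [Finset.sum_mul]
    have h1 : ∀ j, Real.exp (-(4 * τ * (hH.eigenvalues j - E))) * Real.exp (-(τ * ν j₀)) ^ 4 =
        Real.exp (-(4 * τ * hH.eigenvalues j)) := by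
      intro j
      rw [← Real.exp_nat_mul, ← Real.exp_add, hj₀]
      congr 1
      push_cast
      ring
    rw [Finset.sum_congr rfl fun j _ => h1 j, hsum]
    refine Finset.sum_congr rfl fun j _ => ?_
    simp only [Pi.pow_apply]
    rw [← Real.exp_nat_mul]
    congr 1
    push_cast
    ring

end Pool.Agent.K6.H16.TF.SPEC
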