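import Pool.Agent.K6.H16.TF.Stm

/-!
Piece `STPD` of the call `call16c` (MP_953b23_mp, statement of helper16, proof of helper95): the
normalised step matrix and its derivative.
-/

set_option autoImplicit false

open scoped BigOperators Matrix Topology
open Finset Filter Pool.Agent.TH981.LO

namespace Pool.Agent.K6.H16.TF.STPD



theorem sgn_mul_pm (a b : Fin 2) : sgn a * sgn b = 1 ∨ sgn a * sgn b = -1 := by
  unfold sgn
  split_ifs <;> norm_num

theorem sgn_mul_eq (a b : Fin 2) : sgn a * sgn b = if a = b then 1 else -1 := by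
  fin_cases a <;> fin_cases b <;> simp [sgn]

theorem cosh_tanh {a : ℝ} (ha : a = 1 ∨ a = -1) (z : ℝ) :
    Real.cosh z * (1 + Real.tanh z * a) = Real.exp (a * z) := by
  have hc : Real.cosh z ≠ 0 := (Real.cosh_pos z).ne'
  have h : Real.cosh z * Real.tanh z = Real.sinh z := by
    rw [Real.tanh_eq_sinh_div_cosh]; field_simp
  rcases ha with rfl | rfl
  · rw [mul_one, mul_add, mul_one, h, one_mul, Real.cosh_add_sinh]
  · have : Real.cosh z * (1 + Real.tanh z * -1) = Real.cosh z - Real.cosh z * Real.tanh z := by ring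
    rw [this, h, Real.cosh_sub_sinh]
    congr 1
    ring

section

variable {V ι : Type} [Fintype V] [DecidableEq V] [Fintype ι] [DecidableEq ι]

/-- the factor of a site -/
noncomputable def hf (Γ : ℝ) (s t : Cf V) (v : V) (ε : ℝ) : ℝ :=
  (Real.exp (ε * Γ) / 2) * (1 + Real.exp (-(2 * ε * Γ)) * (sgn (s v) * sgn (t v)))

/-- the exponent -/
noncomputable def ex (p q : ι → V) (J : ι → ℝ) (s : Cf V) : ℝ :=
  ∑ i, sgn (s (p i)) * sgn (s (q i)) * J i / 2

omit [DecidableEq V] [DecidableEq ι] in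
theorem entry (p q : ι → V) (J : ι → ℝ) (Γ : ℝ) (s t : Cf V) (ε : ℝ) :
    (((∏ i, Real.cosh (ε * J i / 2) ^ 2) * (Real.exp (ε * Γ) / 2) ^ Fintype.card V) •
        stp p q (fun i => Real.tanh (ε * J i / 2)) (Real.exp (-(2 * ε * Γ)))) s t =
      Real.exp (ε * (ex p q J s + ex p q J t)) * ∏ v, hf Γ s t v ε := by
  have hp : ∀ r : Cf V, (∏ i, Real.cosh (ε * J i / 2)) *
      (∏ i, (1 + Real.tanh (ε * J i / 2) * (sgn (r (p i)) * sgn (r (q i))))) =
      Real.exp (ε * ex p q J r) := by
    intro r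
    rw [← Finset.prod_mul_distrib, ex, Finset.mul_sum, Real.exp_sum]
    refine Finset.prod_congr rfl fun i _ => ?_
    rw [cosh_tanh (sgn_mul_pm _ _)]
    congr 1
    ring
  have e1 : ∏ i, Real.cosh (ε * J i / 2) ^ 2 =
      (∏ i, Real.cosh (ε * J i / 2)) * (∏ i, Real.cosh (ε * J i / 2)) := by
    rw [← Finset.prod_mul_distrib]
    refine Finset.prod_congr rfl fun i _ => ?_
    ring
  have e2 : (Real.exp (ε * Γ) / 2) ^ Fintype.card V = ∏ _v : V, (Real.exp (ε * Γ) / 2) := by
    rw [Finset.prod_const, Finset.card_univ]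
  have e3 : ∏ v, hf Γ s t v ε = (∏ _v : V, (Real.exp (ε * Γ) / 2)) *
      ∏ v, (1 + Real.exp (-(2 * ε * Γ)) * (sgn (s v) * sgn (t v))) := by
    rw [← Finset.prod_mul_distrib]
    rfl
  rw [Matrix.smul_apply, smul_eq_mul, stp, e1, e2, e3, mul_add, Real.exp_add, ← hp s, ← hp t]
  ring

omit [Fintype V] [DecidableEq V] in
theorem hf_zero (Γ : ℝ) (s t : Cf V) (v : V) : hf Γ s t v 0 = if s v = t v then 1 else 0 := by
  unfold hf
  rw [sgn_mul_eq]
  split_ifs <;> norm_num

omit [Fintype V] [DecidableEq V] in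
theorem hf_deriv (Γ : ℝ) (s t : Cf V) (v : V) :
    HasDerivAt (hf Γ s t v) (if s v = t v then 0 else Γ) 0 := by
  have h : hf Γ s t v = fun ε : ℝ =>
      (Real.exp (ε * Γ) + (if s v = t v then 1 else -1) * Real.exp (ε * (-Γ))) / 2 := by
    funext ε
    unfold hf
    rw [sgn_mul_eq]
    have : Real.exp (ε * (-Γ)) = Real.exp (ε * Γ) * Real.exp (-(2 * ε * Γ)) := by
      rw [← Real.exp_add]
      congr 1
      ring
    rw [this]
    ring
  rw [h]
  have h1 : HasDerivAt (fun ε : ℝ => Real.exp (ε * Γ)) (Real.exp (0 * Γ) * Γ) 0 := by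
    have := ((hasDerivAt_id (0 : ℝ)).mul_const Γ).exp
    simpa using this
  have h2 : HasDerivAt (fun ε : ℝ => Real.exp (ε * (-Γ))) (Real.exp (0 * (-Γ)) * (-Γ)) 0 := by
    have := ((hasDerivAt_id (0 : ℝ)).mul_const (-Γ)).exp
    simpa using this
  have h3 : HasDerivAt (fun ε : ℝ =>
      (Real.exp (ε * Γ) + (if s v = t v then 1 else -1) * Real.exp (ε * (-Γ))) / 2)
      ((Real.exp (0 * Γ) * Γ +
        (if s v = t v then (1 : ℝ) else -1) * (Real.exp (0 * (-Γ)) * (-Γ))) / 2) 0 :=
    (h1.add (h2.const_mul (if s v = t v then (1 : ℝ) else -1))).div_const 2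
  refine h3.congr_deriv ?_
  split_ifs <;> simp

theorem prod_ite_eq' (s t : Cf V) (S : Finset V) :
    (∏ v ∈ S, (if s v = t v then (1 : ℝ) else 0)) = if ∀ v ∈ S, s v = t v then 1 else 0 := by
  split_ifs with h
  · exact Finset.prod_eq_one fun v hv => by rw [if_pos (h v hv)]
  · push Not at h
    obtain ⟨v, hv, hne⟩ := h
    exact Finset.prod_eq_zero hv (by rw [if_neg hne])

end

theorem stpd : S_STPD := by
  intro V ι _ _ _ _ p q J Γ
  constructor
  · ext s t
    rw [entry p q J Γ s t 0]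
    simp only [hf_zero, zero_mul, Real.exp_zero, one_mul]
    rw [prod_ite_eq', Matrix.one_apply]
    congr 1
    simp only [Finset.mem_univ, forall_true_left, eq_iff_iff]
    exact funext_iff.symm
  · intro s t
    have hfun : (fun ε : ℝ =>
      (((∏ i, Real.cosh (ε * J i / 2) ^ 2) * (Real.exp (ε * Γ) / 2) ^ Fintype.card V) •
        stp p q (fun i => Real.tanh (ε * J i / 2)) (Real.exp (-(2 * ε * Γ)))) s t) =
        fun ε : ℝ => Real.exp (ε * (ex p q J s + ex p q J t)) * ∏ v, hf Γ s t v ε :=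
      funext fun ε => entry p q J Γ s t ε
    rw [hfun]
    have h1 : HasDerivAt (fun ε : ℝ => Real.exp (ε * (ex p q J s + ex p q J t)))
        (Real.exp (0 * (ex p q J s + ex p q J t)) * (ex p q J s + ex p q J t)) 0 := by
      have := ((hasDerivAt_id (0 : ℝ)).mul_const (ex p q J s + ex p q J t)).exp
      simpa using this
    have h2 : HasDerivAt (fun ε : ℝ => ∏ v, hf Γ s t v ε)
        (∑ v, (∏ u ∈ Finset.univ.erase v, hf Γ s t u 0) • (if s v = t v then (0 : ℝ) else Γ)) 0 :=
      HasDerivAt.fun_finsetProd fun v _ => hf_deriv Γ s t v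
    have h3 : HasDerivAt (fun ε : ℝ =>
        Real.exp (ε * (ex p q J s + ex p q J t)) * ∏ v, hf Γ s t v ε)
        (Real.exp (0 * (ex p q J s + ex p q J t)) * (ex p q J s + ex p q J t) *
          (∏ v, hf Γ s t v 0) + Real.exp (0 * (ex p q J s + ex p q J t)) *
          ∑ v, (∏ u ∈ Finset.univ.erase v, hf Γ s t u 0) •
            (if s v = t v then (0 : ℝ) else Γ)) 0 := h1.mul h2
    refine h3.congr_deriv ?_
    simp only [hf_zero, zero_mul, Real.exp_zero, one_mul, smul_eq_mul]
    rw [prod_ite_eq']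
    simp only [prod_ite_eq']
    have hh : hm p q J Γ s t = dg p q J s t +
        Γ * ∑ v, (if s v ≠ t v ∧ ∀ u, u ≠ v → s u = t u then (1 : ℝ) else 0) := rfl
    rw [hh, Finset.mul_sum]
    congr 1
    · rw [dg, Matrix.diagonal_apply]
      by_cases hst : s = t
      · subst hst
        simp only [if_true, implies_true]
        unfold ex
        rw [mul_one, ← Finset.sum_add_distrib]
        refine Finset.sum_congr rfl fun i _ => ?_
        ring
      · rw [if_neg hst, if_neg, mul_zero]
        intro h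
        exact hst (funext fun v => h v (Finset.mem_univ v))
    · refine Finset.sum_congr rfl fun v _ => ?_
      by_cases hv : s v = t v
      · have hR : (if s v ≠ t v ∧ ∀ u, u ≠ v → s u = t u then (1 : ℝ) else 0) = 0 :=
          if_neg fun h => h.1 hv
        rw [hR, if_pos hv, mul_zero, mul_zero]
      · rw [if_neg hv]
        by_cases ho : ∀ u, u ≠ v → s u = t u
        · have hR : (if s v ≠ t v ∧ ∀ u, u ≠ v → s u = t u then (1 : ℝ) else 0) = 1 :=
            if_pos ⟨hv, ho⟩
          have hL : (if ∀ u ∈ Finset.univ.erase v, s u = t u then (1 : ℝ) else 0) = 1 :=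
            if_pos fun u hu => ho u (Finset.ne_of_mem_erase hu)
          rw [hR, hL]
          ring
        · have hR : (if s v ≠ t v ∧ ∀ u, u ≠ v → s u = t u then (1 : ℝ) else 0) = 0 :=
            if_neg fun h => ho h.2
          have hL : (if ∀ u ∈ Finset.univ.erase v, s u = t u then (1 : ℝ) else 0) = 0 :=
            if_neg fun h => ho fun u hu => h u (Finset.mem_erase.mpr ⟨hu, Finset.mem_univ u⟩)
          rw [hR, hL]
          ring

end Pool.Agent.K6.H16.TF.STPD
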