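import Pool.Agent.K6.H16.TF.Stm
import Pool.Agent.TH897.J338

/-!
# Piece SPIN (helper75): high temperature expansion
-/

set_option autoImplicit false

open scoped BigOperators Matrix Topology
open Finset Filter Pool.Agent.TH981.LO

namespace Pool.Agent.K6.H16.TF

namespace SPIN

/-- the character of the set `A` -/
noncomputable def chi {V : Type} [Fintype V] (A : V → ZMod 2) (σ : V → Fin 2) : ℝ :=
  ∏ v, if A v = 1 then sgn (σ v) else 1

lemma sgn_sq (a : Fin 2) : sgn a * sgn a = 1 := by
  unfold sgn
  split_ifs <;> norm_num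

lemma z2 (a : ZMod 2) : a = 0 ∨ a = 1 := by
  revert a; decide

lemma chi_add {V : Type} [Fintype V] (A B : V → ZMod 2) (σ : V → Fin 2) :
    chi (A + B) σ = chi A σ * chi B σ := by
  unfold chi
  rw [← Finset.prod_mul_distrib]
  refine Finset.prod_congr rfl fun v _ => ?_
  rw [Pi.add_apply]
  rcases z2 (A v) with h | h <;> rcases z2 (B v) with h' | h'
  · simp [h, h']
  · simp [h, h']
  · simp [h, h']
  · rw [h, h', if_pos rfl]
    have : (1 : ZMod 2) + 1 = 0 := by decide
    rw [this, if_neg (by decide), sgn_sq]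

lemma chi_two {V : Type} [Fintype V] [DecidableEq V] (a b : V) (σ : V → Fin 2) :
    chi (two a b) σ = sgn (σ a) * sgn (σ b) := by
  have h1 : ∀ a : V, chi (Pi.single a (1 : ZMod 2)) σ = sgn (σ a) := by
    intro a
    unfold chi
    rw [Finset.prod_eq_single a]
    · simp
    · intro b _ hb
      rw [Pi.single_eq_of_ne hb, if_neg (by decide)]
    · intro h; exact absurd (Finset.mem_univ a) h
  have h2 : two a b = Pi.single a (1 : ZMod 2) + Pi.single b (1 : ZMod 2) := rfl
  rw [h2, chi_add, h1, h1]

lemma sum_chi {V : Type} [Fintype V] [DecidableEq V] (A : V → ZMod 2) :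
    ∑ σ : V → Fin 2, chi A σ = if A = 0 then 2 ^ Fintype.card V else 0 := by
  have h : ∑ σ : V → Fin 2, chi A σ = ∏ v, ∑ a : Fin 2, if A v = 1 then sgn a else 1 := by
    rw [Finset.prod_univ_sum]
    unfold chi
    rw [Fintype.piFinset_univ]
  rw [h]
  by_cases hA : A = 0
  · rw [if_pos hA]
    have : ∀ v, ∑ a : Fin 2, (if A v = 1 then sgn a else 1) = 2 := by
      intro v
      rw [hA]
      simp
    rw [Finset.prod_congr rfl fun v _ => this v, Finset.prod_const, Finset.card_univ]
  · rw [if_neg hA]
    obtain ⟨v, hv⟩ := Function.ne_iff.1 hA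
    refine Finset.prod_eq_zero (Finset.mem_univ v) ?_
    rcases z2 (A v) with h' | h'
    · exact absurd h' hv
    · rw [h', Fin.sum_univ_two, if_pos rfl, if_pos rfl]
      simp [sgn]

end SPIN

open SPIN in
theorem spin : S_SPIN := by
  classical
  intro V E _ _ _ G w F
  have key : ∀ A : V → ZMod 2, ∑ σ : V → Fin 2, chi A σ *
      ∏ e ∈ F, (1 + w e * (sgn (σ (G.s e)) * sgn (σ (G.t e)))) =
      2 ^ Fintype.card V * G.Z w F A := by
    induction F using Finset.induction_on with
    | empty =>
      intro A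
      simp only [Finset.prod_empty, mul_one]
      rw [sum_chi, MG.Z, MG.L_eq_ite_338]
      simp only [Finset.powerset_empty, Finset.sum_singleton, MG.bd_empty, Finset.prod_empty,
        mul_one]
      by_cases hA : A = 0
      · rw [if_pos hA, if_pos hA.symm, mul_one]
      · rw [if_neg hA, if_neg (Ne.symm hA), mul_zero]
    | insert e F he ih =>
      intro A
      rw [MG.Z_insert G w he A]
      have : ∀ σ : V → Fin 2, chi A σ *
          ∏ e ∈ insert e F, (1 + w e * (sgn (σ (G.s e)) * sgn (σ (G.t e)))) =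
          chi A σ * ∏ e ∈ F, (1 + w e * (sgn (σ (G.s e)) * sgn (σ (G.t e)))) +
          w e * (chi (A + G.inc e) σ *
            ∏ e ∈ F, (1 + w e * (sgn (σ (G.s e)) * sgn (σ (G.t e))))) := by
        intro σ
        have h3 : chi (G.inc e) σ = sgn (σ (G.s e)) * sgn (σ (G.t e)) := chi_two _ _ σ
        rw [Finset.prod_insert he, chi_add, h3]
        ring
      rw [Finset.sum_congr rfl fun σ _ => this σ, Finset.sum_add_distrib, ← Finset.mul_sum, ih A,
        ih (A + G.inc e)]
      ring
  intro A
  exact key A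

end Pool.Agent.K6.H16.TF
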