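import Pool.Agent.K6.H16.TF.Concl
import Pool.Agent.K6.H16.TF.SPIN
import Pool.Agent.K6.H16.TF.P_CHAIN
import Pool.Agent.K6.H16.TF.P_EVALW
import Pool.Agent.K6.H16.TF.P_REORG
import Pool.Agent.K6.H16.TF.P_EVAL
import Pool.Agent.K6.H16.TF.P_LEB
import Pool.Agent.K6.H16.TF.P_DECP
import Pool.Agent.K6.H16.TF.P_TEL
import Pool.Agent.K6.H16.TF.P_QSTP
import Pool.Agent.K6.H16.TF.P_CHERN
import Pool.Agent.K6.H16.TF.P_STPD
import Pool.Agent.K6.H16.TF.P_POS
import Pool.Agent.K6.H16.TF.P_LIM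
import Pool.Agent.K6.H16.TF.P_GAP1
import Pool.Agent.K6.H16.TF.P_GAP2
import Pool.Agent.K6.H16.TF.P_SPEC
import Pool.Agent.K6.H16.TF.P_BOX

/-!
# Ferromagnetic transverse field Ising models: the pieces together (seat helper16)
-/

set_option autoImplicit false

namespace Pool.Agent.K6.H16.TF.Final

theorem eval : S_EVAL := EVAL.eval TF.spin CHAIN.chain EVALW.evalw REORG.reorg

theorem qstp : S_QSTP := QSTP.qstp eval (DECP.decp LEB.leb) TEL.tel

theorem pos : S_POS := TF.pos CHERN.chern STPD.stpd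

theorem gap2 : S_GAP2 := GAP2.gap2 GAP1.gap1

theorem box : S_BOX := BOX.box

/-- the bound on the partition function on the torus -/
theorem pb : Concl.PB := by
  intro R J g hJ hg L _ hRL Δ hΔ ψ hψ hgr hH β hβ
  exact Main.partition_bound qstp pos LIM.lim gap2 SPEC.spec BOX.box J g hJ hg L hRL Δ hΔ ψ hψ
    hgr hH β hβ

end Pool.Agent.K6.H16.TF.Final

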