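import Pool.Agent.K6.H16.TF.StmF
import Pool.Agent.K6.H16.TF.P_BOX

/-!
# The Hamiltonian with a longitudinal field on the torus (seat helper50)
-/

set_option autoImplicit false

open scoped BigOperators Matrix
open Finset Pool.Agent.TH235.PP

namespace Pool.Agent.K6.H16.TF.BOXF

lemma term_val {R : ℕ} (J : Fin R × Fin R → Fin R × Fin R → ℝ) (g μ : Fin R × Fin R → ℝ) {L : ℕ}
    [NeZero L] (h : R ≤ L) (u : Site L) (s t : Site L → Fin 2) :
    term (tff J g μ) u s t = ((-((if s = t then
        ∑ x, ∑ y, J x y * (sgn (s (sh u x)) * sgn (s (sh u y))) else 0) +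
      (∑ x, if s (sh u x) ≠ t (sh u x) ∧ ∀ w, w ≠ sh u x → s w = t w then g x else 0) +
      (if s = t then ∑ x, μ x * sgn (s (sh u x)) else 0)) : ℝ) : ℂ) := by
  unfold term
  by_cases hc : ∀ v, (∀ x : Fin R × Fin R, sh u x ≠ v) → s v = t v
  · rw [if_pos hc]
    unfold tff
    have e1 : (fun x => s (sh u x)) = (fun x : Fin R × Fin R => t (sh u x)) ↔ s = t := by
      constructor
      · intro h1
        funext v
        by_cases hv : ∃ x : Fin R × Fin R, sh u x = v
        · obtain ⟨x, hx⟩ := hv
          rw [← hx]
          exact congrFun h1 x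
        · push Not at hv
          exact hc v hv
      · rintro rfl
        rfl
    have e2 : ∀ x : Fin R × Fin R, (s (sh u x) ≠ t (sh u x) ∧ ∀ z, z ≠ x → s (sh u z) = t (sh u z)) ↔
        (s (sh u x) ≠ t (sh u x) ∧ ∀ w, w ≠ sh u x → s w = t w) := by
      intro x
      constructor
      · rintro ⟨h1, h2⟩
        refine ⟨h1, fun w hw => ?_⟩
        by_cases hv : ∃ z : Fin R × Fin R, sh u z = w
        · obtain ⟨z, hz⟩ := hv
          rw [← hz]
          exact h2 z (fun hzx => hw (by rw [← hz, hzx]))
        · push Not at hv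
          exact hc w hv
      · rintro ⟨h1, h2⟩
        exact ⟨h1, fun z hz => h2 _ (fun h3 => hz (BOX.sh_inj h u h3))⟩
    congr 3
    · congr 1
      · exact if_congr e1 rfl rfl
      · exact Finset.sum_congr rfl fun x _ => if_congr (e2 x) rfl rfl
    · exact if_congr e1 rfl rfl
  · have h0 : (∑ x : Fin R × Fin R, if s (sh u x) ≠ t (sh u x) ∧ ∀ w, w ≠ sh u x → s w = t w then g x
        else 0) = 0 := by
      refine Finset.sum_eq_zero fun x _ => ?_
      rw [if_neg]
      rintro ⟨_, h2⟩
      exact hc fun v hv => h2 v (fun h3 => hv x h3.symm)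
    have h1 : ¬ s = t := fun h1 => hc (fun v _ => by rw [h1])
    rw [if_neg hc, if_neg h1, if_neg h1, h0]
    simp

theorem boxf : S_BOXF := by
  intro R J g μ L _ h
  constructor
  · ext s t
    rw [ham, Matrix.sum_apply, Finset.sum_congr rfl fun u _ => term_val J g μ h u s t,
      Matrix.map_apply, Matrix.neg_apply, ← Complex.ofReal_sum, Finset.sum_neg_distrib,
      Finset.sum_add_distrib, Finset.sum_add_distrib]
    congr 2
    rw [hf, Matrix.add_apply, Matrix.smul_apply, mz, Matrix.diagonal_apply, hm, Matrix.add_apply,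
      Matrix.smul_apply, dg, Matrix.diagonal_apply]
    congr 1
    · congr 1
      · by_cases hst : s = t
        · simp only [if_pos hst]
          rw [eq_comm, Fintype.sum_prod_type]
          refine Finset.sum_congr rfl fun u _ => ?_
          rw [Fintype.sum_prod_type]
        · simp only [if_neg hst]
          rw [Finset.sum_const_zero]
      · rw [Finset.sum_comm, smul_eq_mul, Finset.sum_mul]
        refine Finset.sum_congr rfl fun x _ => ?_
        rw [BOX.sum_sh x (fun v => if s v ≠ t v ∧ ∀ w, w ≠ v → s w = t w then g x else 0), fl,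
          Finset.mul_sum]
        refine Finset.sum_congr rfl fun v _ => ?_
        split_ifs <;> simp
    · by_cases hst : s = t
      · simp only [if_pos hst]
        rw [Finset.sum_comm, smul_eq_mul, Finset.sum_mul]
        refine Finset.sum_congr rfl fun x _ => ?_
        rw [BOX.sum_sh x (fun v => μ x * sgn (s v)), mg, Finset.mul_sum]
      · simp only [if_neg hst]
        rw [Finset.sum_const_zero, smul_zero]
  · ext s t
    rw [Matrix.conjTranspose_apply]
    unfold tff
    rw [Complex.star_def, Complex.conj_ofReal]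
    congr 3
    · congr 1
      · by_cases hst : s = t
        · rw [hst]
        · rw [if_neg hst, if_neg (fun h => hst h.symm)]
      · refine Finset.sum_congr rfl fun x _ => if_congr ?_ rfl rfl
        exact ⟨fun h => ⟨fun h1 => h.1 h1.symm, fun z hz => (h.2 z hz).symm⟩,
          fun h => ⟨fun h1 => h.1 h1.symm, fun z hz => (h.2 z hz).symm⟩⟩
    · by_cases hst : s = t
      · rw [hst]
      · rw [if_neg hst, if_neg (fun h => hst h.symm)]

end Pool.Agent.K6.H16.TF.BOXF
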