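import Pool.Agent.K6.H16.TF.StmF

/-!
Piece CHC (statement by helper16, after helper78's P_CHAIN; written by helper53): the trace of a
power of a complex matrix is a sum over closed chains.
-/

set_option autoImplicit false
open scoped BigOperators Matrix Topology
open Finset Filter

namespace Pool.Agent.K6.H16.TF.CHC

open Pool.Agent.K6.H16.TF

theorem sum_consC {α : Type} [Fintype α] (n : ℕ) (f : (Fin (n + 1) → α) → ℂ) :
    ∑ L : Fin (n + 1) → α, f L = ∑ s : α, ∑ L' : Fin n → α, f (Fin.cons s L') := by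
  rw [← Equiv.sum_comp (Fin.consEquiv (fun _ : Fin (n + 1) => α)) f, Fintype.sum_prod_type]
  rfl

theorem hprod {α : Type} (S : Matrix α α ℂ) (R : ℕ) (s : α) (L' : Fin (R + 1) → α) :
    (∏ k : Fin (R + 1), S ((Fin.cons s L' : Fin (R + 1 + 1) → α) k.castSucc)
        ((Fin.cons s L' : Fin (R + 1 + 1) → α) k.succ)) =
    S s (L' 0) * ∏ k : Fin R, S (L' k.castSucc) (L' k.succ) := by
  rw [Fin.prod_univ_succ]
  congr 1

theorem aux {α : Type} [Fintype α] [DecidableEq α] (S : Matrix α α ℂ) (n : ℕ) :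
    ∀ Ψ : α → α → ℂ, ∑ L : Fin (n + 1) → α, Ψ (L 0) (L (Fin.last n)) *
      ∏ k : Fin n, S (L k.castSucc) (L k.succ) = ∑ s, ∑ t, Ψ s t * (S ^ n) s t := by
  induction n with
  | zero =>
    intro Ψ
    rw [sum_consC]
    simp [Matrix.one_apply]
  | succ n ih =>
    intro Ψ
    rw [sum_consC]
    refine Finset.sum_congr rfl fun s _ => ?_
    have e1 : ∀ L' : Fin (n + 1) → α,
        Ψ ((Fin.cons s L' : Fin (n + 1 + 1) → α) 0)
          ((Fin.cons s L' : Fin (n + 1 + 1) → α) (Fin.last (n + 1))) = Ψ s (L' (Fin.last n)) :=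
      fun L' => rfl
    have h := ih (fun a b => Ψ s b * S s a)
    have e2 : ∑ L' : Fin (n + 1) → α, Ψ ((Fin.cons s L' : Fin (n + 1 + 1) → α) 0)
          ((Fin.cons s L' : Fin (n + 1 + 1) → α) (Fin.last (n + 1))) *
        ∏ k : Fin (n + 1), S ((Fin.cons s L' : Fin (n + 1 + 1) → α) k.castSucc)
          ((Fin.cons s L' : Fin (n + 1 + 1) → α) k.succ) =
        ∑ L : Fin (n + 1) → α, (Ψ s (L (Fin.last n)) * S s (L 0)) *
          ∏ k : Fin n, S (L k.castSucc) (L k.succ) := by
      refine Finset.sum_congr rfl fun L' _ => ?_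
      rw [hprod, e1]
      ring
    rw [e2, h, Finset.sum_comm]
    refine Finset.sum_congr rfl fun t _ => ?_
    rw [pow_succ', Matrix.mul_apply, Finset.mul_sum]
    refine Finset.sum_congr rfl fun a _ => ?_
    ring

theorem chc : S_CHC := by
  intro α _ _ S n
  rw [aux S n (fun a b => if a = b then 1 else 0)]
  unfold Matrix.trace
  refine Finset.sum_congr rfl fun s _ => ?_
  simp

end Pool.Agent.K6.H16.TF.CHC
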