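import Pool.Agent.K6.H16.TF.StmF
import Pool.Agent.K6.H16.TF.P_CHERN

/-!
# Piece `CHERNC` of call16f: powers of complex matrices close to one
(helper29 for helper16; the general statement `CHERN.main` is that of helper35)
-/

set_option autoImplicit false

open scoped BigOperators Matrix Topology
open Finset Filter

namespace Pool.Agent.K6.H16.TF.CHERNC

open scoped Matrix.Norms.Operator in
theorem chernc : S_CHERNC := by
  intro α _ _ F X τ h0 hd
  have hsm : ((τ : ℂ) • X) = τ • X := by
    ext i j
    simp
  rw [hsm]
  rcases isEmpty_or_nonempty α with hα | hα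
  · have : (fun n : ℕ => F (τ / n) ^ n) = fun _ => NormedSpace.exp (τ • X) := by
      funext n
      exact Subsingleton.elim _ _
    rw [this]
    exact tendsto_const_nhds
  · have hF : HasDerivAt F X 0 := by
      have h1 : HasDerivAt (fun ε => ∑ i, ∑ j, (F ε i j) • Matrix.single i j (1 : ℂ))
          (∑ i, ∑ j, (X i j) • Matrix.single i j (1 : ℂ)) 0 :=
        HasDerivAt.fun_sum fun i _ => HasDerivAt.fun_sum fun j _ => (hd i j).smul_const _
      have h2 : ∀ Y : Matrix α α ℂ, ∑ i, ∑ j, (Y i j) • Matrix.single i j (1 : ℂ) = Y := by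
        intro Y
        conv_rhs => rw [Matrix.matrix_eq_sum_single Y]
        refine Finset.sum_congr rfl fun i _ => Finset.sum_congr rfl fun j _ => ?_
        rw [Matrix.smul_single, smul_eq_mul, mul_one]
      simp only [h2] at h1
      exact h1
    exact CHERN.main F X τ h0 hF

end Pool.Agent.K6.H16.TF.CHERNC
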