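import Pool.Agent.K6.H16.TF.StmF

/-!
# Piece EXB (helper78): the partition function without field
-/

set_option autoImplicit false

open scoped BigOperators Matrix Topology
open Finset Filter Pool.Agent.TH981.LO

namespace Pool.Agent.K6.H16.TF.EXB

section ex

variable {α : Type} [Fintype α] [DecidableEq α]

/-- the row sums are at most `b` -/
def Rb (M : Matrix α α ℂ) (b : ℝ) : Prop := ∀ s, ∑ t, ‖M s t‖ ≤ b

omit [DecidableEq α] in
lemma rb_mul {M N : Matrix α α ℂ} {a b : ℝ} (ha : Rb M a) (hb : Rb N b) (hb0 : 0 ≤ b) :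
    Rb (M * N) (a * b) := by
  intro s
  calc ∑ t, ‖(M * N) s t‖ ≤ ∑ t, ∑ u, ‖M s u‖ * ‖N u t‖ := by
        refine Finset.sum_le_sum fun t _ => ?_
        rw [Matrix.mul_apply]
        refine (norm_sum_le _ _).trans (Finset.sum_le_sum fun u _ => ?_)
        rw [norm_mul]
    _ = ∑ u, ‖M s u‖ * ∑ t, ‖N u t‖ := by
        rw [Finset.sum_comm]
        exact Finset.sum_congr rfl fun u _ => (Finset.mul_sum _ _ _).symm
    _ ≤ ∑ u, ‖M s u‖ * b :=
        Finset.sum_le_sum fun u _ => mul_le_mul_of_nonneg_left (hb u) (norm_nonneg _)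
    _ = (∑ u, ‖M s u‖) * b := (Finset.sum_mul _ _ _).symm
    _ ≤ a * b := mul_le_mul_of_nonneg_right (ha s) hb0

lemma rb_pow {M : Matrix α α ℂ} {y : ℝ} (h : Rb M y) (hy : 0 ≤ y) (k : ℕ) :
    Rb (M ^ k) (y ^ k) := by
  induction k with
  | zero =>
    intro s
    rw [pow_zero, pow_zero]
    simp only [Matrix.one_apply, apply_ite norm, norm_one, norm_zero, Finset.sum_ite_eq,
      Finset.mem_univ, if_true, le_refl]
  | succ k ih =>
    rw [pow_succ, pow_succ]
    exact rb_mul ih h hy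

theorem hasSum_exp (M : Matrix α α ℂ) :
    HasSum (fun k : ℕ => ((k.factorial : ℂ)⁻¹) • M ^ k) (NormedSpace.exp M) := by
  letI : SeminormedRing (Matrix α α ℂ) := Matrix.linftyOpSemiNormedRing
  letI : NormedRing (Matrix α α ℂ) := Matrix.linftyOpNormedRing
  letI : NormedAlgebra ℂ (Matrix α α ℂ) := Matrix.linftyOpNormedAlgebra
  exact NormedSpace.exp_series_hasSum_exp' (𝕂 := ℂ) M

/-- the entries of the exponential -/
lemma exp_diag {M : Matrix α α ℂ} {y : ℝ} (h : Rb M y) (hy : 0 ≤ y) (s : α) :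
    ‖(NormedSpace.exp M) s s‖ ≤ Real.exp y := by
  have hs := (hasSum_exp M).tendsto_sum_nat
  have hc : Continuous fun N : Matrix α α ℂ => ‖N s s‖ :=
    ((continuous_apply s).comp (continuous_apply s)).norm
  have h1 := (hc.tendsto (NormedSpace.exp M)).comp hs
  refine le_of_tendsto' h1 fun m => ?_
  change ‖(∑ k ∈ range m, ((k.factorial : ℂ)⁻¹) • M ^ k) s s‖ ≤ Real.exp y
  calc ‖(∑ k ∈ range m, ((k.factorial : ℂ)⁻¹) • M ^ k) s s‖ ≤
        ∑ k ∈ range m, ‖(((k.factorial : ℂ)⁻¹) • M ^ k) s s‖ := by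
        rw [Matrix.sum_apply]
        exact norm_sum_le _ _
    _ ≤ ∑ k ∈ range m, y ^ k / (k.factorial : ℝ) := by
        refine Finset.sum_le_sum fun k _ => ?_
        rw [Matrix.smul_apply, norm_smul, norm_inv, Complex.norm_natCast, div_eq_inv_mul]
        refine mul_le_mul_of_nonneg_left ?_ (by positivity)
        exact (Finset.single_le_sum (f := fun t => ‖(M ^ k) s t‖) (fun t _ => norm_nonneg _)
          (Finset.mem_univ s)).trans (rb_pow h hy k s)
    _ ≤ Real.exp y := Real.sum_le_exp_of_nonneg hy m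

end ex

section hm

variable {V ι : Type} [Fintype V] [DecidableEq V] [Fintype ι]

lemma sgn_abs (a : Fin 2) : |sgn a| = 1 := by
  unfold sgn
  split_ifs <;> simp

omit [Fintype V] [DecidableEq V] in
lemma diag_le (p q : ι → V) (J : ι → ℝ) (hJ : ∀ i, 0 ≤ J i) (s : Cf V) :
    |∑ i, J i * (sgn (s (p i)) * sgn (s (q i)))| ≤ ∑ i, J i := by
  refine (Finset.abs_sum_le_sum_abs _ _).trans (le_of_eq (Finset.sum_congr rfl fun i _ => ?_))
  rw [abs_mul, abs_mul, sgn_abs, sgn_abs, abs_of_nonneg (hJ i)]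
  ring

lemma dg_row (p q : ι → V) (J : ι → ℝ) (hJ : ∀ i, 0 ≤ J i) (s : Cf V) :
    ∑ t, |dg p q J s t| ≤ ∑ i, J i := by
  have h : ∑ t, |dg p q J s t| = |∑ i, J i * (sgn (s (p i)) * sgn (s (q i)))| := by
    rw [Finset.sum_eq_single s]
    · rw [dg, Matrix.diagonal_apply_eq]
    · intro t _ ht
      rw [dg, Matrix.diagonal_apply_ne _ (Ne.symm ht), abs_zero]
    · intro hs
      exact absurd (Finset.mem_univ s) hs
  rw [h]
  exact diag_le p q J hJ s

lemma two (a b c : Fin 2) (h1 : a ≠ b) (h2 : a ≠ c) : b = c := by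
  revert a b c
  decide

lemma fl_row (s : Cf V) : ∑ t, |(fl : Mx V) s t| ≤ Fintype.card V := by
  have h0 : ∀ t, |(fl : Mx V) s t| =
      ∑ v : V, if s v ≠ t v ∧ ∀ u, u ≠ v → s u = t u then (1 : ℝ) else 0 := by
    intro t
    refine abs_of_nonneg (Finset.sum_nonneg fun v _ => ?_)
    split_ifs <;> simp
  simp only [h0]
  rw [Finset.sum_comm]
  have h1 : ∀ v : V, ∑ t : Cf V, (if s v ≠ t v ∧ ∀ u, u ≠ v → s u = t u then (1 : ℝ) else 0) ≤
      1 := by
    intro v
    rw [Finset.sum_boole]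
    have h2 : #(univ.filter fun t : Cf V => s v ≠ t v ∧ ∀ u, u ≠ v → s u = t u) ≤ 1 := by
      rw [Finset.card_le_one]
      intro t ht t' ht'
      simp only [Finset.mem_filter, Finset.mem_univ, true_and] at ht ht'
      funext u
      by_cases hu : u = v
      · rw [hu]
        exact two _ _ _ ht.1 ht'.1
      · rw [← ht.2 u hu, ← ht'.2 u hu]
    exact_mod_cast h2
  calc ∑ v : V, ∑ t : Cf V, (if s v ≠ t v ∧ ∀ u, u ≠ v → s u = t u then (1 : ℝ) else 0) ≤
        ∑ _v : V, (1 : ℝ) := Finset.sum_le_sum fun v _ => h1 v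
    _ = Fintype.card V := by simp

lemma hm_row (p q : ι → V) (J : ι → ℝ) (Γ : ℝ) (hJ : ∀ i, 0 ≤ J i) (hΓ : 0 ≤ Γ) (s : Cf V) :
    ∑ t, |hm p q J Γ s t| ≤ cc V J Γ := by
  calc ∑ t, |hm p q J Γ s t| ≤ ∑ t, (|dg p q J s t| + Γ * |(fl : Mx V) s t|) := by
        refine Finset.sum_le_sum fun t _ => ?_
        rw [hm, Matrix.add_apply, Matrix.smul_apply, smul_eq_mul]
        refine (abs_add_le _ _).trans (le_of_eq ?_)
        rw [abs_mul, abs_of_nonneg hΓ]
    _ = ∑ t, |dg p q J s t| + Γ * ∑ t, |(fl : Mx V) s t| := by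
        rw [Finset.sum_add_distrib, Finset.mul_sum]
    _ ≤ cc V J Γ := by
        unfold cc
        exact add_le_add (dg_row p q J hJ s) (mul_le_mul_of_nonneg_left (fl_row s) hΓ)

end hm

theorem exb : S_EXB := by
  intro V ι _ _ _ _ p q J Γ β hJ hΓ hβ
  have hcc : 0 ≤ cc V J Γ := by
    unfold cc
    exact add_nonneg (Finset.sum_nonneg fun i _ => hJ i) (by positivity)
  have hrb : Rb ((β : ℂ) • hz p q J Γ 0) (β * cc V J Γ) := by
    intro s
    have h1 : ∀ t, ‖((β : ℂ) • hz p q J Γ 0) s t‖ = β * |hm p q J Γ s t| := by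
      intro t
      rw [Matrix.smul_apply, norm_smul, Complex.norm_real, Real.norm_of_nonneg hβ, hz, zero_smul,
        add_zero, Matrix.map_apply, Complex.norm_real, Real.norm_eq_abs]
    simp only [h1]
    rw [← Finset.mul_sum]
    exact mul_le_mul_of_nonneg_left (hm_row p q J Γ hJ hΓ s) hβ
  unfold fz
  rw [Matrix.trace]
  calc ‖∑ s, (NormedSpace.exp ((β : ℂ) • hz p q J Γ 0)).diag s‖ ≤
        ∑ s, ‖(NormedSpace.exp ((β : ℂ) • hz p q J Γ 0)).diag s‖ := norm_sum_le _ _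
    _ ≤ ∑ _s : Cf V, Real.exp (β * cc V J Γ) :=
        Finset.sum_le_sum fun s _ => exp_diag hrb (mul_nonneg hβ hcc) s
    _ = 2 ^ Fintype.card V * Real.exp (β * cc V J Γ) := by
        rw [Finset.sum_const, Finset.card_univ, nsmul_eq_mul]
        congr 1
        simp

end Pool.Agent.K6.H16.TF.EXB
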