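import Pool.Agent.K6.H16.TF.StmF

/-!
# Piece HAR (helper84): logarithms of functions without zeros in the half plane
-/

set_option autoImplicit false

open scoped Topology
open Metric Set

namespace Pool.Agent.K6.H16.TF.HAR

theorem logball (F : ℂ → ℂ) (hF : DifferentiableOn ℂ F (ball 0 1))
    (h0 : ∀ u ∈ ball (0 : ℂ) 1, F u ≠ 0) (y : ℂ) (hy : Complex.exp y = F 0) :
    ∃ G : ℂ → ℂ, DifferentiableOn ℂ G (ball 0 1) ∧ G 0 = y ∧
      ∀ u ∈ ball (0 : ℂ) 1, Complex.exp (G u) = F u := by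
  have hF' : DifferentiableOn ℂ (deriv F) (ball 0 1) := hF.deriv isOpen_ball
  have hq : DifferentiableOn ℂ (fun u => deriv F u / F u) (ball 0 1) := hF'.div hF h0
  obtain ⟨G, hG0, hG⟩ := hq.isExactOn_ball.with_val_at 0 y
  have hGd : DifferentiableOn ℂ G (ball 0 1) :=
    fun u hu => (hG u hu).differentiableAt.differentiableWithinAt
  refine ⟨G, hGd, hG0, fun u hu => ?_⟩
  have hd : ∀ u ∈ ball (0 : ℂ) 1, HasDerivAt (fun u => Complex.exp (-G u) * F u) 0 u := by
    intro u hu
    have h1 : HasDerivAt F (deriv F u) u :=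
      (hF.differentiableAt (isOpen_ball.mem_nhds hu)).hasDerivAt
    have h2 := ((hG u hu).neg.cexp).mul h1
    have e : deriv F u / F u * F u = deriv F u := div_mul_cancel₀ _ (h0 u hu)
    have e0 : (0 : ℂ) = Complex.exp (-G u) * -(deriv F u / F u) * F u +
        Complex.exp (-G u) * deriv F u := by
      linear_combination (Complex.exp (-G u)) * e
    rw [e0]
    exact h2
  have hc : Complex.exp (-G u) * F u = Complex.exp (-G 0) * F 0 :=
    IsOpen.is_const_of_deriv_eq_zero isOpen_ball (convex_ball (0 : ℂ) 1).isPreconnected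
      (f := fun u => Complex.exp (-G u) * F u)
      (fun u hu => (hd u hu).differentiableAt.differentiableWithinAt)
      (fun u hu => (hd u hu).deriv) hu (mem_ball_self one_pos)
  rw [hG0, ← hy, ← Complex.exp_add, neg_add_cancel, Complex.exp_zero, Complex.exp_neg] at hc
  have h3 := Complex.exp_ne_zero (G u)
  field_simp at hc
  exact hc.symm

/-- a consequence of the theorem of Borel and Carathéodory -/
theorem harn (W : ℂ → ℂ) (hW : DifferentiableOn ℂ W (ball 0 1))
    (h0 : ∀ u ∈ ball (0 : ℂ) 1, 0 ≤ (W u).re) (u : ℂ) (hu : u ∈ ball (0 : ℂ) 1) :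
    ‖W u‖ ≤ ‖W 0‖ * (1 + ‖u‖) / (1 - ‖u‖) := by
  have hu1 : ‖u‖ < 1 := mem_ball_zero_iff.mp hu
  have hp : 0 < 1 - ‖u‖ := by linarith
  apply le_of_forall_pos_le_add
  intro ε hε
  have hM : 0 < ε * (1 - ‖u‖) / 2 := by positivity
  have h1 := Complex.borelCaratheodory (f := fun u => -W u) (R := 1) hM hW.neg (by
    intro v hv
    show (-W v).re ≤ _
    rw [Complex.neg_re]
    linarith [h0 v hv]) one_pos hu
  simp only [norm_neg] at h1
  have h2 : 2 * (ε * (1 - ‖u‖) / 2) * ‖u‖ / (1 - ‖u‖) ≤ ε := by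
    rw [div_le_iff₀ hp]
    have : ε * (1 - ‖u‖) * ‖u‖ ≤ ε * (1 - ‖u‖) * 1 := by gcongr
    linarith
  linarith

theorem re_phi {u : ℂ} (hu : ‖u‖ < 1) : 0 < ((1 + u) / (1 - u)).re := by
  have h1 : (1 - u) ≠ 0 := by
    intro h
    have : u = 1 := by linear_combination -h
    rw [this, norm_one] at hu
    exact lt_irrefl _ hu
  have h2 : 0 < Complex.normSq (1 - u) := Complex.normSq_pos.mpr h1
  have h3 : Complex.normSq u < 1 := by
    rw [Complex.normSq_eq_norm_sq]
    nlinarith [norm_nonneg u]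
  rw [Complex.div_re, ← add_div]
  apply div_pos _ h2
  rw [Complex.normSq_apply] at h3
  simp only [Complex.add_re, Complex.sub_re, Complex.one_re, Complex.add_im, Complex.sub_im,
    Complex.one_im]
  nlinarith

theorem norms {z : ℂ} (hz : 0 < z.re) : ‖z - 1‖ < ‖z + 1‖ ∧
    ‖z + 1‖ ^ 2 - ‖z - 1‖ ^ 2 = 4 * z.re := by
  have h1 : ‖z + 1‖ ^ 2 - ‖z - 1‖ ^ 2 = 4 * z.re := by
    rw [← Complex.normSq_eq_norm_sq, ← Complex.normSq_eq_norm_sq, Complex.normSq_apply,
      Complex.normSq_apply]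
    simp only [Complex.add_re, Complex.sub_re, Complex.one_re, Complex.add_im, Complex.sub_im,
      Complex.one_im]
    ring
  refine ⟨?_, h1⟩
  apply lt_of_pow_lt_pow_left₀ 2 (norm_nonneg _)
  linarith

theorem psi_mem {z : ℂ} (hz : 0 < z.re) : (z - 1) / (z + 1) ∈ ball (0 : ℂ) 1 := by
  obtain ⟨h1, h2⟩ := norms hz
  rw [mem_ball_zero_iff, norm_div]
  rw [div_lt_one (lt_of_le_of_lt (norm_nonneg _) h1)]
  exact h1

theorem phi_psi {z : ℂ} (hz : 0 < z.re) :
    (1 + (z - 1) / (z + 1)) / (1 - (z - 1) / (z + 1)) = z := by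
  have h1 : z + 1 ≠ 0 := by
    intro h
    have := congrArg Complex.re h
    simp at this
    linarith
  have h2 : 1 + (z - 1) / (z + 1) = 2 * z / (z + 1) := by field_simp; ring
  have h3 : 1 - (z - 1) / (z + 1) = 2 / (z + 1) := by field_simp; ring
  rw [h2, h3]
  field_simp

theorem ratio_le {z : ℂ} (hz : 0 < z.re) {C : ℝ} (hC : 0 ≤ C) :
    C * (1 + ‖(z - 1) / (z + 1)‖) / (1 - ‖(z - 1) / (z + 1)‖) ≤ C * ‖1 + z‖ ^ 2 / z.re := by
  obtain ⟨h1, h2⟩ := norms hz
  rw [norm_div, add_comm 1 z]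
  set p := ‖z + 1‖
  set q := ‖z - 1‖
  have hq : 0 ≤ q := norm_nonneg _
  have hp : 0 < p := lt_of_le_of_lt hq h1
  have hpq : 0 < p - q := by linarith
  have e1 : C * (1 + q / p) / (1 - q / p) = C * ((p + q) / (p - q)) := by
    have : 1 - q / p ≠ 0 := by
      rw [ne_eq, sub_eq_zero, eq_div_iff hp.ne', one_mul]
      intro h; linarith
    field_simp
  rw [e1, mul_div_assoc]
  apply mul_le_mul_of_nonneg_left _ hC
  rw [div_le_div_iff₀ hpq hz]
  have h3 : z.re = (p - q) * (p + q) / 4 := by linarith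
  rw [h3]
  have h4 : (p + q) ^ 2 ≤ 4 * p ^ 2 := by nlinarith
  have h5 : (p + q) ^ 2 * (p - q) ≤ 4 * p ^ 2 * (p - q) := by gcongr
  linarith

theorem har : S_HAR := by
  intro f a b hf h0 hb hr
  have hopen : IsOpen {z : ℂ | 0 < z.re} := isOpen_lt continuous_const Complex.continuous_re
  -- the function on the ball
  have hφ : DifferentiableOn ℂ (fun u : ℂ => (1 + u) / (1 - u)) (ball 0 1) := by
    intro u hu
    have hu1 : ‖u‖ < 1 := mem_ball_zero_iff.mp hu
    have h1 : (1 - u) ≠ 0 := by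
      intro h
      have : u = 1 := by linear_combination -h
      rw [this, norm_one] at hu1
      exact lt_irrefl _ hu1
    exact (((differentiableAt_const _).add differentiableAt_id).div
      ((differentiableAt_const _).sub differentiableAt_id) h1).differentiableWithinAt
  have hF : DifferentiableOn ℂ (fun u : ℂ => f ((1 + u) / (1 - u))) (ball 0 1) :=
    hf.comp hφ (fun u hu => re_phi (mem_ball_zero_iff.mp hu))
  obtain ⟨r1, hr1, hf1⟩ := hr 1 one_pos
  have hf1re : (f 1).re = r1 := by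
    rw [← Complex.ofReal_one, hf1, Complex.ofReal_re]
  obtain ⟨G, hG, hG0, hGe⟩ := logball _ hF (fun u hu => h0 _ (re_phi (mem_ball_zero_iff.mp hu)))
    ((Real.log r1 : ℝ) : ℂ) (by
      rw [← Complex.ofReal_exp, Real.exp_log hr1]
      simp only [add_zero, sub_zero, div_one]
      rw [← Complex.ofReal_one, hf1])
  have hψ : DifferentiableOn ℂ (fun z : ℂ => (z - 1) / (z + 1)) {z : ℂ | 0 < z.re} := by
    intro z hz
    have hz' : 0 < z.re := hz
    have h1 : z + 1 ≠ 0 := by
      intro h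
      have := congrArg Complex.re h
      simp at this
      linarith
    have d1 : DifferentiableAt ℂ (fun z : ℂ => z - 1) z := by fun_prop
    have d2 : DifferentiableAt ℂ (fun z : ℂ => z + 1) z := by fun_prop
    exact (d1.div d2 h1).differentiableWithinAt
  have hg : DifferentiableOn ℂ (fun z => G ((z - 1) / (z + 1))) {z : ℂ | 0 < z.re} :=
    hG.comp hψ (fun z hz => psi_mem hz)
  have hexp : ∀ z : ℂ, 0 < z.re → Complex.exp (G ((z - 1) / (z + 1))) = f z := by
    intro z hz
    rw [hGe _ (psi_mem hz), phi_psi hz]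
  have hreal : ∀ x : ℝ, 0 < x →
      G (((x : ℂ) - 1) / (x + 1)) = ((Real.log (f x).re : ℝ) : ℂ) := by
    -- the imaginary part
    set θ : ℝ → ℝ := fun x => (G (((x : ℂ) - 1) / (x + 1))).im with hθ
    have hθc : ContinuousOn θ (Ioi 0) := by
      have h1 : ContinuousOn (fun x : ℝ => G (((x : ℂ) - 1) / (x + 1))) (Ioi 0) :=
        hg.continuousOn.comp Complex.continuous_ofReal.continuousOn (fun x hx => by
          show 0 < ((x : ℂ)).re
          rw [Complex.ofReal_re]; exact hx)
      exact Complex.continuous_im.comp_continuousOn h1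
    have hθ1 : θ 1 = 0 := by
      simp only [hθ, Complex.ofReal_one, sub_self, zero_div, hG0, Complex.ofReal_im]
    have hkey : ∀ x : ℝ, 0 < x → 0 < Real.cos (θ x) ∧ Real.sin (θ x) = 0 := by
      intro x hx
      obtain ⟨r, hr0, hfr⟩ := hr x hx
      have h1 := hexp (x : ℂ) (by rw [Complex.ofReal_re]; exact hx)
      rw [hfr] at h1
      have h2 := congrArg Complex.re h1
      have h3 := congrArg Complex.im h1
      rw [Complex.exp_re, Complex.ofReal_re] at h2
      rw [Complex.exp_im, Complex.ofReal_im] at h3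
      have h4 := Real.exp_pos (G (((x : ℂ) - 1) / (x + 1))).re
      constructor
      · have h5 : 0 < Real.exp (G (((x : ℂ) - 1) / (x + 1))).re * Real.cos (θ x) := by
          rw [hθ]; rw [h2]; exact hr0
        exact (pos_iff_pos_of_mul_pos h5).mp h4
      · exact (mul_eq_zero.mp h3).resolve_left h4.ne'
    have hnot : ∀ x : ℝ, 0 < x → θ x ≠ Real.pi ∧ θ x ≠ -Real.pi := by
      intro x hx
      have h1 := (hkey x hx).1
      constructor
      · intro h
        rw [h, Real.cos_pi] at h1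
        linarith
      · intro h
        rw [h, Real.cos_neg, Real.cos_pi] at h1
        linarith
    have hθ0 : ∀ x : ℝ, 0 < x → θ x = 0 := by
      intro x hx
      have hpi := Real.pi_pos
      have h1 : θ x < Real.pi := by
        by_contra hcon
        have h2 := isPreconnected_Ioi.intermediate_value (mem_Ioi.mpr one_pos : (1 : ℝ) ∈ Ioi (0 : ℝ))
          (show x ∈ Ioi 0 from hx) hθc
        obtain ⟨y, hy, hy2⟩ := h2 ⟨by rw [hθ1]; exact hpi.le, not_lt.mp hcon⟩
        exact (hnot y hy).1 hy2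
      have h2 : -Real.pi < θ x := by
        by_contra hcon
        have h2 := isPreconnected_Ioi.intermediate_value (show x ∈ Ioi 0 from hx)
          (mem_Ioi.mpr one_pos : (1 : ℝ) ∈ Ioi (0 : ℝ)) hθc
        obtain ⟨y, hy, hy2⟩ := h2 ⟨not_lt.mp hcon, by rw [hθ1]; linarith⟩
        exact (hnot y hy).2 hy2
      exact (Real.sin_eq_zero_iff_of_lt_of_lt h2 h1).mp (hkey x hx).2
    intro x hx
    obtain ⟨r, hr0, hfr⟩ := hr x hx
    have h1 := hexp (x : ℂ) (by rw [Complex.ofReal_re]; exact hx)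
    have h2 := hθ0 x hx
    apply Complex.ext
    · rw [Complex.ofReal_re, ← h1, Complex.exp_re]
      have h3 : (G (((x : ℂ) - 1) / (x + 1))).im = 0 := h2
      rw [h3, Real.cos_zero, mul_one, Real.log_exp]
    · rw [Complex.ofReal_im]
      exact h2
  refine ⟨fun z => G ((z - 1) / (z + 1)), hg, hexp, hreal, ?_⟩
  intro z hz
  -- the bound
  have hWd : DifferentiableOn ℂ (fun u => (a : ℂ) + b * ((1 + u) / (1 - u)) - G u) (ball 0 1) :=
    ((differentiableOn_const _).add ((differentiableOn_const _).mul hφ)).sub hG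
  have hWre : ∀ u ∈ ball (0 : ℂ) 1, 0 ≤ ((a : ℂ) + b * ((1 + u) / (1 - u)) - G u).re := by
    intro u hu
    have h1 := re_phi (mem_ball_zero_iff.mp hu)
    have h2 := hb _ h1
    rw [← hGe u hu, Complex.norm_exp, Real.exp_le_exp] at h2
    rw [Complex.sub_re, Complex.add_re, Complex.ofReal_re, Complex.re_ofReal_mul]
    linarith
  have h3 := harn _ hWd hWre _ (psi_mem hz)
  rw [phi_psi hz] at h3
  have h4 : ‖(a : ℂ) + b * ((1 + 0) / (1 - 0)) - G 0‖ = a + b - Real.log (f 1).re := by
    have h5 := hWre 0 (mem_ball_self one_pos)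
    rw [hG0] at h5 ⊢
    simp only [add_zero, sub_zero, div_one, mul_one] at h5 ⊢
    rw [← Complex.ofReal_add, ← Complex.ofReal_sub] at h5 ⊢
    rw [Complex.ofReal_re] at h5
    rw [Complex.norm_real, Real.norm_eq_abs, abs_of_nonneg h5, hf1re]
  rw [h4] at h3
  refine h3.trans (ratio_le hz ?_)
  rw [← h4]
  exact norm_nonneg _

end Pool.Agent.K6.H16.TF.HAR
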