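import Pool.Agent.K6.H16.TF.StmF

/-!
Piece `LYC` of the call `call16f` (MP_953b23_mp, statement of helper16, proof of helper96): the
theorem of Lee and Yang by Asano contraction.
-/

set_option autoImplicit false

open scoped BigOperators Matrix Topology
open Finset Filter Pool.Agent.TH981.LO

namespace Pool.Agent.K6.H16.TF.LYC

theorem norm_le {A C : ℂ} (h : ∀ y : ℂ, ‖y‖ < 1 → A + C * y ≠ 0) : ‖C‖ ≤ ‖A‖ := by
  by_contra hlt
  push Not at hlt
  have hC : C ≠ 0 := by
    rintro rfl
    rw [norm_zero] at hlt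
    exact absurd hlt (not_lt.2 (norm_nonneg _))
  refine h (-(A / C)) ?_ (by field_simp; ring)
  rw [norm_neg, norm_div, div_lt_one (norm_pos_iff.2 hC)]
  exact hlt

theorem nsq_le {A C : ℂ} (h : ‖C‖ ≤ ‖A‖) : Complex.normSq C ≤ Complex.normSq A := by
  rw [Complex.normSq_eq_norm_sq, Complex.normSq_eq_norm_sq]
  exact pow_le_pow_left₀ (norm_nonneg _) h 2

theorem norm_le_of {A C : ℂ} (h : Complex.normSq C ≤ Complex.normSq A) : ‖C‖ ≤ ‖A‖ := by
  rw [Complex.normSq_eq_norm_sq, Complex.normSq_eq_norm_sq] at h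
  exact (pow_le_pow_iff_left₀ (norm_nonneg _) (norm_nonneg _) two_ne_zero).1 h

theorem even_part {A B C D : ℂ} {r : ℝ} (hr0 : 0 ≤ r) (hr : r < 1)
    (h : ∀ y : ℂ, ‖y‖ < 1 → Complex.normSq (B + D * y) ≤ Complex.normSq (A + C * y)) :
    Complex.normSq B + Complex.normSq D * r ^ 2 ≤ Complex.normSq A + Complex.normSq C * r ^ 2 := by
  have h1 := h (r : ℂ) (by rwa [Complex.norm_real, Real.norm_of_nonneg hr0])
  have h2 := h (-(r : ℂ)) (by rwa [norm_neg, Complex.norm_real, Real.norm_of_nonneg hr0])
  simp only [Complex.normSq_apply, Complex.add_re, Complex.add_im, Complex.mul_re,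
    Complex.mul_im, Complex.ofReal_re, Complex.ofReal_im, Complex.neg_re, Complex.neg_im] at h1 h2 ⊢
  nlinarith [h1, h2]

theorem asano {A B C D : ℂ} {a : ℝ} (ha0 : 0 ≤ a) (ha1 : a ≤ 1)
    (h : ∀ x y : ℂ, ‖x‖ < 1 → ‖y‖ < 1 → A + B * x + C * y + D * (x * y) ≠ 0)
    {x y : ℂ} (hx : ‖x‖ < 1) (hy : ‖y‖ < 1) :
    A + a * (B * x + C * y) + D * (x * y) ≠ 0 := by
  have hA : A ≠ 0 := by
    have := h 0 0 (by simp) (by simp)
    simpa using this
  have hCA : ‖C‖ ≤ ‖A‖ := norm_le fun y hy => by
    have := h 0 y (by simp) hy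
    simpa using this
  have hY : ∀ y : ℂ, ‖y‖ < 1 → Complex.normSq (B + D * y) ≤ Complex.normSq (A + C * y) := by
    intro y hy
    refine nsq_le (norm_le fun x hx h0 => h x y hx hy ?_)
    rw [← h0]
    ring
  have hX : ∀ x : ℂ, ‖x‖ < 1 → Complex.normSq (C + D * x) ≤ Complex.normSq (A + B * x) := by
    intro x hx
    refine nsq_le (norm_le fun y hy h0 => h x y hx hy ?_)
    rw [← h0]
    ring
  have E1 := even_part (norm_nonneg y) hy hY
  have E2 := even_part (norm_nonneg y) hy hX
  have F1 := hY y hy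
  have hny : Complex.normSq y = ‖y‖ ^ 2 := Complex.normSq_eq_norm_sq y
  obtain ⟨ρ, hρ⟩ : ∃ ρ, ρ = ‖y‖ ^ 2 := ⟨_, rfl⟩
  have hρ0 : 0 ≤ ρ := by rw [hρ]; positivity
  have hρ1 : ρ ≤ 1 := by
    rw [hρ]
    exact pow_le_one₀ (norm_nonneg _) hy.le
  rw [← hρ] at E1 E2 hny
  have hnA := Complex.normSq_nonneg A
  have hnB := Complex.normSq_nonneg B
  have hnC := Complex.normSq_nonneg C
  have hnD := Complex.normSq_nonneg D
  have K : Complex.normSq (a * B + D * y) ≤ Complex.normSq (A + a * C * y) := by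
    rw [Complex.normSq_add, Complex.normSq_add, Complex.normSq_mul, Complex.normSq_mul, hny] at F1
    have t1 : (A * (starRingEnd ℂ) (a * C * y)).re = a * (A * (starRingEnd ℂ) (C * y)).re := by
      rw [map_mul, map_mul, map_mul, Complex.conj_ofReal,
        show A * (a * (starRingEnd ℂ) C * (starRingEnd ℂ) y) =
          a * (A * ((starRingEnd ℂ) C * (starRingEnd ℂ) y)) by ring, Complex.re_ofReal_mul]
    have t2 : (a * B * (starRingEnd ℂ) (D * y)).re = a * (B * (starRingEnd ℂ) (D * y)).re := by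
      rw [mul_assoc, Complex.re_ofReal_mul]
    rw [Complex.normSq_add, Complex.normSq_add, t1, t2]
    simp only [Complex.normSq_mul, Complex.normSq_ofReal, hny]
    have p0 : 0 ≤ Complex.normSq A - Complex.normSq D * ρ := by nlinarith
    have pq : 0 ≤ (Complex.normSq A - Complex.normSq D * ρ) -
        (Complex.normSq C * ρ - Complex.normSq B) := by nlinarith
    have m1 := mul_nonneg ha0 (sub_nonneg.2 F1)
    have m2 := mul_nonneg (sub_nonneg.2 ha1)
      (add_nonneg (mul_nonneg (sub_nonneg.2 ha1) p0) (mul_nonneg ha0 pq))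
    nlinarith [m1, m2]
  have K1 := norm_le_of K
  have K2 : ‖(a : ℂ) * C * y‖ < ‖A‖ := by
    rw [norm_mul, norm_mul, Complex.norm_real, Real.norm_of_nonneg ha0]
    have hA' : 0 < ‖A‖ := norm_pos_iff.2 hA
    calc a * ‖C‖ * ‖y‖ ≤ 1 * ‖A‖ * ‖y‖ := by gcongr
      _ < ‖A‖ := by nlinarith
  have K3 : A + a * C * y ≠ 0 := by
    intro h0
    have : A = -(a * C * y) := by linear_combination h0
    rw [this, norm_neg] at K2
    exact lt_irrefl _ K2
  intro h0
  have h1 : A + a * C * y = -((a * B + D * y) * x) := by linear_combination h0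
  have h2 : ‖A + a * C * y‖ = ‖(a : ℂ) * B + D * y‖ * ‖x‖ := by rw [h1, norm_neg, norm_mul]
  have h3 : 0 < ‖A + a * C * y‖ := norm_pos_iff.2 K3
  nlinarith [norm_nonneg x, norm_nonneg ((a : ℂ) * B + D * y)]

/-- expansion in two spins -/
theorem expand {V : Type} [Fintype V] [DecidableEq V] (u v : V) (c : (V → Fin 2) → ℂ)
    (k : Fin 2 → Fin 2 → ℂ) :
    ∑ σ : V → Fin 2, c σ * k (σ u) (σ v) =
      (∑ σ : V → Fin 2, if σ u = 0 ∧ σ v = 0 then c σ else 0) * k 0 0 +
      (∑ σ : V → Fin 2, if σ u = 1 ∧ σ v = 0 then c σ else 0) * k 1 0 +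
      (∑ σ : V → Fin 2, if σ u = 0 ∧ σ v = 1 then c σ else 0) * k 0 1 +
      (∑ σ : V → Fin 2, if σ u = 1 ∧ σ v = 1 then c σ else 0) * k 1 1 := by
  rw [Finset.sum_mul, Finset.sum_mul, Finset.sum_mul, Finset.sum_mul, ← Finset.sum_add_distrib,
    ← Finset.sum_add_distrib, ← Finset.sum_add_distrib]
  refine Finset.sum_congr rfl fun σ _ => ?_
  have hu : σ u = 0 ∨ σ u = 1 := by omega
  have hv : σ v = 0 ∨ σ v = 1 := by omega
  rcases hu with hu | hu <;> rcases hv with hv | hv <;> simp [hu, hv]

theorem prod_two {V : Type} [Fintype V] [DecidableEq V] {u v : V} (huv : u ≠ v) (f : V → ℂ) :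
    ∏ z, f z = f u * f v * ∏ z ∈ (univ.erase u).erase v, f z := by
  rw [← Finset.mul_prod_erase univ f (mem_univ u),
    ← Finset.mul_prod_erase (univ.erase u) f (mem_erase.2 ⟨huv.symm, mem_univ v⟩), mul_assoc]

theorem lyc : S_LYC := by
  intro V E _ _ _ G w F
  induction F using Finset.induction_on with
  | empty =>
    intro t _ ht
    have h1 : ∑ σ : V → Fin 2, ((∏ e ∈ (∅ : Finset E),
        (1 + w e * (sgn (σ (G.s e)) * sgn (σ (G.t e)))) : ℝ) : ℂ) *
        ∏ v, (if σ v = 0 then 1 else t v) = ∏ v, (1 + t v) := by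
      have h2 : ∏ v, (1 + t v) = ∏ v, ∑ i : Fin 2, (if i = 0 then 1 else t v) := by
        refine Finset.prod_congr rfl fun v _ => ?_
        simp
      rw [h2, Finset.prod_univ_sum, Fintype.piFinset_univ]
      refine Finset.sum_congr rfl fun σ _ => ?_
      simp
    rw [h1]
    refine Finset.prod_ne_zero_iff.2 fun v _ h0 => ?_
    have : t v = -1 := by linear_combination h0
    have h3 := ht v
    rw [this, norm_neg, norm_one] at h3
    exact lt_irrefl _ h3
  | insert e F heF ih =>
    intro t hw ht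
    obtain ⟨hw0, hw1⟩ := hw e (mem_insert_self _ _)
    have ih' := fun t' => ih t' (fun e' he' => hw e' (mem_insert_of_mem he'))
    by_cases huv : G.s e = G.t e
    · have h1 : ∑ σ : V → Fin 2, ((∏ e' ∈ insert e F,
          (1 + w e' * (sgn (σ (G.s e')) * sgn (σ (G.t e')))) : ℝ) : ℂ) *
          ∏ v, (if σ v = 0 then 1 else t v) = (1 + w e : ℂ) *
          ∑ σ : V → Fin 2, ((∏ e' ∈ F,
          (1 + w e' * (sgn (σ (G.s e')) * sgn (σ (G.t e')))) : ℝ) : ℂ) *
          ∏ v, (if σ v = 0 then 1 else t v) := by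
        rw [Finset.mul_sum]
        refine Finset.sum_congr rfl fun σ _ => ?_
        rw [Finset.prod_insert heF, huv]
        have : sgn (σ (G.t e)) * sgn (σ (G.t e)) = 1 := by
          unfold sgn
          split_ifs <;> norm_num
        rw [this]
        push_cast
        ring
      rw [h1]
      refine mul_ne_zero ?_ (ih' t ht)
      intro h0
      have h2 : ((1 + w e : ℝ) : ℂ) = 0 := by push_cast; exact h0
      have h3 : (1 + w e : ℝ) = 0 := by exact_mod_cast h2
      linarith
    · obtain ⟨c, hc⟩ : ∃ c : (V → Fin 2) → ℂ, c = fun σ => ((∏ e' ∈ F,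
          (1 + w e' * (sgn (σ (G.s e')) * sgn (σ (G.t e')))) : ℝ) : ℂ) *
          ∏ z ∈ (univ.erase (G.s e)).erase (G.t e), (if σ z = 0 then 1 else t z) := ⟨_, rfl⟩
      have hfac : ∀ (x y : ℂ) (σ : V → Fin 2),
          ∏ z, (if σ z = 0 then 1 else
            Function.update (Function.update t (G.s e) x) (G.t e) y z) =
          (if σ (G.s e) = 0 then 1 else x) * (if σ (G.t e) = 0 then 1 else y) *
            ∏ z ∈ (univ.erase (G.s e)).erase (G.t e), (if σ z = 0 then 1 else t z) := by
        intro x y σ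
        rw [prod_two huv]
        congr 1
        · congr 1
          · rw [Function.update_of_ne huv, Function.update_self]
          · rw [Function.update_self]
        · refine Finset.prod_congr rfl fun z hz => ?_
          rw [mem_erase, mem_erase] at hz
          rw [Function.update_of_ne hz.1, Function.update_of_ne hz.2.1]
      have h0 : ∀ x y : ℂ, ∑ σ : V → Fin 2, ((∏ e' ∈ F,
          (1 + w e' * (sgn (σ (G.s e')) * sgn (σ (G.t e')))) : ℝ) : ℂ) *
          ∏ z, (if σ z = 0 then 1 else
            Function.update (Function.update t (G.s e) x) (G.t e) y z) =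
          ∑ σ : V → Fin 2, c σ * ((fun i j : Fin 2 => (if i = 0 then 1 else x) *
            (if j = 0 then 1 else y)) (σ (G.s e)) (σ (G.t e))) := by
        intro x y
        refine Finset.sum_congr rfl fun σ _ => ?_
        rw [hfac, hc]
        ring
      have h1 : ∑ σ : V → Fin 2, ((∏ e' ∈ insert e F,
          (1 + w e' * (sgn (σ (G.s e')) * sgn (σ (G.t e')))) : ℝ) : ℂ) *
          ∏ z, (if σ z = 0 then 1 else t z) =
          ∑ σ : V → Fin 2, c σ * ((fun i j : Fin 2 => (1 + w e * (sgn i * sgn j) : ℝ) *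
            ((if i = 0 then 1 else t (G.s e)) * (if j = 0 then 1 else t (G.t e))))
            (σ (G.s e)) (σ (G.t e))) := by
        refine Finset.sum_congr rfl fun σ _ => ?_
        have h2 := hfac (t (G.s e)) (t (G.t e)) σ
        rw [Function.update_eq_self, Function.update_eq_self] at h2
        rw [h2, hc, Finset.prod_insert heF]
        push_cast
        ring
      rw [h1, expand (G.s e) (G.t e) c (fun i j : Fin 2 => (1 + w e * (sgn i * sgn j) : ℝ) *
            ((if i = 0 then 1 else t (G.s e)) * (if j = 0 then 1 else t (G.t e))))]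
      have e1 : ∀ x : ℂ, (if (1 : Fin 2) = 0 then (1 : ℂ) else x) = x :=
        fun x => if_neg (by decide)
      have ha0 : 0 ≤ (1 - w e) / (1 + w e) := div_nonneg (by linarith) (by linarith)
      have ha1 : (1 - w e) / (1 + w e) ≤ 1 := by
        rw [div_le_one (by linarith)]
        linarith
      have key := asano (A := ∑ σ : V → Fin 2, if σ (G.s e) = 0 ∧ σ (G.t e) = 0 then c σ else 0)
        (B := ∑ σ : V → Fin 2, if σ (G.s e) = 1 ∧ σ (G.t e) = 0 then c σ else 0)
        (C := ∑ σ : V → Fin 2, if σ (G.s e) = 0 ∧ σ (G.t e) = 1 then c σ else 0)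
        (D := ∑ σ : V → Fin 2, if σ (G.s e) = 1 ∧ σ (G.t e) = 1 then c σ else 0)
        ha0 ha1 (fun x y hx hy => ?_) (ht (G.s e)) (ht (G.t e))
      · have hs00 : sgn 0 * sgn 0 = 1 := by simp [sgn]
        have hs10 : sgn 1 * sgn 0 = -1 := by simp [sgn]
        have hs01 : sgn 0 * sgn 1 = -1 := by simp [sgn]
        have hs11 : sgn 1 * sgn 1 = 1 := by simp [sgn]
        have hne : (1 + w e : ℂ) ≠ 0 := by
          intro h0
          have h2 : ((1 + w e : ℝ) : ℂ) = 0 := by push_cast; exact h0
          have h3 : (1 + w e : ℝ) = 0 := by exact_mod_cast h2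
          linarith
        have ha : (1 + w e : ℂ) * (((1 - w e) / (1 + w e) : ℝ) : ℂ) = 1 - w e := by
          rw [Complex.ofReal_div, Complex.ofReal_sub, Complex.ofReal_add, Complex.ofReal_one]
          exact mul_div_cancel₀ _ hne
        intro h00
        refine (mul_ne_zero hne key) ?_
        rw [hs00, hs10, hs01, hs11] at h00
        simp only [e1, ↓reduceIte, Complex.ofReal_add, Complex.ofReal_mul, Complex.ofReal_one,
          Complex.ofReal_neg] at h00
        linear_combination h00 + ((∑ σ : V → Fin 2, if σ (G.s e) = 1 ∧ σ (G.t e) = 0 then c σ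
          else 0) * t (G.s e) + (∑ σ : V → Fin 2, if σ (G.s e) = 0 ∧ σ (G.t e) = 1 then c σ
          else 0) * t (G.t e)) * ha
      · have h2 := ih' (Function.update (Function.update t (G.s e) x) (G.t e) y) (by
          intro z
          by_cases hz : z = G.t e
          · rw [hz, Function.update_self]
            exact hy
          · rw [Function.update_of_ne hz]
            by_cases hz' : z = G.s e
            · rw [hz', Function.update_self]
              exact hx
            · rw [Function.update_of_ne hz']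
              exact ht z)
        rw [h0, expand (G.s e) (G.t e) c (fun i j : Fin 2 => (if i = 0 then 1 else x) *
            (if j = 0 then 1 else y))] at h2
        intro h3
        apply h2
        simp only [e1, ↓reduceIte]
        linear_combination h3

end Pool.Agent.K6.H16.TF.LYC
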