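import Pool.Agent.K6.H16.TF.StmF

/-!
# Piece LYQ (helper84): properties of the partition function with a complex field
-/

set_option autoImplicit false

open scoped Topology Matrix
open Filter

namespace Pool.Agent.K6.H16.TF.LYQ

open Pool.Agent.TH981.LO

theorem exp_diff {α : Type} [Fintype α] [DecidableEq α] (A B : Matrix α α ℂ) :
    Differentiable ℂ (fun z : ℂ => (NormedSpace.exp (A + z • B)).trace) := by
  let _ : SeminormedRing (Matrix α α ℂ) := Matrix.linftyOpSemiNormedRing
  let _ : NormedRing (Matrix α α ℂ) := Matrix.linftyOpNormedRing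
  let _ : NormedAlgebra ℂ (Matrix α α ℂ) := Matrix.linftyOpNormedAlgebra
  intro z
  have h1 : DifferentiableAt ℂ (fun z : ℂ => A + z • B) z := by fun_prop
  have h2 : DifferentiableAt ℂ (NormedSpace.exp : Matrix α α ℂ → Matrix α α ℂ) (A + z • B) :=
    (NormedSpace.exp_analytic (𝕂 := ℂ) _).differentiableAt
  have h3 := h2.comp z h1
  exact (LinearMap.toContinuousLinearMap (Matrix.traceLinearMap α ℂ ℂ)).differentiableAt.comp z h3

theorem exp_map_real {α : Type} [Fintype α] [DecidableEq α] (M : Matrix α α ℝ) :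
    (NormedSpace.exp M).map (fun r : ℝ => (r : ℂ)) =
      NormedSpace.exp (M.map (fun r : ℝ => (r : ℂ))) := by
  let _ : SeminormedRing (Matrix α α ℂ) := Matrix.linftyOpSemiNormedRing
  let _ : NormedRing (Matrix α α ℂ) := Matrix.linftyOpNormedRing
  let _ : SeminormedRing (Matrix α α ℝ) := Matrix.linftyOpSemiNormedRing
  let _ : NormedRing (Matrix α α ℝ) := Matrix.linftyOpNormedRing
  let _ : NormedAlgebra ℝ (Matrix α α ℝ) := Matrix.linftyOpNormedAlgebra
  have hc : CompleteSpace (Matrix α α ℝ) := FiniteDimensional.complete ℝ _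
  let _ : NormedAlgebra ℚ (Matrix α α ℝ) := Matrix.linftyOpNormedAlgebra
  have h := NormedSpace.map_exp (Complex.ofRealHom.mapMatrix : Matrix α α ℝ →+* Matrix α α ℂ)
    (by
      show Continuous (fun M : Matrix α α ℝ => M.map (fun r : ℝ => (r : ℂ)))
      exact continuous_id.matrix_map Complex.continuous_ofReal) M
  exact h

theorem fz_real {V ι : Type} [Fintype V] [DecidableEq V] [Fintype ι] (p q : ι → V)
    (J : ι → ℝ) (Γ β : ℝ) (x : ℝ) : fz p q J Γ β x = (fr p q J Γ β x : ℂ) := by
  have h1 : (β : ℂ) • hz p q J Γ x = (β • hf p q J Γ x).map (fun r : ℝ => (r : ℂ)) := by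
    ext s t
    simp only [hz, hf, Matrix.smul_apply, Matrix.add_apply, Matrix.map_apply, smul_eq_mul]
    push_cast
    ring
  unfold fz fr
  rw [h1, ← exp_map_real]
  simp only [Matrix.trace, Matrix.diag_apply, Matrix.map_apply]
  push_cast
  rfl

theorem fz_diff {V ι : Type} [Fintype V] [DecidableEq V] [Fintype ι] (p q : ι → V)
    (J : ι → ℝ) (Γ β : ℝ) : Differentiable ℂ (fz p q J Γ β) := by
  have h := exp_diff ((β : ℂ) • (hm p q J Γ).map (fun r : ℝ => (r : ℂ)))
    ((β : ℂ) • (mz (V := V)).map (fun r : ℝ => (r : ℂ)))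
  have h1 : fz p q J Γ β = fun z : ℂ => (NormedSpace.exp
      ((β : ℂ) • (hm p q J Γ).map (fun r : ℝ => (r : ℂ)) +
        z • ((β : ℂ) • (mz (V := V)).map (fun r : ℝ => (r : ℂ))))).trace := by
    funext z
    unfold fz hz
    rw [smul_add, smul_comm]
  rw [h1]
  exact h

theorem lyq (h1 : S_TRN) (h2 : S_HAR) : S_LYQ := by
  intro V ι _ _ _ _ p q J Γ β hJ hΓ hβ
  obtain ⟨fn, hD, hN, hB, hR, hT⟩ := h1 p q J Γ β hJ hΓ hβ
  have hreal := fz_real p q J Γ β
  refine ⟨fz_diff p q J Γ β, ?_, ?_, ?_, hreal⟩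
  · intro z hz0
    obtain ⟨M, hM⟩ := (hT 0).norm.bddAbove_range
    have hMn : ∀ n, ‖fn n 0‖ ≤ M := fun n => hM ⟨n, rfl⟩
    set b : ℝ := β * Fintype.card V with hb
    set K : ℝ := (M + b) * ‖1 + z‖ ^ 2 / z.re with hK
    have hlow : ∀ n, Real.exp (M + b * z.re - K) ≤ ‖fn n z‖ := by
      intro n
      obtain ⟨g, -, hg2, -, hg4⟩ := h2 (fn n) M b (hD n).differentiableOn (hN n) (by
        intro w hw
        refine (hB n w hw.le).trans ?_
        rw [Real.exp_add, mul_comm]
        apply mul_le_mul_of_nonneg_right _ (Real.exp_pos _).le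
        exact (hMn n).trans ((by linarith [Real.add_one_le_exp M]))) (by
        intro x hx
        obtain ⟨r, hr, h⟩ := hR n x hx.le
        exact ⟨r, by linarith, h⟩)
      obtain ⟨r, hr, hfr⟩ := hR n 1 zero_le_one
      have h3 := hg4 z hz0
      have h4 : 0 ≤ Real.log (fn n 1).re := by
        rw [Complex.ofReal_one] at hfr
        rw [hfr, Complex.ofReal_re]
        exact Real.log_nonneg hr
      have h5 : (M + b - Real.log (fn n 1).re) * ‖1 + z‖ ^ 2 / z.re ≤ K := by
        rw [hK]
        apply div_le_div_of_nonneg_right _ hz0.le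
        apply mul_le_mul_of_nonneg_right _ (by positivity)
        linarith
      have h6 := (Complex.re_le_norm _).trans (h3.trans h5)
      rw [← hg2 z hz0, Complex.norm_exp, Real.exp_le_exp]
      rw [Complex.sub_re, Complex.add_re, Complex.ofReal_re, Complex.re_ofReal_mul] at h6
      linarith
    have h7 := ge_of_tendsto' (hT z).norm hlow
    intro h8
    rw [h8, norm_zero] at h7
    exact absurd h7 (not_le.mpr (Real.exp_pos _))
  · intro z hz0
    exact le_of_tendsto_of_tendsto' (hT z).norm ((hT 0).norm.const_mul _) (fun n => hB n z hz0)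
  · intro x hx
    have h3 := (Complex.continuous_re.tendsto _).comp (hT x)
    rw [hreal x, Complex.ofReal_re] at h3
    refine ge_of_tendsto' h3 (fun n => ?_)
    obtain ⟨r, hr, hfr⟩ := hR n x hx
    show 1 ≤ (fn n x).re
    rw [hfr, Complex.ofReal_re]
    exact hr

end Pool.Agent.K6.H16.TF.LYQ
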