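import Pool.Agent.K6.H16.TF.StmF

/-!
# Piece LYT: the discretised partition function has no zeros (helper1 for helper16)
-/

set_option autoImplicit false

open scoped BigOperators Matrix Topology
open Finset Filter Pool.Agent.TH981.LO

namespace Pool.Agent.K6.H16.TF.LYT

theorem sgn_mul_eq (a b : Fin 2) : sgn a * sgn b = if a = b then 1 else -1 := by
  fin_cases a <;> fin_cases b <;> simp [sgn]

theorem prod_two {V : Type} [Fintype V] [DecidableEq V] (s t : V → Fin 2) :
    ∏ v, (1 + 1 * (sgn (s v) * sgn (t v))) = if s = t then (2 : ℝ) ^ Fintype.card V else 0 := by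
  split_ifs with h
  · subst h
    have h1 : ∀ v : V, (1 + 1 * (sgn (s v) * sgn (s v)) : ℝ) = 2 := by
      intro v
      rw [sgn_mul_eq]
      norm_num
    simp only [h1, Finset.prod_const, Finset.card_univ]
  · have h1 : ∃ v, s v ≠ t v := by
      by_contra hc
      push Not at hc
      exact h (funext hc)
    obtain ⟨v, hv⟩ := h1
    apply Finset.prod_eq_zero (Finset.mem_univ v)
    rw [sgn_mul_eq, if_neg hv]
    norm_num

/-- the weights of the slices -/
noncomputable def wj (n : ℕ) (j : Fin (n + 1)) : ℝ :=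
  2 - (if j = 0 then 1 else 0) - (if j = Fin.last n then 1 else 0)

theorem wj_pos {n : ℕ} (hn : 1 ≤ n) (j : Fin (n + 1)) : 0 < wj n j := by
  unfold wj
  split_ifs with h1 h2
  · exfalso
    subst h1
    have := congrArg Fin.val h2
    simp at this
    omega
  · norm_num
  · norm_num
  · norm_num

theorem sum_wj {n : ℕ} (f : Fin (n + 1) → ℝ) :
    ∑ k : Fin n, (f k.castSucc + f k.succ) = ∑ j, wj n j * f j := by
  have h1 := Fin.sum_univ_castSucc f
  have h2 := Fin.sum_univ_succ f
  have h3 : ∑ j, wj n j * f j = 2 * ∑ j, f j - f 0 - f (Fin.last n) := by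
    unfold wj
    simp only [sub_mul, Finset.sum_sub_distrib, ite_mul, one_mul, zero_mul,
      Finset.sum_ite_eq', Finset.mem_univ, if_true, ← Finset.mul_sum]
  rw [h3, Finset.sum_add_distrib]
  linarith

theorem exp_sgn (c : ℂ) (a : Fin 2) :
    Complex.exp (c * (sgn a : ℝ)) = Complex.exp c * (if a = 0 then 1 else Complex.exp (-(2 * c))) := by
  fin_cases a
  · simp [sgn]
  · simp only [sgn, Fin.mk_one, one_ne_zero, if_false]
    rw [← Complex.exp_add]
    congr 1
    push_cast
    ring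

section

variable {V ι : Type} [Fintype V] [DecidableEq V] [Fintype ι] [DecidableEq ι]

/-- the factors of the field -/
theorem field (n : ℕ) (z : ℂ) (σ : V × Fin (n + 1) → Fin 2) :
    ∏ k : Fin n, (Complex.exp (z * mg (fun v => σ (v, k.castSucc)) / 2) *
        Complex.exp (z * mg (fun v => σ (v, k.succ)) / 2)) =
      (∏ u : V × Fin (n + 1), Complex.exp (z * (wj n u.2 : ℝ) / 2)) *
        ∏ u : V × Fin (n + 1), (if σ u = 0 then 1 else Complex.exp (-(z * (wj n u.2 : ℝ)))) := by
  have hL : ∏ k : Fin n, (Complex.exp (z * mg (fun v => σ (v, k.castSucc)) / 2) *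
        Complex.exp (z * mg (fun v => σ (v, k.succ)) / 2)) =
      Complex.exp (z / 2 * ((∑ k : Fin n, (mg (fun v => σ (v, k.castSucc)) +
        mg (fun v => σ (v, k.succ))) : ℝ) : ℂ)) := by
    rw [Complex.ofReal_sum, Finset.mul_sum, Complex.exp_sum]
    refine Finset.prod_congr rfl fun k _ => ?_
    rw [← Complex.exp_add]
    congr 1
    push_cast
    ring
  have hR : (∏ u : V × Fin (n + 1), Complex.exp (z * (wj n u.2 : ℝ) / 2)) *
        ∏ u : V × Fin (n + 1), (if σ u = 0 then 1 else Complex.exp (-(z * (wj n u.2 : ℝ)))) =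
      Complex.exp (∑ u : V × Fin (n + 1), z * (wj n u.2 : ℝ) / 2 * (sgn (σ u) : ℝ)) := by
    rw [← Finset.prod_mul_distrib, Complex.exp_sum]
    refine Finset.prod_congr rfl fun u _ => ?_
    rw [exp_sgn]
    congr 2
    have : -(2 * (z * ((wj n u.2 : ℝ) : ℂ) / 2)) = -(z * ((wj n u.2 : ℝ) : ℂ)) := by ring
    rw [this]
  rw [hL, hR]
  congr 1
  have h1 := sum_wj (n := n) (fun j => mg (fun v : V => σ (v, j)))
  rw [h1, Fintype.sum_prod_type_right, Complex.ofReal_sum, Finset.mul_sum]
  refine Finset.sum_congr rfl fun j _ => ?_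
  unfold mg
  push_cast
  rw [Finset.mul_sum, Finset.mul_sum]
  refine Finset.sum_congr rfl fun v _ => ?_
  ring

/-- the edges -/
abbrev Eg (V ι : Type) (n : ℕ) : Type := (Fin n × Bool × ι) ⊕ (Fin n × V) ⊕ V

/-- the graph of the closed chain -/
def gc (p q : ι → V) (n : ℕ) : MG (V × Fin (n + 1)) (Eg V ι n) where
  s := fun e => match e with
    | .inl (k, b, i) => (p i, if b then k.succ else k.castSucc)
    | .inr (.inl (k, v)) => (v, k.castSucc)
    | .inr (.inr v) => (v, 0)
  t := fun e => match e with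
    | .inl (k, b, i) => (q i, if b then k.succ else k.castSucc)
    | .inr (.inl (k, v)) => (v, k.succ)
    | .inr (.inr v) => (v, Fin.last n)

/-- the weights -/
def wc (x : ι → ℝ) (y : ℝ) (n : ℕ) : Eg V ι n → ℝ := fun e => match e with
  | .inl (_, _, i) => x i
  | .inr (.inl _) => y
  | .inr (.inr _) => 1

omit [DecidableEq ι] in
theorem edges (p q : ι → V) (x : ι → ℝ) (y : ℝ) (n : ℕ) (σ : V × Fin (n + 1) → Fin 2) :
    ∏ e : Eg V ι n, (1 + wc x y n e * (sgn (σ ((gc p q n).s e)) * sgn (σ ((gc p q n).t e)))) =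
      (∏ k : Fin n, stp p q x y (fun v => σ (v, k.castSucc)) (fun v => σ (v, k.succ))) *
        (if (fun v => σ (v, 0)) = (fun v => σ (v, Fin.last n)) then
          (2 : ℝ) ^ Fintype.card V else 0) := by
  rw [Fintype.prod_sum_type, Fintype.prod_sum_type]
  simp only [wc, gc]
  rw [prod_two (fun v => σ (v, 0)) (fun v => σ (v, Fin.last n)), ← mul_assoc]
  congr 1
  simp only [Fintype.prod_prod_type, Fintype.prod_bool, if_true, Bool.false_eq_true, if_false]
  rw [← Finset.prod_mul_distrib]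
  refine Finset.prod_congr rfl fun k _ => ?_
  unfold stp
  ring

/-- configurations of the chain -/
def eqv (V : Type) (n : ℕ) : (V × Fin (n + 1) → Fin 2) ≃ (Fin (n + 1) → Cf V) where
  toFun σ k v := σ (v, k)
  invFun L u := L u.2 u.1
  left_inv σ := by funext u; rfl
  right_inv L := by funext k v; rfl

end

/-- **Piece LYT**. -/
theorem lyt (h1 : S_LYC) (h2 : S_CHC) : S_LYT := by
  intro V ι _ _ _ _ p q x y n z hx hy0 hy1 hn hz htr
  rw [h2] at htr
  have hw : ∀ e ∈ (Finset.univ : Finset (Eg V ι n)), 0 ≤ wc x y n e ∧ wc x y n e ≤ 1 := by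
    rintro (⟨k, b, i⟩ | ⟨k, v⟩ | v) _
    · exact hx i
    · exact ⟨hy0, hy1⟩
    · exact ⟨zero_le_one, le_rfl⟩
  have ht : ∀ u : V × Fin (n + 1), ‖Complex.exp (-(z * (wj n u.2 : ℝ)))‖ < 1 := by
    intro u
    rw [Complex.norm_exp]
    have : (-(z * ((wj n u.2 : ℝ) : ℂ))).re = -(z.re * wj n u.2) := by
      rw [Complex.neg_re, Complex.re_mul_ofReal]
    rw [this, Real.exp_lt_one_iff]
    have := mul_pos hz (wj_pos hn u.2)
    linarith
  have key := h1 (gc p q n) (wc x y n) Finset.univ
    (fun u : V × Fin (n + 1) => Complex.exp (-(z * (wj n u.2 : ℝ)))) hw ht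
  apply key
  set c0 : ℂ := ∏ u : V × Fin (n + 1), Complex.exp (z * (wj n u.2 : ℝ) / 2) with hc0
  have hc : c0 ≠ 0 := Finset.prod_ne_zero_iff.2 fun u _ => Complex.exp_ne_zero _
  rw [← Equiv.sum_comp (eqv V n)] at htr
  have hterm : ∀ σ : V × Fin (n + 1) → Fin 2,
      (((∏ e : Eg V ι n, (1 + wc x y n e *
        (sgn (σ ((gc p q n).s e)) * sgn (σ ((gc p q n).t e))))) : ℝ) : ℂ) *
        (∏ u : V × Fin (n + 1), (if σ u = 0 then 1 else Complex.exp (-(z * (wj n u.2 : ℝ))))) * c0 =
      2 ^ Fintype.card V * ((if (eqv V n σ) 0 = (eqv V n σ) (Fin.last n) then (1 : ℂ) else 0) *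
        ∏ k : Fin n, stz p q x y z ((eqv V n σ) k.castSucc) ((eqv V n σ) k.succ)) := by
    intro σ
    have e1 : ∏ k : Fin n, stz p q x y z ((eqv V n σ) k.castSucc) ((eqv V n σ) k.succ) =
        (∏ k : Fin n, (stp p q x y (fun v => σ (v, k.castSucc)) (fun v => σ (v, k.succ)) : ℂ)) *
        (c0 * ∏ u : V × Fin (n + 1),
          (if σ u = 0 then 1 else Complex.exp (-(z * (wj n u.2 : ℝ))))) := by
      rw [hc0, ← field, ← Finset.prod_mul_distrib]
      refine Finset.prod_congr rfl fun k _ => ?_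
      unfold stz eqv
      simp only [Equiv.coe_fn_mk]
      ring
    rw [e1, edges]
    have e2 : ((eqv V n σ) 0 = (eqv V n σ) (Fin.last n)) ↔
        ((fun v => σ (v, 0)) = (fun v => σ (v, Fin.last n))) := Iff.rfl
    by_cases hcase : (fun v => σ (v, 0)) = (fun v => σ (v, Fin.last n))
    · rw [if_pos hcase, if_pos (e2.2 hcase)]
      push_cast
      ring
    · rw [if_neg hcase, if_neg (fun h => hcase (e2.1 h))]
      simp
  have hsum := Finset.sum_congr rfl fun σ (_ : σ ∈ (Finset.univ :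
    Finset (V × Fin (n + 1) → Fin 2))) => hterm σ
  rw [← Finset.sum_mul, ← Finset.mul_sum, htr, mul_zero] at hsum
  rcases mul_eq_zero.1 hsum with h | h
  · exact h
  · exact absurd h hc

end Pool.Agent.K6.H16.TF.LYT
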