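import Pool.Agent.K6.H16.TF.StmF

/-!
# Piece PLD: a consequence of the theorem of Phragmen and Lindelöf (helper70, for helper16)
-/

set_option autoImplicit false

open scoped BigOperators Matrix Topology
open Finset Filter

namespace Pool.Agent.K6.H16.TF.PLD

theorem sqb (w : ℂ) (hw : 0 ≤ w.re) : (1 + ‖w‖) ^ 2 ≤ 2 * ‖1 + w‖ ^ 2 := by
  have h1 : ‖1 + w‖ ^ 2 = 1 + 2 * w.re + ‖w‖ ^ 2 := by
    rw [← Complex.normSq_eq_norm_sq, ← Complex.normSq_eq_norm_sq]
    simp only [Complex.normSq_apply, Complex.add_re, Complex.add_im, Complex.one_re, Complex.one_im]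
    ring
  rw [h1]
  nlinarith [sq_nonneg (1 - ‖w‖)]

theorem pld : S_PLD := by
  intro v K γ M η hv hK hγ hη hb hr h hh
  set F : ℂ → ℂ := fun z => Complex.exp (γ * z) * v (z + η) / (1 + z + η) ^ 2 with hF
  have hne : ∀ z : ℂ, 0 ≤ z.re → (1 + z + (η : ℂ)) ≠ 0 := by
    intro z hz h0
    have := congrArg Complex.re h0
    simp at this
    linarith
  have hd : DifferentiableOn ℂ F {z | 0 ≤ z.re} := by
    apply DifferentiableOn.div
    · apply DifferentiableOn.mul
      · exact (by fun_prop : Differentiable ℂ (fun z : ℂ => Complex.exp (γ * z))).differentiableOn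
      · refine hv.comp (by fun_prop : Differentiable ℂ (fun z : ℂ => z + (η : ℂ))).differentiableOn ?_
        intro z hz
        simp only [Set.mem_ofPred_eq] at hz ⊢
        simp
        linarith
    · exact (by fun_prop : Differentiable ℂ (fun z : ℂ => (1 + z + (η : ℂ)) ^ 2)).differentiableOn
    · intro z hz
      exact pow_ne_zero 2 (hne z hz)
  have hdc : DiffContOnCl ℂ F {z | 0 < z.re} := by
    apply DifferentiableOn.diffContOnCl
    rw [Complex.closure_setOfPred_lt_re]
    exact hd
  have hbd : ∀ z : ℂ, 0 ≤ z.re → ‖F z‖ ≤ Real.exp (γ * z.re) * (2 * K / η) := by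
    intro z hz
    have hre : (z + (η : ℂ)).re = z.re + η := by simp
    have h1 := hb (z + η) (by rw [hre]; linarith)
    have h2 := sqb (z + η) (by rw [hre]; linarith)
    have h3 : 1 + (z + (η : ℂ)) = 1 + z + η := by ring
    rw [h3] at h2
    have h4 : 0 < ‖1 + z + (η : ℂ)‖ ^ 2 := by
      have := norm_pos_iff.mpr (hne z hz)
      positivity
    have h5 : ‖v (z + η)‖ ≤ (2 * K / η) * ‖1 + z + (η : ℂ)‖ ^ 2 := by
      calc ‖v (z + η)‖ ≤ K * (1 + ‖z + (η : ℂ)‖) ^ 2 / (z + (η : ℂ)).re := h1
        _ ≤ K * (2 * ‖1 + z + (η : ℂ)‖ ^ 2) / η := by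
          rw [hre]
          apply div_le_div₀
          · positivity
          · exact mul_le_mul_of_nonneg_left h2 hK
          · exact hη
          · linarith
        _ = (2 * K / η) * ‖1 + z + (η : ℂ)‖ ^ 2 := by ring
    rw [hF]
    simp only
    rw [norm_div, norm_mul, norm_pow, Complex.norm_exp, div_le_iff₀ h4]
    have h6 : ((γ : ℂ) * z).re = γ * z.re := by simp
    rw [h6, mul_assoc]
    exact mul_le_mul_of_nonneg_left h5 (Real.exp_pos _).le
  have hC : 0 ≤ 2 * K / η := by positivity
  have key : ∀ z : ℂ, 0 ≤ z.re → ‖F z‖ ≤ 2 * K / η := by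
    intro z hz
    refine PhragmenLindelof.right_half_plane_of_bounded_on_real hdc ?_ ?_ ?_ hz
    · refine ⟨1, by norm_num, γ, ?_⟩
      rw [Asymptotics.isBigO_iff]
      refine ⟨2 * K / η, ?_⟩
      refine Filter.eventually_inf_principal.mpr (Filter.Eventually.of_forall ?_)
      intro z hz
      simp only [Set.mem_ofPred_eq] at hz
      refine (hbd z hz.le).trans ?_
      rw [mul_comm, Real.norm_eq_abs, abs_of_pos (Real.exp_pos _), Real.rpow_one]
      refine mul_le_mul_of_nonneg_left ?_ hC
      apply Real.exp_le_exp.mpr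
      exact mul_le_mul_of_nonneg_left (Complex.re_le_norm z) hγ
    · refine ⟨|M|, ?_⟩
      rw [Filter.eventually_map]
      filter_upwards [Filter.eventually_ge_atTop (0 : ℝ)] with x hx
      have h1 := hr (x + η) (by linarith)
      rw [hF]
      simp only
      rw [norm_div, norm_mul, norm_pow, Complex.norm_exp]
      have h6 : ((γ : ℂ) * (x : ℂ)).re = γ * x := by simp
      have h7 : ((1 : ℂ) + (x : ℂ) + (η : ℂ)) = ((1 + x + η : ℝ) : ℂ) := by push_cast; ring
      have h8 : ((x : ℂ) + (η : ℂ)) = ((x + η : ℝ) : ℂ) := by push_cast; ring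
      rw [h6, h7, h8, Complex.norm_real, Real.norm_eq_abs]
      have h9 : 1 ≤ |1 + x + η| ^ 2 := by
        rw [sq_abs]
        nlinarith
      have h10 : Real.exp (γ * x) * ‖v ((x + η : ℝ) : ℂ)‖ ≤ |M| := by
        calc Real.exp (γ * x) * ‖v ((x + η : ℝ) : ℂ)‖
            ≤ Real.exp (γ * x) * (M * Real.exp (-(γ * (x + η)))) :=
              mul_le_mul_of_nonneg_left h1 (Real.exp_pos _).le
          _ ≤ Real.exp (γ * x) * (|M| * Real.exp (-(γ * (x + η)))) := by
              refine mul_le_mul_of_nonneg_left ?_ (Real.exp_pos _).le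
              exact mul_le_mul_of_nonneg_right (le_abs_self M) (Real.exp_pos _).le
          _ = |M| * (Real.exp (γ * x) * Real.exp (-(γ * (x + η)))) := by ring
          _ = |M| * Real.exp (-(γ * η)) := by
              rw [← Real.exp_add]
              congr 2
              ring
          _ ≤ |M| * 1 := by
              refine mul_le_mul_of_nonneg_left ?_ (abs_nonneg M)
              apply Real.exp_le_one_iff.mpr
              have : 0 ≤ γ * η := by positivity
              linarith
          _ = |M| := mul_one _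
      exact (div_le_self (by positivity) h9).trans h10
    · intro x
      have h1 := hbd (x * Complex.I) (by simp)
      have h2 : ((x : ℂ) * Complex.I).re = 0 := by simp
      rw [h2, mul_zero, Real.exp_zero, one_mul] at h1
      exact h1
  have h1 := key ((h - η : ℝ) : ℂ) (by simp; linarith)
  rw [hF] at h1
  simp only at h1
  rw [norm_div, norm_mul, norm_pow, Complex.norm_exp] at h1
  have h6 : ((γ : ℂ) * ((h - η : ℝ) : ℂ)).re = γ * (h - η) := by
    rw [← Complex.ofReal_mul, Complex.ofReal_re]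
  have h7 : ((1 : ℂ) + ((h - η : ℝ) : ℂ) + (η : ℂ)) = ((1 + h : ℝ) : ℂ) := by push_cast; ring
  have h8 : (((h - η : ℝ) : ℂ) + (η : ℂ)) = (h : ℂ) := by push_cast; ring
  rw [h6, h7, h8, Complex.norm_real, Real.norm_eq_abs, sq_abs] at h1
  have h9 : 0 < (1 + h) ^ 2 := by
    have : 0 < 1 + h := by linarith
    positivity
  rw [div_le_iff₀ h9] at h1
  have h10 : Real.exp (γ * (h - η)) * Real.exp (-(γ * (h - η))) = 1 := by
    rw [← Real.exp_add, add_neg_cancel, Real.exp_zero]
  calc ‖v h‖ = (Real.exp (γ * (h - η)) * ‖v h‖) * Real.exp (-(γ * (h - η))) := by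
        rw [mul_comm (Real.exp (γ * (h - η))), mul_assoc, h10, mul_one]
    _ ≤ (2 * K / η * (1 + h) ^ 2) * Real.exp (-(γ * (h - η))) :=
        mul_le_mul_of_nonneg_right h1 (Real.exp_pos _).le

end Pool.Agent.K6.H16.TF.PLD
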