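import Pool.Agent.K6.H16.TF.StmF
import Pool.Agent.K6.H16.TF.P_SPEC

/-!
# Piece RBE (seat helper85): large real fields
-/

set_option autoImplicit false
set_option linter.unusedSectionVars false

open scoped BigOperators Matrix Topology
open Finset Filter

namespace Pool.Agent.K6.H16.TF.RBE

open Pool.Agent.K6.H16.TF

section

variable {n : Type} [Fintype n] [DecidableEq n]

theorem dotUU (U : Matrix n n ℝ) (h' : Uᵀ * U = 1) (c d : n → ℝ) :
    (U *ᵥ c) ⬝ᵥ (U *ᵥ d) = c ⬝ᵥ d := by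
  rw [Matrix.dotProduct_mulVec, ← Matrix.mulVec_transpose, Matrix.mulVec_mulVec, h',
    Matrix.one_mulVec]

theorem qf (U : Matrix n n ℝ) (ν : n → ℝ) (h' : Uᵀ * U = 1) (c : n → ℝ) :
    (U *ᵥ c) ⬝ᵥ ((U * Matrix.diagonal ν * Uᵀ) *ᵥ (U *ᵥ c)) = ∑ j, ν j * c j ^ 2 := by
  have h1 : (U * Matrix.diagonal ν * Uᵀ) *ᵥ (U *ᵥ c) = U *ᵥ (Matrix.diagonal ν *ᵥ c) := by
    rw [Matrix.mulVec_mulVec, Matrix.mul_assoc, h', Matrix.mul_one, Matrix.mulVec_mulVec]
  rw [h1, dotUU U h']
  unfold dotProduct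
  refine Finset.sum_congr rfl fun j _ => ?_
  rw [Matrix.mulVec_diagonal]
  ring

theorem nf (U : Matrix n n ℝ) (h' : Uᵀ * U = 1) (c : n → ℝ) :
    (U *ᵥ c) ⬝ᵥ (U *ᵥ c) = ∑ j, c j ^ 2 := by
  rw [dotUU U h']
  unfold dotProduct
  exact Finset.sum_congr rfl fun j _ => by ring

end

section

variable {V ι : Type} [Fintype V] [DecidableEq V] [Fintype ι]

theorem sgn_le (a : Fin 2) : sgn a ≤ 1 := by
  unfold sgn; split_ifs <;> norm_num

theorem sgn_mul_le (a b : Fin 2) : sgn a * sgn b ≤ 1 := by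
  unfold sgn; split_ifs <;> norm_num

theorem mg_le (s : Cf V) (hs : s ≠ 0) : mg s ≤ (Fintype.card V : ℝ) - 2 := by
  obtain ⟨v, hv⟩ : ∃ v, s v ≠ 0 := by
    by_contra h
    push Not at h
    exact hs (funext h)
  unfold mg
  rw [← Finset.add_sum_erase _ _ (Finset.mem_univ v)]
  have h1 : sgn (s v) = -1 := by unfold sgn; rw [if_neg hv]
  have h2 : ∑ u ∈ univ.erase v, sgn (s u) ≤ ∑ u ∈ univ.erase v, (1 : ℝ) :=
    Finset.sum_le_sum fun u _ => sgn_le _
  rw [Finset.sum_const, Finset.card_erase_of_mem (Finset.mem_univ v), Finset.card_univ,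
    nsmul_eq_mul, mul_one, Nat.cast_sub (Fintype.card_pos_iff.2 ⟨v⟩)] at h2
  rw [h1]
  push_cast at h2
  linarith

theorem mg_zero : mg (0 : Cf V) = (Fintype.card V : ℝ) := by
  unfold mg
  have h1 : ∀ v : V, sgn ((0 : Cf V) v) = 1 := fun v => by unfold sgn; simp
  simp only [h1]
  simp

/-- the flip of one spin -/
def fp (v : V) (s : Cf V) : Cf V := Function.update s v (1 - s v)

theorem fp_fp (v : V) (s : Cf V) : fp v (fp v s) = s := by
  unfold fp
  funext u
  by_cases h : u = v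
  · subst h
    simp only [Function.update_self]
    abel
  · simp [Function.update_of_ne h]

theorem fp_iff (v : V) (s t : Cf V) : (s v ≠ t v ∧ ∀ u, u ≠ v → s u = t u) ↔ t = fp v s := by
  constructor
  · rintro ⟨h1, h2⟩
    funext u
    by_cases h : u = v
    · subst h
      unfold fp
      rw [Function.update_self]
      generalize s u = a at h1
      generalize t u = b at h1
      revert h1 a b
      decide
    · unfold fp
      rw [Function.update_of_ne h]
      exact (h2 u h).symm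
  · rintro rfl
    constructor
    · unfold fp
      rw [Function.update_self]
      generalize s v = a
      revert a
      decide
    · intro u hu
      unfold fp
      rw [Function.update_of_ne hu]

theorem fl_le (φ : Cf V → ℝ) : φ ⬝ᵥ (fl *ᵥ φ) ≤ (Fintype.card V : ℝ) * ∑ s, φ s ^ 2 := by
  have h1 : φ ⬝ᵥ (fl *ᵥ φ) = ∑ v : V, ∑ s, φ s * φ (fp v s) := by
    rw [Finset.sum_comm]
    unfold dotProduct
    refine Finset.sum_congr rfl fun s _ => ?_
    rw [← Finset.mul_sum]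
    congr 1
    unfold Matrix.mulVec dotProduct fl
    have h2 : ∀ t : Cf V, (∑ v, if s v ≠ t v ∧ ∀ u, u ≠ v → s u = t u then (1 : ℝ) else 0) * φ t =
        ∑ v, if t = fp v s then φ t else 0 := by
      intro t
      rw [Finset.sum_mul]
      refine Finset.sum_congr rfl fun v _ => ?_
      by_cases h : t = fp v s
      · rw [if_pos ((fp_iff v s t).2 h), if_pos h, one_mul]
      · rw [if_neg (fun h' => h ((fp_iff v s t).1 h')), if_neg h, zero_mul]
    rw [Finset.sum_congr rfl fun t _ => h2 t, Finset.sum_comm]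
    refine Finset.sum_congr rfl fun v _ => ?_
    rw [Finset.sum_ite_eq' Finset.univ (fp v s) φ, if_pos (Finset.mem_univ _)]
  have h3 : ∀ v : V, ∑ s, φ s * φ (fp v s) ≤ ∑ s, φ s ^ 2 := by
    intro v
    have h4 : ∑ s, φ (fp v s) ^ 2 = ∑ s, φ s ^ 2 := by
      let e : Cf V ≃ Cf V := ⟨fp v, fp v, fp_fp v, fp_fp v⟩
      exact Equiv.sum_comp e (fun s => φ s ^ 2)
    have h5 : ∑ s, φ s * φ (fp v s) ≤ ∑ s, (φ s ^ 2 + φ (fp v s) ^ 2) / 2 :=
      Finset.sum_le_sum fun s _ => by nlinarith [sq_nonneg (φ s - φ (fp v s))]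
    rw [← Finset.sum_div, Finset.sum_add_distrib, h4] at h5
    linarith
  rw [h1]
  calc ∑ v : V, ∑ s, φ s * φ (fp v s) ≤ ∑ _v : V, ∑ s, φ s ^ 2 :=
        Finset.sum_le_sum fun v _ => h3 v
    _ = _ := by rw [Finset.sum_const, Finset.card_univ, nsmul_eq_mul]

theorem dg_le (p q : ι → V) (J : ι → ℝ) (hJ : ∀ i, 0 ≤ J i) (φ : Cf V → ℝ) :
    φ ⬝ᵥ (dg p q J *ᵥ φ) ≤ (∑ i, J i) * ∑ s, φ s ^ 2 := by
  unfold dotProduct dg
  rw [Finset.mul_sum]
  refine Finset.sum_le_sum fun s _ => ?_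
  rw [Matrix.mulVec_diagonal]
  have h1 : ∑ i, J i * (sgn (s (p i)) * sgn (s (q i))) ≤ ∑ i, J i :=
    Finset.sum_le_sum fun i _ => by
      have := mul_le_mul_of_nonneg_left (sgn_mul_le (s (p i)) (s (q i))) (hJ i)
      rwa [mul_one] at this
  have h2 := mul_le_mul_of_nonneg_right h1 (sq_nonneg (φ s))
  calc _ = (∑ i, J i * (sgn (s (p i)) * sgn (s (q i)))) * φ s ^ 2 := by ring
    _ ≤ _ := h2

theorem mz_le (φ : Cf V → ℝ) (h0 : φ 0 = 0) :
    φ ⬝ᵥ (mz *ᵥ φ) ≤ ((Fintype.card V : ℝ) - 2) * ∑ s, φ s ^ 2 := by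
  unfold dotProduct mz
  rw [Finset.mul_sum]
  refine Finset.sum_le_sum fun s _ => ?_
  rw [Matrix.mulVec_diagonal]
  by_cases hs : s = 0
  · subst hs
    rw [h0]; simp
  · have h2 := mul_le_mul_of_nonneg_right (mg_le s hs) (sq_nonneg (φ s))
    calc _ = mg s * φ s ^ 2 := by ring
      _ ≤ _ := h2

theorem hf_le (p q : ι → V) (J : ι → ℝ) (Γ x : ℝ) (hJ : ∀ i, 0 ≤ J i) (hΓ : 0 ≤ Γ) (hx : 0 < x)
    (φ : Cf V → ℝ) (h0 : φ 0 = 0) :
    φ ⬝ᵥ (hf p q J Γ x *ᵥ φ) ≤ (x * ((Fintype.card V : ℝ) - 2) + cc V J Γ) * ∑ s, φ s ^ 2 := by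
  unfold hf hm
  rw [Matrix.add_mulVec, Matrix.add_mulVec, Matrix.smul_mulVec, Matrix.smul_mulVec,
    dotProduct_add, dotProduct_add, dotProduct_smul, dotProduct_smul, smul_eq_mul, smul_eq_mul]
  have h1 := dg_le p q J hJ φ
  have h2 := mul_le_mul_of_nonneg_left (fl_le φ) hΓ
  have h3 := mul_le_mul_of_nonneg_left (mz_le φ h0) hx.le
  unfold cc
  linarith

theorem hf_ge (p q : ι → V) (J : ι → ℝ) (Γ x : ℝ) (hJ : ∀ i, 0 ≤ J i) (hΓ : 0 ≤ Γ) :
    x * (Fintype.card V : ℝ) - cc V J Γ ≤ hf p q J Γ x 0 0 := by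
  have h1 : dg p q J (0 : Cf V) 0 = ∑ i, J i := by
    unfold dg
    rw [Matrix.diagonal_apply_eq]
    refine Finset.sum_congr rfl fun i _ => ?_
    simp [sgn]
  have h2 : fl (0 : Cf V) 0 = 0 := by
    unfold fl
    refine Finset.sum_eq_zero fun v _ => ?_
    rw [if_neg]
    rintro ⟨h, -⟩
    exact h rfl
  have h3 : mz (0 : Cf V) 0 = (Fintype.card V : ℝ) := by
    unfold mz
    rw [Matrix.diagonal_apply_eq, mg_zero]
  have h4 : hf p q J Γ x 0 0 = ∑ i, J i + Γ * 0 + x * Fintype.card V := by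
    change dg p q J 0 0 + Γ * fl 0 0 + x * mz 0 0 = _
    rw [h1, h2, h3]
  have h5 : 0 ≤ ∑ i, J i := Finset.sum_nonneg fun i _ => hJ i
  have h6 : 0 ≤ Γ * (Fintype.card V : ℝ) := mul_nonneg hΓ (Nat.cast_nonneg _)
  rw [h4]
  unfold cc
  linarith

theorem hf_symm (p q : ι → V) (J : ι → ℝ) (Γ x : ℝ) : (hf p q J Γ x).IsSymm := by
  have h1 : (dg p q J).IsSymm := Matrix.isSymm_diagonal _
  have h2 : (mz (V := V)).IsSymm := Matrix.isSymm_diagonal _
  have h3 : (fl (V := V)).IsSymm := by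
    refine Matrix.IsSymm.ext fun s t => ?_
    unfold fl
    refine Finset.sum_congr rfl fun v _ => ?_
    refine if_congr ?_ rfl rfl
    constructor
    · rintro ⟨a, b⟩; exact ⟨fun h => a h.symm, fun u hu => (b u hu).symm⟩
    · rintro ⟨a, b⟩; exact ⟨fun h => a h.symm, fun u hu => (b u hu).symm⟩
  exact ((h1.add (h3.smul Γ)).add (h2.smul x))

end

/-- the numerical part -/
theorem num {n : Type} [Fintype n] [DecidableEq n] (ν : n → ℝ) (j₀ : n) (β g : ℝ) (k : ℕ)
    (hβ : 0 < β) (hk : 1 ≤ k) (hgap : ∀ j, j ≠ j₀ → ν j ≤ ν j₀ - g) :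
    0 ≤ Real.log (∑ j, Real.exp (β * ν j)) - Real.log (∑ j, Real.exp ((k * β) * ν j)) / k ∧
    Real.log (∑ j, Real.exp (β * ν j)) - Real.log (∑ j, Real.exp ((k * β) * ν j)) / k ≤
      Fintype.card n * Real.exp (-(β * g)) := by
  have hk0 : (0 : ℝ) < k := by exact_mod_cast hk
  set S := ∑ j, Real.exp (β * ν j) with hS
  set T := ∑ j, Real.exp ((k * β) * ν j) with hT
  have hSpos : 0 < S := Finset.sum_pos (fun j _ => Real.exp_pos _) ⟨j₀, Finset.mem_univ _⟩
  have hTpos : 0 < T := Finset.sum_pos (fun j _ => Real.exp_pos _) ⟨j₀, Finset.mem_univ _⟩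
  constructor
  · have h1 : T ≤ S ^ k := by
      have h2 : ∀ j, Real.exp ((k * β) * ν j) ≤ Real.exp (β * ν j) * S ^ (k - 1) := by
        intro j
        have h3 : Real.exp (β * ν j) ≤ S :=
          Finset.single_le_sum (f := fun j => Real.exp (β * ν j))
            (fun i _ => (Real.exp_pos _).le) (Finset.mem_univ j)
        have h4 : Real.exp ((k * β) * ν j) = Real.exp (β * ν j) * Real.exp (β * ν j) ^ (k - 1) := by
          rw [← pow_succ', Nat.sub_add_cancel hk, ← Real.exp_nat_mul]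
          congr 1; ring
        rw [h4]
        exact mul_le_mul_of_nonneg_left (pow_le_pow_left₀ (Real.exp_pos _).le h3 _)
          (Real.exp_pos _).le
      calc T ≤ ∑ j, Real.exp (β * ν j) * S ^ (k - 1) := Finset.sum_le_sum fun j _ => h2 j
        _ = S * S ^ (k - 1) := by rw [← Finset.sum_mul]
        _ = S ^ k := by rw [← pow_succ', Nat.sub_add_cancel hk]
    have h5 : Real.log T ≤ k * Real.log S := by
      rw [← Real.log_pow]
      exact Real.log_le_log hTpos h1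
    rw [sub_nonneg, div_le_iff₀ hk0]
    linarith
  · have h1 : (k * β) * ν j₀ ≤ Real.log T := by
      rw [Real.le_log_iff_exp_le hTpos]
      exact Finset.single_le_sum (f := fun j => Real.exp ((k * β) * ν j))
        (fun i _ => (Real.exp_pos _).le) (Finset.mem_univ j₀)
    have h2 : β * ν j₀ ≤ Real.log T / k := by
      rw [le_div_iff₀ hk0]; linarith
    have h3 : Real.log S - β * ν j₀ ≤ S * Real.exp (-(β * ν j₀)) - 1 := by
      have h4 := Real.log_le_sub_one_of_pos (mul_pos hSpos (Real.exp_pos (-(β * ν j₀))))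
      rw [Real.log_mul hSpos.ne' (Real.exp_pos _).ne', Real.log_exp] at h4
      linarith
    have h5 : S * Real.exp (-(β * ν j₀)) - 1 ≤ Fintype.card n * Real.exp (-(β * g)) := by
      rw [hS, Finset.sum_mul, ← Finset.add_sum_erase _ _ (Finset.mem_univ j₀), ← Real.exp_add,
        add_neg_cancel, Real.exp_zero, add_sub_cancel_left]
      calc ∑ j ∈ univ.erase j₀, Real.exp (β * ν j) * Real.exp (-(β * ν j₀))
          ≤ ∑ j ∈ univ.erase j₀, Real.exp (-(β * g)) := by
            refine Finset.sum_le_sum fun j hj => ?_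
            rw [← Real.exp_add, Real.exp_le_exp]
            have h6 := hgap j (Finset.ne_of_mem_erase hj)
            have h7 := mul_le_mul_of_nonneg_left h6 hβ.le
            linarith
        _ ≤ ∑ _j : n, Real.exp (-(β * g)) :=
            Finset.sum_le_sum_of_subset_of_nonneg (Finset.erase_subset _ _)
              fun _ _ _ => (Real.exp_pos _).le
        _ = _ := by rw [Finset.sum_const, Finset.card_univ, nsmul_eq_mul]
    linarith

theorem rbe : S_RBE := by
  intro V ι _ _ _ _ p q J Γ β x k hJ hΓ hβ hx hk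
  obtain ⟨U, ν, hU, hU', hN⟩ := SPEC.diag (hf p q J Γ x) (hf_symm p q J Γ x)
  have hfr : ∀ b : ℝ, fr p q J Γ b x = ∑ j, Real.exp (b * ν j) := by
    intro b
    have h1 : b • hf p q J Γ x = U * Matrix.diagonal (fun j => b * ν j) * Uᵀ := by
      rw [hN, ← Matrix.smul_mul, ← Matrix.mul_smul]
      congr 2
      ext i j
      by_cases hij : i = j
      · subst hij; simp
      · simp [Matrix.diagonal_apply_ne _ hij]
    unfold fr
    rw [h1, SPEC.exp_eq U _ hU hU', Matrix.mul_assoc, Matrix.trace_mul_comm, Matrix.mul_assoc, hU',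
      Matrix.mul_one, Matrix.trace_diagonal]
  obtain ⟨j₀, hj₀⟩ := Finite.exists_max ν
  have hUc : ∀ φ : Cf V → ℝ, U *ᵥ (Uᵀ *ᵥ φ) = φ := fun φ => by
    rw [Matrix.mulVec_mulVec, hU, Matrix.one_mulVec]
  -- the largest eigenvalue
  have hlow : x * (Fintype.card V : ℝ) - cc V J Γ ≤ ν j₀ := by
    let φ : Cf V → ℝ := Pi.single 0 1
    let c : Cf V → ℝ := Uᵀ *ᵥ φ
    have h1 : φ ⬝ᵥ (hf p q J Γ x *ᵥ φ) = hf p q J Γ x 0 0 := by
      simp [φ]
    have h2 := qf U ν hU' c
    have h3 := nf U hU' c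
    rw [hUc, ← hN, h1] at h2
    rw [hUc] at h3
    have h4 : φ ⬝ᵥ φ = 1 := by simp [φ]
    rw [h4] at h3
    have h5 : ∑ j, ν j * c j ^ 2 ≤ ν j₀ * ∑ j, c j ^ 2 := by
      rw [Finset.mul_sum]
      exact Finset.sum_le_sum fun j _ => mul_le_mul_of_nonneg_right (hj₀ j) (sq_nonneg _)
    rw [← h2, ← h3, mul_one] at h5
    exact (hf_ge p q J Γ x hJ hΓ).trans h5
  -- the other eigenvalues
  have hup : ∀ j, j ≠ j₀ → ν j ≤ x * ((Fintype.card V : ℝ) - 2) + cc V J Γ := by
    intro j hj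
    obtain ⟨a, b, hab, h0⟩ : ∃ a b : ℝ, 0 < a ^ 2 + b ^ 2 ∧ a * U 0 j₀ + b * U 0 j = 0 := by
      by_cases h : U 0 j₀ = 0
      · by_cases h' : U 0 j = 0
        · exact ⟨1, 0, by norm_num, by rw [h, h']; ring⟩
        · exact ⟨1, 0, by norm_num, by rw [h]; ring⟩
      · refine ⟨-U 0 j, U 0 j₀, ?_, by ring⟩
        have : 0 < U 0 j₀ ^ 2 := by positivity
        nlinarith [sq_nonneg (-U 0 j)]
    let c : Cf V → ℝ := Pi.single j₀ a + Pi.single j b
    let φ : Cf V → ℝ := U *ᵥ c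
    have hφ0 : φ 0 = 0 := by
      change (U *ᵥ (Pi.single j₀ a + Pi.single j b)) 0 = 0
      rw [Matrix.mulVec_add, Pi.add_apply, Matrix.mulVec_single, Matrix.mulVec_single]
      simp only [Pi.smul_apply, Matrix.col_apply, MulOpposite.smul_eq_mul_unop,
        MulOpposite.unop_op]
      linarith
    have h1 := hf_le p q J Γ x hJ hΓ hx φ hφ0
    have hcj : ∀ i, c i = (if i = j₀ then a else 0) + (if i = j then b else 0) := by
      intro i
      change (Pi.single j₀ a : Cf V → ℝ) i + (Pi.single j b : Cf V → ℝ) i = _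
      rw [Pi.single_apply, Pi.single_apply]
    have hsum : ∀ w : Cf V → ℝ, ∑ i, w i * c i ^ 2 = w j₀ * a ^ 2 + w j * b ^ 2 := by
      intro w
      have h2 : ∀ i, w i * c i ^ 2 = (if i = j₀ then w i * a ^ 2 else 0) +
          (if i = j then w i * b ^ 2 else 0) := by
        intro i
        rw [hcj i]
        by_cases hi : i = j₀
        · have hi' : i ≠ j := fun h => hj (h.symm.trans hi)
          rw [if_pos hi, if_pos hi, if_neg hi', if_neg hi']; ring
        · rw [if_neg hi, if_neg hi]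
          by_cases hi' : i = j
          · rw [if_pos hi', if_pos hi']; ring
          · rw [if_neg hi', if_neg hi']; ring
      rw [Finset.sum_congr rfl fun i _ => h2 i, Finset.sum_add_distrib, Finset.sum_ite_eq',
        Finset.sum_ite_eq', if_pos (Finset.mem_univ _), if_pos (Finset.mem_univ _)]
    have h2 := qf U ν hU' c
    have h3 := nf U hU' c
    rw [← hN] at h2
    have h4 : ∑ s, φ s ^ 2 = a ^ 2 + b ^ 2 := by
      have h5 : φ ⬝ᵥ φ = ∑ s, φ s ^ 2 := by
        unfold dotProduct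
        exact Finset.sum_congr rfl fun s _ => by ring
      rw [← h5]
      change (U *ᵥ c) ⬝ᵥ (U *ᵥ c) = _
      rw [h3]
      have h6 := hsum (fun _ => 1)
      simp only [one_mul] at h6
      exact h6
    rw [h4] at h1
    change φ ⬝ᵥ (hf p q J Γ x *ᵥ φ) = _ at h2
    rw [h2, hsum ν] at h1
    have h7 : ν j * (a ^ 2 + b ^ 2) ≤ ν j₀ * a ^ 2 + ν j * b ^ 2 := by
      nlinarith [mul_le_mul_of_nonneg_right (hj₀ j) (sq_nonneg a)]
    exact le_of_mul_le_mul_right (h7.trans h1) hab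
  have hgap : ∀ j, j ≠ j₀ → ν j ≤ ν j₀ - (2 * x - 2 * cc V J Γ) := by
    intro j hj
    have h1 := hup j hj
    linarith
  have hnum := num ν j₀ β (2 * x - 2 * cc V J Γ) k hβ hk hgap
  rw [hfr, hfr]
  have hcard : (Fintype.card (Cf V) : ℝ) = 2 ^ Fintype.card V := by
    rw [Fintype.card_fun, Fintype.card_fin]; push_cast; rfl
  rw [hcard] at hnum
  exact hnum

end Pool.Agent.K6.H16.TF.RBE
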