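import Pool.Agent.K6.H16.TF.StmF

/-!
SPF: the negative of a real symmetric matrix whose largest eigenvalue is simple has a gapped ground
state, and its partition function is the sum over the eigenvalues of the matrix (seat helper63,
following `P_SPEC`).
-/

set_option autoImplicit false

open scoped BigOperators Matrix Topology
open Finset Filter

namespace Pool.Agent.K6.H16.TF.SPF

open Pool.Agent.K6.H16.TF
open Pool.Agent.TH235.PP Pool.Agent.Results.MP_953b23_mp.ThermalCriterion

section

variable {n : Type} [Fintype n] [DecidableEq n]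

/-- diagonalisation of a real symmetric matrix -/
theorem diag (N : Matrix n n ℝ) (hh : N.IsHermitian) : ∃ (U : Matrix n n ℝ),
    U * Uᵀ = 1 ∧ Uᵀ * U = 1 ∧ N = U * Matrix.diagonal hh.eigenvalues * Uᵀ := by
  refine ⟨(hh.eigenvectorUnitary : Matrix n n ℝ), ?_, ?_, ?_⟩
  · have h := Matrix.mem_unitaryGroup_iff.1 hh.eigenvectorUnitary.2
    rw [Matrix.star_eq_conjTranspose, Matrix.conjTranspose_eq_transpose_of_trivial] at h
    exact h
  · have h := Matrix.mem_unitaryGroup_iff'.1 hh.eigenvectorUnitary.2
    rw [Matrix.star_eq_conjTranspose, Matrix.conjTranspose_eq_transpose_of_trivial] at h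
    exact h
  · have h := hh.spectral_theorem
    rw [Unitary.conjStarAlgAut_apply, Matrix.star_eq_conjTranspose,
      Matrix.conjTranspose_eq_transpose_of_trivial] at h
    exact h

/-- the complexified column `j` -/
def col (U : Matrix n n ℝ) (j : n) : n → ℂ := fun s => (U s j : ℂ)

/-- the coefficient of `φ` -/
noncomputable def cf (U : Matrix n n ℝ) (j : n) (φ : n → ℂ) : ℂ := ∑ s, (U s j : ℂ) * φ s

theorem col_self (U : Matrix n n ℝ) (hU' : Uᵀ * U = 1) (j : n) :
    ∑ s, U s j * U s j = 1 := by
  have h1 := congrFun (congrFun hU' j) j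
  rw [Matrix.mul_apply, Matrix.one_apply_eq] at h1
  exact h1

theorem col_ne (U : Matrix n n ℝ) (hU' : Uᵀ * U = 1) (j : n) : col U j ≠ 0 := by
  intro h0
  have h1 := col_self U hU' j
  have h2 : ∀ s, U s j = 0 := by
    intro s
    have := congrFun h0 s
    simpa [col] using this
  simp [h2] at h1

theorem expand (U : Matrix n n ℝ) (hU : U * Uᵀ = 1) (φ : n → ℂ) (t : n) :
    ∑ j, (U t j : ℂ) * cf U j φ = φ t := by
  unfold cf
  simp only [Finset.mul_sum]
  rw [Finset.sum_comm]
  have h3 : ∀ s, ∑ j, (U t j : ℂ) * ((U s j : ℂ) * φ s) =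
      (if t = s then 1 else 0) * φ s := by
    intro s
    have h4 := congrFun (congrFun hU t) s
    rw [Matrix.mul_apply, Matrix.one_apply] at h4
    have h5 : ∑ j, (U t j : ℂ) * (U s j : ℂ) = if t = s then 1 else 0 := by
      have h6 := congrArg (fun r : ℝ => (r : ℂ)) h4
      simp only [Matrix.transpose_apply] at h6
      push_cast at h6
      rw [h6]
      split_ifs <;> simp
    rw [← h5, Finset.sum_mul]
    exact Finset.sum_congr rfl fun j _ => by ring
  rw [Finset.sum_congr rfl fun s _ => h3 s]
  simp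

theorem col_eig (N U : Matrix n n ℝ) (ν : n → ℝ) (H : Matrix n n ℂ)
    (hH : H = (-N).map (fun r : ℝ => (r : ℂ))) (hU' : Uᵀ * U = 1)
    (hN : N = U * Matrix.diagonal ν * Uᵀ) (j : n) :
    H *ᵥ col U j = ((-ν j : ℝ) : ℂ) • col U j := by
  have h1 : (-N) *ᵥ (fun s => U s j) = (-ν j) • fun s => U s j := by
    have h2 : N * U = U * Matrix.diagonal ν := by
      rw [hN, Matrix.mul_assoc, hU', Matrix.mul_one]
    funext s
    have h3 := congrFun (congrFun h2 s) j
    rw [Matrix.mul_diagonal] at h3
    rw [Matrix.neg_mulVec]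
    show -((N * U) s j) = -ν j * U s j
    rw [h3]
    ring
  funext s
  have h2 := congrFun h1 s
  simp only [Matrix.mulVec, dotProduct, Pi.smul_apply, smul_eq_mul, col] at h2 ⊢
  rw [hH]
  simp only [Matrix.map_apply]
  exact_mod_cast h2

theorem cf_zero (N U : Matrix n n ℝ) (ν : n → ℝ) (H : Matrix n n ℂ)
    (hH : H = (-N).map (fun r : ℝ => (r : ℂ))) (hU' : Uᵀ * U = 1)
    (hN : N = U * Matrix.diagonal ν * Uᵀ) (hs : N.IsHermitian) (E : ℝ) (φ : n → ℂ)
    (hφ : H *ᵥ φ = (E : ℂ) • φ) (j : n) (hj : -ν j ≠ E) : cf U j φ = 0 := by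
  have hsym : ∀ s t, H s t = H t s := by
    intro s t
    rw [hH]
    simp only [Matrix.map_apply, Matrix.neg_apply]
    have := congrFun (congrFun hs s) t
    rw [Matrix.conjTranspose_apply, star_trivial] at this
    rw [this]
  have h1 : ∑ s, (U s j : ℂ) * (H *ᵥ φ) s = ∑ s, (H *ᵥ col U j) s * φ s := by
    simp only [Matrix.mulVec, dotProduct, Finset.mul_sum, Finset.sum_mul, col]
    rw [Finset.sum_comm]
    refine Finset.sum_congr rfl fun t _ => Finset.sum_congr rfl fun s _ => ?_
    rw [hsym s t]
    ring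
  rw [hφ, col_eig N U ν H hH hU' hN j] at h1
  simp only [Pi.smul_apply, smul_eq_mul, col] at h1
  have h2 : (E : ℂ) * cf U j φ = ((-ν j : ℝ) : ℂ) * cf U j φ := by
    unfold cf
    rw [Finset.mul_sum, Finset.mul_sum]
    rw [show ∑ s, (E : ℂ) * ((U s j : ℂ) * φ s) = ∑ s, (U s j : ℂ) * ((E : ℂ) * φ s) from
      Finset.sum_congr rfl fun s _ => by ring, h1]
    exact Finset.sum_congr rfl fun s _ => by ring
  have h3 : ((E : ℂ) - ((-ν j : ℝ) : ℂ)) * cf U j φ = 0 := by
    rw [sub_mul, h2, sub_self]
  rcases mul_eq_zero.1 h3 with h4 | h4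
  · exfalso
    apply hj
    have : (E : ℂ) = ((-ν j : ℝ) : ℂ) := sub_eq_zero.1 h4
    exact_mod_cast this.symm
  · exact h4

theorem exists_cf (U : Matrix n n ℝ) (hU : U * Uᵀ = 1) (φ : n → ℂ) (hφ : φ ≠ 0) :
    ∃ j, cf U j φ ≠ 0 := by
  by_contra hcon
  push Not at hcon
  apply hφ
  funext t
  rw [← expand U hU φ t]
  simp [hcon]

end

theorem spf : S_SPF := by
  intro n _ _ N hN H δ hH j₀ hHN hδ htop
  obtain ⟨U, hU, hU', hdiag⟩ := diag N hN
  set ν := hN.eigenvalues with hν
  refine ⟨⟨col U j₀, ?_, -ν j₀, col_eig N U ν H hHN hU' hdiag j₀, ?_, ?_⟩, ?_⟩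
  · unfold normSq col
    have h1 := col_self U hU' j₀
    rw [← h1]
    refine Finset.sum_congr rfl fun s _ => ?_
    rw [Complex.norm_real, Real.norm_eq_abs, sq_abs, sq]
  · intro φ hφ
    refine ⟨cf U j₀ φ, ?_⟩
    funext t
    rw [← expand U hU φ t]
    rw [Finset.sum_eq_single j₀]
    · simp only [Pi.smul_apply, smul_eq_mul, col]
      ring
    · intro j _ hj
      have h1 := htop j hj
      rw [cf_zero N U ν H hHN hU' hdiag hN (-ν j₀) φ hφ j (by
        intro h2
        have h3 : ν j = ν j₀ := neg_injective h2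
        rw [hν] at h3
        linarith), mul_zero]
    · intro h
      exact absurd (Finset.mem_univ _) h
  · intro E' φ hφ0 hφ
    obtain ⟨j, hj⟩ := exists_cf U hU φ hφ0
    have hE : -ν j = E' := by
      by_contra hne
      exact hj (cf_zero N U ν H hHN hU' hdiag hN E' φ hφ j hne)
    by_cases hjj : j = j₀
    · left
      rw [← hE, hjj]
    · right
      have h1 := htop j hjj
      rw [← hE]
      linarith
  · intro ψ Δ β hψ hΔ hgg
    obtain ⟨E, hE, -, hgap⟩ := hgg
    have hψ0 : ψ ≠ 0 := by
      rintro rfl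
      unfold normSq at hψ
      simp at hψ
    have hEν : E = -ν j₀ := by
      obtain ⟨j, hj⟩ := exists_cf U hU ψ hψ0
      have hEj : -ν j = E := by
        by_contra hne
        exact hj (cf_zero N U ν H hHN hU' hdiag hN E ψ hE j hne)
      have hle : -ν j₀ ≤ E := by
        by_cases hjj : j = j₀
        · rw [← hEj, hjj]
        · have h1 := htop j hjj
          rw [← hEj]
          linarith
      rcases hgap (-ν j₀) (col U j₀) (col_ne U hU' j₀) (col_eig N U ν H hHN hU' hdiag j₀) with
        h | h
      · exact h.symm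
      · linarith
    have hen : energy H ψ = E := by
      unfold energy
      rw [hE]
      have h1 : ip ψ ((E : ℂ) • ψ) = (E : ℂ) * ip ψ ψ := by
        unfold ip
        rw [Finset.mul_sum]
        refine Finset.sum_congr rfl fun s _ => ?_
        simp only [Pi.smul_apply, smul_eq_mul]
        ring
      have h2 : ip ψ ψ = 1 := by
        unfold ip
        unfold normSq at hψ
        have h3 : ∀ s, (starRingEnd ℂ) (ψ s) * ψ s = ((‖ψ s‖ ^ 2 : ℝ) : ℂ) := by
          intro s
          rw [mul_comm, Complex.mul_conj, Complex.normSq_eq_norm_sq]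
        rw [Finset.sum_congr rfl fun s _ => h3 s, ← Complex.ofReal_sum, hψ]
        simp
      rw [h1, h2, mul_one, Complex.ofReal_re]
    have hroots : Multiset.map (fun j => ((hH.eigenvalues j : ℝ) : ℂ)) Finset.univ.val =
        Multiset.map (fun j => ((-ν j : ℝ) : ℂ)) Finset.univ.val := by
      have h1 := hH.roots_charpoly_eq_eigenvalues
      have h2 : H.charpoly = ∏ j, (Polynomial.X - Polynomial.C ((-ν j : ℝ) : ℂ)) := by
        have hneg : -N = U * Matrix.diagonal (fun j => -ν j) * Uᵀ := by
          rw [hdiag]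
          have h3 : Matrix.diagonal (fun j => -ν j) = -Matrix.diagonal ν := by
            rw [← Matrix.diagonal_neg]
          rw [h3, Matrix.mul_neg, Matrix.neg_mul]
        have h3 : (-N).charpoly = ∏ j, (Polynomial.X - Polynomial.C (-ν j)) := by
          rw [hneg, Matrix.charpoly_mul_comm, ← Matrix.mul_assoc, hU', Matrix.one_mul,
            Matrix.charpoly_diagonal]
        have h4 : H = (-N).map (Complex.ofRealHom) := hHN
        rw [h4, Matrix.charpoly_map, h3, Polynomial.map_prod]
        refine Finset.prod_congr rfl fun j _ => ?_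
        simp
      rw [h2, Polynomial.roots_prod _ _ (by
        simp only [ne_eq, Finset.prod_eq_zero_iff, not_exists, not_and]
        intro j _
        exact Polynomial.X_sub_C_ne_zero _)] at h1
      simp only [Polynomial.roots_X_sub_C] at h1
      rw [Multiset.bind_singleton] at h1
      exact h1.symm
    rw [hen]
    unfold partition
    have h1 := congrArg (fun m : Multiset ℂ =>
      (m.map fun z : ℂ => Real.exp (-(β * (z.re - E)))).sum) hroots
    simp only [Multiset.map_map, Function.comp_def, Complex.ofReal_re] at h1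
    refine Eq.trans h1 ?_
    refine Finset.sum_congr rfl fun j _ => ?_
    rw [hEν]
    congr 1
    ring

end Pool.Agent.K6.H16.TF.SPF
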