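import Pool.Agent.K6.H16.TF.StmF
import Pool.Agent.K6.H16.TF.P_STPD

/-!
Piece `STPZ` of the call `call16f` (MP_953b23_mp, statement of helper16, proof of helper96): the
normalised step matrix with a complex field and its derivative.
-/

set_option autoImplicit false

open scoped BigOperators Matrix Topology
open Finset Filter Pool.Agent.TH981.LO

namespace Pool.Agent.K6.H16.TF.STPZ

theorem ent {V ι : Type} [Fintype V] [DecidableEq V] [Fintype ι] [DecidableEq ι] (p q : ι → V)
    (J : ι → ℝ) (Γ : ℝ) (z : ℂ) (ε : ℝ) (s t : Cf V) :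
    (((cst V J Γ ε : ℝ) : ℂ) • stz p q (fun i => Real.tanh (ε * J i / 2))
        (Real.exp (-(2 * ε * Γ))) ((ε : ℂ) * z)) s t =
      (((((∏ i, Real.cosh (ε * J i / 2) ^ 2) * (Real.exp (ε * Γ) / 2) ^ Fintype.card V) •
        stp p q (fun i => Real.tanh (ε * J i / 2)) (Real.exp (-(2 * ε * Γ)))) s t : ℝ) : ℂ) *
        Complex.exp ((ε : ℂ) * (z * (mg s + mg t) / 2)) := by
  have h1 : Complex.exp ((ε : ℂ) * (z * (mg s + mg t) / 2)) =
      Complex.exp ((ε : ℂ) * z * mg s / 2) * Complex.exp ((ε : ℂ) * z * mg t / 2) := by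
    rw [← Complex.exp_add]
    congr 1
    ring
  rw [Matrix.smul_apply, Matrix.smul_apply, smul_eq_mul, smul_eq_mul, Complex.ofReal_mul, h1]
  unfold stz cst
  ring

theorem stpz : S_STPZ := by
  intro V ι _ _ _ _ p q J Γ z
  obtain ⟨h0, hd⟩ := STPD.stpd p q J Γ
  constructor
  · ext s t
    rw [ent p q J Γ z 0 s t, h0]
    rw [Complex.ofReal_zero, zero_mul, Complex.exp_zero, mul_one, Matrix.one_apply,
      Matrix.one_apply]
    split_ifs <;> simp
  · intro s t
    have hfun : (fun ε : ℝ => (((cst V J Γ ε : ℝ) : ℂ) • stz p q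
        (fun i => Real.tanh (ε * J i / 2)) (Real.exp (-(2 * ε * Γ))) ((ε : ℂ) * z)) s t) =
        fun ε : ℝ => (((((∏ i, Real.cosh (ε * J i / 2) ^ 2) *
          (Real.exp (ε * Γ) / 2) ^ Fintype.card V) •
        stp p q (fun i => Real.tanh (ε * J i / 2)) (Real.exp (-(2 * ε * Γ)))) s t : ℝ) : ℂ) *
        Complex.exp ((ε : ℂ) * (z * (mg s + mg t) / 2)) := funext fun ε => ent p q J Γ z ε s t
    rw [hfun]
    have h1 := (hd s t).ofReal_comp
    have h2 : HasDerivAt (fun ε : ℝ => Complex.exp ((ε : ℂ) * (z * (mg s + mg t) / 2)))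
        (z * (mg s + mg t) / 2) 0 := by
      have h3 : HasDerivAt (fun ε : ℝ => (ε : ℂ) * (z * (mg s + mg t) / 2))
          (z * (mg s + mg t) / 2) 0 := by
        have := (Complex.ofRealCLM.hasDerivAt (x := (0 : ℝ))).mul_const (z * (mg s + mg t) / 2)
        simpa using this
      have h4 := h3.cexp
      simpa using h4
    have h5 := h1.mul h2
    refine h5.congr_deriv ?_
    rw [h0, Complex.ofReal_zero, zero_mul, Complex.exp_zero, mul_one]
    unfold hz
    rw [Matrix.add_apply, Matrix.map_apply, Matrix.smul_apply, Matrix.map_apply, smul_eq_mul, mz,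
      Matrix.diagonal_apply, Matrix.one_apply]
    by_cases hst : s = t
    · subst hst
      simp only [if_true]
      push_cast
      ring
    · simp only [if_neg hst]
      push_cast
      ring

end Pool.Agent.K6.H16.TF.STPZ
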