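import Pool.Agent.K6.H16.TF.StmF

/-! Piece TOP of call16f (helper82). -/

set_option autoImplicit false

open scoped BigOperators Matrix Topology
open Finset Filter

namespace Pool.Agent.K6.H16.TF.TOP

open Pool.Agent.K6.H16.TF

/-- the trace of the exponential of a real symmetric matrix -/
theorem trace_exp {n : Type} [Fintype n] [DecidableEq n] (N : Matrix n n ℝ) (hN : N.IsHermitian)
    (β : ℝ) : (NormedSpace.exp (β • N)).trace = ∑ j, Real.exp (β * hN.eigenvalues j) := by
  set U : Matrix n n ℝ := (hN.eigenvectorUnitary : Matrix n n ℝ) with hU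
  have h1 : U * Uᵀ = 1 := by
    have h := Matrix.mem_unitaryGroup_iff.1 hN.eigenvectorUnitary.2
    rw [Matrix.star_eq_conjTranspose, Matrix.conjTranspose_eq_transpose_of_trivial] at h
    exact h
  have h2 : Uᵀ * U = 1 := by
    have h := Matrix.mem_unitaryGroup_iff'.1 hN.eigenvectorUnitary.2
    rw [Matrix.star_eq_conjTranspose, Matrix.conjTranspose_eq_transpose_of_trivial] at h
    exact h
  have h3 : N = U * Matrix.diagonal hN.eigenvalues * Uᵀ := by
    have h := hN.spectral_theorem
    rw [Unitary.conjStarAlgAut_apply, Matrix.star_eq_conjTranspose,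
      Matrix.conjTranspose_eq_transpose_of_trivial] at h
    exact h
  have h4 : β • N = U * Matrix.diagonal (fun j => β * hN.eigenvalues j) * Uᵀ := by
    have h5 : Matrix.diagonal (fun j => β * hN.eigenvalues j) =
        β • Matrix.diagonal hN.eigenvalues := by
      rw [← Matrix.diagonal_smul]
      rfl
    rw [h5, Matrix.mul_smul, Matrix.smul_mul, ← h3]
  have hinv : U⁻¹ = Uᵀ := Matrix.inv_eq_right_inv h1
  have hu : IsUnit U := ⟨⟨U, Uᵀ, h1, h2⟩, rfl⟩
  have e := Matrix.exp_conj U (Matrix.diagonal (fun j => β * hN.eigenvalues j)) hu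
  rw [hinv, Matrix.exp_diagonal] at e
  rw [h4, e, Matrix.trace_mul_cycle, h2, Matrix.one_mul, Matrix.trace_diagonal]
  refine Finset.sum_congr rfl fun j _ => ?_
  rw [Pi.coe_exp, Real.exp_eq_exp_ℝ]

/-- polynomial times exponential -/
theorem tl (A B ε : ℝ) (hε : 0 < ε) :
    Tendsto (fun β : ℝ => (A + B * β) * Real.exp (-(β * ε))) atTop (𝓝 0) := by
  have h1 : Tendsto (fun β : ℝ => β * ε) atTop atTop := tendsto_id.atTop_mul_const hε
  have h2 := (Real.tendsto_pow_mul_exp_neg_atTop_nhds_zero 0).comp h1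
  have h3 := (Real.tendsto_pow_mul_exp_neg_atTop_nhds_zero 1).comp h1
  have h4 := (h2.const_mul A).add (h3.const_mul (B / ε))
  rw [mul_zero, mul_zero, add_zero] at h4
  refine h4.congr fun β => ?_
  simp only [Function.comp_apply, pow_zero, pow_one, one_mul]
  field_simp

theorem top (h1 : S_VKL) : S_TOP := by
  intro V ι _ _ _ _ p q J Γ h hN hJ hΓ hh
  set m := hN.eigenvalues with hm
  have hfr : ∀ β : ℝ, fr p q J Γ β h = ∑ j, Real.exp (β * m j) := fun β => trace_exp _ hN β
  obtain ⟨j₀, -, hj₀⟩ := Finset.exists_max_image (univ : Finset (Cf V)) m ⟨fun _ => 0, mem_univ _⟩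
  set μ := m j₀ with hμ
  have hle : ∀ j, m j ≤ μ := fun j => hj₀ j (mem_univ j)
  have hn0 : (0 : ℝ) ≤ Fintype.card V := Nat.cast_nonneg _
  have hc0 : 0 ≤ cc V J Γ := by
    unfold cc
    have := Finset.sum_nonneg (fun i (_ : i ∈ (univ : Finset ι)) => hJ i)
    positivity
  have hfpos : ∀ β : ℝ, 0 < fr p q J Γ β h := by
    intro β
    rw [hfr]
    exact Finset.sum_pos (fun j _ => Real.exp_pos _) ⟨fun _ => 0, mem_univ _⟩
  -- the bound of the sum
  have key : ∀ β η : ℝ, 0 < β → 0 < η → η ≤ h →
      ∑ j, Real.exp (β * (m j - μ)) ≤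
        Real.exp (8 * (Fintype.card V + β * cc V J Γ + β * Fintype.card V) / η * (1 + h) ^ 2 *
          Real.exp (-(2 * β * (h - η)))) := by
    intro β η hβ hη hηh
    set X := 8 * (Fintype.card V + β * cc V J Γ + β * Fintype.card V) / η * (1 + h) ^ 2 *
          Real.exp (-(2 * β * (h - η))) with hX
    have e1 : ∀ k : ℕ, 1 ≤ k → Real.log (fr p q J Γ β h) - β * μ ≤
        X + Real.log (Fintype.card (Cf V)) / k := by
      intro k hk
      have hk0 : (0 : ℝ) < k := by exact_mod_cast hk
      have e2 := h1 p q J Γ β h η k hJ hΓ hβ hη hηh hk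
      have e3 : Real.log (fr p q J Γ (k * β) h) / k ≤
          β * μ + Real.log (Fintype.card (Cf V)) / k := by
        rw [div_le_iff₀ hk0, add_mul, div_mul_cancel₀ _ hk0.ne']
        have e4 : fr p q J Γ (k * β) h ≤ Fintype.card (Cf V) * Real.exp (k * β * μ) := by
          rw [hfr]
          calc ∑ j, Real.exp (k * β * m j) ≤ ∑ _j : Cf V, Real.exp (k * β * μ) := by
                refine Finset.sum_le_sum fun j _ => ?_
                exact Real.exp_le_exp.2 (mul_le_mul_of_nonneg_left (hle j) (by positivity))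
            _ = _ := by rw [Finset.sum_const, card_univ, nsmul_eq_mul]
        have e5 := Real.log_le_log (hfpos _) e4
        have hcard : (0 : ℝ) < Fintype.card (Cf V) := by
          exact_mod_cast Fintype.card_pos
        rw [Real.log_mul hcard.ne' (Real.exp_pos _).ne', Real.log_exp] at e5
        calc Real.log (fr p q J Γ (k * β) h) ≤ _ := e5
          _ = _ := by ring
      linarith
    have e6 : Real.log (fr p q J Γ β h) - β * μ ≤ X := by
      have e7 : Tendsto (fun k : ℕ => X + Real.log (Fintype.card (Cf V)) / (k : ℝ)) atTop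
          (𝓝 (X + 0)) :=
        tendsto_const_nhds.add (tendsto_const_div_atTop_nhds_zero_nat _)
      rw [add_zero] at e7
      exact ge_of_tendsto e7 (eventually_atTop.2 ⟨1, fun k hk => e1 k hk⟩)
    have e8 : ∑ j, Real.exp (β * (m j - μ)) = Real.exp (Real.log (fr p q J Γ β h) - β * μ) := by
      rw [Real.exp_sub, Real.exp_log (hfpos β), hfr, Finset.sum_div]
      refine Finset.sum_congr rfl fun j _ => ?_
      rw [← Real.exp_sub]
      congr 1
      ring
    rw [e8]
    exact Real.exp_le_exp.2 e6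
  refine ⟨j₀, ?_, key⟩
  intro j hj
  by_contra hcon
  push Not at hcon
  set δ := μ - m j with hδ
  have hδ0 : 0 ≤ δ := by
    have := hle j
    linarith
  have hδh : δ < 2 * h := by linarith
  set η : ℝ := min (h / 2) ((2 * h - δ) / 4) with hη
  have hη0 : 0 < η := lt_min (by linarith) (by linarith)
  have hηh : η ≤ h := (min_le_left _ _).trans (by linarith)
  have hη2 : η ≤ (2 * h - δ) / 4 := min_le_right _ _
  set l : ℝ := 2 * (h - η) with hl
  have hl1 : δ < l := by
    rw [hl]
    linarith
  have hl0 : 0 < l := by linarith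
  set A : ℝ := 8 * Fintype.card V / η * (1 + h) ^ 2 with hA
  set B : ℝ := 8 * (cc V J Γ + Fintype.card V) / η * (1 + h) ^ 2 with hB
  have hX : ∀ β : ℝ, 8 * (Fintype.card V + β * cc V J Γ + β * Fintype.card V) / η * (1 + h) ^ 2 *
          Real.exp (-(2 * β * (h - η))) = (A + B * β) * Real.exp (-(β * l)) := by
    intro β
    rw [hA, hB, hl]
    have : -(2 * β * (h - η)) = -(β * (2 * (h - η))) := by ring
    rw [this]
    ring
  have t1 := (tl A B l hl0).eventually (gt_mem_nhds (show (0 : ℝ) < 1 by norm_num))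
  have t2 := ((tl A B (l - δ) (by linarith)).const_mul 2)
  rw [mul_zero] at t2
  have t2' := t2.eventually (gt_mem_nhds (show (0 : ℝ) < 1 by norm_num))
  obtain ⟨β, ⟨b1, b2⟩, b3⟩ := ((t1.and t2').and (eventually_gt_atTop (0 : ℝ))).exists
  have hk := key β η b3 hη0 hηh
  rw [hX] at hk
  set X := (A + B * β) * Real.exp (-(β * l)) with hXd
  have hX0 : 0 ≤ X := by
    rw [hXd, hA, hB]
    positivity
  have hlow : 1 + Real.exp (-(β * δ)) ≤ ∑ j, Real.exp (β * (m j - μ)) := by
    have e1 : ∑ i ∈ ({j₀, j} : Finset (Cf V)), Real.exp (β * (m i - μ)) ≤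
        ∑ j, Real.exp (β * (m j - μ)) :=
      Finset.sum_le_sum_of_subset_of_nonneg (subset_univ _) fun _ _ _ => (Real.exp_pos _).le
    rw [Finset.sum_pair (Ne.symm hj)] at e1
    refine le_trans (le_of_eq ?_) e1
    rw [← hμ, sub_self, mul_zero, Real.exp_zero]
    congr 2
    rw [hδ]
    ring
  have hup : Real.exp X ≤ 1 + 2 * X := by
    have e1 := Real.abs_exp_sub_one_sub_id_le (x := X) (by rw [abs_of_nonneg hX0]; exact b1.le)
    have e2 := (abs_le.1 e1).2
    nlinarith
  have hfin : Real.exp (-(β * δ)) ≤ 2 * X := by linarith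
  have e3 : 1 ≤ 2 * ((A + B * β) * Real.exp (-(β * (l - δ)))) := by
    have e4 : Real.exp (-(β * (l - δ))) = Real.exp (-(β * l)) * Real.exp (β * δ) := by
      rw [← Real.exp_add]
      congr 1
      ring
    have e5 : Real.exp (-(β * δ)) * Real.exp (β * δ) = 1 := by
      rw [← Real.exp_add, neg_add_cancel, Real.exp_zero]
    have e6 := mul_le_mul_of_nonneg_right hfin (Real.exp_pos (β * δ)).le
    rw [e5] at e6
    rw [e4]
    calc (1 : ℝ) ≤ 2 * X * Real.exp (β * δ) := e6
      _ = _ := by rw [hXd]; ring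
  linarith

end Pool.Agent.K6.H16.TF.TOP
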