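import Pool.Agent.K6.H16.TF.StmF

set_option autoImplicit false

/-! Piece TRN (helper13): the discretised partition functions and their limit. -/

open scoped BigOperators Matrix Topology
open Finset Filter

namespace Pool.Agent.K6.H16.TF

namespace TRN



theorem sgn_abs (a : Fin 2) : sgn a = 1 ∨ sgn a = -1 := by
  fin_cases a <;> simp [sgn]

theorem one_add_nonneg {r : ℝ} (h0 : 0 ≤ r) (h1 : r ≤ 1) (a b : Fin 2) :
    0 ≤ 1 + r * (sgn a * sgn b) := by
  rcases sgn_abs a with h | h <;> rcases sgn_abs b with h' | h' <;> rw [h, h'] <;> nlinarith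

variable {V ι : Type} [Fintype V] [DecidableEq V] [Fintype ι]

omit [DecidableEq V] in
theorem stp_nonneg (p q : ι → V) (x : ι → ℝ) (y : ℝ) (hx : ∀ i, 0 ≤ x i ∧ x i ≤ 1) (hy0 : 0 ≤ y)
    (hy : y ≤ 1) (s t : Cf V) : 0 ≤ stp p q x y s t := by
  unfold stp
  refine mul_nonneg (mul_nonneg ?_ ?_) ?_
  · exact Finset.prod_nonneg fun i _ => one_add_nonneg (hx i).1 (hx i).2 _ _
  · exact Finset.prod_nonneg fun v _ => one_add_nonneg hy0 hy _ _
  · exact Finset.prod_nonneg fun i _ => one_add_nonneg (hx i).1 (hx i).2 _ _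

omit [DecidableEq V] in
theorem mg_abs_le (s : Cf V) : |mg s| ≤ Fintype.card V := by
  unfold mg
  refine (Finset.abs_sum_le_sum_abs _ _).trans ?_
  refine (Finset.sum_le_card_nsmul _ _ 1 fun v _ => ?_).trans ?_
  · rcases sgn_abs (s v) with h | h <;> rw [h] <;> simp
  · simp

omit [DecidableEq V] in
theorem cst_pos (J : ι → ℝ) (Γ ε : ℝ) : 0 < cst V J Γ ε := by
  unfold cst
  refine mul_pos (Finset.prod_pos fun i _ => pow_pos (Real.cosh_pos _) 2) (pow_pos ?_ _)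
  have := Real.exp_pos (ε * Γ)
  positivity

theorem pow_nonneg' {N : Mx V} (h : ∀ s t, 0 ≤ N s t) (n : ℕ) : ∀ s t, 0 ≤ (N ^ n) s t := by
  induction n with
  | zero =>
    intro s t
    rw [pow_zero, Matrix.one_apply]
    split_ifs <;> norm_num
  | succ n ih =>
    intro s t
    rw [pow_succ, Matrix.mul_apply]
    exact Finset.sum_nonneg fun r _ => mul_nonneg (ih s r) (h r t)

theorem pow_norm_le {M : MxC V} {N : Mx V} {E : ℝ} (hE : 0 ≤ E) (hN : ∀ s t, 0 ≤ N s t)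
    (h : ∀ s t, ‖M s t‖ ≤ E * N s t) (m : ℕ) : ∀ s t, ‖(M ^ m) s t‖ ≤ E ^ m * (N ^ m) s t := by
  induction m with
  | zero =>
    intro s t
    rw [pow_zero, pow_zero, pow_zero, one_mul, Matrix.one_apply, Matrix.one_apply]
    split_ifs <;> simp
  | succ m ih =>
    intro s t
    rw [pow_succ M, pow_succ N, pow_succ E, Matrix.mul_apply, Matrix.mul_apply, Finset.mul_sum]
    refine (norm_sum_le _ _).trans (Finset.sum_le_sum fun r _ => ?_)
    rw [norm_mul]
    calc ‖(M ^ m) s r‖ * ‖M r t‖ ≤ (E ^ m * (N ^ m) s r) * (E * N r t) :=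
          mul_le_mul (ih s r) (h r t) (norm_nonneg _)
            (mul_nonneg (pow_nonneg hE m) (pow_nonneg' hN m s r))
      _ = _ := by ring

theorem map_pow' (N : Mx V) (m : ℕ) : (N.map (fun r : ℝ => (r : ℂ))) ^ m =
    (N ^ m).map (fun r : ℝ => (r : ℂ)) := by
  have h : (N.map (fun r : ℝ => (r : ℂ))) = Complex.ofRealHom.mapMatrix N := rfl
  rw [h, ← map_pow]
  rfl

theorem map_trace (N : Mx V) : (N.map (fun r : ℝ => (r : ℂ))).trace = ((N.trace : ℝ) : ℂ) := by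
  unfold Matrix.trace
  simp

theorem diag_pow_le {N : Mx V} (h : ∀ s t, 0 ≤ N s t) (s : Cf V) (m : ℕ) :
    (N s s) ^ m ≤ (N ^ m) s s := by
  induction m with
  | zero => simp
  | succ m ih =>
    rw [pow_succ, pow_succ, Matrix.mul_apply]
    calc N s s ^ m * N s s ≤ (N ^ m) s s * N s s := mul_le_mul_of_nonneg_right ih (h s s)
      _ ≤ _ := Finset.single_le_sum (f := fun r => (N ^ m) s r * N r s)
        (fun r _ => mul_nonneg (pow_nonneg' h m s r) (h r s)) (Finset.mem_univ s)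

theorem diag_pow_le_trace {N : Mx V} (h : ∀ s t, 0 ≤ N s t) (s : Cf V) (m : ℕ) :
    (N s s) ^ m ≤ (N ^ m).trace :=
  (diag_pow_le h s m).trans (Finset.single_le_sum (f := fun r => (N ^ m) r r)
    (fun r _ => pow_nonneg' h m r r) (Finset.mem_univ s))

/-- the normalised step matrix -/
noncomputable def FF (p q : ι → V) (J : ι → ℝ) (Γ : ℝ) (z : ℂ) (ε : ℝ) : MxC V :=
  ((cst V J Γ ε : ℝ) : ℂ) • stz p q (fun i => Real.tanh (ε * J i / 2))
    (Real.exp (-(2 * ε * Γ))) ((ε : ℂ) * z)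

/-- the real normalised step matrix -/
noncomputable def NN (p q : ι → V) (J : ι → ℝ) (Γ : ℝ) (x : ℝ) (ε : ℝ) : Mx V := fun s t =>
  cst V J Γ ε * (Real.exp (ε * x * mg s / 2) * stp p q (fun i => Real.tanh (ε * J i / 2))
    (Real.exp (-(2 * ε * Γ))) s t * Real.exp (ε * x * mg t / 2))

omit [DecidableEq V] in
theorem FF_real (p q : ι → V) (J : ι → ℝ) (Γ : ℝ) (x : ℝ) (ε : ℝ) :
    FF p q J Γ (x : ℂ) ε = (NN p q J Γ x ε).map (fun r : ℝ => (r : ℂ)) := by
  ext s t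
  simp only [FF, NN, stz, Matrix.smul_apply, Matrix.map_apply, smul_eq_mul]
  push_cast
  rfl

omit [DecidableEq V] in
theorem norm_FF (p q : ι → V) (J : ι → ℝ) (Γ : ℝ) (z : ℂ) (ε : ℝ) (hε : 0 ≤ ε)
    (hJ : ∀ i, 0 ≤ J i) (hΓ : 0 ≤ Γ) (s t : Cf V) :
    ‖FF p q J Γ z ε s t‖ = NN p q J Γ z.re ε s t := by
  have h0 : 0 ≤ stp p q (fun i => Real.tanh (ε * J i / 2)) (Real.exp (-(2 * ε * Γ))) s t := by
    refine stp_nonneg p q _ _ (fun i => ⟨?_, (Real.tanh_lt_one _).le⟩) (Real.exp_pos _).le ?_ s t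
    · rw [Real.tanh_eq_sinh_div_cosh]
      refine div_nonneg (Real.sinh_nonneg_iff.2 ?_) (Real.cosh_pos _).le
      have := hJ i
      positivity
    · refine Real.exp_le_one_iff.2 ?_
      have : 0 ≤ 2 * ε * Γ := by positivity
      linarith
  simp only [FF, NN, stz, Matrix.smul_apply, smul_eq_mul, norm_mul, Complex.norm_real,
    Real.norm_eq_abs, Complex.norm_exp]
  rw [abs_of_pos (cst_pos J Γ ε), abs_of_nonneg h0]
  have e : ∀ u : Cf V, ((ε : ℂ) * z * (mg u : ℂ) / 2).re = ε * z.re * mg u / 2 := by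
    intro u
    have : (ε : ℂ) * z * (mg u : ℂ) / 2 = ((ε * mg u / 2 : ℝ) : ℂ) * z := by
      push_cast
      ring
    rw [this, Complex.re_ofReal_mul]
    ring
  rw [e, e]

theorem NN_nonneg (p q : ι → V) (J : ι → ℝ) (Γ : ℝ) (x : ℝ) (ε : ℝ) (hε : 0 ≤ ε)
    (hJ : ∀ i, 0 ≤ J i) (hΓ : 0 ≤ Γ) (s t : Cf V) : 0 ≤ NN p q J Γ x ε s t := by
  have := norm_FF p q J Γ (x : ℂ) ε hε hJ hΓ s t
  rw [Complex.ofReal_re] at this
  rw [← this]
  exact norm_nonneg _

theorem NN_le (p q : ι → V) (J : ι → ℝ) (Γ : ℝ) (x : ℝ) (ε : ℝ) (hε : 0 ≤ ε) (hx : 0 ≤ x)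
    (hJ : ∀ i, 0 ≤ J i) (hΓ : 0 ≤ Γ) (s t : Cf V) :
    NN p q J Γ x ε s t ≤ Real.exp (ε * Fintype.card V * x) * NN p q J Γ 0 ε s t := by
  have h0 := NN_nonneg p q J Γ 0 ε hε hJ hΓ s t
  have e1 : NN p q J Γ x ε s t = Real.exp (ε * x * (mg s + mg t) / 2) * NN p q J Γ 0 ε s t := by
    unfold NN
    have : ε * x * (mg s + mg t) / 2 = ε * x * mg s / 2 + ε * x * mg t / 2 := by ring
    rw [this, Real.exp_add]
    simp only [mul_zero, zero_mul, zero_div, Real.exp_zero, one_mul, mul_one]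
    ring
  rw [e1]
  refine mul_le_mul_of_nonneg_right (Real.exp_le_exp.2 ?_) h0
  have h1 := (abs_le.1 (mg_abs_le s)).2
  have h2 := (abs_le.1 (mg_abs_le t)).2
  have h3 : 0 ≤ ε * x := mul_nonneg hε hx
  nlinarith

theorem one_le_NN (p q : ι → V) (J : ι → ℝ) (Γ : ℝ) (x : ℝ) (ε : ℝ) (hε : 0 ≤ ε) (hx : 0 ≤ x)
    (hJ : ∀ i, 0 ≤ J i) : 1 ≤ NN p q J Γ x ε (fun _ => 0) (fun _ => 0) := by
  have hs : sgn 0 = 1 := by simp [sgn]
  have hm : mg (fun _ : V => (0 : Fin 2)) = Fintype.card V := by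
    unfold mg
    simp [hs]
  have e1 : NN p q J Γ x ε (fun _ => 0) (fun _ => 0) =
      (∏ i, (Real.cosh (ε * J i / 2) ^ 2 * (1 + Real.tanh (ε * J i / 2)) ^ 2)) *
        (Real.exp (ε * Γ) / 2 * (1 + Real.exp (-(2 * ε * Γ)))) ^ Fintype.card V *
        (Real.exp (ε * x * Fintype.card V / 2)) ^ 2 := by
    unfold NN cst stp
    rw [hm]
    simp only [hs, mul_one]
    rw [Finset.prod_mul_distrib, Finset.prod_const, Finset.card_univ, mul_pow,
      Finset.prod_pow (s := Finset.univ) (n := 2) (f := fun i => 1 + Real.tanh (ε * J i / 2))]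
    ring
  rw [e1]
  have h1 : 1 ≤ ∏ i, (Real.cosh (ε * J i / 2) ^ 2 * (1 + Real.tanh (ε * J i / 2)) ^ 2) := by
    refine le_trans (le_of_eq (Finset.prod_const_one (s := (Finset.univ : Finset ι))).symm)
      (Finset.prod_le_prod (fun _ _ => zero_le_one) fun i _ => ?_)
    have a1 : 1 ≤ Real.cosh (ε * J i / 2) := Real.one_le_cosh _
    have a2 : 0 ≤ Real.tanh (ε * J i / 2) := by
      rw [Real.tanh_eq_sinh_div_cosh]
      refine div_nonneg (Real.sinh_nonneg_iff.2 ?_) (Real.cosh_pos _).le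
      have := hJ i
      positivity
    have a3 : 1 ≤ Real.cosh (ε * J i / 2) ^ 2 := by nlinarith
    have a4 : 1 ≤ (1 + Real.tanh (ε * J i / 2)) ^ 2 := by nlinarith
    nlinarith
  have h2 : 1 ≤ Real.exp (ε * Γ) / 2 * (1 + Real.exp (-(2 * ε * Γ))) := by
    have : Real.exp (ε * Γ) / 2 * (1 + Real.exp (-(2 * ε * Γ))) = Real.cosh (ε * Γ) := by
      rw [Real.cosh_eq]
      have h3 : Real.exp (-(ε * Γ)) = Real.exp (ε * Γ) * Real.exp (-(2 * ε * Γ)) := by
        rw [← Real.exp_add]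
        congr 1
        ring
      rw [h3]
      ring
    rw [this]
    exact Real.one_le_cosh _
  have h3 : 1 ≤ Real.exp (ε * x * Fintype.card V / 2) := by
    exact Real.one_le_exp (by positivity)
  have h4 := one_le_pow₀ h2 (n := Fintype.card V)
  have h5 := one_le_pow₀ h3 (n := 2)
  exact one_le_mul_of_one_le_of_one_le (one_le_mul_of_one_le_of_one_le h1 h4) h5

theorem diff_pow (M : ℂ → MxC V) (h : ∀ s t, Differentiable ℂ (fun z => M z s t)) (m : ℕ) :
    ∀ s t, Differentiable ℂ (fun z => (M z ^ m) s t) := by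
  induction m with
  | zero =>
    intro s t
    simp only [pow_zero]
    exact differentiable_const _
  | succ m ih =>
    intro s t
    simp only [pow_succ, Matrix.mul_apply]
    exact Differentiable.fun_sum fun r _ => (ih s r).mul (h r t)

end TRN

open TRN

theorem trn (h1 : S_LYT) (h2 : S_CHERNC) (h3 : S_STPZ) : S_TRN := by
  intro V ι _ _ _ _ p q J Γ β hJ hΓ hβ
  have hε : ∀ n : ℕ, 0 < β / ((n + 1 : ℕ) : ℝ) := fun n => by positivity
  refine ⟨fun n z => (FF p q J Γ z (β / ((n + 1 : ℕ) : ℝ)) ^ (n + 1)).trace, ?_, ?_, ?_, ?_, ?_⟩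
  · intro n
    have hd : ∀ s t, Differentiable ℂ (fun z => FF p q J Γ z (β / ((n + 1 : ℕ) : ℝ)) s t) := by
      intro s t
      simp only [FF, stz, Matrix.smul_apply, smul_eq_mul]
      fun_prop
    have h := diff_pow _ hd (n + 1)
    unfold Matrix.trace
    exact Differentiable.fun_sum fun s _ => h s s
  · intro n z hz
    have e : (FF p q J Γ z (β / ((n + 1 : ℕ) : ℝ)) ^ (n + 1)).trace =
        ((cst V J Γ (β / ((n + 1 : ℕ) : ℝ)) : ℝ) : ℂ) ^ (n + 1) *
          (stz p q (fun i => Real.tanh (β / ((n + 1 : ℕ) : ℝ) * J i / 2))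
            (Real.exp (-(2 * (β / ((n + 1 : ℕ) : ℝ)) * Γ)))
            (((β / ((n + 1 : ℕ) : ℝ) : ℝ) : ℂ) * z) ^ (n + 1)).trace := by
      unfold FF
      rw [smul_pow, Matrix.trace_smul, smul_eq_mul]
    show (FF p q J Γ z (β / ((n + 1 : ℕ) : ℝ)) ^ (n + 1)).trace ≠ 0
    rw [e]
    refine mul_ne_zero (pow_ne_zero _ ?_) ?_
    · exact_mod_cast (cst_pos (V := V) J Γ _).ne'
    · refine h1 p q _ _ (n + 1) _ (fun i => ⟨?_, (Real.tanh_lt_one _).le⟩) (Real.exp_pos _).le ?_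
        (by omega) ?_
      · rw [Real.tanh_eq_sinh_div_cosh]
        refine div_nonneg (Real.sinh_nonneg_iff.2 ?_) (Real.cosh_pos _).le
        have := hJ i
        have := (hε n).le
        positivity
      · refine Real.exp_le_one_iff.2 ?_
        have : 0 ≤ 2 * (β / ((n + 1 : ℕ) : ℝ)) * Γ := by
          have := (hε n).le
          positivity
        linarith
      · rw [Complex.re_ofReal_mul]
        exact mul_pos (hε n) hz
  · intro n z hz
    have hb := pow_norm_le (M := FF p q J Γ z (β / ((n + 1 : ℕ) : ℝ)))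
      (N := NN p q J Γ 0 (β / ((n + 1 : ℕ) : ℝ)))
      (E := Real.exp (β / ((n + 1 : ℕ) : ℝ) * Fintype.card V * z.re)) (Real.exp_pos _).le
      (fun s t => NN_nonneg p q J Γ 0 _ (hε n).le hJ hΓ s t)
      (fun s t => by
        rw [norm_FF p q J Γ z _ (hε n).le hJ hΓ s t]
        exact NN_le p q J Γ z.re _ (hε n).le hz hJ hΓ s t) (n + 1)
    have e0 : (FF p q J Γ 0 (β / ((n + 1 : ℕ) : ℝ)) ^ (n + 1)).trace =
        (((NN p q J Γ 0 (β / ((n + 1 : ℕ) : ℝ)) ^ (n + 1)).trace : ℝ) : ℂ) := by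
      have := FF_real p q J Γ 0 (β / ((n + 1 : ℕ) : ℝ))
      rw [Complex.ofReal_zero] at this
      rw [this, map_pow', map_trace]
    show ‖(FF p q J Γ z (β / ((n + 1 : ℕ) : ℝ)) ^ (n + 1)).trace‖ ≤
      _ * ‖(FF p q J Γ 0 (β / ((n + 1 : ℕ) : ℝ)) ^ (n + 1)).trace‖
    rw [e0, Complex.norm_real, Real.norm_eq_abs]
    have eE : Real.exp (β / ((n + 1 : ℕ) : ℝ) * Fintype.card V * z.re) ^ (n + 1) =
        Real.exp (β * Fintype.card V * z.re) := by
      rw [← Real.exp_nat_mul]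
      congr 1
      have : ((n + 1 : ℕ) : ℝ) ≠ 0 := by positivity
      field_simp
    calc ‖(FF p q J Γ z (β / ((n + 1 : ℕ) : ℝ)) ^ (n + 1)).trace‖
        ≤ ∑ s, ‖(FF p q J Γ z (β / ((n + 1 : ℕ) : ℝ)) ^ (n + 1)) s s‖ := by
          unfold Matrix.trace
          exact norm_sum_le _ _
      _ ≤ ∑ s, Real.exp (β * Fintype.card V * z.re) *
          (NN p q J Γ 0 (β / ((n + 1 : ℕ) : ℝ)) ^ (n + 1)) s s := by
          refine Finset.sum_le_sum fun s _ => ?_
          rw [← eE]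
          exact hb s s
      _ = Real.exp (β * Fintype.card V * z.re) *
          (NN p q J Γ 0 (β / ((n + 1 : ℕ) : ℝ)) ^ (n + 1)).trace := by
          rw [← Finset.mul_sum]
          rfl
      _ ≤ _ := mul_le_mul_of_nonneg_left (le_abs_self _) (Real.exp_pos _).le
  · intro n x hx
    refine ⟨(NN p q J Γ x (β / ((n + 1 : ℕ) : ℝ)) ^ (n + 1)).trace, ?_, ?_⟩
    · refine le_trans ?_ (diag_pow_le_trace
        (fun s t => NN_nonneg p q J Γ x _ (hε n).le hJ hΓ s t) (fun _ => 0) (n + 1))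
      exact one_le_pow₀ (one_le_NN p q J Γ x _ (hε n).le hx hJ)
    · show (FF p q J Γ (x : ℂ) (β / ((n + 1 : ℕ) : ℝ)) ^ (n + 1)).trace = _
      rw [FF_real, map_pow', map_trace]
  · intro z
    obtain ⟨h30, h3d⟩ := h3 p q J Γ z
    have hlim := h2 (FF p q J Γ z) (hz p q J Γ z) β h30 h3d
    have hlim' := hlim.comp (tendsto_add_atTop_nat 1)
    have hcont : Continuous fun A : MxC V => A.trace := Continuous.matrix_trace continuous_id
    exact (hcont.tendsto _).comp hlim'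

end Pool.Agent.K6.H16.TF
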