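import Pool.Agent.K6.H16.TF.Final
import Pool.Agent.K6.H16.TF.ConclF
import Pool.Agent.K6.H16.TF.P_LYC
import Pool.Agent.K6.H16.TF.P_CHC
import Pool.Agent.K6.H16.TF.P_LYT
import Pool.Agent.K6.H16.TF.P_CHERNC
import Pool.Agent.K6.H16.TF.P_STPZ
import Pool.Agent.K6.H16.TF.P_TRN
import Pool.Agent.K6.H16.TF.P_HAR
import Pool.Agent.K6.H16.TF.P_LYQ
import Pool.Agent.K6.H16.TF.P_EXB
import Pool.Agent.K6.H16.TF.P_PLD
import Pool.Agent.K6.H16.TF.P_RBE
import Pool.Agent.K6.H16.TF.P_VKL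
import Pool.Agent.K6.H16.TF.P_TOP
import Pool.Agent.K6.H16.TF.P_SPF
import Pool.Agent.K6.H16.TF.P_BOXF

/-!
# Ferromagnetic transverse field Ising models with a longitudinal field: the pieces together
(seat helper16)
-/

set_option autoImplicit false

namespace Pool.Agent.K6.H16.TF.FinalF

theorem lyt : S_LYT := LYT.lyt LYC.lyc CHC.chc

theorem trn' : S_TRN := TF.trn lyt CHERNC.chernc STPZ.stpz

theorem lyq : S_LYQ := LYQ.lyq trn' HAR.har

theorem vkl : S_VKL := VKL.vkl lyq HAR.har EXB.exb PLD.pld RBE.rbe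

theorem top : S_TOP := TOP.top vkl

theorem spf : S_SPF := SPF.spf

theorem boxf : S_BOXF := BOXF.boxf

end Pool.Agent.K6.H16.TF.FinalF
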