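import Pool.Agent.K6.H16.TF.Stm

/-!
# Ferromagnetic transverse field Ising models: assembly (seat helper16)
-/

set_option autoImplicit false

open scoped BigOperators Matrix Topology
open Finset Filter Pool.Agent.TH981.LO
open Pool.Agent.TH235.PP Pool.Agent.Results.MP_953b23_mp.ThermalCriterion
open Pool.Agent.Results.MP_953b23_mp.OverlapBoosting

namespace Pool.Agent.K6.H16.TF.Main

section qi

variable {V : Type} [Fintype V] [DecidableEq V]

theorem tot_smul (c : ℝ) (M : Mx V) : tot (c • M) = c * tot M := by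
  unfold tot
  simp only [Matrix.smul_apply, smul_eq_mul, Finset.mul_sum]

/-- the inequality is homogeneous -/
theorem qi_smul {S : Mx V} (h : Qi S) {c : ℝ} (hc : 0 < c) : Qi (c • S) := by
  intro a b b' R m κ hma hmb haR hbb hbR hκ hyp
  have h1 : ∀ u v : V, tot (S ^ R * zz v * S ^ m * zz u * S ^ (R - m)) ≤ κ * tot (S ^ (2 * R)) := by
    intro u v
    have h2 := hyp u v
    have e1 : (c • S) ^ R * zz v * (c • S) ^ m * zz u * (c • S) ^ (R - m) =
        (c ^ (2 * R)) • (S ^ R * zz v * S ^ m * zz u * S ^ (R - m)) := by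
      simp only [smul_pow, Matrix.smul_mul, Matrix.mul_smul, smul_smul]
      congr 1
      rw [← pow_add, ← pow_add]
      congr 1
      omega
    rw [e1, tot_smul, smul_pow, tot_smul] at h2
    have h3 : 0 < c ^ (2 * R) := by positivity
    have h4 : c ^ (2 * R) * tot (S ^ R * zz v * S ^ m * zz u * S ^ (R - m)) ≤
        c ^ (2 * R) * (κ * tot (S ^ (2 * R))) := by linarith
    exact le_of_mul_le_mul_left h4 h3
  have h2 := h a b b' R m κ hma hmb haR hbb hbR hκ h1
  rw [smul_pow, smul_pow, smul_pow, tot_smul, tot_smul, Matrix.trace_smul, smul_eq_mul]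
  have h3 : 0 < c ^ (a + b + b') := by positivity
  calc c ^ (a + b) * (S ^ (a + b)).trace * (c ^ b' * tot (S ^ b'))
      = c ^ (a + b + b') * ((S ^ (a + b)).trace * tot (S ^ b')) := by rw [pow_add c (a + b) b']; ring
    _ ≤ c ^ (a + b + b') * (Real.exp (8 * (Fintype.card V : ℝ) ^ 4 * κ ^ 2) *
          tot (S ^ (a + b + b'))) := mul_le_mul_of_nonneg_left h2 h3.le
    _ = _ := by ring

end qi

/-- the bound on the partition function on a finite set of sites -/
theorem trace_bound (hQ : S_QSTP) (hP : S_POS) (hL : S_LIM) (hG : S_GAP2)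
    {V ι : Type} [Fintype V] [DecidableEq V] [Fintype ι] [DecidableEq ι] (p q : ι → V)
    (J : ι → ℝ) (Γ τ : ℝ) (hJ : ∀ i, 0 ≤ J i) (hΓ : 0 ≤ Γ) (hτ : 0 ≤ τ)
    (U : Mx V) (l : Cf V → ℝ) (j₀ : Cf V) (δ : ℝ) (hU : U * Uᵀ = 1)
    (hE : NormedSpace.exp (τ • hm p q J Γ) = U * Matrix.diagonal l * Uᵀ) (hl : 0 < l j₀)
    (hδ : 0 < δ) (hgap : ∀ j, j ≠ j₀ → 0 ≤ l j ∧ l j ≤ l j₀ * Real.exp (-δ)) :
    (NormedSpace.exp (τ • hm p q J Γ) ^ 4).trace ≤
      Real.exp (8 * (Fintype.card V : ℝ) ^ 4 * Real.exp (-(2 * δ))) * l j₀ ^ 4 := by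
  obtain ⟨x, y, c, hx, hy, hc, hlim, hpos, hfl⟩ := hP p q J Γ τ hJ hΓ hτ
  refine hG _ U l j₀ δ hU hE hl hδ hgap hpos hfl ?_
  exact hL _ _ (fun n => qi_smul (hQ p q (x n) (y n) (hx n) (hy n).1 (hy n).2) (hc n)) hlim

/-- the bound on the partition function on the torus -/
theorem partition_bound (hQ : S_QSTP) (hP : S_POS) (hL : S_LIM) (hG : S_GAP2) (hS : S_SPEC)
    (hB : S_BOX) {R : ℕ} (J : Fin R × Fin R → Fin R × Fin R → ℝ) (g : Fin R × Fin R → ℝ)
    (hJ : ∀ x y, 0 ≤ J x y) (hg : ∀ x, 0 ≤ g x) (L : ℕ) [NeZero L] (hRL : R ≤ L) (Δ : ℝ)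
    (hΔ : 0 < Δ) (ψ : (Site L → Fin 2) → ℂ) (hψ : normSq ψ = 1)
    (hgr : IsGappedGround (ham (tfi J g) L) Δ ψ) (hH : (ham (tfi J g) L).IsHermitian) (β : ℝ)
    (hβ : 0 < β) :
    partition hH (energy (ham (tfi J g) L) ψ) β ≤
      Real.exp (8 * (L : ℝ) ^ 8 * Real.exp (-(Δ * β / 2))) := by
  classical
  obtain ⟨hham, -⟩ := hB J g L hRL
  set M : Mx (Site L) := hm (V := Site L) (ι := Site L × (Fin R × Fin R) × (Fin R × Fin R))
      (fun i => sh i.1 i.2.1) (fun i => sh i.1 i.2.2) (fun i => J i.2.1 i.2.2)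
      (∑ x, g x) with hM
  have hsymm : M.IsSymm := by
    -- from the Hermitian property of the Hamiltonian
    ext s t
    have h1 := congrFun (congrFun hH s) t
    rw [hham] at h1
    simp only [Matrix.conjTranspose_apply, Matrix.map_apply, Matrix.neg_apply,
      RCLike.star_def, Complex.conj_ofReal] at h1
    have h2 : -M t s = -M s t := by exact_mod_cast h1
    rw [Matrix.transpose_apply]
    linarith
  obtain ⟨U, l, j₀, hU, hE, hl, hgap, hpart⟩ :=
    hS M (ham (tfi J g) L) Δ (β / 4) ψ hH hsymm hham hΔ (by positivity) hψ hgr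
  have h1 := trace_bound hQ hP hL hG (fun i : Site L × (Fin R × Fin R) × (Fin R × Fin R) =>
      sh i.1 i.2.1) (fun i => sh i.1 i.2.2) (fun i => J i.2.1 i.2.2) (∑ x, g x) (β / 4)
      (fun i => hJ _ _) (Finset.sum_nonneg fun x _ => hg x) (by positivity) U l j₀ (β / 4 * Δ) hU hE hl
      (by positivity) hgap
  have e4 : 4 * (β / 4) = β := by ring
  rw [e4] at hpart
  rw [← hM, ← hpart] at h1
  have hl4 : 0 < l j₀ ^ 4 := by positivity
  have h2 := le_of_mul_le_mul_right h1 hl4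
  refine h2.trans (le_of_eq ?_)
  congr 1
  have hcard : (Fintype.card (Site L) : ℝ) = (L : ℝ) ^ 2 := by
    rw [Fintype.card_prod, ZMod.card]
    push_cast
    ring
  rw [hcard, ← pow_mul]
  congr 2
  ring

end Pool.Agent.K6.H16.TF.Main
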