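import Pool.Agent.K6.H16.TF.Stm

set_option autoImplicit false

open scoped BigOperators Matrix Topology
open Finset Filter Pool.Agent.TH981.LO

namespace Pool.Agent.K6.H16.TF.LIM

open Pool.Agent.K6.H16.TF

theorem cont_tot {V : Type} [Fintype V] [DecidableEq V] : Continuous (fun M : Mx V => tot M) := by
  unfold tot
  exact continuous_finsetSum _ fun s _ => continuous_finsetSum _ fun t _ =>
    continuous_id.matrix_elem s t

theorem lim : S_LIM := by
  intro V _ _ T E hQ hT k K κ hk hK hkK hκ hlt
  have hpow : ∀ j : ℕ, Tendsto (fun n => T n ^ (j * n)) atTop (𝓝 (E ^ j)) := by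
    intro j
    have h1 : (fun n => T n ^ (j * n)) = fun n => (T n ^ n) ^ j := by
      funext n
      rw [← pow_mul, mul_comm]
    rw [h1]
    exact hT.pow j
  have htot : ∀ (A : ℕ → Mx V) (B : Mx V), Tendsto A atTop (𝓝 B) →
      Tendsto (fun n => tot (A n)) atTop (𝓝 (tot B)) := fun A B h =>
    (cont_tot.tendsto B).comp h
  have htr : Tendsto (fun n => (T n ^ (4 * n)).trace) atTop (𝓝 ((E ^ 4).trace)) := by
    have hc : Continuous (fun M : Mx V => M.trace) := Continuous.matrix_trace continuous_id
    exact (hc.tendsto _).comp (hpow 4)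
  -- the hypothesis holds eventually
  have hev : ∀ᶠ n : ℕ in atTop, ∀ u v : V,
      tot (T n ^ (K * n) * zz v * T n ^ n * zz u * T n ^ ((K - 1) * n)) ≤
        κ * tot (T n ^ (2 * K * n)) := by
    rw [eventually_all]
    intro u
    rw [eventually_all]
    intro v
    have h1 : Tendsto (fun n => tot (T n ^ (K * n) * zz v * T n ^ n * zz u * T n ^ ((K - 1) * n)))
        atTop (𝓝 (tot (E ^ K * zz v * E * zz u * E ^ (K - 1)))) := by
      refine htot _ _ ?_
      exact ((((hpow K).mul tendsto_const_nhds).mul hT).mul tendsto_const_nhds).mul (hpow (K - 1))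
    have h2 : Tendsto (fun n => κ * tot (T n ^ (2 * K * n))) atTop (𝓝 (κ * tot (E ^ (2 * K)))) :=
      (htot _ _ (hpow (2 * K))).const_mul κ
    exact (h1.eventually_lt h2 (hlt u v)).mono fun n hn => hn.le
  have hfin : ∀ᶠ n : ℕ in atTop, (T n ^ (4 * n)).trace * tot (T n ^ (k * n)) ≤
      Real.exp (8 * (Fintype.card V : ℝ) ^ 4 * κ ^ 2) * tot (T n ^ ((k + 4) * n)) := by
    filter_upwards [hev, eventually_ge_atTop 1] with n hn hn1
    have h := hQ n (2 * n) (2 * n) (k * n) (K * n) n κ (by omega) (by omega)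
      (by have := Nat.mul_le_mul_right n hK; omega) (Nat.mul_le_mul_right n hk)
      (Nat.mul_le_mul_right n hkK) hκ (fun u v => by
        have h1 := hn u v
        have e1 : K * n - n = (K - 1) * n := by
          rw [Nat.sub_mul, one_mul]
        have e2 : 2 * (K * n) = 2 * K * n := by ring
        rw [e1, e2]
        exact h1)
    have e3 : 2 * n + 2 * n = 4 * n := by ring
    have e4 : 2 * n + 2 * n + k * n = (k + 4) * n := by ring
    rw [e4, e3] at h
    exact h
  refine le_of_tendsto_of_tendsto (htr.mul (htot _ _ (hpow k)))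
    ((htot _ _ (hpow (k + 4))).const_mul _) hfin

end Pool.Agent.K6.H16.TF.LIM
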