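import Pool.Agent.K6.H16.TF.StmF

/-! Piece VKL of call16f (helper82). -/

set_option autoImplicit false

open scoped BigOperators Matrix Topology
open Finset Filter

namespace Pool.Agent.K6.H16.TF.VKL

open Pool.Agent.K6.H16.TF

/-- the logarithm of the partition function in the half plane -/
theorem one (h1 : S_LYQ) (h2 : S_HAR) (h3 : S_EXB) {V ι : Type} [Fintype V] [DecidableEq V]
    [Fintype ι] [DecidableEq ι] (p q : ι → V) (J : ι → ℝ) (Γ : ℝ) (hJ : ∀ i, 0 ≤ J i)
    (hΓ : 0 ≤ Γ) (β : ℝ) (hβ : 0 < β) : ∃ g : ℂ → ℂ, DifferentiableOn ℂ g {z | 0 < z.re} ∧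
      (∀ x : ℝ, 0 < x → g x = ((Real.log (fr p q J Γ β x) : ℝ) : ℂ)) ∧
      ∀ z, 0 < z.re → ‖g z‖ ≤
        2 * (Fintype.card V + β * cc V J Γ + β * Fintype.card V) * (1 + ‖z‖) ^ 2 / z.re := by
  obtain ⟨q1, q2, q3, q4, q5⟩ := h1 p q J Γ β hJ hΓ hβ
  have e0 := h3 p q J Γ β hJ hΓ hβ.le
  have hn0 : (0 : ℝ) ≤ Fintype.card V := Nat.cast_nonneg _
  have hc0 : 0 ≤ cc V J Γ := by
    unfold cc
    have := Finset.sum_nonneg (fun i (_ : i ∈ (univ : Finset ι)) => hJ i)
    positivity
  have hl0 : 0 ≤ Real.log 2 := Real.log_nonneg (by norm_num)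
  have hl1 : Real.log 2 ≤ 1 := by
    have := Real.log_le_sub_one_of_pos (show (0 : ℝ) < 2 by norm_num)
    linarith
  obtain ⟨g, g1, _, g3, g4⟩ := h2 (fz p q J Γ β) (Fintype.card V * Real.log 2 + β * cc V J Γ)
    (β * Fintype.card V) q1.differentiableOn q2 (by
      intro z hz
      refine (q3 z hz.le).trans ?_
      have h5 : Real.exp (Fintype.card V * Real.log 2) = 2 ^ Fintype.card V := by
        rw [Real.exp_nat_mul, Real.exp_log (by norm_num)]
      calc Real.exp (β * Fintype.card V * z.re) * ‖fz p q J Γ β 0‖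
          ≤ Real.exp (β * Fintype.card V * z.re) *
            (2 ^ Fintype.card V * Real.exp (β * cc V J Γ)) :=
            mul_le_mul_of_nonneg_left e0 (Real.exp_nonneg _)
        _ = _ := by
            rw [← h5, ← Real.exp_add, ← Real.exp_add]
            congr 1
            ring) (by
      intro x hx
      exact ⟨fr p q J Γ β x, lt_of_lt_of_le one_pos (q4 x hx.le), q5 x⟩)
  refine ⟨g, g1, ?_, ?_⟩
  · intro x hx
    rw [g3 x hx, q5, Complex.ofReal_re]
  · intro z hz
    have h6 := g4 z hz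
    have h7 : 0 ≤ Real.log (fz p q J Γ β 1).re := by
      have := q5 1
      rw [Complex.ofReal_one] at this
      rw [this, Complex.ofReal_re]
      exact Real.log_nonneg (q4 1 zero_le_one)
    set a : ℝ := Fintype.card V * Real.log 2 + β * cc V J Γ with ha
    set b : ℝ := β * Fintype.card V with hb
    have ha0 : 0 ≤ a := by rw [ha]; positivity
    have hb0 : 0 ≤ b := by rw [hb]; positivity
    have hz0 : 0 ≤ ‖z‖ := norm_nonneg z
    have hzr : z.re ≤ 1 + ‖z‖ := by
      have := Complex.re_le_norm z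
      linarith
    have h8 : ‖(1 : ℂ) + z‖ ≤ 1 + ‖z‖ := by
      have := norm_add_le (1 : ℂ) z
      rwa [norm_one] at this
    have h9 : ‖(a : ℂ) + b * z‖ ≤ (a + b) * (1 + ‖z‖) ^ 2 / z.re := by
      have e1 : ‖(a : ℂ) + b * z‖ ≤ a + b * ‖z‖ := by
        refine (norm_add_le _ _).trans ?_
        rw [norm_mul, Complex.norm_real, Complex.norm_real, Real.norm_of_nonneg ha0,
          Real.norm_of_nonneg hb0]
      have e2 : a + b * ‖z‖ ≤ (a + b) * (1 + ‖z‖) := by nlinarith
      have e3 : (a + b) * (1 + ‖z‖) ≤ (a + b) * (1 + ‖z‖) ^ 2 / z.re := by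
        rw [le_div_iff₀ hz]
        have : (a + b) * (1 + ‖z‖) * z.re ≤ (a + b) * (1 + ‖z‖) * (1 + ‖z‖) :=
          mul_le_mul_of_nonneg_left hzr (by positivity)
        calc (a + b) * (1 + ‖z‖) * z.re ≤ (a + b) * (1 + ‖z‖) * (1 + ‖z‖) := this
          _ = _ := by ring
      exact e1.trans (e2.trans e3)
    have h10 : (a + b - Real.log (fz p q J Γ β 1).re) * ‖1 + z‖ ^ 2 / z.re ≤
        (a + b) * (1 + ‖z‖) ^ 2 / z.re := by
      apply div_le_div_of_nonneg_right _ hz.le
      have e1 : ‖(1 : ℂ) + z‖ ^ 2 ≤ (1 + ‖z‖) ^ 2 := pow_le_pow_left₀ (norm_nonneg _) h8 2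
      calc (a + b - Real.log (fz p q J Γ β 1).re) * ‖1 + z‖ ^ 2
          ≤ (a + b) * ‖1 + z‖ ^ 2 :=
            mul_le_mul_of_nonneg_right (by linarith) (by positivity)
        _ ≤ _ := mul_le_mul_of_nonneg_left e1 (by positivity)
    have h11 : ‖g z‖ ≤ 2 * (a + b) * (1 + ‖z‖) ^ 2 / z.re := by
      have e1 : g z = ((a : ℂ) + b * z) - ((a : ℂ) + b * z - g z) := by ring
      rw [e1]
      refine (norm_sub_le _ _).trans ((add_le_add h9 (h6.trans h10)).trans (le_of_eq ?_))
      ring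
    refine h11.trans ?_
    apply div_le_div_of_nonneg_right _ hz.le
    apply mul_le_mul_of_nonneg_right _ (by positivity)
    have : (Fintype.card V : ℝ) * Real.log 2 ≤ Fintype.card V := by nlinarith
    rw [ha, hb]
    linarith

theorem vkl (h1 : S_LYQ) (h2 : S_HAR) (h3 : S_EXB) (h4 : S_PLD) (h5 : S_RBE) : S_VKL := by
  intro V ι _ _ _ _ p q J Γ β h η k hJ hΓ hβ hη hηh hk
  have hkR : (1 : ℝ) ≤ k := by exact_mod_cast hk
  have hk0 : (0 : ℝ) < k := by linarith
  have hkβ : 0 < (k : ℝ) * β := by positivity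
  have hn0 : (0 : ℝ) ≤ Fintype.card V := Nat.cast_nonneg _
  have hc0 : 0 ≤ cc V J Γ := by
    unfold cc
    have := Finset.sum_nonneg (fun i (_ : i ∈ (univ : Finset ι)) => hJ i)
    positivity
  obtain ⟨g, g1, g2, g3⟩ := one h1 h2 h3 p q J Γ hJ hΓ β hβ
  obtain ⟨g', g1', g2', g3'⟩ := one h1 h2 h3 p q J Γ hJ hΓ (k * β) hkβ
  have hval : ∀ x : ℝ, 0 < x → g x - g' x / k =
      ((Real.log (fr p q J Γ β x) - Real.log (fr p q J Γ (k * β) x) / k : ℝ) : ℂ) := by
    intro x hx
    rw [g2 x hx, g2' x hx]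
    push_cast
    ring
  have hmain := h4 (fun z => g z - g' z / k)
    (4 * (Fintype.card V + β * cc V J Γ + β * Fintype.card V)) (2 * β)
    (2 ^ Fintype.card V * Real.exp (2 * β * cc V J Γ)) η (g1.sub (g1'.div_const _))
    (by positivity) (by positivity) hη (by
      intro z hz
      have e1 := g3 z hz
      have e2 := g3' z hz
      have e3 : ‖g' z / (k : ℂ)‖ ≤
          2 * (Fintype.card V + β * cc V J Γ + β * Fintype.card V) * (1 + ‖z‖) ^ 2 / z.re := by
        rw [norm_div, Complex.norm_natCast, div_le_iff₀ hk0]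
        refine e2.trans ?_
        rw [div_mul_eq_mul_div]
        apply div_le_div_of_nonneg_right _ hz.le
        have e4 : 2 * ((Fintype.card V : ℝ) + k * β * cc V J Γ + k * β * Fintype.card V) ≤
            2 * (Fintype.card V + β * cc V J Γ + β * Fintype.card V) * k := by
          have : (Fintype.card V : ℝ) ≤ Fintype.card V * k := by nlinarith
          linarith
        calc 2 * ((Fintype.card V : ℝ) + k * β * cc V J Γ + k * β * Fintype.card V) *
              (1 + ‖z‖) ^ 2
            ≤ 2 * (Fintype.card V + β * cc V J Γ + β * Fintype.card V) * k * (1 + ‖z‖) ^ 2 :=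
              mul_le_mul_of_nonneg_right e4 (by positivity)
          _ = _ := by ring
      refine (norm_sub_le _ _).trans ((add_le_add e1 e3).trans (le_of_eq ?_))
      ring) (by
      intro x hx
      show ‖g x - g' x / k‖ ≤ _
      rw [hval x hx, Complex.norm_real]
      obtain ⟨r1, r2⟩ := h5 p q J Γ β x k hJ hΓ hβ hx hk
      rw [Real.norm_of_nonneg r1]
      refine r2.trans (le_of_eq ?_)
      rw [mul_assoc, ← Real.exp_add]
      congr 2
      ring) h hηh
  have hh : 0 < h := lt_of_lt_of_le hη hηh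
  have h6 : ‖g h - g' h / k‖ ≤ _ := hmain
  rw [hval h hh, Complex.norm_real] at h6
  refine (Real.le_norm_self _).trans (h6.trans (le_of_eq ?_))
  ring

end Pool.Agent.K6.H16.TF.VKL
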