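import Pool.Agent.K6.H16.TF.Defs
import Pool.Agent.Results.MP_953b23_mp.OverlapBoosting

/-!
# Ferromagnetic transverse field Ising models: statements of the pieces (seat helper16)

Every `S_...` is a proposition; each piece is one module proving one of them.
-/

set_option autoImplicit false

open scoped BigOperators Matrix Topology
open Finset Filter Pool.Agent.TH981.LO

namespace Pool.Agent.K6.H16.TF

/-- SPIN: high temperature expansion on a finite graph with general weights -/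
def S_SPIN : Prop :=
  ∀ {V E : Type} [Fintype V] [DecidableEq V] [DecidableEq E] (G : MG V E) (w : E → ℝ)
    (F : Finset E) (A : V → ZMod 2),
    ∑ σ : V → Fin 2, (∏ v, if A v = 1 then sgn (σ v) else 1) *
        ∏ e ∈ F, (1 + w e * (sgn (σ (G.s e)) * sgn (σ (G.t e)))) =
      2 ^ Fintype.card V * G.Z w F A

/-- CHAIN: sums over chains are matrix powers -/
def S_CHAIN : Prop :=
  ∀ {α : Type} [Fintype α] [DecidableEq α] (S : Matrix α α ℝ) (Φ : α → α → ℝ) (R a m : ℕ)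
    (hma : m ≤ a) (haR : a ≤ R),
    ∑ L : Fin (R + 1) → α, Φ (L 0) (L ⟨m, by omega⟩) *
        ∏ k : Fin R, (if (k : ℕ) < a then S (L k.castSucc) (L k.succ) else 1) =
      (Fintype.card α : ℝ) ^ (R - a) *
        ∑ s, ∑ t, ∑ r, Φ s t * (S ^ m) s t * (S ^ (a - m)) t r

/-- EVALW: the products over the edges, in terms of the slices -/
def S_EVALW : Prop :=
  ∀ {V ι : Type} [Fintype V] [DecidableEq V] [Fintype ι] [DecidableEq ι] (R : ℕ) (p q : ι → V)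
    (x : ι → ℝ) (y : ℝ) (a b a' b' : Fin (R + 1)) (σ : Gv V R → Fin 2),
    (∏ e ∈ win (V := V) (ι := ι) a' b', (1 + wt x y e *
        (sgn (σ ((gr p q a b).s e)) * sgn (σ ((gr p q a b).t e)))) =
      (∏ k : Fin R, (if (k : ℕ) < a' then stp p q x y (fun v => σ (v, false, k.castSucc))
          (fun v => σ (v, false, k.succ)) else 1)) *
        ∏ k : Fin R, (if (k : ℕ) < b' then stp p q x y (fun v => σ (v, true, k.castSucc))
          (fun v => σ (v, true, k.succ)) else 1)) ∧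
    (∏ e ∈ cts (V := V) (ι := ι) (R := R) univ, (1 + wt x y e *
        (sgn (σ ((gr p q a b).s e)) * sgn (σ ((gr p q a b).t e)))) =
      if (fun v => σ (v, false, (0 : Fin (R + 1)))) = (fun v => σ (v, true, (0 : Fin (R + 1))))
        then (2 : ℝ) ^ Fintype.card V else 0) ∧
    (∏ e ∈ frs (V := V) (ι := ι) (R := R) univ, (1 + wt x y e *
        (sgn (σ ((gr p q a b).s e)) * sgn (σ ((gr p q a b).t e)))) =
      if (fun v => σ (v, false, a)) = (fun v => σ (v, true, b))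
        then (2 : ℝ) ^ Fintype.card V else 0) ∧
    Disjoint (win (V := V) (ι := ι) a' b') (cts univ) ∧
    Disjoint (win (V := V) (ι := ι) a' b') (frs univ) ∧
    Disjoint (frs (V := V) (ι := ι) (R := R) univ) (cts univ)

/-- REORG: a sum over the configurations of the space-time graph is a sum over pairs of chains -/
def S_REORG : Prop :=
  ∀ {V : Type} [Fintype V] [DecidableEq V] (R : ℕ)
    (f : (Fin (R + 1) → Cf V) → (Fin (R + 1) → Cf V) → ℝ),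
    ∑ σ : Gv V R → Fin 2, f (fun k v => σ (v, false, k)) (fun k v => σ (v, true, k)) =
      ∑ L : Fin (R + 1) → Cf V, ∑ L' : Fin (R + 1) → Cf V, f L L'

/-- EVAL: the partition functions and the correlations in terms of matrices -/
def S_EVAL : Prop :=
  ∀ {V ι : Type} [Fintype V] [DecidableEq V] [Fintype ι] [DecidableEq ι] (R : ℕ) (p q : ι → V)
    (x : ι → ℝ) (y : ℝ) (a b a' b' : Fin (R + 1)),
    (2 ^ Fintype.card (Gv V R) * (gr p q a b).Z (wt x y) (win a b ∪ frs univ ∪ cts univ) 0 =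
      ((2 : ℝ) ^ Fintype.card V) ^ (2 * R - a - b + 2) * (stp p q x y ^ ((a : ℕ) + b)).trace) ∧
    (2 ^ Fintype.card (Gv V R) * (gr p q a b).Z (wt x y) (win a b ∪ frs univ) 0 =
      ((2 : ℝ) ^ Fintype.card V) ^ (2 * R - a - b + 1) * tot (stp p q x y ^ ((a : ℕ) + b))) ∧
    (2 ^ Fintype.card (Gv V R) * (gr p q a b).Z (wt x y) (win a' b' ∪ cts univ) 0 =
      ((2 : ℝ) ^ Fintype.card V) ^ (2 * R - a' - b' + 1) *
        tot (stp p q x y ^ ((a' : ℕ) + b'))) ∧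
    (2 ^ Fintype.card (Gv V R) * (gr p q a b).Z (wt x y) (win a' b') 0 =
      ((2 : ℝ) ^ Fintype.card V) ^ (2 * R - a' - b') *
        (tot (stp p q x y ^ (a' : ℕ)) * tot (stp p q x y ^ (b' : ℕ)))) ∧
    ∀ (u v : V) (i j : Bool) (m : Fin (R + 1)),
      2 ^ Fintype.card (Gv V R) *
        (gr p q a b).Z (wt x y) (win (Fin.last R) (Fin.last R) ∪ cts univ)
          (two (v, i, (0 : Fin (R + 1))) (u, j, m)) =
      (2 : ℝ) ^ Fintype.card V *
        tot (stp p q x y ^ R * zz v * stp p q x y ^ (m : ℕ) * zz u * stp p q x y ^ (R - m))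

/-- LEB: Lebowitz' inequality -/
def S_LEB : Prop :=
  ∀ {V E : Type} [DecidableEq V] [DecidableEq E] (G : MG V E) (w : E → ℝ) (F : Finset E)
    (x y u v : V), (∀ e ∈ F, 0 ≤ w e) → (∀ e ∈ F, w e ≤ 1) →
    G.corr w F (two x y + two u v) - G.corr w F (two x y) * G.corr w F (two u v) ≤
      G.corr w F (two x u) * G.corr w F (two y v) + G.corr w F (two x v) * G.corr w F (two y u)

/-- DEC: the far edges change the correlations near the cut only little -/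
def S_DECP : Prop :=
  ∀ {V ι : Type} [Fintype V] [DecidableEq V] [Fintype ι] [DecidableEq ι] (R : ℕ) (p q : ι → V)
    (x : ι → ℝ) (y : ℝ) (a b a' b' m : Fin (R + 1)) (κ : ℝ) (C : Finset V) (v₀ : V),
    (∀ i, 0 ≤ x i ∧ x i ≤ 1) → 0 ≤ y → y ≤ 1 → m < a → m < b → a ≤ a' → b ≤ b' → 0 ≤ κ →
    (∀ (u v : V) (i j : Bool),
      (gr p q a b).corr (wt x y) (win (Fin.last R) (Fin.last R) ∪ cts univ)
        (two (v, i, (0 : Fin (R + 1))) (u, j, m)) ≤ κ) →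
    (gr p q a b).corr (wt x y) (win a b ∪ frs univ ∪ cts C)
        (two (v₀, false, (0 : Fin (R + 1))) (v₀, true, 0)) ≤
      (gr p q a b).corr (wt x y) (win a' b' ∪ cts C)
        (two (v₀, false, (0 : Fin (R + 1))) (v₀, true, 0)) +
      8 * (Fintype.card V : ℝ) ^ 3 * κ ^ 2

/-- TEL: telescoping over the cut edges -/
def S_TEL : Prop :=
  ∀ {V ι : Type} [Fintype V] [DecidableEq V] [Fintype ι] [DecidableEq ι] (R : ℕ) (p q : ι → V)
    (x : ι → ℝ) (y : ℝ) (a b a' b' : Fin (R + 1)) (δ : ℝ),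
    (∀ i, 0 ≤ x i ∧ x i ≤ 1) → 0 ≤ y → y ≤ 1 → 0 ≤ δ →
    (∀ (C : Finset V) (v₀ : V), v₀ ∉ C →
      (gr p q a b).corr (wt x y) (win a b ∪ frs univ ∪ cts C)
          (two (v₀, false, (0 : Fin (R + 1))) (v₀, true, 0)) ≤
        (gr p q a b).corr (wt x y) (win a' b' ∪ cts C)
          (two (v₀, false, (0 : Fin (R + 1))) (v₀, true, 0)) + δ) →
    (gr p q a b).Z (wt x y) (win a b ∪ frs univ ∪ cts univ) 0 *
        (gr p q a b).Z (wt x y) (win a' b') 0 ≤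
      Real.exp (Fintype.card V * δ) *
        ((gr p q a b).Z (wt x y) (win a b ∪ frs univ) 0 *
          (gr p q a b).Z (wt x y) (win a' b' ∪ cts univ) 0)

/-- QSTP: the step matrices satisfy the inequality `Qi` -/
def S_QSTP : Prop :=
  ∀ {V ι : Type} [Fintype V] [DecidableEq V] [Fintype ι] [DecidableEq ι] (p q : ι → V)
    (x : ι → ℝ) (y : ℝ), (∀ i, 0 ≤ x i ∧ x i ≤ 1) → 0 ≤ y → y ≤ 1 → Qi (stp p q x y)

/-- CHERNOFF: powers of matrices close to one -/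
def S_CHERN : Prop :=
  ∀ {α : Type} [Fintype α] [DecidableEq α] (F : ℝ → Matrix α α ℝ) (X : Matrix α α ℝ) (τ : ℝ),
    F 0 = 1 → (∀ s t, HasDerivAt (fun ε => F ε s t) (X s t) 0) →
    Tendsto (fun n : ℕ => F (τ / n) ^ n) atTop (𝓝 (NormedSpace.exp (τ • X)))

/-- STPD: the normalised step matrix and its derivative at `ε = 0`; here
`x = tanh (ε J / 2)`, `y = exp (-2 ε Γ)` -/
def S_STPD : Prop :=
  ∀ {V ι : Type} [Fintype V] [DecidableEq V] [Fintype ι] [DecidableEq ι] (p q : ι → V)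
    (J : ι → ℝ) (Γ : ℝ),
    ((∏ i, Real.cosh (0 * J i / 2) ^ 2) * (Real.exp (0 * Γ) / 2) ^ Fintype.card V) •
        stp p q (fun i => Real.tanh (0 * J i / 2)) (Real.exp (-(2 * 0 * Γ))) = 1 ∧
    ∀ s t : Cf V, HasDerivAt (fun ε : ℝ =>
      (((∏ i, Real.cosh (ε * J i / 2) ^ 2) * (Real.exp (ε * Γ) / 2) ^ Fintype.card V) •
        stp p q (fun i => Real.tanh (ε * J i / 2)) (Real.exp (-(2 * ε * Γ)))) s t)
      (hm p q J Γ s t) 0

/-- LIM: passage to the limit -/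
def S_LIM : Prop :=
  ∀ {V : Type} [Fintype V] [DecidableEq V] (T : ℕ → Mx V) (E : Mx V),
    (∀ n, Qi (T n)) → Tendsto (fun n => T n ^ n) atTop (𝓝 E) →
    ∀ (k K : ℕ) (κ : ℝ), 2 ≤ k → 4 ≤ K → k ≤ K → 0 ≤ κ →
      (∀ u v : V, tot (E ^ K * zz v * E * zz u * E ^ (K - 1)) < κ * tot (E ^ (2 * K))) →
      (E ^ 4).trace * tot (E ^ k) ≤
        Real.exp (8 * (Fintype.card V : ℝ) ^ 4 * κ ^ 2) * tot (E ^ (k + 4))

/-- POS: the exponential is a limit of powers of positive multiples of step matrices; it has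
nonnegative entries, and it commutes with the global spin flip -/
def S_POS : Prop :=
  ∀ {V ι : Type} [Fintype V] [DecidableEq V] [Fintype ι] [DecidableEq ι] (p q : ι → V)
    (J : ι → ℝ) (Γ τ : ℝ), (∀ i, 0 ≤ J i) → 0 ≤ Γ → 0 ≤ τ →
    ∃ (x : ℕ → ι → ℝ) (y c : ℕ → ℝ), (∀ n i, 0 ≤ x n i ∧ x n i ≤ 1) ∧
      (∀ n, 0 ≤ y n ∧ y n ≤ 1) ∧ (∀ n, 0 < c n) ∧
      Tendsto (fun n : ℕ => (c n • stp p q (x n) (y n)) ^ n) atTop
        (𝓝 (NormedSpace.exp (τ • hm p q J Γ))) ∧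
      (∀ s t, 0 ≤ NormedSpace.exp (τ • hm p q J Γ) s t) ∧
      ∀ s t, NormedSpace.exp (τ • hm p q J Γ) (gfl s) (gfl t) =
        NormedSpace.exp (τ • hm p q J Γ) s t

/-- GAP1: asymptotics of the powers of a matrix with a spectral gap -/
def S_GAP1 : Prop :=
  ∀ {α : Type} [Fintype α] [DecidableEq α] (E U : Matrix α α ℝ) (l : α → ℝ) (j₀ : α) (δ : ℝ),
    U * Uᵀ = 1 → E = U * Matrix.diagonal l * Uᵀ → 0 < l j₀ → 0 < δ →
    (∀ j, j ≠ j₀ → 0 ≤ l j ∧ l j ≤ l j₀ * Real.exp (-δ)) →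
    Tendsto (fun k : ℕ => (l j₀ ^ k)⁻¹ • E ^ k) atTop (𝓝 (Matrix.of fun s t => U s j₀ * U t j₀)) ∧
    (∑ s, U s j₀ ^ 2 = 1) ∧ (E *ᵥ (fun s => U s j₀) = l j₀ • fun s => U s j₀) ∧
    (∀ f : α → ℝ, E *ᵥ f = l j₀ • f → ∃ c : ℝ, f = c • fun s => U s j₀) ∧
    (∀ k : ℕ, l j₀ ^ k ≤ (E ^ k).trace) ∧
    ∀ f g : α → ℝ, ∑ s, f s * U s j₀ = 0 → ∑ s, f s ^ 2 ≤ 1 → ∑ s, g s ^ 2 ≤ 1 →
      g ⬝ᵥ (E *ᵥ f) ≤ l j₀ * Real.exp (-δ)

/-- GAP2: the consequence of the inequality for the trace of `E ^ 4` -/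
def S_GAP2 : Prop :=
  ∀ {V : Type} [Fintype V] [DecidableEq V] (E U : Mx V) (l : Cf V → ℝ) (j₀ : Cf V) (δ : ℝ),
    U * Uᵀ = 1 → E = U * Matrix.diagonal l * Uᵀ → 0 < l j₀ → 0 < δ →
    (∀ j, j ≠ j₀ → 0 ≤ l j ∧ l j ≤ l j₀ * Real.exp (-δ)) →
    (∀ s t, 0 ≤ E s t) → (∀ s t, E (gfl s) (gfl t) = E s t) →
    (∀ (k K : ℕ) (κ : ℝ), 2 ≤ k → 4 ≤ K → k ≤ K → 0 ≤ κ →
      (∀ u v : V, tot (E ^ K * zz v * E * zz u * E ^ (K - 1)) < κ * tot (E ^ (2 * K))) →
      (E ^ 4).trace * tot (E ^ k) ≤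
        Real.exp (8 * (Fintype.card V : ℝ) ^ 4 * κ ^ 2) * tot (E ^ (k + 4))) →
    (E ^ 4).trace ≤
      Real.exp (8 * (Fintype.card V : ℝ) ^ 4 * Real.exp (-(2 * δ))) * l j₀ ^ 4

open Pool.Agent.TH235.PP Pool.Agent.Results.MP_953b23_mp.ThermalCriterion in
/-- SPEC: spectral decomposition of the exponential of a real symmetric matrix whose negative is
gapped -/
def S_SPEC : Prop :=
  ∀ {n : Type} [Fintype n] [DecidableEq n] (M : Matrix n n ℝ) (H : Matrix n n ℂ) (Δ τ : ℝ)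
    (ψ : n → ℂ) (hH : H.IsHermitian), M.IsSymm → H = (-M).map (fun r : ℝ => (r : ℂ)) →
    0 < Δ → 0 < τ → normSq ψ = 1 → IsGappedGround H Δ ψ →
    ∃ (U : Matrix n n ℝ) (l : n → ℝ) (j₀ : n), U * Uᵀ = 1 ∧
      NormedSpace.exp (τ • M) = U * Matrix.diagonal l * Uᵀ ∧ 0 < l j₀ ∧
      (∀ j, j ≠ j₀ → 0 ≤ l j ∧ l j ≤ l j₀ * Real.exp (-(τ * Δ))) ∧
      partition hH (energy H ψ) (4 * τ) * l j₀ ^ 4 = (NormedSpace.exp (τ • M) ^ 4).trace

open Pool.Agent.TH235.PP in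
/-- BOX: the Hamiltonian on the torus -/
def S_BOX : Prop :=
  ∀ {R : ℕ} (J : Fin R × Fin R → Fin R × Fin R → ℝ) (g : Fin R × Fin R → ℝ) (L : ℕ) [NeZero L],
    R ≤ L →
    ham (tfi J g) L = (-(hm (V := Site L) (ι := Site L × (Fin R × Fin R) × (Fin R × Fin R))
      (fun i => sh i.1 i.2.1) (fun i => sh i.1 i.2.2) (fun i => J i.2.1 i.2.2)
      (∑ x, g x))).map (fun r : ℝ => (r : ℂ)) ∧ (tfi J g).IsHermitian

end Pool.Agent.K6.H16.TF
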